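import Mathlib
import Pool.Agent.TH242.MK.BorelFin

/-!
# Borel's theorem with coefficients of small order
-/

set_option autoImplicit false

namespace Pool.Agent.V8H29.EN

open Pool.Agent.TH242.MK (borel Tm Far)

/-- `f` is an entire function of order less than `ρ` -/
def OrdLt (ρ : ℕ) (f : ℂ → ℂ) : Prop :=
  Differentiable ℂ f ∧ ∃ σ A : ℝ, 0 ≤ σ ∧ σ < ρ ∧ ∀ z, ‖f z‖ ≤ Real.exp (A * (1 + ‖z‖) ^ σ)

/-- `g` is a polynomial function of degree less than `ρ` -/
def PolyLt (ρ : ℕ) (g : ℂ → ℂ) : Prop :=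
  ∃ p : Polynomial ℂ, p.natDegree < ρ ∧ ∀ z, g z = p.eval z

lemma OrdLt.pos {ρ : ℕ} {f : ℂ → ℂ} (hf : OrdLt ρ f) : ∃ σ A : ℝ, 0 ≤ σ ∧ σ < ρ ∧ 0 ≤ A ∧
    ∀ z, ‖f z‖ ≤ Real.exp (A * (1 + ‖z‖) ^ σ) := by
  obtain ⟨-, σ, A, h0, h1, h2⟩ := hf
  refine ⟨σ, |A|, h0, h1, abs_nonneg _, fun z => (h2 z).trans ?_⟩
  apply Real.exp_le_exp.2
  have h3 : (0 : ℝ) ≤ (1 + ‖z‖) ^ σ := by positivity
  have := le_abs_self A
  gcongr

/-- a common exponent -/
lemma OrdLt.bound {f : ℂ → ℂ} {σ A σ' A' : ℝ} (hA : 0 ≤ A) (hσ : σ ≤ σ') (hAA : A ≤ A')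
    (h : ∀ z : ℂ, ‖f z‖ ≤ Real.exp (A * (1 + ‖z‖) ^ σ)) (z : ℂ) :
    ‖f z‖ ≤ Real.exp (A' * (1 + ‖z‖) ^ σ') := by
  refine (h z).trans ?_
  apply Real.exp_le_exp.2
  have h1 : (1 : ℝ) ≤ 1 + ‖z‖ := by
    have := norm_nonneg z
    linarith
  have h2 : (1 + ‖z‖) ^ σ ≤ (1 + ‖z‖) ^ σ' := Real.rpow_le_rpow_of_exponent_le h1 hσ
  have h3 : (0 : ℝ) ≤ (1 + ‖z‖) ^ σ := by positivity
  calc A * (1 + ‖z‖) ^ σ ≤ A' * (1 + ‖z‖) ^ σ := by gcongr
    _ ≤ A' * (1 + ‖z‖) ^ σ' := by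
        have : 0 ≤ A' := hA.trans hAA
        gcongr

lemma ordLt_mul {ρ : ℕ} {f g : ℂ → ℂ} (hf : OrdLt ρ f) (hg : OrdLt ρ g) : OrdLt ρ (f * g) := by
  obtain ⟨σ, A, h0, h1, hA, h2⟩ := hf.pos
  obtain ⟨σ', A', h0', h1', hA', h2'⟩ := hg.pos
  refine ⟨hf.1.mul hg.1, max σ σ', A + A', h0.trans (le_max_left _ _), max_lt h1 h1',
    fun z => ?_⟩
  rw [Pi.mul_apply, norm_mul, add_mul, Real.exp_add]
  have e1 := OrdLt.bound hA (le_max_left σ σ') le_rfl h2 z
  have e2 := OrdLt.bound hA' (le_max_right σ σ') le_rfl h2' z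
  gcongr

lemma ordLt_add {ρ : ℕ} {f g : ℂ → ℂ} (hf : OrdLt ρ f) (hg : OrdLt ρ g) : OrdLt ρ (f + g) := by
  obtain ⟨σ, A, h0, h1, hA, h2⟩ := hf.pos
  obtain ⟨σ', A', h0', h1', hA', h2'⟩ := hg.pos
  refine ⟨hf.1.add hg.1, max σ σ', A + A' + 1, h0.trans (le_max_left _ _), max_lt h1 h1',
    fun z => ?_⟩
  have e1 := OrdLt.bound hA (le_max_left σ σ') (le_add_of_nonneg_right hA') h2 z
  have e2 := OrdLt.bound hA' (le_max_right σ σ') (le_add_of_nonneg_left hA) h2' z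
  have h3 : (1 : ℝ) ≤ (1 + ‖z‖) ^ max σ σ' := by
    apply Real.one_le_rpow
    · have := norm_nonneg z
      linarith
    · exact h0.trans (le_max_left _ _)
  have h4 : (2 : ℝ) ≤ Real.exp ((1 + ‖z‖) ^ max σ σ') := by
    have := Real.add_one_le_exp ((1 + ‖z‖) ^ max σ σ')
    linarith
  rw [Pi.add_apply]
  refine (norm_add_le _ _).trans ?_
  rw [add_mul (A + A') 1, Real.exp_add, one_mul]
  have h5 := Real.exp_pos ((A + A') * (1 + ‖z‖) ^ max σ σ')
  nlinarith

lemma ordLt_const {ρ : ℕ} (hρ : 0 < ρ) (c : ℂ) : OrdLt ρ (fun _ => c) := by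
  refine ⟨differentiable_const c, 0, ‖c‖, le_rfl, by exact_mod_cast hρ, fun z => ?_⟩
  rw [Real.rpow_zero, mul_one]
  have := Real.add_one_le_exp ‖c‖
  linarith

lemma ordLt_neg {ρ : ℕ} {f : ℂ → ℂ} (hf : OrdLt ρ f) : OrdLt ρ (-f) := by
  obtain ⟨hd, σ, A, h0, h1, h2⟩ := hf
  exact ⟨hd.neg, σ, A, h0, h1, fun z => by simpa using h2 z⟩

/-- the ring of the entire functions of order less than `ρ` -/
def ordRing (ρ : ℕ) (hρ : 0 < ρ) : Subalgebra ℂ (ℂ → ℂ) where
  carrier := {f | OrdLt ρ f}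
  mul_mem' := ordLt_mul
  add_mem' := ordLt_add
  algebraMap_mem' c := ordLt_const hρ c

lemma norm_eval_le (p : Polynomial ℂ) : ∃ A : ℝ, 0 ≤ A ∧ ∀ z : ℂ,
    ‖p.eval z‖ ≤ A * (1 + ‖z‖) ^ p.natDegree := by
  refine ⟨∑ i ∈ Finset.range (p.natDegree + 1), ‖p.coeff i‖,
    Finset.sum_nonneg fun _ _ => norm_nonneg _, fun z => ?_⟩
  rw [Polynomial.eval_eq_sum_range, Finset.sum_mul]
  refine (norm_sum_le _ _).trans (Finset.sum_le_sum fun i hi => ?_)
  rw [norm_mul, norm_pow]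
  have h1 : (1 : ℝ) ≤ 1 + ‖z‖ := by
    have := norm_nonneg z
    linarith
  have h2 : ‖z‖ ^ i ≤ (1 + ‖z‖) ^ i := by
    apply pow_le_pow_left₀ (norm_nonneg z)
    linarith
  have h3 : (1 + ‖z‖) ^ i ≤ (1 + ‖z‖) ^ p.natDegree :=
    pow_le_pow_right₀ h1 (Nat.lt_succ_iff.1 (Finset.mem_range.1 hi))
  have h4 := norm_nonneg (p.coeff i)
  gcongr
  exact h2.trans h3

lemma ordLt_exp {ρ : ℕ} {g : ℂ → ℂ} (hg : PolyLt ρ g) : OrdLt ρ (fun z => Complex.exp (g z)) := by
  obtain ⟨p, hp, hgp⟩ := hg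
  obtain ⟨A, hA, hb⟩ := norm_eval_le p
  refine ⟨?_, p.natDegree, A, Nat.cast_nonneg _, by exact_mod_cast hp, fun z => ?_⟩
  · have h1 : g = fun z => p.eval z := funext hgp
    rw [h1]
    exact p.differentiable.cexp
  · rw [Complex.norm_exp, hgp, Real.rpow_natCast]
    apply Real.exp_le_exp.2
    exact (Complex.re_le_norm _).trans (hb z)

lemma ordLt_poly {ρ : ℕ} (hρ : 0 < ρ) (p : Polynomial ℂ) : OrdLt ρ (fun z => p.eval z) := by
  have hX : OrdLt ρ (fun z => z) := by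
    refine ⟨differentiable_id, 1 / 2, 2, by norm_num, ?_, fun z => ?_⟩
    · have : (1 : ℝ) ≤ ρ := by exact_mod_cast hρ
      linarith
    · set x : ℝ := (1 + ‖z‖) ^ (1 / 2 : ℝ) with hx
      have hx0 : 0 ≤ x := by positivity
      have hx2 : x ^ 2 = 1 + ‖z‖ := by
        rw [hx, ← Real.rpow_natCast, ← Real.rpow_mul (by positivity)]
        norm_num
      have h1 := Real.add_one_le_exp x
      have h2 : Real.exp (2 * x) = Real.exp x ^ 2 := by
        rw [← Real.exp_nat_mul]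
        norm_num
      rw [h2]
      nlinarith [norm_nonneg z]
  have h1 : ∀ q : Polynomial ℂ, (fun z : ℂ => q.eval z) ∈ ordRing ρ hρ := by
    intro q
    induction q using Polynomial.induction_on' with
    | add p q hp hq =>
      have h2 : (fun z : ℂ => (p + q).eval z) = (fun z => p.eval z) + fun z => q.eval z := by
        funext z
        simp
      rw [h2]
      exact add_mem hp hq
    | monomial m c =>
      have h2 : (fun z : ℂ => (Polynomial.monomial m c).eval z) =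
          (fun _ => c) * (fun z => z) ^ m := by
        funext z
        simp
      rw [h2]
      exact mul_mem (ordLt_const hρ c) (pow_mem (show (fun z : ℂ => z) ∈ ordRing ρ hρ from hX) m)
  exact h1 p

/-- **Growth of the entire functions which are not polynomials of small degree.** -/
theorem growth_low {ρ : ℕ} {h : ℂ → ℂ} (hd : Differentiable ℂ h) (hp : ¬ PolyLt ρ h) (hρ : 0 < ρ)
    {R0 : ℝ} (hR0 : 0 < R0) : ∃ c : ℝ, 0 < c ∧ ∀ R : ℝ, R0 ≤ R → ∃ z : ℂ, ‖z‖ = R ∧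
      c * R ^ ρ ≤ ‖h z‖ := by
  obtain ⟨m, hm, hm0⟩ : ∃ m, ρ ≤ m ∧ iteratedDeriv m h 0 ≠ 0 := by
    by_contra hcon
    push Not at hcon
    apply hp
    refine ⟨∑ m ∈ Finset.range ρ, Polynomial.monomial m ((m.factorial : ℂ)⁻¹ *
      iteratedDeriv m h 0), ?_, fun z => ?_⟩
    · refine lt_of_le_of_lt (Polynomial.natDegree_sum_le_of_forall_le (n := ρ - 1) _ _
        fun m hm => ?_) (by omega)
      refine (Polynomial.natDegree_monomial_le _).trans ?_
      have := Finset.mem_range.1 hm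
      omega
    · have h1 := Complex.hasSum_taylorSeries_of_entire hd 0 z
      have h2 := hasSum_sum_of_ne_finset_zero (s := Finset.range ρ)
        (f := fun n : ℕ => ((n.factorial : ℂ)⁻¹ * (z - 0) ^ n) • iteratedDeriv n h 0)
        (L := SummationFilter.unconditional ℕ) (by
          intro b hb
          have := hcon b (by
            by_contra hlt
            exact hb (Finset.mem_range.2 (not_le.1 hlt)))
          rw [this, smul_zero])
      have h3 : HasSum (fun n : ℕ => ((n.factorial : ℂ)⁻¹ * (z - 0) ^ n) • iteratedDeriv n h 0)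
          (h z) := by
        have h4 : (fun n : ℕ => ((n.factorial : ℂ)⁻¹ * (z - 0) ^ n) • iteratedDeriv n h 0) =
            fun n : ℕ => (n.factorial : ℂ)⁻¹ • (z - 0) ^ n • iteratedDeriv n h 0 := by
          funext n
          rw [mul_smul]
        rw [h4]
        exact h1
      rw [h3.unique h2, Polynomial.eval_finsetSum]
      refine Finset.sum_congr rfl fun m _ => ?_
      rw [Polynomial.eval_monomial, smul_eq_mul, sub_zero]
      ring
  set D : ℝ := ‖iteratedDeriv m h 0‖ with hD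
  have hD0 : 0 < D := norm_pos_iff.2 hm0
  have hf0 : (0 : ℝ) < m.factorial := by exact_mod_cast m.factorial_pos
  refine ⟨D * R0 ^ (m - ρ) / (2 * m.factorial), by positivity, fun R hR => ?_⟩
  by_contra hcon
  push Not at hcon
  have hR00 : 0 < R := hR0.trans_le hR
  set c : ℝ := D * R0 ^ (m - ρ) / (2 * m.factorial) with hc
  have h1 := Complex.norm_iteratedDeriv_le_of_forall_mem_sphere_norm_le (n := m) (c := 0)
    (C := c * R ^ ρ) hR00 (hd.diffContOnCl (s := Metric.ball 0 R)) (fun z hz => by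
      have h2 : ‖z‖ = R := by simpa using hz
      exact (hcon z h2).le)
  have h2 : R ^ m = R ^ ρ * R ^ (m - ρ) := by
    rw [← pow_add]
    congr 1
    omega
  have h3 : R0 ^ (m - ρ) ≤ R ^ (m - ρ) := pow_le_pow_left₀ hR0.le hR _
  have h4 : (m.factorial : ℝ) * (c * R ^ ρ) / R ^ m = D / 2 * (R0 ^ (m - ρ) / R ^ (m - ρ)) := by
    rw [hc, h2]
    field_simp
  have h5 : R0 ^ (m - ρ) / R ^ (m - ρ) ≤ 1 := (div_le_one (by positivity)).2 h3
  have h6 : ‖iteratedDeriv m h 0‖ ≤ D / 2 * (R0 ^ (m - ρ) / R ^ (m - ρ)) := by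
    rw [← h4]
    exact h1
  rw [← hD] at h6
  nlinarith

lemma exp_surj {ρ : ℕ} (hρ : 0 < ρ) {z : ℂ} (hz : z ≠ 0) :
    ∃ w : ℂ, Complex.exp (w / ρ) = z ∧ ‖w‖ ≤ ρ * (|Real.log ‖z‖| + Real.pi) := by
  have hρ' : (ρ : ℂ) ≠ 0 := by exact_mod_cast hρ.ne'
  refine ⟨ρ * Complex.log z, ?_, ?_⟩
  · rw [mul_div_cancel_left₀ _ hρ', Complex.exp_log hz]
  · rw [norm_mul, Complex.norm_natCast]
    gcongr
    refine (Complex.norm_le_abs_re_add_abs_im _).trans ?_
    rw [Complex.log_re, Complex.log_im]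
    have := Complex.abs_arg_le_pi z
    linarith

/-- an entire function which vanishes off the origin vanishes -/
lemma zero_of_ne {f : ℂ → ℂ} (hf : Differentiable ℂ f) (h : ∀ z, z ≠ 0 → f z = 0) (z : ℂ) :
    f z = 0 := by
  by_cases hz : z = 0
  · subst hz
    have h1 : Filter.Tendsto f (nhdsWithin 0 {0}ᶜ) (nhds (f 0)) :=
      (hf.continuous.tendsto 0).mono_left nhdsWithin_le_nhds
    have h2 : Filter.Tendsto f (nhdsWithin 0 {0}ᶜ) (nhds 0) := by
      refine tendsto_const_nhds.congr' ?_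
      filter_upwards [self_mem_nhdsWithin] with w hw
      exact (h w hw).symm
    exact tendsto_nhds_unique h1 h2
  · exact h z hz

lemma far_exp {ρ : ℕ} (hρ : 0 < ρ) {f g : ℂ → ℂ} (hf : Differentiable ℂ f)
    (hg : Differentiable ℂ g) (hp : ¬ PolyLt ρ fun z => f z - g z) :
    Far (fun w => f (Complex.exp (w / ρ))) (fun w => g (Complex.exp (w / ρ))) := by
  have hρ' : (0 : ℝ) < ρ := by exact_mod_cast hρ
  have hπ := Real.pi_pos
  obtain ⟨c, hc, h1⟩ := growth_low (hf.sub hg) hp hρ (Real.exp_pos (-(Real.pi)))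
  -- a point in a small disc
  obtain ⟨w0, hw0, hne⟩ : ∃ w0 : ℂ, ‖w0‖ ≤ 10 ∧
      f (Complex.exp (w0 / ρ)) - g (Complex.exp (w0 / ρ)) ≠ 0 := by
    by_contra hcon
    push Not at hcon
    apply hp
    refine ⟨0, by simpa using hρ, fun z => ?_⟩
    rw [Polynomial.eval_zero]
    have hk : Differentiable ℂ fun w : ℂ => f (Complex.exp (w / ρ)) - g (Complex.exp (w / ρ)) := by
      have h2 : Differentiable ℂ fun w : ℂ => Complex.exp (w / ρ) :=
        (differentiable_id.div_const _).cexp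
      exact (hf.comp h2).sub (hg.comp h2)
    have hk0 : (fun w : ℂ => f (Complex.exp (w / ρ)) - g (Complex.exp (w / ρ))) = 0 := by
      have h2 : AnalyticOnNhd ℂ (fun w : ℂ => f (Complex.exp (w / ρ)) -
        g (Complex.exp (w / ρ))) Set.univ := fun w _ => hk.analyticAt w
      refine h2.eq_of_eventuallyEq (z₀ := 0) (fun w _ => analyticAt_const) ?_
      have h3 : Metric.ball (0 : ℂ) 10 ∈ nhds (0 : ℂ) := Metric.ball_mem_nhds _ (by norm_num)
      filter_upwards [h3] with w hw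
      exact hcon w (by
        have : ‖w‖ < 10 := by simpa using hw
        exact this.le)
    refine zero_of_ne (f := fun z => f z - g z) (hf.sub hg) (fun z hz => ?_) z
    obtain ⟨w, hw, -⟩ := exp_surj hρ hz
    have h3 := congrFun hk0 w
    simp only [hw] at h3
    exact h3
  set c1 : ℝ := ‖f (Complex.exp (w0 / ρ)) - g (Complex.exp (w0 / ρ))‖ with hc1
  have hc10 : 0 < c1 := norm_pos_iff.2 hne
  refine ⟨min c c1 * Real.exp (-(ρ * Real.pi)), by positivity, fun r hr => ?_⟩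
  by_cases hrr : ρ * Real.pi ≤ r
  · obtain ⟨z, hz, hz2⟩ := h1 (Real.exp (r / ρ - Real.pi)) (by
      apply Real.exp_le_exp.2
      have : 0 ≤ r / ρ := by positivity
      linarith)
    have hz0 : z ≠ 0 := by
      rw [← norm_pos_iff, hz]
      exact Real.exp_pos _
    obtain ⟨w, hw1, hw2⟩ := exp_surj hρ hz0
    refine ⟨w, ?_, ?_⟩
    · refine hw2.trans ?_
      rw [hz, Real.log_exp]
      have h3 : 0 ≤ r / ρ - Real.pi := by
        rw [sub_nonneg, le_div_iff₀ hρ']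
        linarith
      rw [abs_of_nonneg h3]
      have h4 : (ρ : ℝ) * (r / ρ) = r := by field_simp
      nlinarith
    · simp only [hw1]
      refine le_trans (le_of_eq ?_) (le_trans (mul_le_mul_of_nonneg_right (min_le_left c c1)
        (by positivity)) hz2)
      rw [← Real.exp_nat_mul, mul_assoc, ← Real.exp_add]
      congr 2
      field_simp
      ring
  · refine ⟨w0, hw0.trans hr, ?_⟩
    have h2 : Real.exp (-(ρ * Real.pi)) * Real.exp r ≤ 1 := by
      rw [← Real.exp_add]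
      apply Real.exp_le_one_iff.2
      linarith [not_le.1 hrr]
    calc min c c1 * Real.exp (-(ρ * Real.pi)) * Real.exp r =
          min c c1 * (Real.exp (-(ρ * Real.pi)) * Real.exp r) := by ring
      _ ≤ min c c1 * 1 := by gcongr
      _ ≤ c1 := by rw [mul_one]; exact min_le_right _ _

lemma tm_exp {ρ : ℕ} (hρ : 0 < ρ) {s : ℂ → ℂ} (hd : Differentiable ℂ s) {σ A : ℝ} (hσ : 0 ≤ σ)
    (hA : 0 ≤ A) (hb : ∀ z, ‖s z‖ ≤ Real.exp (A * (1 + ‖z‖) ^ σ)) :
    Tm (σ / ρ) (fun w => s (Complex.exp (w / ρ))) := by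
  have hρ' : (0 : ℝ) < ρ := by exact_mod_cast hρ
  refine ⟨hd.comp (differentiable_id.div_const _).cexp, A * 2 ^ σ, by positivity, fun w => ?_⟩
  refine (hb _).trans (Real.exp_le_exp.2 ?_)
  have h1 : ‖Complex.exp (w / ρ)‖ ≤ Real.exp (‖w‖ / ρ) := by
    rw [Complex.norm_exp]
    apply Real.exp_le_exp.2
    refine (Complex.re_le_norm _).trans ?_
    rw [norm_div, Complex.norm_natCast]
  have h2 : 1 + ‖Complex.exp (w / ρ)‖ ≤ 2 * Real.exp (‖w‖ / ρ) := by
    have : 1 ≤ Real.exp (‖w‖ / ρ) := Real.one_le_exp (by positivity)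
    linarith
  have h3 : (1 + ‖Complex.exp (w / ρ)‖) ^ σ ≤ (2 * Real.exp (‖w‖ / ρ)) ^ σ :=
    Real.rpow_le_rpow (by positivity) h2 hσ
  have h4 : (2 * Real.exp (‖w‖ / ρ)) ^ σ = 2 ^ σ * Real.exp (σ / ρ * ‖w‖) := by
    rw [Real.mul_rpow (by norm_num) (Real.exp_pos _).le, ← Real.exp_mul]
    congr 2
    field_simp
  rw [h4] at h3
  calc A * (1 + ‖Complex.exp (w / ρ)‖) ^ σ ≤ A * (2 ^ σ * Real.exp (σ / ρ * ‖w‖)) := by gcongr
    _ = A * 2 ^ σ * Real.exp (σ / ρ * ‖w‖) := by ring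

/-- **Borel's theorem with coefficients of order less than `ρ`.** -/
theorem borel_ord {ρ : ℕ} (hρ : 0 < ρ) {ι : Type} (J : Finset ι) {c h : ι → ℂ → ℂ}
    (hc : ∀ i ∈ J, OrdLt ρ (c i)) (hh : ∀ i ∈ J, Differentiable ℂ (h i))
    (hne : ∀ i ∈ J, ∀ j ∈ J, i ≠ j → ¬ PolyLt ρ fun z => h i z - h j z)
    (hsum : ∀ z, ∑ i ∈ J, c i z * Complex.exp (h i z) = 0) : ∀ i ∈ J, ∀ z, c i z = 0 := by
  classical
  have hρ' : (0 : ℝ) < ρ := by exact_mod_cast hρ
  have hex : ∀ i, ∃ σ A : ℝ, 0 ≤ σ ∧ σ < ρ ∧ 0 ≤ A ∧ (i ∈ J →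
      ∀ z, ‖c i z‖ ≤ Real.exp (A * (1 + ‖z‖) ^ σ)) := by
    intro i
    by_cases hi : i ∈ J
    · obtain ⟨σ, A, h1, h2, h3, h4⟩ := (hc i hi).pos
      exact ⟨σ, A, h1, h2, h3, fun _ => h4⟩
    · exact ⟨0, 0, le_rfl, hρ', le_rfl, fun h => absurd h hi⟩
  choose σ A hσ0 hσ1 hA hb using hex
  obtain ⟨τ, hτ0, hτ1, hτ⟩ : ∃ τ : ℝ, 0 ≤ τ ∧ τ < ρ ∧ ∀ i ∈ J, σ i ≤ τ := by
    clear hsum hne hh hc
    induction J using Finset.induction_on with
    | empty => exact ⟨0, le_rfl, hρ', fun i hi => absurd hi (Finset.notMem_empty i)⟩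
    | insert a J ha ih =>
      obtain ⟨τ, h1, h2, h3⟩ := ih (fun i hi z => hb i (Finset.mem_insert_of_mem hi) z)
      refine ⟨max τ (σ a), h1.trans (le_max_left _ _), max_lt h2 (hσ1 a), fun i hi => ?_⟩
      rcases Finset.mem_insert.1 hi with rfl | hi
      · exact le_max_right _ _
      · exact (h3 i hi).trans (le_max_left _ _)
  set c' : ι → ℂ → ℂ := fun i w => if i ∈ J then c i (Complex.exp (w / ρ)) else 0 with hc'
  set h' : ι → ℂ → ℂ := fun i w => if i ∈ J then h i (Complex.exp (w / ρ)) else 0 with hh'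
  have hc'J : ∀ i ∈ J, c' i = fun w => c i (Complex.exp (w / ρ)) := fun i hi => by
    funext w
    rw [hc']
    simp only [hi, if_true]
  have hh'J : ∀ i ∈ J, h' i = fun w => h i (Complex.exp (w / ρ)) := fun i hi => by
    funext w
    rw [hh']
    simp only [hi, if_true]
  have key := borel (σ := τ / ρ) (by positivity) ((div_lt_one hρ').2 hτ1) (h := h') (by
    intro i
    by_cases hi : i ∈ J
    · rw [hh'J i hi]
      exact (hh i hi).comp (differentiable_id.div_const _).cexp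
    · rw [hh']
      simp only [hi, if_false]
      exact differentiable_const _) (c := c') (by
    intro i
    by_cases hi : i ∈ J
    · rw [hc'J i hi]
      exact tm_exp hρ (hc i hi).1 hτ0 (hA i) fun z =>
        OrdLt.bound (hA i) (hτ i hi) le_rfl (hb i hi) z
    · rw [hc']
      simp only [hi, if_false]
      refine ⟨differentiable_const _, 0, le_rfl, fun z => ?_⟩
      simp) J (by
    intro i hi j hj hij
    rw [hh'J i hi, hh'J j hj]
    exact far_exp hρ (hh i hi) (hh j hj) (hne i hi j hj hij)) (by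
    intro w
    rw [← hsum (Complex.exp (w / ρ))]
    refine Finset.sum_congr rfl fun i hi => ?_
    rw [hc'J i hi, hh'J i hi])
  intro i hi z
  refine zero_of_ne (hc i hi).1 (fun z hz => ?_) z
  obtain ⟨w, hw, -⟩ := exp_surj hρ hz
  have h1 := key i hi w
  rw [hc'J i hi] at h1
  simp only [hw] at h1
  exact h1

end Pool.Agent.V8H29.EN
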