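import Mathlib

/-!
# Forms at short sums: weights, expansion, curves and torus orbits (over any field)
-/

set_option autoImplicit false

namespace Pool.Agent.V8H29.FS

open MvPolynomial

/-- **Weights.** -/
theorem weights {r : ℕ} (Λ : AddSubgroup (Fin r → ℤ))
    (hsat : ∀ (m : ℤ) (γ : Fin r → ℤ), m ≠ 0 → m • γ ∈ Λ → γ ∈ Λ)
    (h0 : ∀ γ ∈ Λ, ∑ j, γ j = 0) (Z : Finset (Fin r → ℤ)) (hZ0 : ∀ z ∈ Z, ∑ j, z j = 0)
    (hZ : ∀ z ∈ Z, z ∉ Λ) :
    ∃ l : Fin r → ℕ, (∀ γ ∈ Λ, ∑ j, (l j : ℤ) * γ j = 0) ∧ ∀ z ∈ Z, ∑ j, (l j : ℤ) * z j ≠ 0 := by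
  classical
  set ι : (Fin r → ℤ) → (Fin r → ℚ) := fun γ j => (γ j : ℚ) with hι
  set W : Submodule ℚ (Fin r → ℚ) := Submodule.span ℚ (ι '' (Λ : Set (Fin r → ℤ))) with hW
  -- saturation
  have hmem : ∀ x ∈ W, ∃ m : ℤ, m ≠ 0 ∧ ∃ γ ∈ Λ, (m : ℚ) • x = ι γ := by
    intro x hx
    induction hx using Submodule.span_induction with
    | mem x hx =>
      obtain ⟨γ, hγ, rfl⟩ := hx
      exact ⟨1, one_ne_zero, γ, hγ, by simp⟩
    | zero => exact ⟨1, one_ne_zero, 0, Λ.zero_mem, by funext j; simp [hι]⟩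
    | add x y _ _ ihx ihy =>
      obtain ⟨m, hm, γ, hγ, h1⟩ := ihx
      obtain ⟨m', hm', γ', hγ', h2⟩ := ihy
      refine ⟨m * m', mul_ne_zero hm hm', m' • γ + m • γ', Λ.add_mem (Λ.zsmul_mem hγ _)
        (Λ.zsmul_mem hγ' _), ?_⟩
      funext j
      have e1 := congrFun h1 j
      have e2 := congrFun h2 j
      simp only [hι, Pi.smul_apply, smul_eq_mul, Pi.add_apply] at e1 e2 ⊢
      push_cast
      rw [← e1, ← e2]
      ring
    | smul q x _ ih =>
      obtain ⟨m, hm, γ, hγ, h1⟩ := ih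
      refine ⟨m * q.den, mul_ne_zero hm (by exact_mod_cast q.den_nz), q.num • γ,
        Λ.zsmul_mem hγ _, ?_⟩
      funext j
      have e1 := congrFun h1 j
      simp only [hι, Pi.smul_apply, smul_eq_mul] at e1 ⊢
      push_cast
      rw [← e1]
      have hq : (q.den : ℚ) * q = q.num := by
        rw [mul_comm]
        exact Rat.mul_den_eq_num q
      calc (m : ℚ) * q.den * (q * x j) = (q.den * q) * (m * x j) := by ring
        _ = q.num * (m * x j) := by rw [hq]
  have hZW : ∀ z ∈ Z, ι z ∉ W := by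
    intro z hz hzW
    obtain ⟨m, hm, γ, hγ, h1⟩ := hmem _ hzW
    apply hZ z hz
    apply hsat m z hm
    have : m • z = γ := by
      funext j
      have e1 := congrFun h1 j
      simp only [hι, Pi.smul_apply, smul_eq_mul] at e1 ⊢
      exact_mod_cast e1
    rwa [this]
  obtain ⟨f, hf⟩ := Module.exists_dual_forall_apply_ne_zero (K := ℚ) (M := (Fin r → ℚ) ⧸ W)
    (fun z : Z => W.mkQ (ι z.1)) (fun z => by
      rw [Submodule.mkQ_apply, ne_eq, Submodule.Quotient.mk_eq_zero]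
      exact hZW z.1 z.2)
  -- rational weights
  set g : Fin r → ℚ := fun j => f (W.mkQ (Pi.single j 1)) with hg
  have hgs : ∀ x : Fin r → ℚ, f (W.mkQ x) = ∑ j, g j * x j := by
    intro x
    have h1 : x = ∑ j, x j • (Pi.single j (1 : ℚ) : Fin r → ℚ) := by
      funext i
      rw [Finset.sum_apply]
      simp only [Pi.smul_apply, smul_eq_mul]
      rw [Finset.sum_eq_single i]
      · simp
      · intro j _ hj
        rw [Pi.single_eq_of_ne (Ne.symm hj)]
        simp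
      · intro h
        exact absurd (Finset.mem_univ i) h
    conv_lhs => rw [h1]
    rw [map_sum, map_sum]
    refine Finset.sum_congr rfl fun j _ => ?_
    rw [map_smul, map_smul, smul_eq_mul, mul_comm]
  -- common denominator
  set N : ℕ := ∏ j, (g j).den with hN
  have hN0 : (N : ℚ) ≠ 0 := by
    exact_mod_cast Finset.prod_ne_zero_iff.2 fun j _ => (g j).den_nz
  have hint : ∀ j, ∃ a : ℤ, (N : ℚ) * g j = a := by
    intro j
    refine ⟨(∏ i ∈ Finset.univ.erase j, ((g i).den : ℤ)) * (g j).num, ?_⟩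
    have h1 : (N : ℚ) = (∏ i ∈ Finset.univ.erase j, ((g i).den : ℚ)) * (g j).den := by
      rw [hN]
      push_cast
      rw [Finset.prod_erase_mul _ _ (Finset.mem_univ j)]
    rw [h1, mul_assoc, mul_comm ((g j).den : ℚ), Rat.mul_den_eq_num]
    push_cast
    ring
  choose a ha using hint
  set A : ℤ := ∑ j, |a j| with hA
  have hAj : ∀ j, 0 ≤ a j + A := by
    intro j
    have h1 : |a j| ≤ A := Finset.single_le_sum (f := fun j => |a j|) (fun _ _ => abs_nonneg _)
      (Finset.mem_univ j)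
    have h2 := neg_abs_le (a j)
    linarith
  have hl : ∀ j, (((a j + A).toNat : ℕ) : ℤ) = a j + A := fun j => Int.toNat_of_nonneg (hAj j)
  have hsum : ∀ γ : Fin r → ℤ, ∑ j, γ j = 0 → ((∑ j, (((a j + A).toNat : ℕ) : ℤ) * γ j : ℤ) : ℚ) =
      N * f (W.mkQ (ι γ)) := by
    intro γ hγ
    rw [hgs, Finset.mul_sum]
    have h1 : ∑ j, (((a j + A).toNat : ℕ) : ℤ) * γ j = ∑ j, a j * γ j := by
      have h2 : ∑ j, (((a j + A).toNat : ℕ) : ℤ) * γ j = ∑ j, a j * γ j + A * ∑ j, γ j := by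
        rw [Finset.mul_sum, ← Finset.sum_add_distrib]
        refine Finset.sum_congr rfl fun j _ => ?_
        rw [hl]
        ring
      rw [h2, hγ, mul_zero, add_zero]
    rw [h1]
    push_cast
    refine Finset.sum_congr rfl fun j _ => ?_
    rw [← ha j, mul_assoc]
  refine ⟨fun j => (a j + A).toNat, fun γ hγ => ?_, fun z hz hcon => ?_⟩
  · have h1 := hsum γ (h0 γ hγ)
    have h2 : W.mkQ (ι γ) = 0 := by
      rw [Submodule.mkQ_apply, Submodule.Quotient.mk_eq_zero]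
      exact Submodule.subset_span ⟨γ, hγ, rfl⟩
    rw [h2, map_zero, mul_zero] at h1
    exact_mod_cast h1
  · have h1 := hsum z (hZ0 z hz)
    rw [hcon] at h1
    have h2 := hf ⟨z, hz⟩
    rw [Int.cast_zero] at h1
    rcases mul_eq_zero.1 h1.symm with h3 | h3
    · exact hN0 h3
    · exact h2 h3


/-- the difference of two exponents -/
def dif {r : ℕ} (α β : Fin r →₀ ℕ) : Fin r → ℤ := fun j => (α j : ℤ) - β j

lemma dif_sum {r : ℕ} {α β : Fin r →₀ ℕ} (h : α.degree = β.degree) : ∑ j, dif α β j = 0 := by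
  have h1 : ∀ γ : Fin r →₀ ℕ, γ.degree = ∑ j, γ j := fun γ => Finsupp.degree_eq_sum γ
  unfold dif
  rw [Finset.sum_sub_distrib, sub_eq_zero]
  rw [h1, h1] at h
  exact_mod_cast h

/-- the exponents of degree `e` -/
def TT (r e : ℕ) : Finset (Fin r →₀ ℕ) := Finset.finsuppAntidiag Finset.univ e

lemma mem_TT {r e : ℕ} {α : Fin r →₀ ℕ} : α ∈ TT r e ↔ α.degree = e := by
  unfold TT
  rw [Finset.mem_finsuppAntidiag, Finsupp.degree_eq_sum]
  simp

lemma prod_zpow_sum {G ι : Type} [CommGroup G] (g : G) (s : Finset ι) (f : ι → ℤ) :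
    ∏ j ∈ s, g ^ f j = g ^ ∑ j ∈ s, f j := by
  classical
  induction s using Finset.induction_on with
  | empty => simp
  | insert a s ha ih => rw [Finset.prod_insert ha, Finset.sum_insert ha, zpow_add, ih]

/-- a projection onto a saturated subgroup -/
lemma exists_retract {r : ℕ} (Λ : AddSubgroup (Fin r → ℤ))
    (hsat : ∀ (m : ℤ) (γ : Fin r → ℤ), m ≠ 0 → m • γ ∈ Λ → γ ∈ Λ) :
    ∃ π : (Fin r → ℤ) →ₗ[ℤ] (Fin r → ℤ), (∀ x, π x ∈ Λ) ∧ ∀ x ∈ Λ, π x = x := by
  set N : Submodule ℤ (Fin r → ℤ) := AddSubgroup.toIntSubmodule Λ with hN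
  have hmem : ∀ x, x ∈ N ↔ x ∈ Λ := fun x => Iff.rfl
  have htf : Module.IsTorsionFree ℤ ((Fin r → ℤ) ⧸ N) := by
    refine ⟨fun m hm => ?_⟩
    have hm0 : m ≠ 0 := hm.ne_zero
    intro x y hxy
    obtain ⟨x, rfl⟩ := N.mkQ_surjective x
    obtain ⟨y, rfl⟩ := N.mkQ_surjective y
    simp only [← map_smul] at hxy
    rw [← sub_eq_zero, ← map_sub, Submodule.mkQ_apply, Submodule.Quotient.mk_eq_zero] at hxy ⊢
    rw [← smul_sub] at hxy
    exact hsat m _ hm0 hxy
  obtain ⟨σ, hσ⟩ := LinearMap.exists_rightInverse_of_surjective N.mkQ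
    (LinearMap.range_eq_top.2 N.mkQ_surjective)
  have hσ' : ∀ y, N.mkQ (σ y) = y := fun y => LinearMap.congr_fun hσ y
  refine ⟨LinearMap.id - σ.comp N.mkQ, fun x => ?_, fun x hx => ?_⟩
  · have h1 : N.mkQ ((LinearMap.id - σ.comp N.mkQ : (Fin r → ℤ) →ₗ[ℤ] (Fin r → ℤ)) x) = 0 := by
      rw [LinearMap.sub_apply, LinearMap.id_apply, LinearMap.comp_apply, map_sub, hσ', sub_self]
    rw [Submodule.mkQ_apply, Submodule.Quotient.mk_eq_zero] at h1
    exact h1
  · have h1 : N.mkQ x = 0 := by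
      rw [Submodule.mkQ_apply, Submodule.Quotient.mk_eq_zero]
      exact hx
    rw [LinearMap.sub_apply, LinearMap.id_apply, LinearMap.comp_apply, h1, map_zero, sub_zero]

/-- finite generation -/
lemma exists_gens {r : ℕ} (Λ : AddSubgroup (Fin r → ℤ)) :
    ∃ S : Finset (Fin r → ℤ), AddSubgroup.closure (S : Set (Fin r → ℤ)) = Λ := by
  obtain ⟨S, hS⟩ := IsNoetherian.noetherian (AddSubgroup.toIntSubmodule Λ)
  refine ⟨S, ?_⟩
  have h1 := congrArg Submodule.toAddSubgroup hS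
  rw [Submodule.span_int_eq_addSubgroupClosure] at h1
  rw [h1]
  exact AddSubgroup.toIntSubmodule_toAddSubgroup Λ

/-- the saturation of the subgroup generated by a set of vectors of sum zero -/
def Sat {r : ℕ} (E : Finset (Fin r → ℤ)) : AddSubgroup (Fin r → ℤ) where
  carrier := {γ | ∃ m : ℤ, m ≠ 0 ∧ m • γ ∈ AddSubgroup.closure (E : Set (Fin r → ℤ))}
  add_mem' := by
    rintro γ δ ⟨m, hm, h1⟩ ⟨m', hm', h2⟩
    refine ⟨m * m', mul_ne_zero hm hm', ?_⟩
    have e : (m * m') • (γ + δ) = m' • (m • γ) + m • (m' • δ) := by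
      rw [smul_add, smul_smul, smul_smul, mul_comm m' m]
    rw [e]
    exact add_mem (zsmul_mem h1 _) (zsmul_mem h2 _)
  zero_mem' := ⟨1, one_ne_zero, by simp⟩
  neg_mem' := by
    rintro γ ⟨m, hm, h1⟩
    refine ⟨m, hm, ?_⟩
    rw [smul_neg]
    exact neg_mem h1

lemma Sat_sat {r : ℕ} (E : Finset (Fin r → ℤ)) (m : ℤ) (γ : Fin r → ℤ) (hm : m ≠ 0)
    (h : m • γ ∈ Sat E) : γ ∈ Sat E := by
  obtain ⟨m', hm', h1⟩ := h
  refine ⟨m' * m, mul_ne_zero hm' hm, ?_⟩
  rwa [mul_smul]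

lemma subset_Sat {r : ℕ} {E : Finset (Fin r → ℤ)} {γ : Fin r → ℤ} (h : γ ∈ E) : γ ∈ Sat E :=
  ⟨1, one_ne_zero, by rw [one_smul]; exact AddSubgroup.subset_closure h⟩

lemma Sat_sum {r : ℕ} {E : Finset (Fin r → ℤ)} (hE : ∀ γ ∈ E, ∑ j, γ j = 0) {γ : Fin r → ℤ}
    (h : γ ∈ Sat E) : ∑ j, γ j = 0 := by
  obtain ⟨m, hm, h1⟩ := h
  have h2 : ∀ δ ∈ AddSubgroup.closure (E : Set (Fin r → ℤ)), ∑ j, δ j = 0 := by
    intro δ hδ
    induction hδ using AddSubgroup.closure_induction with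
    | mem γ hγ => exact hE γ hγ
    | zero => simp
    | add x y _ _ hx hy =>
      simp only [Pi.add_apply]
      rw [Finset.sum_add_distrib, hx, hy, add_zero]
    | neg x _ hx =>
      simp only [Pi.neg_apply]
      rw [Finset.sum_neg_distrib, hx, neg_zero]
  have h3 := h2 _ h1
  simp only [Pi.smul_apply, smul_eq_mul] at h3
  rw [← Finset.mul_sum] at h3
  exact (mul_eq_zero.1 h3).resolve_left hm

/-- elements of the saturation as combinations -/
lemma Sat_comb {r : ℕ} {E : Finset (Fin r → ℤ)} {γ : Fin r → ℤ} (h : γ ∈ Sat E) :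
    ∃ (m : ℤ) (a : (Fin r → ℤ) → ℤ), m ≠ 0 ∧ m • γ = ∑ δ ∈ E, a δ • δ := by
  classical
  obtain ⟨m, hm, h1⟩ := h
  have h2 : ∀ δ ∈ AddSubgroup.closure (E : Set (Fin r → ℤ)),
      ∃ a : (Fin r → ℤ) → ℤ, δ = ∑ δ ∈ E, a δ • δ := by
    intro δ hδ
    induction hδ using AddSubgroup.closure_induction with
    | mem γ hγ =>
      refine ⟨fun δ => if δ = γ then 1 else 0, ?_⟩
      rw [Finset.sum_eq_single γ]
      · simp
      · intro b _ hb
        simp only [if_neg hb, zero_smul]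
      · intro h
        exact absurd hγ h
    | zero => exact ⟨0, by simp⟩
    | add x y _ _ hx hy =>
      obtain ⟨a, ha⟩ := hx
      obtain ⟨b, hb⟩ := hy
      refine ⟨a + b, ?_⟩
      simp only [Pi.add_apply, add_smul]
      rw [Finset.sum_add_distrib, ← ha, ← hb]
    | neg x _ hx =>
      obtain ⟨a, ha⟩ := hx
      refine ⟨-a, ?_⟩
      simp only [Pi.neg_apply, neg_smul]
      rw [Finset.sum_neg_distrib, ← ha]
  obtain ⟨a, ha⟩ := h2 _ h1
  exact ⟨m, a, hm, ha⟩

/-- a class sum -/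
def CS {A : Type} [CommRing A] {r : ℕ} (l : Fin r → ℕ) (u : Fin r → A)
    (c : (Fin r →₀ ℕ) → A) (e m : ℕ) : A :=
  ∑ α ∈ TT r e with ∑ j, l j * α j = m, c α * ∏ j, u j ^ α j

/-- the universal coefficients -/
noncomputable def PP {n : ℕ} (r : ℕ) (β : Fin (n + 1) →₀ ℕ) :
    MvPolynomial (Fin r) (MvPolynomial (Fin r × Fin (n + 1)) ℤ) :=
  ∏ i, (∑ j : Fin r, C (X (j, i)) * X j) ^ β i

lemma PP_homog {n : ℕ} (r : ℕ) (β : Fin (n + 1) →₀ ℕ) : (PP r β).IsHomogeneous β.degree := by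
  unfold PP
  have h := IsHomogeneous.prod Finset.univ
    (fun i => (∑ j : Fin r, C (X (j, i)) * X j : MvPolynomial (Fin r)
      (MvPolynomial (Fin r × Fin (n + 1)) ℤ)) ^ β i) (fun i => 1 * β i) (by
      intro i _
      refine IsHomogeneous.pow ?_ _
      refine IsHomogeneous.sum _ _ _ fun j _ => ?_
      have h1 := (isHomogeneous_C (Fin r)
        (X (j, i) : MvPolynomial (Fin r × Fin (n + 1)) ℤ)).mul
        (isHomogeneous_X (MvPolynomial (Fin r × Fin (n + 1)) ℤ) j)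
      rwa [zero_add] at h1)
  rw [Finsupp.degree_eq_sum]
  simpa using h

lemma PP_supp {n r : ℕ} {β : Fin (n + 1) →₀ ℕ} : (PP r β).support ⊆ TT r β.degree := by
  intro α hα
  rw [mem_TT]
  have h1 := (PP_homog r β) (mem_support_iff.1 hα)
  rw [← h1, Finsupp.degree_eq_weight_one]
  rfl

lemma PP_eval {A : Type} [CommRing A] {n r : ℕ} (β : Fin (n + 1) →₀ ℕ)
    (w : Fin r × Fin (n + 1) → A) (y : Fin r → A) :
    ∏ i, (∑ j : Fin r, w (j, i) * y j) ^ β i =
      ∑ α ∈ TT r β.degree, aeval w ((PP r β).coeff α) * ∏ j, y j ^ α j := by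
  have h1 : eval₂ ((aeval w : MvPolynomial (Fin r × Fin (n + 1)) ℤ →ₐ[ℤ] A) :
      MvPolynomial (Fin r × Fin (n + 1)) ℤ →+* A) y (PP r β) =
      ∏ i, (∑ j : Fin r, w (j, i) * y j) ^ β i := by
    unfold PP
    rw [← coe_eval₂Hom, map_prod]
    refine Finset.prod_congr rfl fun i _ => ?_
    rw [map_pow, map_sum]
    congr 1
    refine Finset.sum_congr rfl fun j _ => ?_
    rw [map_mul, coe_eval₂Hom, eval₂_C, eval₂_X]
    simp
  rw [← h1, eval₂_eq']
  refine Finset.sum_subset PP_supp fun α _ hα => ?_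
  rw [notMem_support_iff.1 hα, map_zero, zero_mul]

/-- the coefficients of a form at the universal sum -/
noncomputable def cc {A : Type} [CommRing A] {n r : ℕ} (F : MvPolynomial (Fin (n + 1)) A) (e : ℕ)
    (w : Fin r × Fin (n + 1) → A) (α : Fin r →₀ ℕ) : A :=
  ∑ β ∈ TT (n + 1) e, F.coeff β * aeval w ((PP r β).coeff α)

lemma supp_hom {A : Type} [CommRing A] {n : ℕ} {F : MvPolynomial (Fin (n + 1)) A} {e : ℕ}
    (hF : F.IsHomogeneous e) : F.support ⊆ TT (n + 1) e := by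
  intro α hα
  rw [mem_TT]
  have h1 := hF (mem_support_iff.1 hα)
  rw [← h1, Finsupp.degree_eq_weight_one]
  rfl

/-- **Expansion.** -/
lemma expand {A B : Type} [CommRing A] [CommRing B] [Algebra A B] {n r : ℕ}
    {F : MvPolynomial (Fin (n + 1)) A} {e : ℕ} (hF : F.IsHomogeneous e)
    (w : Fin r × Fin (n + 1) → A) (y : Fin r → B) :
    aeval (fun i => ∑ j : Fin r, algebraMap A B (w (j, i)) * y j) F =
      ∑ α ∈ TT r e, algebraMap A B (cc F e w α) * ∏ j, y j ^ α j := by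
  rw [aeval_def, eval₂_eq']
  have h1 : ∀ β ∈ TT (n + 1) e, algebraMap A B (F.coeff β) *
      ∏ i, (∑ j : Fin r, algebraMap A B (w (j, i)) * y j) ^ β i =
      ∑ α ∈ TT r e, algebraMap A B (F.coeff β * aeval w ((PP r β).coeff α)) *
        ∏ j, y j ^ α j := by
    intro β hβ
    have h2 := PP_eval β (fun q => algebraMap A B (w q)) y
    rw [h2, mem_TT.1 hβ, Finset.mul_sum]
    refine Finset.sum_congr rfl fun α _ => ?_
    have h3 : aeval (fun q => algebraMap A B (w q)) ((PP r β).coeff α) =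
        algebraMap A B (aeval w ((PP r β).coeff α)) := by
      have h4 := MvPolynomial.map_aeval w (algebraMap A B) ((PP r β).coeff α)
      rw [h4, aeval_def, ← coe_eval₂Hom]
      congr 1
      exact congrArg (fun f => eval₂Hom f _) (RingHom.ext_int _ _)
    rw [h3, map_mul]
    ring
  rw [Finset.sum_subset (supp_hom hF) (fun β _ hβ => by
    rw [notMem_support_iff.1 hβ, map_zero, zero_mul]), Finset.sum_congr rfl h1, Finset.sum_comm]
  refine Finset.sum_congr rfl fun α _ => ?_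
  unfold cc
  rw [map_sum, Finset.sum_mul]

/-- the curve `T ↦ ∑ T ^ (l_j) u_j v_j` -/
noncomputable def curve {K : Type} [Field K] {n r : ℕ} (l : Fin r → ℕ)
    (v : Fin r → Fin (n + 1) → K) (u : Fin r → Kˣ) (i : Fin (n + 1)) : Polynomial K :=
  ∑ j, Polynomial.C (u j * v j i) * Polynomial.X ^ l j

/-- the polynomials `q_i` define a nonconstant rational map to projective space -/
def Nonconst {K : Type} [Field K] {n : ℕ} (q : Fin (n + 1) → Polynomial K) : Prop :=
  ∃ (i j : Fin (n + 1)) (a b : K), (q i).eval a * (q j).eval b ≠ (q j).eval a * (q i).eval b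

/-- the point `∑ u_j v_j` -/
def pt {K : Type} [Field K] {n r : ℕ} (v : Fin r → Fin (n + 1) → K) (u : Fin r → Kˣ) :
    Fin (n + 1) → K := fun i => ∑ j, (u j : K) * v j i

lemma curve_eval_one {K : Type} [Field K] {n r : ℕ} (l : Fin r → ℕ)
    (v : Fin r → Fin (n + 1) → K) (u : Fin r → Kˣ) (i : Fin (n + 1)) :
    (curve l v u i).eval 1 = pt v u i := by
  unfold curve pt
  rw [Polynomial.eval_finsetSum]
  refine Finset.sum_congr rfl fun j _ => ?_
  simp

lemma curve_coeff {K : Type} [Field K] {n r : ℕ} (l : Fin r → ℕ)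
    (v : Fin r → Fin (n + 1) → K) (u : Fin r → Kˣ) (i : Fin (n + 1)) (m : ℕ) :
    (curve l v u i).coeff m = ∑ j with l j = m, (u j : K) * v j i := by
  classical
  unfold curve
  rw [Polynomial.finsetSum_coeff, Finset.sum_filter]
  refine Finset.sum_congr rfl fun j _ => ?_
  rw [Polynomial.coeff_C_mul_X_pow]
  by_cases h : l j = m
  · rw [if_pos h.symm, if_pos h]
  · rw [if_neg (Ne.symm h), if_neg h]

lemma curve_natDegree {K : Type} [Field K] {n r : ℕ} {l : Fin r → ℕ} {L : ℕ} (hl : ∀ j, l j ≤ L)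
    (v : Fin r → Fin (n + 1) → K) (u : Fin r → Kˣ) (i : Fin (n + 1)) :
    (curve l v u i).natDegree ≤ L := by
  unfold curve
  refine Polynomial.natDegree_sum_le_of_forall_le _ _ fun j _ => ?_
  exact (Polynomial.natDegree_C_mul_X_pow_le _ _).trans (hl j)

/-- the value of a form on the orbit of the subtorus given by `S` -/
lemma orbit_zero {κ : Type} [Field κ] {n r : ℕ} {F : MvPolynomial (Fin (n + 1)) κ} {e : ℕ}
    (hF : F.IsHomogeneous e)
    (l : Fin r → ℕ) (u : Fin r → κ) (w : Fin r × Fin (n + 1) → κ)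
    (h : ∀ m : ℕ, CS l u (cc F e w) e m = 0)
    (S : Set (Fin r → ℤ)) (hS : ∀ α ∈ TT r e, ∀ β ∈ TT r e, ∑ j, l j * α j = ∑ j, l j * β j →
      dif α β ∈ AddSubgroup.closure S) (A : Type) [CommRing A] [Algebra κ A] (t : Fin r → Aˣ)
    (ht : ∀ γ ∈ S, ∏ j, t j ^ γ j = 1) :
    aeval (fun i => ∑ j, algebraMap κ A (w (j, i)) * ((t j : A) * algebraMap κ A (u j))) F = 0 := by
  classical
  -- monomials on the closure
  have ht' : ∀ γ ∈ AddSubgroup.closure S, ∏ j, t j ^ γ j = 1 := by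
    intro γ hγ
    induction hγ using AddSubgroup.closure_induction with
    | mem γ hγ => exact ht γ hγ
    | zero => simp
    | add x y _ _ hx hy =>
      simp only [Pi.add_apply, zpow_add]
      rw [Finset.prod_mul_distrib, hx, hy, one_mul]
    | neg x _ hx =>
      simp only [Pi.neg_apply, zpow_neg]
      rw [Finset.prod_inv_distrib, hx, inv_one]
  have hmon : ∀ α ∈ TT r e, ∀ β ∈ TT r e, ∑ j, l j * α j = ∑ j, l j * β j →
      ∏ j, t j ^ α j = ∏ j, t j ^ β j := by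
    intro α hα β hβ hab
    have h1 := ht' _ (hS α hα β hβ hab)
    unfold dif at h1
    simp only [zpow_sub, zpow_natCast] at h1
    rw [Finset.prod_mul_distrib, Finset.prod_inv_distrib, mul_inv_eq_one] at h1
    exact h1
  have h1 := expand hF w (fun j => (t j : A) * algebraMap κ A (u j))
  rw [h1]
  have h2 : ∀ α : Fin r →₀ ℕ, algebraMap κ A (cc F e w α) *
      ∏ j, ((t j : A) * algebraMap κ A (u j)) ^ α j =
      ((∏ j, t j ^ α j : Aˣ) : A) *
        algebraMap κ A (cc F e w α * ∏ j, u j ^ α j) := by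
    intro α
    simp only [mul_pow]
    rw [Finset.prod_mul_distrib, map_mul, map_prod]
    push_cast
    ring
  rw [Finset.sum_congr rfl fun α _ => h2 α]
  rw [← Finset.sum_fiberwise_of_maps_to (g := fun α : Fin r →₀ ℕ => ∑ j, l j * α j)
    (t := (TT r e).image fun α : Fin r →₀ ℕ => ∑ j, l j * α j)
    (fun α hα => Finset.mem_image_of_mem _ hα)]
  refine Finset.sum_eq_zero fun m hm => ?_
  obtain ⟨α₀, hα₀, hm⟩ := Finset.mem_image.1 hm
  have h4 : ∀ α ∈ (TT r e).filter fun α : Fin r →₀ ℕ => ∑ j, l j * α j = m,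
      ((∏ j, t j ^ α j : Aˣ) : A) *
        algebraMap κ A (cc F e w α * ∏ j, u j ^ α j) =
      ((∏ j, t j ^ α₀ j : Aˣ) : A) *
        algebraMap κ A (cc F e w α * ∏ j, u j ^ α j) := by
    intro α hα
    rw [Finset.mem_filter] at hα
    rw [hmon α hα.1 α₀ hα₀ (hα.2.trans hm.symm)]
  rw [Finset.sum_congr rfl h4, ← Finset.mul_sum, ← map_sum]
  have h5 := h m
  unfold CS at h5
  rw [h5, map_zero, mul_zero]

/-- the curves in a torus orbit lie on the variety -/
theorem curve_mem {K : Type} [Field K] {n r : ℕ}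
    (F : MvPolynomial (Fin (n + 1)) K)
    (v : Fin r → Fin (n + 1) → K) (u : Fin r → Kˣ) (S : Finset (Fin r → ℤ))
    (horb : ∀ (A : Type) [CommRing A] [Algebra K A] (t : Fin r → Aˣ),
      (∀ γ ∈ S, ∏ j, t j ^ γ j = 1) →
      aeval (fun i => ∑ j, (t j : A) * algebraMap K A (u j * v j i)) F = 0)
    (l : Fin r → ℕ) (hl : ∀ γ ∈ S, ∑ j, (l j : ℤ) * γ j = 0) : aeval (curve l v u) F = 0 := by
  set τ : (RatFunc K)ˣ := Units.mk0 (RatFunc.X : RatFunc K) RatFunc.X_ne_zero with hτ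
  have h1 := horb (RatFunc K) (fun j => τ ^ l j) (by
    intro γ hγ
    have h2 : ∏ j, (τ ^ l j) ^ γ j = ∏ j, τ ^ ((l j : ℤ) * γ j) := by
      refine Finset.prod_congr rfl fun j _ => ?_
      rw [zpow_mul, zpow_natCast]
    rw [h2, prod_zpow_sum, hl γ hγ, zpow_zero])
  have h2 : (fun i => ∑ j, ((τ ^ l j : (RatFunc K)ˣ) : RatFunc K) *
      algebraMap K (RatFunc K) (u j * v j i)) =
      fun i => algebraMap (Polynomial K) (RatFunc K) (curve l v u i) := by
    funext i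
    unfold curve
    rw [map_sum]
    refine Finset.sum_congr rfl fun j _ => ?_
    rw [map_mul (algebraMap (Polynomial K) (RatFunc K)), map_pow, RatFunc.algebraMap_X,
      RatFunc.algebraMap_C, Units.val_pow_eq_pow_val, hτ, Units.val_mk0, mul_comm]
    rfl
  rw [h2] at h1
  have h3 : aeval (fun i => algebraMap (Polynomial K) (RatFunc K) (curve l v u i)) F =
      algebraMap (Polynomial K) (RatFunc K) (aeval (curve l v u) F) :=
    MvPolynomial.aeval_algebraMap_apply (RatFunc K) _ F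
  rw [h3] at h1
  exact (map_eq_zero_iff _ (RatFunc.algebraMap_injective K)).1 h1

/-- a sum over a union of blocks vanishes -/
lemma sum_blocks {A J : Type} [AddCommMonoid A] [Fintype J] (g : J → A) (R : J → J → Prop)
    (hR : Equivalence R)
    (hb : ∀ (j0 : J) (B : Finset J), (∀ j, j ∈ B ↔ R j0 j) → ∑ j ∈ B, g j = 0)
    (B : Finset J) (hB : ∀ i ∈ B, ∀ j, R i j → j ∈ B) : ∑ j ∈ B, g j = 0 := by
  classical
  let s : Setoid J := ⟨R, hR⟩
  rw [← Finset.sum_fiberwise_of_maps_to (g := fun j => (Quotient.mk s j))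
    (t := B.image fun j => Quotient.mk s j) (fun j hj => Finset.mem_image_of_mem _ hj)]
  refine Finset.sum_eq_zero fun q hq => ?_
  obtain ⟨j0, hj0, rfl⟩ := Finset.mem_image.1 hq
  refine hb j0 _ fun j => ?_
  rw [Finset.mem_filter]
  constructor
  · rintro ⟨-, h⟩
    exact hR.symm (Quotient.exact h)
  · intro h
    exact ⟨hB j0 hj0 j h, Quotient.sound (hR.symm h)⟩

end Pool.Agent.V8H29.FS
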