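import Mathlib
import Pool.Agent.V8H29.FS1
import Pool.Agent.W603.PV.Hgt

/-!
# Short sums over function fields: heights
-/

set_option autoImplicit false

namespace Pool.Agent.V8H29.FS

open MvPolynomial FF Pool.Agent.W603.LV Pool.Agent.W603.PV

/-- `γ` is a rational combination of `E` of bounded size -/
def Cmb {r : ℕ} (E : Finset (Fin r → ℤ)) (γ : Fin r → ℤ) (M : ℕ) : Prop :=
  ∃ (m : ℤ) (a : (Fin r → ℤ) → ℤ), m ≠ 0 ∧ m • γ = ∑ δ ∈ E, a δ • δ ∧ ∑ δ ∈ E, |a δ| ≤ M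

lemma Cmb.mono {r : ℕ} {E : Finset (Fin r → ℤ)} {γ : Fin r → ℤ} {M M' : ℕ} (h : Cmb E γ M)
    (hM : M ≤ M') : Cmb E γ M' := by
  obtain ⟨m, a, h1, h2, h3⟩ := h
  exact ⟨m, a, h1, h2, h3.trans (by exact_mod_cast hM)⟩

lemma exists_Cmb {r : ℕ} {E : Finset (Fin r → ℤ)} {γ : Fin r → ℤ} (h : γ ∈ Sat E) :
    ∃ M, Cmb E γ M := by
  obtain ⟨m, a, h1, h2⟩ := Sat_comb h
  refine ⟨(∑ δ ∈ E, |a δ|).toNat, m, a, h1, h2, ?_⟩
  rw [Int.toNat_of_nonneg (Finset.sum_nonneg fun _ _ => abs_nonneg _)]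

/-- the combinatorial data of a set of small exponents -/
structure Dat {r : ℕ} (D E : Finset (Fin r → ℤ)) (M : ℕ) where
  S : Finset (Fin r → ℤ)
  l : Fin r → ℕ
  ρ : Fin r → Fin r → ℤ
  clS : AddSubgroup.closure (S : Set (Fin r → ℤ)) = Sat E
  lE : ∀ γ ∈ Sat E, ∑ j, (l j : ℤ) * γ j = 0
  lD : ∀ γ ∈ D, γ ∉ Sat E → ∑ j, (l j : ℤ) * γ j ≠ 0
  ρE : ∀ j, ρ j ∈ Sat E
  ρret : ∀ γ ∈ Sat E, ∀ i, γ i = ∑ j, γ j * ρ j i
  cD : ∀ γ ∈ D, γ ∈ Sat E → Cmb E γ M
  cρ : ∀ j, Cmb E (ρ j) M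
  bS : ∀ γ ∈ S, ∀ j, |γ j| ≤ M
  bl : ∀ j, l j ≤ M

def Dat.mono {r : ℕ} {D E : Finset (Fin r → ℤ)} {M M' : ℕ} (d : Dat D E M) (hM : M ≤ M') :
    Dat D E M' where
  S := d.S
  l := d.l
  ρ := d.ρ
  clS := d.clS
  lE := d.lE
  lD := d.lD
  ρE := d.ρE
  ρret := d.ρret
  cD := fun γ h1 h2 => (d.cD γ h1 h2).mono hM
  cρ := fun j => (d.cρ j).mono hM
  bS := fun γ h j => (d.bS γ h j).trans (by exact_mod_cast hM)
  bl := fun j => (d.bl j).trans hM

theorem exists_dat {r : ℕ} (D E : Finset (Fin r → ℤ)) (hD : ∀ γ ∈ D, ∑ j, γ j = 0)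
    (hE : E ⊆ D) : ∃ M : ℕ, Nonempty (Dat D E M) := by
  classical
  have hE0 : ∀ γ ∈ E, ∑ j, γ j = 0 := fun γ h => hD γ (hE h)
  obtain ⟨S, hS⟩ := exists_gens (Sat E)
  obtain ⟨π, hπ1, hπ2⟩ := exists_retract (Sat E) (Sat_sat E)
  obtain ⟨l, hl1, hl2⟩ := weights (Sat E) (Sat_sat E) (fun γ h => Sat_sum hE0 h)
    (D.filter fun γ => γ ∉ Sat E) (fun z hz => hD z (Finset.mem_filter.1 hz).1)
    (fun z hz => (Finset.mem_filter.1 hz).2)
  set ρ : Fin r → Fin r → ℤ := fun j => π (Pi.single j 1) with hρ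
  have hρE : ∀ j, ρ j ∈ Sat E := fun j => hπ1 _
  have hc : ∀ γ : Fin r → ℤ, ∃ M, γ ∈ Sat E → Cmb E γ M := by
    intro γ
    by_cases h : γ ∈ Sat E
    · obtain ⟨M, hM⟩ := exists_Cmb h
      exact ⟨M, fun _ => hM⟩
    · exact ⟨0, fun h' => absurd h' h⟩
  choose M hM using hc
  set M1 := D.sup M with hM1
  set M2 := Finset.univ.sup (fun j => M (ρ j)) with hM2
  set M3 := S.sup (fun γ => Finset.univ.sup fun j => (γ j).natAbs) with hM3
  set M4 := Finset.univ.sup l with hM4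
  refine ⟨M1 + M2 + M3 + M4, ⟨⟨S, l, ρ, hS, hl1, fun γ h1 h2 => hl2 γ (Finset.mem_filter.2 ⟨h1, h2⟩),
    hρE, ?_, ?_, ?_, ?_, ?_⟩⟩⟩
  · intro γ hγ i
    have h1 : π γ = γ := hπ2 γ hγ
    have h2 : γ = ∑ j, γ j • (Pi.single j (1 : ℤ) : Fin r → ℤ) := by
      funext i
      rw [Finset.sum_apply]
      simp only [Pi.smul_apply, smul_eq_mul]
      rw [Finset.sum_eq_single i]
      · simp
      · intro j _ hj
        rw [Pi.single_eq_of_ne (Ne.symm hj)]
        simp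
      · intro h
        exact absurd (Finset.mem_univ i) h
    have h3 : γ = ∑ j, γ j • π (Pi.single j (1 : ℤ)) := by
      conv_lhs => rw [← h1, h2]
      rw [map_sum]
      exact Finset.sum_congr rfl fun j _ => map_smul _ _ _
    conv_lhs => rw [h3]
    rw [Finset.sum_apply]
    rfl
  · intro γ h1 h2
    refine (hM γ h2).mono ?_
    have := Finset.le_sup (f := M) h1
    omega
  · intro j
    refine (hM (ρ j) (hρE j)).mono ?_
    have := Finset.le_sup (f := fun j => M (ρ j)) (Finset.mem_univ j)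
    omega
  · intro γ hγ j
    have h4 : (γ j).natAbs ≤ M3 := by
      refine le_trans ?_ (Finset.le_sup (f := fun γ : Fin r → ℤ =>
        Finset.univ.sup fun j => (γ j).natAbs) hγ)
      exact Finset.le_sup (f := fun j => (γ j).natAbs) (Finset.mem_univ j)
    rw [Int.abs_eq_natAbs]
    exact_mod_cast (by omega : (γ j).natAbs ≤ M1 + M2 + M3 + M4)
  · intro j
    have := Finset.le_sup (f := l) (Finset.mem_univ j)
    omega

/-- one bound for all sets of exponents -/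
theorem exists_dat_unif {r : ℕ} (D : Finset (Fin r → ℤ)) (hD : ∀ γ ∈ D, ∑ j, γ j = 0) :
    ∃ M : ℕ, ∀ E ⊆ D, Nonempty (Dat D E M) := by
  classical
  have h : ∀ E : Finset (Fin r → ℤ), ∃ M : ℕ, E ⊆ D → Nonempty (Dat D E M) := by
    intro E
    by_cases hE : E ⊆ D
    · obtain ⟨M, hM⟩ := exists_dat D E hD hE
      exact ⟨M, fun _ => hM⟩
    · exact ⟨0, fun h => absurd h hE⟩
  choose M hM using h
  refine ⟨D.powerset.sup M, fun E hE => ?_⟩
  obtain ⟨d⟩ := hM E hE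
  exact ⟨d.mono (Finset.le_sup (f := M) (Finset.mem_powerset.2 hE))⟩

/-- the monomial in units -/
def mon {K : Type} [Field K] {r : ℕ} (u : Fin r → Kˣ) (γ : Fin r → ℤ) : Kˣ := ∏ j, u j ^ γ j

lemma mon_add {K : Type} [Field K] {r : ℕ} (u : Fin r → Kˣ) (γ δ : Fin r → ℤ) :
    mon u (γ + δ) = mon u γ * mon u δ := by
  unfold mon
  rw [← Finset.prod_mul_distrib]
  exact Finset.prod_congr rfl fun j _ => by rw [Pi.add_apply, zpow_add]

lemma mon_zero {K : Type} [Field K] {r : ℕ} (u : Fin r → Kˣ) : mon u 0 = 1 := by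
  unfold mon
  simp

lemma mon_smul {K : Type} [Field K] {r : ℕ} (u : Fin r → Kˣ) (m : ℤ) (γ : Fin r → ℤ) :
    mon u (m • γ) = mon u γ ^ m := by
  unfold mon
  rw [← Finset.prod_zpow]
  exact Finset.prod_congr rfl fun j _ => by rw [Pi.smul_apply, smul_eq_mul, mul_comm, zpow_mul]

lemma mon_sum {K ι : Type} [Field K] {r : ℕ} (u : Fin r → Kˣ) (s : Finset ι)
    (f : ι → Fin r → ℤ) : mon u (∑ i ∈ s, f i) = ∏ i ∈ s, mon u (f i) := by
  classical
  induction s using Finset.induction_on with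
  | empty => rw [Finset.sum_empty, Finset.prod_empty, mon_zero]
  | insert a s ha ih => rw [Finset.sum_insert ha, Finset.prod_insert ha, mon_add, ih]

lemma mon_dif {K : Type} [Field K] {r : ℕ} (u : Fin r → Kˣ) (α β : Fin r →₀ ℕ) :
    mon u (dif α β) = (∏ j, u j ^ α j) / ∏ j, u j ^ β j := by
  unfold mon
  rw [← Finset.prod_div_distrib]
  refine Finset.prod_congr rfl fun j _ => ?_
  unfold dif
  rw [zpow_sub, zpow_natCast, zpow_natCast, div_eq_mul_inv]

section heights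

variable {k K : Type} [Field k] [Field K] [Algebra k K]

lemma hgt_zero : hgt k (0 : K) = 0 := by
  unfold hgt
  rw [finsum_eq_zero_of_forall_eq_zero]
  intro P
  rw [P.ord_zero]
  rfl

lemma hgt_const (c : k) : hgt k (algebraMap k K c) = 0 := by
  unfold hgt
  rw [finsum_eq_zero_of_forall_eq_zero]
  intro P
  by_cases hc : c = 0
  · rw [hc, map_zero, P.ord_zero]; rfl
  · rw [P.ord_const hc]; rfl

variable [CharZero k] [IsFF k K]

lemma hgt_mul' (f g : K) : hgt k (f * g) ≤ hgt k f + hgt k g := by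
  by_cases hf : f = 0
  · rw [hf, zero_mul, hgt_zero, zero_add]
    exact hgt_nonneg _
  by_cases hg : g = 0
  · rw [hg, mul_zero, hgt_zero, add_zero]
    exact hgt_nonneg _
  exact hgt_mul hf hg

lemma hgt_add' (f g : K) : hgt k (f + g) ≤ hgt k f + hgt k g := by
  by_cases hf : f = 0
  · rw [hf, zero_add, hgt_zero, zero_add]
  by_cases hg : g = 0
  · rw [hg, add_zero, hgt_zero, add_zero]
  by_cases hfg : f + g = 0
  · rw [hfg, hgt_zero]
    exact add_nonneg (hgt_nonneg _) (hgt_nonneg _)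
  obtain ⟨T, hT⟩ := exists_supp (k := k) (Finset.univ : Finset (Fin 3)) ![f, g, f + g]
  have h1 : ∀ P : Place k K, P.ord f ≠ 0 → P ∈ T := fun P => hT 0 (Finset.mem_univ _) P
  have h2 : ∀ P : Place k K, P.ord g ≠ 0 → P ∈ T := fun P => hT 1 (Finset.mem_univ _) P
  have h3 : ∀ P : Place k K, P.ord (f + g) ≠ 0 → P ∈ T := fun P => hT 2 (Finset.mem_univ _) P
  rw [hgt_finset _ T h1, hgt_finset _ T h2, hgt_finset _ T h3, ← Finset.sum_add_distrib]
  refine Finset.sum_le_sum fun P _ => ?_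
  have := P.ord_add hf hg hfg
  omega

lemma hgt_sum' {ι : Type} (s : Finset ι) (f : ι → K) :
    hgt k (∑ i ∈ s, f i) ≤ ∑ i ∈ s, hgt k (f i) := by
  classical
  induction s using Finset.induction_on with
  | empty => simp [hgt_zero]
  | insert a s ha ih =>
    rw [Finset.sum_insert ha, Finset.sum_insert ha]
    have := hgt_add' (k := k) (f a) (∑ i ∈ s, f i)
    linarith

end heights

/-- heights of the values of integral polynomials -/
lemma hgt_int {ι : Type} (P : MvPolynomial ι ℤ) : ∃ c : ℤ, 0 ≤ c ∧ ∀ (k K : Type) [Field k]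
    [Field K] [Algebra k K] [CharZero k] [IsFF k K] (w : ι → K) (h : ℤ), 0 ≤ h →
    (∀ q, hgt k (w q) ≤ h) → hgt k (aeval w P) ≤ c * h := by
  induction P using MvPolynomial.induction_on with
  | C a =>
    refine ⟨0, le_rfl, fun k K _ _ _ _ _ w h h0 hw => ?_⟩
    have h1 : aeval w (C a : MvPolynomial ι ℤ) = algebraMap k K (a : k) := by
      rw [aeval_C]
      simp
    rw [h1, hgt_const, zero_mul]
  | add p q hp hq =>
    obtain ⟨c1, h1, h2⟩ := hp
    obtain ⟨c2, h3, h4⟩ := hq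
    refine ⟨c1 + c2, add_nonneg h1 h3, fun k K _ _ _ _ _ w h h0 hw => ?_⟩
    rw [map_add]
    have h5 := hgt_add' (k := k) (aeval w p) (aeval w q)
    have h6 := h2 k K w h h0 hw
    have h7 := h4 k K w h h0 hw
    linarith
  | mul_X p i hp =>
    obtain ⟨c1, h1, h2⟩ := hp
    refine ⟨c1 + 1, by linarith, fun k K _ _ _ _ _ w h h0 hw => ?_⟩
    rw [map_mul, aeval_X]
    have h5 := hgt_mul' (k := k) (aeval w p) (w i)
    have h6 := h2 k K w h h0 hw
    have h7 := hw i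
    linarith

/-- heights of the coefficients -/
lemma hgt_cc (n r e : ℕ) : ∃ c : ℤ, 0 ≤ c ∧ ∀ (k K : Type) [Field k]
    [Field K] [Algebra k K] [CharZero k] [IsFF k K] (F : MvPolynomial (Fin (n + 1)) K) (a : K)
    (w : Fin r × Fin (n + 1) → K) (h : ℤ), 0 ≤ h →
    (∀ β, hgt k (F.coeff β / a) ≤ h) → (∀ q, hgt k (w q) ≤ h) →
    ∀ α ∈ TT r e, hgt k (cc F e w α / a) ≤ c * h := by
  classical
  choose c hc0 hc using fun p : (Fin (n + 1) →₀ ℕ) × (Fin r →₀ ℕ) =>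
    hgt_int ((PP r p.1).coeff p.2)
  set C : (Fin r →₀ ℕ) → ℤ := fun α => ∑ β ∈ TT (n + 1) e, (1 + c (β, α)) with hC
  have hC0 : ∀ α, 0 ≤ C α := fun α => Finset.sum_nonneg fun β _ => by
    have := hc0 (β, α)
    linarith
  refine ⟨∑ α ∈ TT r e, C α, Finset.sum_nonneg fun α _ => hC0 α,
    fun k K _ _ _ _ _ F a w h h0 hF hw α hα => ?_⟩
  have h1 : cc F e w α / a = ∑ β ∈ TT (n + 1) e, (F.coeff β / a) *
      aeval w ((PP r β).coeff α) := by
    unfold cc
    rw [Finset.sum_div]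
    refine Finset.sum_congr rfl fun β _ => ?_
    ring
  rw [h1]
  refine (hgt_sum' _ _).trans ?_
  have h2 : ∀ β ∈ TT (n + 1) e, hgt k ((F.coeff β / a) * aeval w ((PP r β).coeff α)) ≤
      (1 + c (β, α)) * h := by
    intro β _
    have h3 := hgt_mul' (k := k) (F.coeff β / a) (aeval w ((PP r β).coeff α))
    have h4 := hF β
    have h5 := hc (β, α) k K w h h0 hw
    linarith
  refine (Finset.sum_le_sum h2).trans ?_
  rw [← Finset.sum_mul]
  exact mul_le_mul_of_nonneg_right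
    (Finset.single_le_sum (f := C) (fun α _ => hC0 α) hα) h0

/-- combinations of small exponents are small -/
lemma hgt_Cmb {k K : Type} [Field k] [Field K] [Algebra k K] [CharZero k] [IsFF k K]
    [IsAlgClosed k] {r : ℕ} (u : Fin r → Kˣ) {E : Finset (Fin r → ℤ)} {γ : Fin r → ℤ} {M : ℕ}
    (hγ : Cmb E γ M) {B : ℤ} (hB0 : 0 ≤ B) (hE : ∀ δ ∈ E, hgt k (mon u δ : K) ≤ B) :
    hgt k (mon u γ : K) ≤ M * B := by
  obtain ⟨m, a, hm, h1, h2⟩ := hγ
  have h3 : (mon u γ : K) ^ m = ∏ δ ∈ E, (mon u δ : K) ^ a δ := by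
    have h4 := congrArg (mon u) h1
    rw [mon_smul, mon_sum] at h4
    have h5 := congrArg (fun x : Kˣ => (x : K)) h4
    simp only [Units.val_zpow_eq_zpow_val, Units.coe_prod, mon_smul] at h5
    exact h5
  have h4 : hgt k ((mon u γ : K) ^ m) ≤ M * B := by
    rw [h3]
    refine (hgt_prod_le _ _ fun δ _ => zpow_ne_zero _ (Units.ne_zero _)).trans ?_
    have h5 : ∀ δ ∈ E, hgt k ((mon u δ : K) ^ a δ) ≤ |a δ| * B := by
      intro δ hδ
      rw [hgt_zpow (Units.ne_zero _)]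
      exact mul_le_mul_of_nonneg_left (hE δ hδ) (abs_nonneg _)
    refine (Finset.sum_le_sum h5).trans ?_
    rw [← Finset.sum_mul]
    exact mul_le_mul_of_nonneg_right h2 hB0
  rw [hgt_zpow (Units.ne_zero _)] at h4
  have h5 : (1 : ℤ) ≤ |m| := Int.one_le_abs hm
  have h6 := hgt_nonneg (k := k) (mon u γ : K)
  nlinarith

end Pool.Agent.V8H29.FS
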