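import Mathlib
import Pool.Agent.V8H29.FS2

/-!
# Short sums over function fields: the class sums vanish
-/

set_option autoImplicit false

namespace Pool.Agent.V8H29.FS

open MvPolynomial FF Pool.Agent.W603.LV Pool.Agent.W603.PV

/-- the number of zeros and poles of finitely many functions -/
lemma card_supp {k K : Type} [Field k] [Field K] [Algebra k K] [CharZero k] [IsFF k K]
    [IsAlgClosed k] {ι : Type} (s : Finset ι) (c : ι → K) :
    ∃ T : Finset (Place k K), (∀ i ∈ s, ∀ P : Place k K, P.ord (c i) ≠ 0 → P ∈ T) ∧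
      (T.card : ℤ) ≤ 2 * ∑ i ∈ s, hgt k (c i) := by
  classical
  obtain ⟨T0, hT0⟩ := exists_supp (k := k) s c
  refine ⟨T0.filter fun P => ∃ i ∈ s, P.ord (c i) ≠ 0, fun i hi P hP => ?_, ?_⟩
  · exact Finset.mem_filter.2 ⟨hT0 i hi P hP, i, hi, hP⟩
  · have h1 := card_poles (k := k) (s ×ˢ (Finset.univ : Finset Bool))
      (fun p => if p.2 then c p.1 else (c p.1)⁻¹)
      (T0.filter fun P => ∃ i ∈ s, P.ord (c i) ≠ 0) (by
        intro P hP
        obtain ⟨i, hi, h⟩ := (Finset.mem_filter.1 hP).2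
        rcases lt_or_gt_of_ne h with h | h
        · exact ⟨(i, true), Finset.mem_product.2 ⟨hi, Finset.mem_univ _⟩, by simpa using h⟩
        · refine ⟨(i, false), Finset.mem_product.2 ⟨hi, Finset.mem_univ _⟩, ?_⟩
          simp only [Bool.false_eq_true, if_false]
          rw [P.ord_inv]
          omega)
    refine h1.trans (le_of_eq ?_)
    rw [Finset.sum_product, Finset.mul_sum]
    refine Finset.sum_congr rfl fun i _ => ?_
    simp only [Fintype.sum_bool, if_true, Bool.false_eq_true, if_false]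
    rw [hgt_inv]
    ring

/-- **The class sums vanish.** -/
theorem blocks_form (n r e : ℕ) : ∃ C : ℤ, 0 ≤ C ∧ ∀ (k K : Type) [Field k] [Field K]
    [Algebra k K] [CharZero k] [IsFF k K] [IsAlgClosed k] (S : Finset (Place k K)) (N : ℕ),
    0 < N → ((TT r e).card - 1) ^ 2 ≤ N → ∀ (u : Fin r → Kˣ),
    (∀ P ∉ S, ∀ i j, (N : ℤ) ∣ P.ord (u i : K) - P.ord (u j : K)) →
    ∀ (F : MvPolynomial (Fin (n + 1)) K) (a : K), a ≠ 0 → ∀ (w : Fin r × Fin (n + 1) → K) (h : ℤ),
    0 ≤ h → (∀ β, hgt k (F.coeff β / a) ≤ h) → (∀ q, hgt k (w q) ≤ h) →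
    ∑ α ∈ TT r e, cc F e w α * ∏ j, (u j : K) ^ α j = 0 →
    ∀ (B : ℤ), C * N * (max (canDeg k K + S.card) 0 + h) ≤ B → ∀ (l : Fin r → ℕ),
    (∀ α ∈ TT r e, ∀ β ∈ TT r e, hgt k (mon u (dif α β) : K) ≤ B →
      ∑ j, l j * α j = ∑ j, l j * β j) →
    ∀ m, CS l (fun j => (u j : K)) (cc F e w) e m = 0 := by
  classical
  obtain ⟨c, hc0, hc⟩ := hgt_cc n r e
  set s : ℕ := (TT r e).card with hs
  refine ⟨s * (tri s * (1 + 2 * s * c)) + 2 * c, by
    have := tri_nonneg s
    positivity, ?_⟩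
  intro k K _ _ _ _ _ _ S N hN0 hN u hdvd F a ha w h h0 hF hw hsum B hB l hl m
  have hca : ∀ α ∈ TT r e, hgt k (cc F e w α / a) ≤ c * h := fun α hα =>
    hc k K F a w h h0 hF hw α hα
  -- the nonzero terms
  set J : Finset (Fin r →₀ ℕ) := (TT r e).filter fun α => cc F e w α ≠ 0 with hJ
  have hJT : J ⊆ TT r e := Finset.filter_subset _ _
  have hJs : J.card ≤ s := Finset.card_le_card hJT
  obtain ⟨T, hT, hTc⟩ := card_supp (k := k) J fun α => cc F e w α / a
  set g : J → K := fun α => cc F e w α * ∏ j, (u j : K) ^ (α : Fin r →₀ ℕ) j with hg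
  have hg0 : ∀ α, g α ≠ 0 := fun α => mul_ne_zero (Finset.mem_filter.1 α.2).2
    (Finset.prod_ne_zero_iff.2 fun j _ => pow_ne_zero _ (Units.ne_zero _))
  have hgsum : ∑ α, g α = 0 := by
    rw [← hsum]
    rw [hg]
    rw [Finset.sum_coe_sort J (fun α => cc F e w α * ∏ j, (u j : K) ^ (α : Fin r →₀ ℕ) j)]
    refine Finset.sum_subset hJT fun α hα hαJ => ?_
    have h1 : cc F e w α = 0 := by
      by_contra hne
      exact hαJ (Finset.mem_filter.2 ⟨hα, hne⟩)
    rw [h1, zero_mul]
  have hord : ∀ (P : Place k K) (α : Fin r →₀ ℕ),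
      P.ord (∏ j, (u j : K) ^ α j) = ∑ j, (α j : ℤ) * P.ord (u j : K) := by
    intro P α
    have h1 : ∀ s : Finset (Fin r), P.ord (∏ j ∈ s, (u j : K) ^ α j) =
        ∑ j ∈ s, (α j : ℤ) * P.ord (u j : K) := by
      intro s
      induction s using Finset.induction_on with
      | empty => rw [Finset.prod_empty, Finset.sum_empty, P.ord_one]
      | insert b s hb ih =>
        rw [Finset.prod_insert hb, Finset.sum_insert hb, P.ord_mul (pow_ne_zero _ (Units.ne_zero _))
          (Finset.prod_ne_zero_iff.2 fun j _ => pow_ne_zero _ (Units.ne_zero _)), ih, P.ord_pow]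
    exact h1 _
  have hdeg : ∀ α ∈ TT r e, ∑ j, (α j : ℤ) = e := by
    intro α hα
    have h1 := mem_TT.1 hα
    rw [Finsupp.degree_eq_sum] at h1
    exact_mod_cast h1
  have hdvd' : ∀ P ∉ S ∪ T, ∀ i j, (N : ℤ) ∣ P.ord (g i) - P.ord (g j) := by
    intro P hP i j
    have hPS : P ∉ S := fun h => hP (Finset.mem_union_left _ h)
    have hPT : P ∉ T := fun h => hP (Finset.mem_union_right _ h)
    have h1 : ∀ i : J, P.ord (cc F e w i) = P.ord a := by
      intro i
      have h2 : P.ord (cc F e w i / a) = 0 := by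
        by_contra hne
        exact hPT (hT i i.2 P hne)
      rw [P.ord_div (Finset.mem_filter.1 i.2).2 ha] at h2
      linarith
    have h2 : ∀ i : J, P.ord (g i) = P.ord a + ∑ j, ((i : Fin r →₀ ℕ) j : ℤ) * P.ord (u j : K) := by
      intro i
      rw [hg]
      simp only
      rw [P.ord_mul (Finset.mem_filter.1 i.2).2
        (Finset.prod_ne_zero_iff.2 fun j _ => pow_ne_zero _ (Units.ne_zero _)), h1, hord]
    rw [h2, h2]
    rcases Nat.eq_zero_or_pos r with hr | hr
    · subst hr
      simp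
    have h3 : P.ord a + ∑ b, ((i : Fin r →₀ ℕ) b : ℤ) * P.ord (u b : K) -
        (P.ord a + ∑ b, ((j : Fin r →₀ ℕ) b : ℤ) * P.ord (u b : K)) =
        ∑ b, (((i : Fin r →₀ ℕ) b : ℤ) - ((j : Fin r →₀ ℕ) b : ℤ)) *
          (P.ord (u b : K) - P.ord (u ⟨0, hr⟩ : K)) := by
      have h4 := hdeg i (hJT i.2)
      have h5 := hdeg j (hJT j.2)
      simp only [sub_mul, mul_sub]
      simp only [Finset.sum_sub_distrib, ← Finset.sum_mul]
      rw [h4, h5]
      ring
    rw [h3]
    exact Finset.dvd_sum fun b _ => (hdvd P hPS b _).mul_left _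
  obtain ⟨R, hR, hR1, hR2⟩ := blocks (S ∪ T) (J := J) (N := N) (s := s) (by simpa using hJs) hN0 hN
    g hg0 hgsum hdvd'
  -- the heights in a block
  have hχ : max (canDeg k K + (S ∪ T).card) 0 ≤
      max (canDeg k K + S.card) 0 + 2 * s * (c * h) := by
    have h1 : ((S ∪ T).card : ℤ) ≤ S.card + T.card := by exact_mod_cast Finset.card_union_le S T
    have h2 : (T.card : ℤ) ≤ 2 * s * (c * h) := by
      refine hTc.trans ?_
      have h3 : ∑ i ∈ J, hgt k (cc F e w i / a) ≤ J.card * (c * h) := by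
        have h4 := Finset.sum_le_card_nsmul J (fun i => hgt k (cc F e w i / a)) (c * h)
          (fun i hi => hca i (hJT hi))
        simpa using h4
      have h4 : (J.card : ℤ) * (c * h) ≤ s * (c * h) :=
        mul_le_mul_of_nonneg_right (by exact_mod_cast hJs) (by positivity)
      linarith
    have h3 : 0 ≤ 2 * (s : ℤ) * (c * h) := by positivity
    apply max_le
    · have := le_max_left (canDeg k K + (S.card : ℤ)) 0
      linarith
    · have := le_max_right (canDeg k K + (S.card : ℤ)) 0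
      linarith
  have hRs : ∀ i j : J, R i j → hgt k (mon u (dif i j) : K) ≤ B := by
    intro i j hij
    have h1 := hR1 i j hij
    have hi0 := (Finset.mem_filter.1 i.2).2
    have hj0 := (Finset.mem_filter.1 j.2).2
    have h2 : (mon u (dif i j) : K) =
        (g i / g j) * ((cc F e w j / a) * (cc F e w i / a)⁻¹) := by
      rw [mon_dif]
      have h3 : (∏ b, (u b : K) ^ (j : Fin r →₀ ℕ) b) ≠ 0 :=
        Finset.prod_ne_zero_iff.2 fun j _ => pow_ne_zero _ (Units.ne_zero _)
      rw [hg]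
      simp only
      push_cast
      field_simp
    rw [h2]
    have h3 := hgt_mul' (k := k) (g i / g j) ((cc F e w j / a) * (cc F e w i / a)⁻¹)
    have h4 := hgt_mul' (k := k) (cc F e w j / a) (cc F e w i / a)⁻¹
    rw [hgt_inv] at h4
    have h5 := hca i (hJT i.2)
    have h6 := hca j (hJT j.2)
    refine le_trans ?_ hB
    have h7 : (s : ℤ) * (N * tri s * max (canDeg k K + (S ∪ T).card) 0) ≤
        s * (N * tri s * (max (canDeg k K + S.card) 0 + 2 * s * (c * h))) := by
      have := tri_nonneg s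
      gcongr
    set χ := max (canDeg k K + (S.card : ℤ)) 0 with hχd
    have hχ0 : 0 ≤ χ := le_max_right _ _
    have hN1 : (1 : ℤ) ≤ N := by exact_mod_cast hN0
    have ht := tri_nonneg s
    have h8 : (s : ℤ) * (N * tri s * (χ + 2 * s * (c * h))) + 2 * (c * h) ≤
        (s * (tri s * (1 + 2 * s * c)) + 2 * c) * N * (χ + h) := by
      have e1 : (s * (tri s * (1 + 2 * s * c)) + 2 * c) * N * (χ + h) -
          ((s : ℤ) * (N * tri s * (χ + 2 * s * (c * h))) + 2 * (c * h)) =
          s * tri s * N * h + s * tri s * (2 * s * c) * N * χ + 2 * c * N * χ +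
            2 * c * h * (N - 1) := by ring
      have e2 : 0 ≤ s * tri s * N * h + s * tri s * (2 * s * c) * N * χ + 2 * c * N * χ +
            2 * c * h * (N - 1) := by
        have : (0 : ℤ) ≤ N - 1 := by linarith
        positivity
      linarith
    linarith
  -- the class sum
  unfold CS
  have h1 : ∑ α ∈ TT r e with ∑ j, l j * α j = m, cc F e w α * ∏ j, (u j : K) ^ α j =
      ∑ α ∈ (Finset.univ : Finset J).filter (fun α : J => ∑ j, l j * (α : Fin r →₀ ℕ) j = m), g α := by
    rw [Finset.sum_filter, Finset.sum_filter]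
    rw [hg]
    simp only
    rw [Finset.sum_coe_sort J (fun α => if ∑ j, l j * (α : Fin r →₀ ℕ) j = m then
      cc F e w α * ∏ j, (u j : K) ^ (α : Fin r →₀ ℕ) j else 0)]
    refine (Finset.sum_subset hJT fun α hα hαJ => ?_).symm
    have h1 : cc F e w α = 0 := by
      by_contra hne
      exact hαJ (Finset.mem_filter.2 ⟨hα, hne⟩)
    rw [h1, zero_mul, ite_self]
  rw [h1]
  refine sum_blocks g R hR hR2 _ fun i hi j hij => ?_
  rw [Finset.mem_filter] at hi ⊢
  refine ⟨Finset.mem_univ _, ?_⟩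
  rw [← hl i (hJT i.2) j (hJT j.2) (hRs i j hij)]
  exact hi.2

end Pool.Agent.V8H29.FS
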