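import Mathlib
import Pool.Agent.V8H29.FS3

/-!
# Short sums over function fields: the structure theorem
-/

set_option autoImplicit false

namespace Pool.Agent.V8H29.FS

open MvPolynomial FF Pool.Agent.W603.LV Pool.Agent.W603.PV

theorem aeval_smul_homog {n e : ℕ} {R S : Type} [CommRing R] [CommRing S] [Algebra R S]
    (F : MvPolynomial (Fin (n + 1)) R) (hF : F.IsHomogeneous e) (g : S) (q : Fin (n + 1) → S) :
    aeval (fun i => g * q i) F = g ^ e * aeval q F := by
  rw [aeval_def, aeval_def, eval₂_eq', eval₂_eq', Finset.mul_sum]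
  refine Finset.sum_congr rfl fun s hs' => ?_
  have h1 := hF (mem_support_iff.1 hs')
  rw [Finsupp.weight_apply, Finsupp.sum_fintype _ _ (by simp)] at h1
  have h2 : ∑ i, s i = e := by simpa using h1
  simp_rw [mul_pow]
  rw [Finset.prod_mul_distrib, Finset.prod_pow_eq_pow_sum, h2]
  ring

/-- the Euler characteristic, or zero if it is negative -/
noncomputable def chi {k K : Type} [Field k] [Field K] [Algebra k K] (S : Finset (Place k K)) : ℤ :=
  max (canDeg k K + S.card) 0

/-- the set of forms `FF` of degree at most `d`: the ratios of the coefficients have height at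
most `h` -/
def FormsLe (k : Type) {K : Type} [Field k] [Field K] [Algebra k K] {n : ℕ} (d : ℕ) (h : ℤ)
    (FF : Set (MvPolynomial (Fin (n + 1)) K)) : Prop :=
  ∀ F ∈ FF, (∃ e ≤ d, F.IsHomogeneous e) ∧ ∀ β β', hgt k (F.coeff β / F.coeff β') ≤ h

/-- the ratios of the coordinates of the vectors have height at most `h` -/
def VecLe (k : Type) {K : Type} [Field k] [Field K] [Algebra k K] {n r : ℕ} (h : ℤ)
    (v : Fin r → Fin (n + 1) → K) : Prop :=
  ∀ j i j' i', hgt k (v j i / v j' i') ≤ h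

/-- the structure of the point `∑ u_j v_j` -/
def TorusStructure (k : Type) {K : Type} [Field k] [Field K] [Algebra k K] {n r : ℕ}
    (FF : Set (MvPolynomial (Fin (n + 1)) K)) (v : Fin r → Fin (n + 1) → K) (u : Fin r → Kˣ)
    (B : ℤ) (L : ℕ) : Prop :=
  ∃ (S : Finset (Fin r → ℤ)) (u' : Fin r → Kˣ),
    (∀ γ ∈ S, ∑ j, γ j = 0 ∧ ∀ j, |γ j| ≤ L) ∧
    (∀ (m : ℤ) (γ : Fin r → ℤ), m ≠ 0 → m • γ ∈ AddSubgroup.closure (S : Set (Fin r → ℤ)) →
      γ ∈ AddSubgroup.closure (S : Set (Fin r → ℤ))) ∧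
    (∀ j, u' j ∈ Subgroup.closure (Set.range u) ∧ hgt k (u' j : K) ≤ B) ∧
    (∀ γ ∈ S, ∏ j, (u j / u' j) ^ γ j = 1) ∧
    (∀ (A : Type) [CommRing A] [Algebra K A] (t : Fin r → Aˣ), (∀ γ ∈ S, ∏ j, t j ^ γ j = 1) →
      ∀ F ∈ FF, aeval (fun i => ∑ j, (t j : A) * algebraMap K A (u j * v j i)) F = 0) ∧
    (pt v u ≠ 0 → pht k (pt v u) ≤ B ∨ ∃ l : Fin r → ℕ, (∀ j, l j ≤ L) ∧
      (∀ γ ∈ S, ∑ j, (l j : ℤ) * γ j = 0) ∧ Nonconst (curve l v u))

lemma exists_normal {k K ι : Type} [Field k] [Field K] [Algebra k K] (v : ι → K) {h : ℤ}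
    (h0 : 0 ≤ h) (hv : ∀ q q', hgt k (v q / v q') ≤ h) :
    ∃ a : K, a ≠ 0 ∧ ∀ q, hgt k (v q / a) ≤ h := by
  by_cases hz : ∃ q, v q ≠ 0
  · obtain ⟨q, hq⟩ := hz
    exact ⟨v q, hq, fun q' => hv q' q⟩
  · push Not at hz
    refine ⟨1, one_ne_zero, fun q => ?_⟩
    rw [hz q, zero_div, hgt_zero]
    exact h0

/-- if the curve is constant, the point has small height -/
theorem const_small {k K : Type} [Field k] [Field K] [Algebra k K] [CharZero k] [IsFF k K]
    [IsAlgClosed k] {n r : ℕ} (l : Fin r → ℕ) (v : Fin r → Fin (n + 1) → K) (u : Fin r → Kˣ)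
    {h B : ℤ} (h0 : 0 ≤ h) (hB : 0 ≤ B) (hv : VecLe k h v)
    (hl : ∀ j j', l j = l j' → hgt k ((u j : K) / u j') ≤ B) (hx : pt v u ≠ 0)
    (hc : ¬ Nonconst (curve l v u)) :
    pht k (pt v u) ≤ (n + 1) * (2 * (r * (h + B))) := by
  classical
  obtain ⟨a, ha, hva⟩ := exists_normal (k := k) (fun q : Fin r × Fin (n + 1) => v q.1 q.2) h0
    (fun q q' => hv _ _ _ _)
  have hchar : CharZero K := charZero_of_injective_algebraMap (algebraMap k K).injective
  obtain ⟨i₀, hi₀⟩ := Function.ne_iff.1 hx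
  have hi₀ : pt v u i₀ ≠ 0 := hi₀
  -- a part which does not vanish
  have hpart : ∃ j₀ : Fin r, ∑ j with l j = l j₀, (u j : K) * v j i₀ ≠ 0 := by
    by_contra hcon
    push Not at hcon
    apply hi₀
    unfold pt
    rw [← Finset.sum_fiberwise_of_maps_to (g := l) (t := Finset.univ.image l)
      (fun j hj => Finset.mem_image_of_mem _ hj)]
    refine Finset.sum_eq_zero fun m hm => ?_
    obtain ⟨j₀, -, rfl⟩ := Finset.mem_image.1 hm
    exact hcon j₀
  obtain ⟨j₀, hj₀⟩ := hpart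
  -- proportionality
  have hprop : ∀ i, (∑ j with l j = l j₀, (u j : K) * v j i) * pt v u i₀ =
      (∑ j with l j = l j₀, (u j : K) * v j i₀) * pt v u i := by
    intro i
    have h1 : ∀ b c : K, (curve l v u i).eval b * (curve l v u i₀).eval c =
        (curve l v u i₀).eval b * (curve l v u i).eval c := by
      intro b c
      by_contra hne
      exact hc ⟨i, i₀, b, c, hne⟩
    have h2 : (curve l v u i) * Polynomial.C ((curve l v u i₀).eval 1) =
        (curve l v u i₀) * Polynomial.C ((curve l v u i).eval 1) := by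
      apply Polynomial.funext
      intro b
      rw [Polynomial.eval_mul, Polynomial.eval_mul, Polynomial.eval_C, Polynomial.eval_C]
      exact h1 b 1
    have h3 := congrArg (fun p => Polynomial.coeff p (l j₀)) h2
    simp only [Polynomial.coeff_mul_C] at h3
    rw [curve_coeff, curve_coeff, curve_eval_one, curve_eval_one] at h3
    exact h3
  -- the part divided by a unit
  set Y : Fin (n + 1) → K := fun i =>
    ∑ j with l j = l j₀, (v j i / a) * ((u j : K) / u j₀) with hY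
  have hYe : ∀ i, ∑ j with l j = l j₀, (u j : K) * v j i = Y i * (a * u j₀) := by
    intro i
    rw [hY]
    simp only
    rw [Finset.sum_mul]
    refine Finset.sum_congr rfl fun j _ => ?_
    have := Units.ne_zero (u j₀)
    field_simp
  have hYs : ∀ i, hgt k (Y i) ≤ r * (h + B) := by
    intro i
    refine (hgt_sum' _ _).trans ?_
    have h1 : ∀ j ∈ Finset.univ.filter (fun j => l j = l j₀),
        hgt k ((v j i / a) * ((u j : K) / u j₀)) ≤ h + B := by
      intro j hj
      have h2 := hgt_mul' (k := k) (v j i / a) ((u j : K) / u j₀)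
      have h3 := hva (j, i)
      have h4 := hl j j₀ (Finset.mem_filter.1 hj).2
      simp only at h3
      linarith
    have h2 := Finset.sum_le_card_nsmul _ _ _ h1
    refine h2.trans ?_
    rw [nsmul_eq_mul]
    have h3 : (Finset.univ.filter (fun j => l j = l j₀)).card ≤ r := by
      have := Finset.card_filter_le (Finset.univ : Finset (Fin r)) (fun j => l j = l j₀)
      simpa using this
    exact mul_le_mul_of_nonneg_right (by exact_mod_cast h3) (by positivity)
  have hau : a * (u j₀ : K) ≠ 0 := mul_ne_zero ha (Units.ne_zero _)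
  have hY0 : Y i₀ ≠ 0 := by
    rw [hYe] at hj₀
    exact left_ne_zero_of_mul hj₀
  have hrat : ∀ i, pt v u i / pt v u i₀ = Y i * (Y i₀)⁻¹ := by
    intro i
    have h1 := hprop i
    rw [hYe, hYe] at h1
    rw [← div_eq_mul_inv, div_eq_div_iff hi₀ hY0]
    apply mul_right_cancel₀ hau
    linear_combination -h1
  refine (pht_le (k := k) (pt v u) hi₀).trans ?_
  have h1 : ∀ i ∈ (Finset.univ : Finset (Fin (n + 1))), hgt k (pt v u i / pt v u i₀) ≤
      2 * (r * (h + B)) := by
    intro i _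
    rw [hrat]
    have h2 := hgt_mul' (k := k) (Y i) (Y i₀)⁻¹
    rw [hgt_inv] at h2
    have h3 := hYs i
    have h4 := hYs i₀
    linarith
  have h2 := Finset.sum_le_card_nsmul _ _ _ h1
  simpa using h2

/-- **The structure theorem over function fields.** -/
theorem torusStructure (n d r : ℕ) : ∃ C L N0 : ℕ, 0 < N0 ∧ ∀ (k K : Type) [Field k] [Field K]
    [Algebra k K] [CharZero k] [IsFF k K] [IsAlgClosed k] (S : Finset (Place k K)) (N : ℕ),
    N0 ≤ N → ∀ (u : Fin r → Kˣ),
    (∀ P ∉ S, ∀ i j, (N : ℤ) ∣ P.ord (u i : K) - P.ord (u j : K)) →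
    ∀ (h : ℤ), 0 ≤ h → ∀ (v : Fin r → Fin (n + 1) → K), VecLe k h v →
    ∀ (FF : Set (MvPolynomial (Fin (n + 1)) K)), FormsLe k d h FF →
    (∀ F ∈ FF, aeval (pt v u) F = 0) →
    TorusStructure k FF v u (C * N * (chi S + h)) L := by
  classical
  set d' := max d 1 with hd'
  obtain ⟨s0, hs0⟩ : ∃ s0 : ℕ, s0 = ∑ e ∈ Finset.range (d + 1), (TT r e).card := ⟨_, rfl⟩
  choose Ce hCe0 hCe using fun e => blocks_form n r e
  obtain ⟨C1, hC1⟩ : ∃ C1 : ℤ, C1 = ∑ e ∈ Finset.range (d + 1), Ce e := ⟨_, rfl⟩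
  have hC10 : 0 ≤ C1 := by
    rw [hC1]
    exact Finset.sum_nonneg fun e _ => hCe0 e
  set D : Finset (Fin r → ℤ) := (Finset.range (d' + 1)).biUnion fun e =>
    ((TT r e) ×ˢ (TT r e)).image fun p => dif p.1 p.2 with hD
  have hDm : ∀ e ≤ d', ∀ α ∈ TT r e, ∀ β ∈ TT r e, dif α β ∈ D := by
    intro e he α hα β hβ
    exact Finset.mem_biUnion.2 ⟨e, Finset.mem_range.2 (Nat.lt_succ_of_le he),
      Finset.mem_image.2 ⟨(α, β), Finset.mem_product.2 ⟨hα, hβ⟩, rfl⟩⟩
  have hD0 : ∀ γ ∈ D, ∑ j, γ j = 0 := by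
    intro γ hγ
    obtain ⟨e, -, h1⟩ := Finset.mem_biUnion.1 hγ
    obtain ⟨p, hp, rfl⟩ := Finset.mem_image.1 h1
    rw [Finset.mem_product, mem_TT, mem_TT] at hp
    exact dif_sum (hp.1.trans hp.2.symm)
  obtain ⟨M, hM⟩ := exists_dat_unif D hD0
  obtain ⟨C, hC⟩ : ∃ C : ℤ, C = M * C1 + (n + 1) * (2 * (r * (1 + M * C1))) := ⟨_, rfl⟩
  have hC0 : 0 ≤ C := by
    rw [hC]
    positivity
  refine ⟨C.toNat, M, s0 ^ 2 + 1, Nat.succ_pos _, ?_⟩
  intro k K _ _ _ _ _ _ S N hN u hdvd h h0 v hv FF hFF hz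
  rw [Int.toNat_of_nonneg hC0]
  have hN0 : 0 < N := by omega
  have hN1 : (1 : ℤ) ≤ N := by exact_mod_cast hN0
  set χ := chi S with hχ
  have hχ0 : 0 ≤ χ := le_max_right _ _
  set B1 : ℤ := C1 * N * (χ + h) with hB1
  have hB10 : 0 ≤ B1 := by positivity
  set E : Finset (Fin r → ℤ) := D.filter fun γ => hgt k (mon u γ : K) ≤ B1 with hE
  obtain ⟨dt⟩ := hM E (Finset.filter_subset _ _)
  have hEB : ∀ γ ∈ E, hgt k (mon u γ : K) ≤ B1 := fun γ hγ => (Finset.mem_filter.1 hγ).2
  have hMB : (M : ℤ) * B1 ≤ C * N * (χ + h) := by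
    have e1 : C * N * (χ + h) - M * B1 = (n + 1) * (2 * (r * (1 + M * C1))) * N * (χ + h) := by
      rw [hC, hB1]; ring
    have e2 : (0 : ℤ) ≤ (n + 1) * (2 * (r * (1 + M * C1))) * N * (χ + h) := by positivity
    linarith
  have hMB2 : ((n : ℤ) + 1) * (2 * (r * (h + M * B1))) ≤ C * N * (χ + h) := by
    have e1 : C * N * (χ + h) - (n + 1) * (2 * (r * (h + M * B1))) =
        M * C1 * N * (χ + h) + (n + 1) * (2 * (r * (N * χ + (N - 1) * h))) := by
      rw [hC, hB1]; ring
    have e3 : (0 : ℤ) ≤ N - 1 := by linarith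
    have e2 : (0 : ℤ) ≤ M * C1 * N * (χ + h) + (n + 1) * (2 * (r * (N * χ + (N - 1) * h))) := by
      positivity
    linarith
  -- equality of weights
  have hdifl : ∀ α β : Fin r →₀ ℕ, ∑ j, (dt.l j : ℤ) * dif α β j =
      ((∑ j, dt.l j * α j : ℕ) : ℤ) - (∑ j, dt.l j * β j : ℕ) := by
    intro α β
    push_cast
    rw [← Finset.sum_sub_distrib]
    refine Finset.sum_congr rfl fun j _ => ?_
    unfold dif
    ring
  have hl1 : ∀ α β : Fin r →₀ ℕ, dif α β ∈ Sat E → ∑ j, dt.l j * α j = ∑ j, dt.l j * β j := by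
    intro α β h1
    have h2 := dt.lE _ h1
    rw [hdifl, sub_eq_zero] at h2
    exact_mod_cast h2
  have hl2 : ∀ e ≤ d', ∀ α ∈ TT r e, ∀ β ∈ TT r e, ∑ j, dt.l j * α j = ∑ j, dt.l j * β j →
      dif α β ∈ Sat E := by
    intro e he α hα β hβ h1
    by_contra h2
    apply dt.lD _ (hDm e he α hα β hβ) h2
    rw [hdifl, h1, sub_self]
  -- normalised vectors
  obtain ⟨a, ha, hva⟩ := exists_normal (k := k) (fun q : Fin r × Fin (n + 1) => v q.1 q.2) h0
    (fun q q' => hv _ _ _ _)
  set w : Fin r × Fin (n + 1) → K := fun q => v q.1 q.2 / a with hw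
  have hvw : ∀ i, ∑ j, w (j, i) * (u j : K) = a⁻¹ * pt v u i := by
    intro i
    unfold pt
    rw [Finset.mul_sum]
    refine Finset.sum_congr rfl fun j _ => ?_
    rw [hw]
    simp only
    rw [div_eq_mul_inv]
    ring
  -- the class sums
  have hcs : ∀ F ∈ FF, ∀ e ≤ d, F.IsHomogeneous e → ∀ m,
      CS dt.l (fun j => (u j : K)) (cc F e w) e m = 0 := by
    intro F hF e he hom m
    obtain ⟨b, hb, hFb⟩ := exists_normal (k := k) (fun β => F.coeff β) h0 (hFF F hF).2
    have hem : e ∈ Finset.range (d + 1) := Finset.mem_range.2 (Nat.lt_succ_of_le he)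
    have hcard : (TT r e).card ≤ s0 := by
      rw [hs0]
      exact Finset.single_le_sum (f := fun e => (TT r e).card) (fun _ _ => Nat.zero_le _) hem
    have hCeC : Ce e ≤ C1 := by
      rw [hC1]
      exact Finset.single_le_sum (f := Ce) (fun e _ => hCe0 e) hem
    refine hCe e k K S N hN0 ?_ u hdvd F b hb w h h0 hFb (fun q => hva q) ?_ B1 ?_ dt.l ?_ m
    · have h1 : (TT r e).card - 1 ≤ s0 := by omega
      have h2 := Nat.pow_le_pow_left h1 2
      omega
    · have h1 := expand (B := K) hom w (fun j => (u j : K))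
      simp only [Algebra.algebraMap_self, RingHom.id_apply] at h1
      rw [← h1]
      have h2 : (fun i => ∑ j, w (j, i) * (u j : K)) = fun i => a⁻¹ * pt v u i :=
        funext hvw
      rw [h2, aeval_smul_homog _ hom, hz F hF, mul_zero]
    · have h1 : (0 : ℤ) ≤ χ + h := by positivity
      change Ce e * N * (χ + h) ≤ B1
      rw [hB1]
      gcongr
    · intro α hα β hβ h1
      exact hl1 α β (subset_Sat (Finset.mem_filter.2
        ⟨hDm e (he.trans (le_max_left _ _)) α hα β hβ, h1⟩))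
  -- the small representative
  set u' : Fin r → Kˣ := fun j => mon u (dt.ρ j) with hu'
  have hpow : ∀ γ : Fin r → ℤ, γ ∈ Sat E → ∏ j, u' j ^ γ j = ∏ j, u j ^ γ j := by
    intro γ hγ
    have h4 := dt.ρret γ hγ
    have h5 : γ = ∑ j, γ j • dt.ρ j := by
      funext i
      rw [Finset.sum_apply]
      exact h4 i
    calc ∏ j, u' j ^ γ j = ∏ j, mon u (γ j • dt.ρ j) := by
          refine Finset.prod_congr rfl fun j _ => ?_
          rw [hu', mon_smul]
      _ = mon u (∑ j, γ j • dt.ρ j) := (mon_sum u _ _).symm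
      _ = mon u γ := by rw [← h5]
      _ = ∏ j, u j ^ γ j := rfl
  have hSE : ∀ γ ∈ dt.S, γ ∈ Sat E := by
    intro γ hγ
    rw [← dt.clS]
    exact AddSubgroup.subset_closure hγ
  refine ⟨dt.S, u', fun γ hγ => ⟨?_, dt.bS γ hγ⟩, ?_, fun j => ⟨?_, ?_⟩, fun γ hγ => ?_, ?_, ?_⟩
  · exact Sat_sum (fun γ h => hD0 γ (Finset.mem_filter.1 h).1) (hSE γ hγ)
  · rw [dt.clS]
    exact Sat_sat E
  · exact Subgroup.prod_mem _ fun i _ =>
      Subgroup.zpow_mem _ (Subgroup.subset_closure (Set.mem_range_self i)) _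
  · exact (hgt_Cmb u (dt.cρ j) hB10 hEB).trans hMB
  · simp only [div_zpow]
    rw [Finset.prod_div_distrib, hpow γ (hSE γ hγ), div_self']
  · intro A _ _ t ht F hF
    obtain ⟨⟨e, hed, he⟩, -⟩ := hFF F hF
    have h5 := orbit_zero he dt.l (fun j => (u j : K)) w (hcs F hF e hed he)
      (dt.S : Set (Fin r → ℤ)) (by
        intro α hα β hβ hab
        rw [dt.clS]
        exact hl2 e (hed.trans (le_max_left _ _)) α hα β hβ hab) A t (fun γ hγ => ht γ hγ)
    have h6 : (fun i => ∑ j, algebraMap K A (w (j, i)) * ((t j : A) * algebraMap K A (u j)))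
        = fun i => algebraMap K A a⁻¹ *
          ∑ j, (t j : A) * algebraMap K A (u j * v j i) := by
      funext i
      rw [Finset.mul_sum]
      refine Finset.sum_congr rfl fun j _ => ?_
      rw [hw]
      simp only
      rw [div_eq_mul_inv, map_mul, map_mul]
      ring
    rw [h6, aeval_smul_homog _ he] at h5
    have h7 : IsUnit (algebraMap K A a⁻¹ ^ e) :=
      ((IsUnit.mk0 _ (inv_ne_zero ha)).map (algebraMap K A)).pow e
    exact (h7.mul_right_eq_zero).1 h5
  · intro hx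
    by_cases hn : Nonconst (curve dt.l v u)
    · exact Or.inr ⟨dt.l, dt.bl, fun γ hγ => dt.lE γ (hSE γ hγ), hn⟩
    · left
      refine (const_small dt.l v u h0 (B := M * B1) (by positivity) hv ?_ hx hn).trans hMB2
      intro j j' hjj
      have hsum : ∀ j : Fin r, ∑ i, dt.l i * (Finsupp.single j 1 : Fin r →₀ ℕ) i = dt.l j := by
        intro j
        rw [Finset.sum_eq_single j]
        · simp
        · intro i _ hi
          rw [Finsupp.single_apply, if_neg (Ne.symm hi), mul_zero]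
        · intro h
          exact absurd (Finset.mem_univ _) h
      have hprod : ∀ j : Fin r, (∏ i, u i ^ (Finsupp.single j 1 : Fin r →₀ ℕ) i : Kˣ) = u j := by
        intro j
        rw [Finset.prod_eq_single j]
        · simp
        · intro i _ hi
          rw [Finsupp.single_apply, if_neg (Ne.symm hi), pow_zero]
        · intro h
          exact absurd (Finset.mem_univ _) h
      have hT1 : ∀ j : Fin r, (Finsupp.single j 1 : Fin r →₀ ℕ) ∈ TT r 1 := fun j =>
        mem_TT.2 (Finsupp.degree_single _ _)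
      have h1 := hl2 1 (le_max_right _ _) _ (hT1 j) _ (hT1 j') (by rw [hsum, hsum, hjj])
      have h2 := hgt_Cmb u (dt.cD _ (hDm 1 (le_max_right _ _) _ (hT1 j) _ (hT1 j')) h1) hB10 hEB
      rw [mon_dif, hprod, hprod, Units.val_div_eq_div_val] at h2
      exact h2

end Pool.Agent.V8H29.FS
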