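import Mathlib
import Pool.Agent.V8H29.FS4

/-!
# Short sums over function fields: varieties over the constant field
-/

set_option autoImplicit false

namespace Pool.Agent.V8H29.FS

open MvPolynomial FF Pool.Agent.W603.LV Pool.Agent.W603.PV

/-- a point of a finitely generated algebra -/
lemma exists_hom (k A : Type) [Field k] [IsAlgClosed k] [CommRing A] [Nontrivial A] [Algebra k A]
    [Algebra.FiniteType k A] : Nonempty (A →ₐ[k] k) := by
  obtain ⟨m, hm⟩ := Ideal.exists_maximal A
  let _ : Field (A ⧸ m) := Ideal.Quotient.field m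
  have h1 : Algebra.FiniteType k (A ⧸ m) :=
    Algebra.FiniteType.of_surjective (Ideal.Quotient.mkₐ k m) (Ideal.Quotient.mkₐ_surjective k m)
  have h2 : Module.Finite k (A ⧸ m) := finite_of_finite_type_of_isJacobsonRing k (A ⧸ m)
  have h3 : Algebra.IsIntegral k (A ⧸ m) := inferInstance
  have h4 := IsAlgClosed.algebraMap_bijective_of_isIntegral (k := k) (K := A ⧸ m)
  exact ⟨(AlgEquiv.ofBijective (Algebra.ofId k (A ⧸ m)) h4).symm.toAlgHom.comp
    (Ideal.Quotient.mkₐ k m)⟩

/-- specialisation of finitely many elements -/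
lemma exists_spec {k K : Type} [Field k] [IsAlgClosed k] [Field K] [Algebra k K] (s : Finset K) :
    ∃ (A : Subalgebra k K) (φ : A →ₐ[k] k), (∀ x ∈ s, x ∈ A) ∧
      ∀ x ∈ s, x ≠ 0 → ∃ h : x ∈ A, φ ⟨x, h⟩ ≠ 0 := by
  classical
  set t : Finset K := s ∪ s.image fun x => x⁻¹ with ht
  set A : Subalgebra k K := Algebra.adjoin k (t : Set K) with hA
  have hfin : Algebra.FiniteType k A := by
    have h1 : A.FG := ⟨t, rfl⟩
    exact (Subalgebra.fg_iff_finiteType A).1 h1
  obtain ⟨φ⟩ := exists_hom k A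
  have hs : ∀ x ∈ s, x ∈ A := fun x hx =>
    Algebra.subset_adjoin (Finset.mem_coe.2 (Finset.mem_union_left _ hx))
  have hs' : ∀ x ∈ s, x⁻¹ ∈ A := fun x hx =>
    Algebra.subset_adjoin (Finset.mem_coe.2 (Finset.mem_union_right _
      (Finset.mem_image_of_mem _ hx)))
  refine ⟨A, φ, hs, fun x hx hx0 => ⟨hs x hx, fun h0 => ?_⟩⟩
  have h1 : (⟨x, hs x hx⟩ : A) * ⟨x⁻¹, hs' x hx⟩ = 1 := by
    apply Subtype.ext
    exact mul_inv_cancel₀ hx0
  have h2 := congrArg φ h1
  rw [map_mul, h0, zero_mul, map_one] at h2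
  exact zero_ne_one h2

/-- all nonconstant rational curves of degree at most `L` in `{FF = 0}` lie in `{GG = 0}` -/
def CurvesIn {k : Type} [Field k] {n : ℕ} (L : ℕ) (FF GG : Set (MvPolynomial (Fin (n + 1)) k)) :
    Prop :=
  ∀ q : Fin (n + 1) → Polynomial k, (∀ i, (q i).natDegree ≤ L) → (∀ F ∈ FF, aeval q F = 0) →
    Nonconst q → ∀ G ∈ GG, aeval q G = 0

/-- a nonconstant curve over `K` in a variety over `k` specialises to a nonconstant curve -/
theorem specialise {k K : Type} [Field k] [IsAlgClosed k] [CharZero k] [Field K] [Algebra k K]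
    {n L : ℕ} {FF GG : Set (MvPolynomial (Fin (n + 1)) k)} (hFG : CurvesIn L FF GG)
    (q : Fin (n + 1) → Polynomial K) (hqL : ∀ i, (q i).natDegree ≤ L)
    (hq : ∀ F ∈ FF, aeval q F = 0) (hn : Nonconst q) (b : K) (G : MvPolynomial (Fin (n + 1)) k)
    (hG : G ∈ GG) : aeval (fun i => (q i).eval b) G = 0 := by
  classical
  by_contra hGb
  obtain ⟨i, j, c, d, hcd⟩ := hn
  set δ : K := (q i).eval c * (q j).eval d - (q j).eval c * (q i).eval d with hδ
  have hδ0 : δ ≠ 0 := sub_ne_zero.2 hcd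
  set g : K := aeval (fun i => (q i).eval b) G with hg
  set cs : Finset K := (Finset.univ : Finset (Fin (n + 1))).biUnion fun i =>
    (Finset.range (L + 1)).image fun m => (q i).coeff m with hcs
  obtain ⟨A, φ, hA, hφ⟩ := exists_spec (k := k) (cs ∪ {b, c, d, δ, g})
  have hbA : b ∈ A := hA b (by simp)
  have hcA : c ∈ A := hA c (by simp)
  have hdA : d ∈ A := hA d (by simp)
  have hqA : ∀ i m, (q i).coeff m ∈ A := by
    intro i m
    by_cases hm : m ≤ L
    · apply hA
      refine Finset.mem_union_left _ (Finset.mem_biUnion.2 ⟨i, Finset.mem_univ _,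
        Finset.mem_image.2 ⟨m, Finset.mem_range.2 (Nat.lt_succ_of_le hm), rfl⟩⟩)
    · rw [Polynomial.coeff_eq_zero_of_natDegree_lt (lt_of_le_of_lt (hqL i) (not_le.1 hm))]
      exact A.zero_mem
  -- the curve over `A`
  set Q : Fin (n + 1) → Polynomial A := fun i =>
    ∑ m ∈ Finset.range (L + 1), Polynomial.C ⟨(q i).coeff m, hqA i m⟩ * Polynomial.X ^ m with hQ
  set ι : A →+* K := (algebraMap A K) with hι
  have hιinj : Function.Injective ι := Subtype.val_injective
  have hQq : ∀ i, (Q i).map ι = q i := by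
    intro i
    rw [hQ]
    simp only
    rw [Polynomial.map_sum]
    conv_rhs => rw [(q i).as_sum_range' (L + 1) (Nat.lt_succ_of_le (hqL i))]
    refine Finset.sum_congr rfl fun m _ => ?_
    rw [Polynomial.map_mul, Polynomial.map_C, Polynomial.map_pow, Polynomial.map_X,
      Polynomial.C_mul_X_pow_eq_monomial]
    rfl
  have hQF : ∀ F ∈ FF, aeval Q F = 0 := by
    intro F hF
    have h1 := hq F hF
    have h2 : Polynomial.mapRingHom ι (aeval Q F) = aeval q F := by
      rw [aeval_def, aeval_def, MvPolynomial.hom_eval₂]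
      congr 1
      · ext a
        simp only [RingHom.comp_apply, Polynomial.algebraMap_apply, Polynomial.coe_mapRingHom,
          Polynomial.map_C]
        rfl
      · funext i
        exact hQq i
    rw [h1] at h2
    exact (map_eq_zero_iff (Polynomial.mapRingHom ι)
      (Polynomial.map_injective ι hιinj)).1 h2
  -- the specialised curve
  set p : Fin (n + 1) → Polynomial k := fun i => (Q i).map (φ : A →+* k) with hp
  have hpF : ∀ F : MvPolynomial (Fin (n + 1)) k, aeval p F =
      Polynomial.mapRingHom (φ : A →+* k) (aeval Q F) := by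
    intro F
    rw [aeval_def, aeval_def, MvPolynomial.hom_eval₂]
    have h1 : algebraMap k (Polynomial k) =
        (Polynomial.mapRingHom (φ : A →+* k)).comp (algebraMap k (Polynomial A)) := by
      refine RingHom.ext fun a => ?_
      simp only [RingHom.comp_apply, Polynomial.algebraMap_apply, Polynomial.coe_mapRingHom,
        Polynomial.map_C]
      exact congrArg Polynomial.C (φ.commutes a).symm
    rw [h1]
    rfl
  have hev : ∀ (x : K) (hx : x ∈ A) (i : Fin (n + 1)), (p i).eval (φ ⟨x, hx⟩) =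
      φ ((Q i).eval ⟨x, hx⟩) := by
    intro x hx i
    exact Polynomial.eval_map_apply (φ : A →+* k) _
  have hQev : ∀ (x : K) (hx : x ∈ A) (i : Fin (n + 1)), (((Q i).eval ⟨x, hx⟩ : A) : K) =
      (q i).eval x := by
    intro x hx i
    have h1 : ι ((Q i).eval ⟨x, hx⟩) = ((Q i).map ι).eval (ι ⟨x, hx⟩) :=
      (Polynomial.eval_map_apply _ _).symm
    rw [hQq] at h1
    exact h1
  have hres := hFG p (fun i => by
      rw [hp]
      simp only
      refine (Polynomial.natDegree_map_le).trans ?_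
      rw [hQ]
      refine Polynomial.natDegree_sum_le_of_forall_le _ _ fun m hm => ?_
      exact (Polynomial.natDegree_C_mul_X_pow_le _ _).trans
        (Nat.le_of_lt_succ (Finset.mem_range.1 hm))) (fun F hF => by
      rw [hpF, hQF F hF, map_zero]) (by
      refine ⟨i, j, φ ⟨c, hcA⟩, φ ⟨d, hdA⟩, ?_⟩
      rw [hev, hev, hev, hev, ← map_mul, ← map_mul, ← sub_ne_zero, ← map_sub]
      obtain ⟨h1, h2⟩ := hφ δ (by simp) hδ0
      have h3 : (Q i).eval ⟨c, hcA⟩ * (Q j).eval ⟨d, hdA⟩ -
          (Q j).eval ⟨c, hcA⟩ * (Q i).eval ⟨d, hdA⟩ = (⟨δ, h1⟩ : A) := by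
        apply Subtype.ext
        rw [AddSubgroupClass.coe_sub, MulMemClass.coe_mul, MulMemClass.coe_mul, hQev, hQev, hQev,
          hQev]
      rw [h3]
      exact h2) G hG
  -- the value
  obtain ⟨h1, h2⟩ := hφ g (by simp) hGb
  apply h2
  have h3 : aeval (fun i => (Q i).eval ⟨b, hbA⟩) G = (⟨g, h1⟩ : A) := by
    apply Subtype.ext
    have h4 : ((aeval (fun i => (Q i).eval (⟨b, hbA⟩ : A)) G : A) : K) =
        aeval (fun i => (((Q i).eval (⟨b, hbA⟩ : A) : A) : K)) G := by
      have h5 := MvPolynomial.map_aeval (fun i => (Q i).eval (⟨b, hbA⟩ : A)) (A.val : A →+* K) G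
      rw [aeval_def, ← coe_eval₂Hom]
      refine (h5.trans ?_)
      congr 1
    rw [h4]
    change _ = g
    have h5 : (fun i => (((Q i).eval (⟨b, hbA⟩ : A) : A) : K)) = fun i => (q i).eval b :=
      funext fun i => hQev b hbA i
    rw [h5]
  rw [← h3]
  have h4 : φ (aeval (fun i => (Q i).eval (⟨b, hbA⟩ : A)) G) =
      aeval (fun i => φ ((Q i).eval (⟨b, hbA⟩ : A))) G := by
    have h5 := MvPolynomial.comp_aeval_apply (fun i => (Q i).eval (⟨b, hbA⟩ : A)) φ G
    exact h5
  rw [h4]
  have h5 : (fun i => φ ((Q i).eval (⟨b, hbA⟩ : A))) = fun i => (p i).eval (φ ⟨b, hbA⟩) := by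
    funext i
    rw [hev]
  rw [h5]
  have h6 := congrArg (Polynomial.evalRingHom (φ ⟨b, hbA⟩)) hres
  rw [map_zero, aeval_def, MvPolynomial.hom_eval₂] at h6
  rw [aeval_def, ← h6]
  congr 1
  ext a
  simp

end Pool.Agent.V8H29.FS
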