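import Mathlib
import Pool.Agent.V8H29.FS5

/-!
# Short sums over function fields: bounds outside the rational curves
-/

set_option autoImplicit false

namespace Pool.Agent.V8H29.FS

open MvPolynomial FF Pool.Agent.W603.LV Pool.Agent.W603.PV IntermediateField

/-- **Outside the rational curves of small degree.** -/
theorem off_special (n d r : ℕ) : ∃ C L N0 : ℕ, 0 < N0 ∧ ∀ (k K : Type) [Field k] [Field K]
    [Algebra k K] [CharZero k] [IsFF k K] [IsAlgClosed k]
    (F1 F2 : Set (MvPolynomial (Fin (n + 1)) k)), (∀ F ∈ F1, ∃ e ≤ d, F.IsHomogeneous e) →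
    CurvesIn L F1 F2 → ∀ (S : Finset (Place k K)) (N : ℕ), N0 ≤ N → ∀ (u : Fin r → Kˣ),
    (∀ P ∉ S, ∀ i j, (N : ℤ) ∣ P.ord (u i : K) - P.ord (u j : K)) →
    ∀ (h : ℤ), 0 ≤ h → ∀ (v : Fin r → Fin (n + 1) → K), VecLe k h v →
    pt v u ≠ 0 → (∀ F ∈ F1, aeval (pt v u) F = 0) → (∃ G ∈ F2, aeval (pt v u) G ≠ 0) →
    pht k (pt v u) ≤ C * N * (chi S + h) := by
  obtain ⟨C, L, N0, hN0, hmain⟩ := torusStructure n d r
  refine ⟨C, L, N0, hN0, ?_⟩
  intro k K _ _ _ _ _ _ F1 F2 hF1 hcur S N hN u hdvd h h0 v hv hx hz hG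
  have haev : ∀ (x : Fin (n + 1) → K) (F : MvPolynomial (Fin (n + 1)) k),
      aeval x (map (algebraMap k K) F) = aeval x F := fun x F => aeval_map_algebraMap K x F
  obtain ⟨S', u', -, -, -, -, h5, h6⟩ := hmain k K S N hN u hdvd h h0 v hv
    ((map (algebraMap k K)) '' F1) (by
      rintro _ ⟨F, hF, rfl⟩
      obtain ⟨e, he, hom⟩ := hF1 F hF
      refine ⟨⟨e, he, hom.map _⟩, fun β β' => ?_⟩
      rw [coeff_map, coeff_map, ← map_div₀, hgt_const]
      exact h0) (by
      rintro _ ⟨F, hF, rfl⟩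
      rw [haev]
      exact hz F hF)
  rcases h6 hx with h6 | ⟨l, hlL, hl0, hn⟩
  · exact h6
  · exfalso
    obtain ⟨G, hG2, hG0⟩ := hG
    apply hG0
    have h7 := specialise hcur (curve l v u) (curve_natDegree hlL v u) (fun F hF => by
      have h8 := curve_mem (map (algebraMap k K) F) v u S' (fun A _ _ t ht =>
        h5 A t ht _ ⟨F, hF, rfl⟩) l hl0
      rwa [aeval_map_algebraMap] at h8) hn 1 G hG2
    have h8 : (fun i => (curve l v u i).eval 1) = pt v u := funext fun i => curve_eval_one l v u i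
    rwa [h8] at h7

section

variable {k K : Type} [Field k] [Field K] [Algebra k K]

theorem hgt_eq_finrank [IsAlgClosed k] [CharZero k] [IsFF k K] {f : K} (hf : Transcendental k f) :
    hgt k f = Module.finrank k⟮f⟯ K := by
  classical
  obtain ⟨S, hS, hS2⟩ := poles (k := k) hf
  obtain ⟨T, hT⟩ := exists_supp (k := k) (Finset.univ : Finset (Fin 1)) ![f]
  have h1 : ∀ P : Place k K, P.ord f ≠ 0 → P ∈ T := fun P => hT 0 (Finset.mem_univ _) P
  rw [hgt_finset f T h1, ← hS2]
  have hST : S ⊆ T := fun P hP => h1 P ((hS P).1 hP).ne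
  rw [← Finset.sum_subset hST (f := fun P => max (-P.ord f) 0)]
  · push_cast
    refine Finset.sum_congr rfl fun P hP => ?_
    rw [deg_one, Nat.cast_one, mul_one]
    have := (hS P).1 hP
    omega
  · intro P _ hP
    have : ¬ P.ord f < 0 := fun h => hP ((hS P).2 h)
    omega

theorem hgt_le_of_mem [IsAlgClosed k] [CharZero k] [IsFF k K] {f g : K} (hf : Transcendental k f)
    (hfg : f ∈ k⟮g⟯) (hg : Transcendental k g) : hgt k g ≤ hgt k f := by
  rw [hgt_eq_finrank hf, hgt_eq_finrank hg]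
  have h1 : k⟮f⟯ ≤ k⟮g⟯ := by
    rw [IntermediateField.adjoin_simple_le_iff]
    exact hfg
  have h2 : FiniteDimensional k⟮f⟯ K := IsFF.finite hf
  exact_mod_cast IntermediateField.finrank_le_of_le_left h1

theorem ratio_le [IsAlgClosed k] [CharZero k] [IsFF k K] {n : ℕ} {f : Fin (n + 1) → K}
    {l : Fin (n + 1)}
    (hl : f l ≠ 0) (j : Fin (n + 1)) : hgt k (f j / f l) ≤ pht k f := by
  classical
  obtain ⟨T, hT⟩ := exists_supp (k := k) Finset.univ f
  have h1 : ∀ j, ∀ P : Place k K, P.ord (f j) ≠ 0 → P ∈ T := fun j => hT j (Finset.mem_univ j)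
  have h1' : ∀ P : Place k K, P.ord (f j / f l) ≠ 0 → P ∈ T := by
    intro P hP
    by_contra hcon
    apply hP
    by_cases hj : f j = 0
    · rw [hj, zero_div, P.ord_zero]
    have h2 : P.ord (f j) = 0 := by by_contra h; exact hcon (h1 j P h)
    have h3 : P.ord (f l) = 0 := by by_contra h; exact hcon (h1 l P h)
    rw [P.ord_div hj hl, h2, h3]; rfl
  have h2 : pht k f = ∑ P ∈ T, (- pord P f) := by
    unfold pht
    rw [finsum_eq_sum_of_support_subset (s := T), Finset.sum_neg_distrib]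
    intro P hP
    by_contra hcon
    apply hP
    obtain ⟨j, hj, h⟩ := exists_pord P ⟨l, hl⟩
    simp only
    rw [← h]
    by_contra h'; exact hcon (h1 j P h')
  have h3 : ∑ P ∈ T, P.ord (f l) = 0 := sum_ord_finset _ T (h1 l)
  have h4 : ∑ P ∈ T, (- pord P f) = ∑ P ∈ T, (- pord P f + P.ord (f l)) := by
    rw [Finset.sum_add_distrib, h3, add_zero]
  rw [h2, h4, hgt_finset _ T h1']
  refine Finset.sum_le_sum fun P _ => ?_
  have h5 := pord_le P hl
  apply max_le
  · by_cases hj : f j = 0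
    · rw [hj, zero_div, P.ord_zero]; omega
    · have := pord_le P hj
      rw [P.ord_div hj hl]
      omega
  · omega

theorem isFF_ratFunc (M : Type) [Field M] : IsFF M (RatFunc M) := by
  refine IsFF.of_finite (f := (RatFunc.X : RatFunc M)) RatFunc.transcendental_X ?_
  rw [RatFunc.adjoin_X]
  exact Module.Finite.of_surjective (Algebra.linearMap (⊤ : IntermediateField M (RatFunc M))
    (RatFunc M)) fun z => ⟨⟨z, trivial⟩, rfl⟩

end

/-- all nonconstant rational curves in `{F1 = 0}` lie in `{F2 = 0}` -/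
def RatCurvesIn {k : Type} [Field k] {n : ℕ} (F1 F2 : Set (MvPolynomial (Fin (n + 1)) k)) : Prop :=
  ∀ q : Fin (n + 1) → Polynomial k, (∀ F ∈ F1, aeval q F = 0) → Nonconst q →
    ∀ G ∈ F2, aeval q G = 0

/-- linear bound -/
def LinBoundOff {k : Type} [Field k] {n : ℕ} (F1 F2 : Set (MvPolynomial (Fin (n + 1)) k)) : Prop :=
  ∀ r : ℕ, ∃ C N0 : ℕ, ∀ (K : Type) [Field K] [Algebra k K] [IsFF k K] (S : Finset (Place k K))
    (N : ℕ), N0 ≤ N → ∀ (u : Fin r → Kˣ),
    (∀ P ∉ S, ∀ i j, (N : ℤ) ∣ P.ord (u i : K) - P.ord (u j : K)) →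
    ∀ (h : ℤ), 0 ≤ h → ∀ (v : Fin r → Fin (n + 1) → K), VecLe k h v →
    pt v u ≠ 0 → (∀ F ∈ F1, aeval (pt v u) F = 0) → (∃ G ∈ F2, aeval (pt v u) G ≠ 0) →
    pht k (pt v u) ≤ C * N * (chi S + h)

/-- bounded heights for constant vectors and `S`-units -/
def BddOff {k : Type} [Field k] {n : ℕ} (F1 F2 : Set (MvPolynomial (Fin (n + 1)) k)) : Prop :=
  ∀ (r : ℕ) (K : Type) [Field K] [Algebra k K] [IsFF k K] (S : Finset (Place k K)),
    ∃ B : ℤ, ∀ (u : Fin r → Kˣ), (∀ P ∉ S, ∀ j, P.ord (u j : K) = 0) →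
    ∀ (v : Fin r → Fin (n + 1) → k), pt (fun j i => algebraMap k K (v j i)) u ≠ 0 →
    (∀ F ∈ F1, aeval (pt (fun j i => algebraMap k K (v j i)) u) F = 0) →
    (∃ G ∈ F2, aeval (pt (fun j i => algebraMap k K (v j i)) u) G ≠ 0) →
    pht k (pt (fun j i => algebraMap k K (v j i)) u) ≤ B

theorem rat_lin {k : Type} [Field k] [IsAlgClosed k] [CharZero k] {n d : ℕ}
    {F1 F2 : Set (MvPolynomial (Fin (n + 1)) k)} (hF1 : ∀ F ∈ F1, ∃ e ≤ d, F.IsHomogeneous e)
    (h : RatCurvesIn F1 F2) : LinBoundOff F1 F2 := by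
  intro r
  obtain ⟨C, L, N0, -, hmain⟩ := off_special n d r
  exact ⟨C, N0, fun K _ _ _ => hmain k K F1 F2 hF1 fun q _ hq hn => h q hq hn⟩

theorem lin_bdd {k : Type} [Field k] [IsAlgClosed k] [CharZero k] {n : ℕ}
    {F1 F2 : Set (MvPolynomial (Fin (n + 1)) k)} (h : LinBoundOff F1 F2) : BddOff F1 F2 := by
  intro r K _ _ _ S
  obtain ⟨C, N0, hmain⟩ := h r
  refine ⟨C * N0 * (chi S + 0), fun u hu v hx hz hG => ?_⟩
  refine hmain K S N0 le_rfl u (fun P hP i j => ?_) 0 le_rfl _ (fun j i j' i' => ?_) hx hz hG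
  · rw [hu P hP, hu P hP, sub_self]
    exact dvd_zero _
  · rw [← map_div₀, hgt_const]

theorem bdd_rat {k : Type} [Field k] [IsAlgClosed k] [CharZero k] {n : ℕ}
    {F1 F2 : Set (MvPolynomial (Fin (n + 1)) k)} (h : BddOff F1 F2) : RatCurvesIn F1 F2 := by
  classical
  intro q hq hn G hG
  by_contra hG0
  have hFF : IsFF k (RatFunc k) := isFF_ratFunc k
  have ht : Transcendental k (RatFunc.X : RatFunc k) := RatFunc.transcendental_X
  set D : ℕ := Finset.univ.sup fun i => (q i).natDegree with hD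
  obtain ⟨S, hS⟩ := exists_supp (k := k) (Finset.univ : Finset (Fin 1))
    ![(RatFunc.X : RatFunc k)]
  have hSX : ∀ P : Place k (RatFunc k), P.ord RatFunc.X ≠ 0 → P ∈ S := fun P =>
    hS 0 (Finset.mem_univ _) P
  obtain ⟨B, hB⟩ := h (D + 1) (RatFunc k) S
  set X1 : (RatFunc k)ˣ := Units.mk0 (RatFunc.X : RatFunc k) RatFunc.X_ne_zero with hX1
  set v : Fin (D + 1) → Fin (n + 1) → k := fun j i => (q i).coeff j with hv
  have hkey : ∀ m : ℕ, 0 < m → (m : ℤ) ≤ B := by
    intro m hm
    set g : RatFunc k := RatFunc.X ^ m with hg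
    have hgt' : Transcendental k g := ht.pow hm
    set u : Fin (D + 1) → (RatFunc k)ˣ := fun j => (X1 ^ m) ^ (j : ℕ) with hu
    have hpt : ∀ i, pt (fun j i => algebraMap k (RatFunc k) (v j i)) u i =
        Polynomial.aeval g (q i) := by
      intro i
      unfold pt
      rw [Polynomial.aeval_eq_sum_range' (n := D + 1) (Nat.lt_succ_of_le
        (Finset.le_sup (f := fun i => (q i).natDegree) (Finset.mem_univ i))),
        Finset.sum_range]
      refine Finset.sum_congr rfl fun j _ => ?_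
      rw [Algebra.smul_def, hu, hv, hg]
      simp only
      rw [Units.val_pow_eq_pow_val, Units.val_pow_eq_pow_val, hX1, Units.val_mk0]
      ring
    have hinj : Function.Injective (Polynomial.aeval g : Polynomial k →ₐ[k] RatFunc k) :=
      transcendental_iff_injective.1 hgt'
    have hptf : pt (fun j i => algebraMap k (RatFunc k) (v j i)) u =
        fun i => Polynomial.aeval g (q i) := funext hpt
    have haev : ∀ F : MvPolynomial (Fin (n + 1)) k,
        aeval (fun i => Polynomial.aeval g (q i)) F = Polynomial.aeval g (aeval q F) :=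
      fun F => (MvPolynomial.comp_aeval_apply q (Polynomial.aeval g) F).symm
    obtain ⟨i, j, a, b, hab⟩ := hn
    have hqi : q i ≠ 0 ∧ q j ≠ 0 := by
      constructor
      · intro h0
        rw [h0] at hab
        simp at hab
      · intro h0
        rw [h0] at hab
        simp at hab
    have hj0 : Polynomial.aeval g (q j) ≠ 0 := by
      rw [Ne, map_eq_zero_iff _ hinj]
      exact hqi.2
    have hx0 : pt (fun j i => algebraMap k (RatFunc k) (v j i)) u ≠ 0 := by
      intro h0
      apply hj0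
      rw [← hpt, h0]
      rfl
    have h1 := hB u (by
      intro P hP l
      have h2 : P.ord (RatFunc.X : RatFunc k) = 0 := by
        by_contra hne
        exact hP (hSX P hne)
      rw [hu]
      simp only
      rw [Units.val_pow_eq_pow_val, Units.val_pow_eq_pow_val, hX1, Units.val_mk0, P.ord_pow,
        P.ord_pow, h2]
      ring) v hx0 (by
      intro F hF
      rw [hptf, haev, hq F hF, map_zero]) ⟨G, hG, by
      rw [hptf, haev, Ne, map_eq_zero_iff _ hinj]
      exact hG0⟩
    rw [hptf] at h1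
    refine le_trans ?_ h1
    refine le_trans ?_ (ratio_le (f := fun i => Polynomial.aeval g (q i)) (l := j) hj0 i)
    set f : RatFunc k := Polynomial.aeval g (q i) / Polynomial.aeval g (q j) with hf
    have hft : Transcendental k f := by
      intro halg
      have h2 := IsAlgClosed.degree_eq_one_of_irreducible k (minpoly.irreducible halg.isIntegral)
      obtain ⟨c, hc⟩ := minpoly.mem_range_of_degree_eq_one k f h2
      have h3 : Polynomial.aeval g (q i) = Polynomial.aeval g (Polynomial.C c * q j) := by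
        rw [map_mul, Polynomial.aeval_C, hc, hf, div_mul_cancel₀ _ hj0]
      have h4 := hinj h3
      apply hab
      rw [h4, Polynomial.eval_mul, Polynomial.eval_mul, Polynomial.eval_C, Polynomial.eval_C]
      ring
    have hfm : f ∈ k⟮g⟯ := by
      have hm1 : ∀ p : Polynomial k, Polynomial.aeval g p ∈ k⟮g⟯ := fun p =>
        IntermediateField.algebra_adjoin_le_adjoin k {g}
          (Polynomial.aeval_mem_adjoin_singleton k g)
      exact div_mem (hm1 _) (hm1 _)
    refine le_trans ?_ (hgt_le_of_mem hft hfm hgt')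
    rw [hg, hgt_pow RatFunc.X_ne_zero]
    have h2 : 1 ≤ hgt k (RatFunc.X : RatFunc k) := by
      by_contra hlt
      obtain ⟨c, hc⟩ := const_of_hgt (k := k) (f := (RatFunc.X : RatFunc k)) (by omega)
      apply ht
      rw [hc]
      exact isAlgebraic_algebraMap c
    have h3 : (0 : ℤ) ≤ m := Int.natCast_nonneg m
    nlinarith
  have h1 := hkey (B.toNat + 1) (Nat.succ_pos _)
  push_cast at h1
  have := Int.self_le_toNat B
  linarith

/-- **The equivalence.** -/
theorem tfae_off {k : Type} [Field k] [IsAlgClosed k] [CharZero k] {n d : ℕ}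
    (F1 F2 : Set (MvPolynomial (Fin (n + 1)) k)) (hF1 : ∀ F ∈ F1, ∃ e ≤ d, F.IsHomogeneous e) :
    [RatCurvesIn F1 F2, LinBoundOff F1 F2, BddOff F1 F2].TFAE := by
  tfae_have 1 → 2 := rat_lin hF1
  tfae_have 2 → 3 := lin_bdd
  tfae_have 3 → 1 := bdd_rat
  tfae_finish

end Pool.Agent.V8H29.FS
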