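import Mathlib
import Pool.Agent.V8H29.FS6
import Pool.Agent.K1H77.PA.Stm

/-!
# Short sums of units in finitely generated rings: finiteness
-/

set_option autoImplicit false

namespace Pool.Agent.V8H29.FS

open MvPolynomial Filter
open Pool.Agent.K1H77.PA (ULI)
open scoped LinearAlgebra.Projectivization

/-- the points of `{F1 = 0}` outside `{F2 = 0}` which are sums of `r` vectors of `V` with
coefficients in the group `Γ` -/
def UnitPts {K : Type} [Field K] {n : ℕ} (F1 F2 : Set (MvPolynomial (Fin (n + 1)) K))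
    (Γ : Subgroup Kˣ) (r : ℕ) (V : Finset (Fin (n + 1) → K)) : Set (ℙ K (Fin (n + 1) → K)) :=
  {p | ∃ (v : Fin r → Fin (n + 1) → K) (u : Fin r → Kˣ) (hx : pt v u ≠ 0),
    (∀ j, v j ∈ V) ∧ (∀ j, u j ∈ Γ) ∧ (∀ F ∈ F1, aeval (pt v u) F = 0) ∧
    (∃ G ∈ F2, aeval (pt v u) G ≠ 0) ∧ p = Projectivization.mk K (pt v u) hx}

/-- finiteness of short sums of units -/
def ArithFin {K : Type} [Field K] {n : ℕ} (F1 F2 : Set (MvPolynomial (Fin (n + 1)) K)) : Prop :=
  ∀ Γ : Subgroup Kˣ, Γ.FG → ∀ (r : ℕ) (V : Finset (Fin (n + 1) → K)),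
    (UnitPts F1 F2 Γ r V).Finite

section

variable {K : Type} [Field K] {r : ℕ} (𝒰 : Ultrafilter ℕ)

/-- the exponents of eventually constant monomials -/
def LamC (u : ℕ → Fin r → Kˣ) : AddSubgroup (Fin r → ℤ) where
  carrier := {γ | ∑ j, γ j = 0 ∧ ∃ c : Kˣ, ∀ᶠ s in (𝒰 : Filter ℕ), mon (u s) γ = c}
  add_mem' := by
    rintro γ δ ⟨h1, c, h2⟩ ⟨h3, c', h4⟩
    refine ⟨?_, c * c', ?_⟩
    · simp only [Pi.add_apply]
      rw [Finset.sum_add_distrib, h1, h3, add_zero]
    · filter_upwards [h2, h4] with s e1 e2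
      rw [mon_add, e1, e2]
  zero_mem' := ⟨by simp, 1, Eventually.of_forall fun s => mon_zero _⟩
  neg_mem' := by
    rintro γ ⟨h1, c, h2⟩
    refine ⟨?_, c⁻¹, ?_⟩
    · simp only [Pi.neg_apply]
      rw [Finset.sum_neg_distrib, h1, neg_zero]
    · filter_upwards [h2] with s e1
      have h5 := mon_smul (u s) (-1) γ
      rw [neg_one_smul, zpow_neg_one, e1] at h5
      exact h5

lemma ev_exists {ι : Type} [Finite ι] {P : ι → ℕ → Prop}
    (h : ∀ᶠ s in (𝒰 : Filter ℕ), ∃ i, P i s) : ∃ i, ∀ᶠ s in (𝒰 : Filter ℕ), P i s := by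
  have h1 := (Ultrafilter.eventually_exists_mem_iff (is := (Set.univ : Set ι)) (P := P)
    Set.finite_univ).1 (by
      filter_upwards [h] with s hs
      obtain ⟨i, hi⟩ := hs
      exact ⟨i, Set.mem_univ _, hi⟩)
  obtain ⟨i, -, hi⟩ := h1
  exact ⟨i, hi⟩

lemma pow_finite (n : ℕ) (hn : 0 < n) (c : Kˣ) : {x : Kˣ | x ^ n = c}.Finite := by
  classical
  have h1 : {x : K | x ^ n = c}.Finite := by
    refine ((Polynomial.nthRoots n (c : K)).toFinset.finite_toSet).subset fun x hx => ?_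
    rw [Finset.mem_coe, Multiset.mem_toFinset, Polynomial.mem_nthRoots hn]
    exact hx
  refine (h1.preimage (Units.val_injective.injOn)).subset fun x hx => ?_
  have hx' : x ^ n = c := hx
  change (x : K) ^ n = c
  rw [← hx']
  push_cast
  rfl

lemma LamC_sat (u : ℕ → Fin r → Kˣ) (m : ℤ) (γ : Fin r → ℤ) (hm : m ≠ 0)
    (h : m • γ ∈ LamC 𝒰 u) : γ ∈ LamC 𝒰 u := by
  obtain ⟨h1, c, h2⟩ := h
  refine ⟨?_, ?_⟩
  · simp only [Pi.smul_apply, smul_eq_mul] at h1
    rw [← Finset.mul_sum] at h1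
    exact (mul_eq_zero.1 h1).resolve_left hm
  · have hfin : {x : Kˣ | x ^ m = c}.Finite := by
      rcases Int.eq_nat_or_neg m with ⟨a, rfl | rfl⟩
      · have ha : 0 < a := Nat.pos_of_ne_zero fun h => hm (by rw [h]; rfl)
        simpa using pow_finite a ha c
      · have ha : 0 < a := Nat.pos_of_ne_zero fun h => hm (by rw [h]; rfl)
        refine (pow_finite a ha c⁻¹).subset fun x hx => ?_
        have hx' : x ^ (-(a : ℤ)) = c := hx
        rw [zpow_neg, zpow_natCast, inv_eq_iff_eq_inv] at hx'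
        exact hx'
    have h3 := (Ultrafilter.eventually_exists_mem_iff (is := {x : Kˣ | x ^ m = c})
      (P := fun x s => mon (u s) γ = x) hfin).1 (by
        filter_upwards [h2] with s hs
        rw [mon_smul] at hs
        exact ⟨_, hs, rfl⟩)
    obtain ⟨x, -, hx⟩ := h3
    exact ⟨x, hx⟩

end

/-- **The class sums of a form vanish.** -/
theorem class_const {K : Type} [Field K] (hU : ULI K) {r : ℕ} (𝒰 : Ultrafilter ℕ)
    {Γ : Subgroup Kˣ} (hΓ : Γ.FG) (u : ℕ → Fin r → Kˣ) (hu : ∀ s j, u s j ∈ Γ) (e : ℕ)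
    (l : Fin r → ℕ)
    (hl : ∀ α ∈ TT r e, ∀ β ∈ TT r e, ∑ j, l j * α j = ∑ j, l j * β j ↔ dif α β ∈ LamC 𝒰 u)
    (cst : (Fin r → ℤ) → Kˣ)
    (hcst : ∀ᶠ s in (𝒰 : Filter ℕ), ∀ α ∈ TT r e, ∀ β ∈ TT r e, dif α β ∈ LamC 𝒰 u →
      mon (u s) (dif α β) = cst (dif α β))
    (c : (Fin r →₀ ℕ) → K)
    (hsum : ∀ᶠ s in (𝒰 : Filter ℕ), ∑ α ∈ TT r e, c α * ∏ j, (u s j : K) ^ α j = 0) (s : ℕ)
    (hs : ∀ α ∈ TT r e, ∀ β ∈ TT r e, dif α β ∈ LamC 𝒰 u →
      mon (u s) (dif α β) = cst (dif α β)) (m : ℕ) :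
    CS l (fun j => (u s j : K)) c e m = 0 := by
  classical
  set W : Finset ℕ := (TT r e).image fun α => ∑ j, l j * α j with hW
  have hrep : ∀ w ∈ W, ∃ α ∈ TT r e, ∑ j, l j * α j = w := fun w hw => Finset.mem_image.1 hw
  choose! rep hrT hrw using hrep
  set CC : ℕ → K := fun w => ∑ α ∈ TT r e with ∑ j, l j * α j = w,
    c α * (cst (dif α (rep w)) : K) with hCC
  have hval : ∀ s, (∀ α ∈ TT r e, ∀ β ∈ TT r e, dif α β ∈ LamC 𝒰 u →
      mon (u s) (dif α β) = cst (dif α β)) → ∀ w ∈ W,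
      ∑ α ∈ TT r e with ∑ j, l j * α j = w, c α * ∏ j, (u s j : K) ^ α j =
        CC w * ((∏ j, u s j ^ rep w j : Kˣ) : K) := by
    intro s hs w hw
    rw [hCC]
    simp only
    rw [Finset.sum_mul]
    refine Finset.sum_congr rfl fun α hα => ?_
    rw [Finset.mem_filter] at hα
    have h1 := (hl α hα.1 (rep w) (hrT w hw)).1 (hα.2.trans (hrw w hw).symm)
    have h2 := hs α hα.1 (rep w) (hrT w hw) h1
    rw [mon_dif, div_eq_iff_eq_mul] at h2
    have h3 := congrArg (fun x : Kˣ => (x : K)) h2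
    simp only [Units.val_mul, Units.coe_prod, Units.val_pow_eq_pow_val] at h3
    rw [h3]
    push_cast
    ring
  have htot : ∀ᶠ s in (𝒰 : Filter ℕ), ∑ w ∈ W, CC w * ((∏ j, u s j ^ rep w j : Kˣ) : K) = 0 := by
    filter_upwards [hsum, hcst] with s h1 h2
    rw [← h1, ← Finset.sum_fiberwise_of_maps_to (t := W)
      (g := fun α : Fin r →₀ ℕ => ∑ j, l j * α j) (fun α hα => Finset.mem_image_of_mem _ hα)]
    exact Finset.sum_congr rfl fun w hw => (hval s h2 w hw).symm
  -- the coefficients vanish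
  have hCC0 : ∀ w ∈ W, CC w = 0 := by
    have e := W.equivFin
    have h1 := hU Γ hΓ 𝒰 W.card (fun i s => ∏ j, u s j ^ rep (e.symm i : ℕ) j)
      (fun i s => Subgroup.prod_mem _ fun j _ => Γ.pow_mem (hu s j) _) (by
        intro i i' hii' b hb
        apply hii'
        have hi := (e.symm i).2
        have hi' := (e.symm i').2
        have hb0 : b ≠ 0 := by
          rintro rfl
          obtain ⟨s, hs⟩ := hb.exists
          rw [zero_mul] at hs
          exact Units.ne_zero _ hs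
        have h2 : dif (rep (e.symm i : ℕ)) (rep (e.symm i' : ℕ)) ∈ LamC 𝒰 u := by
          refine ⟨dif_sum ((mem_TT.1 (hrT _ hi)).trans (mem_TT.1 (hrT _ hi')).symm),
            Units.mk0 b hb0, ?_⟩
          filter_upwards [hb] with s hs
          rw [mon_dif, div_eq_iff_eq_mul]
          apply Units.ext
          rw [hs, Units.val_mul, Units.val_mk0]
        have h3 := (hl _ (hrT _ hi) _ (hrT _ hi')).2 h2
        rw [hrw _ hi, hrw _ hi'] at h3
        exact e.symm.injective (Subtype.ext h3)) (fun i => CC (e.symm i : ℕ)) (by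
        filter_upwards [htot] with s hs
        rw [← hs, ← Finset.sum_coe_sort W (fun w => CC w * ((∏ j, u s j ^ rep w j : Kˣ) : K))]
        exact Equiv.sum_comp e.symm
          (fun w : W => CC w * ((∏ j, u s j ^ rep (w : ℕ) j : Kˣ) : K)))
    intro w hw
    have h2 := congrFun h1 (e ⟨w, hw⟩)
    simp only [Equiv.symm_apply_apply, Pi.zero_apply] at h2
    exact h2
  unfold CS
  by_cases hm : m ∈ W
  · rw [hval s hs m hm, hCC0 m hm, zero_mul]
  · refine Finset.sum_eq_zero fun α hα => ?_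
    rw [Finset.mem_filter] at hα
    exact absurd (hα.2 ▸ Finset.mem_image_of_mem _ hα.1) hm

/-- **Finiteness of the short sums of units outside the rational curves.** -/
theorem rat_arith {K : Type} [Field K] [CharZero K] (hU : ULI K) {n d : ℕ}
    {F1 F2 : Set (MvPolynomial (Fin (n + 1)) K)} (hF1 : ∀ F ∈ F1, ∃ e ≤ d, F.IsHomogeneous e)
    (h : RatCurvesIn F1 F2) : ArithFin F1 F2 := by
  classical
  intro Γ hΓ r V
  by_contra hinf
  have hinf : (UnitPts F1 F2 Γ r V).Infinite := hinf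
  set P : ℕ → ℙ K (Fin (n + 1) → K) := fun s => (hinf.natEmbedding _ s : ℙ K (Fin (n + 1) → K))
    with hP
  have hPinj : Function.Injective P := fun s t hst =>
    (hinf.natEmbedding _).injective (Subtype.ext hst)
  have hPm : ∀ s, P s ∈ UnitPts F1 F2 Γ r V := fun s => (hinf.natEmbedding _ s).2
  choose v' u hx hv hu hF hG hPe using hPm
  set 𝒰 : Ultrafilter ℕ := Filter.hyperfilter ℕ with h𝒰
  -- fixed vectors
  obtain ⟨v0, hv0⟩ := ev_exists 𝒰 (ι := Fin r → V)
    (P := fun w s => v' s = fun j => (w j : Fin (n + 1) → K))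
    (Eventually.of_forall fun s => ⟨fun j => ⟨v' s j, hv s j⟩, rfl⟩)
  set v : Fin r → Fin (n + 1) → K := fun j => (v0 j : Fin (n + 1) → K) with hvd
  set d' := max d 1 with hd'
  set D : Finset (Fin r → ℤ) := (Finset.range (d' + 1)).biUnion fun e =>
    ((TT r e) ×ˢ (TT r e)).image fun p => dif p.1 p.2 with hD
  have hDm : ∀ e ≤ d', ∀ α ∈ TT r e, ∀ β ∈ TT r e, dif α β ∈ D := by
    intro e he α hα β hβ
    exact Finset.mem_biUnion.2 ⟨e, Finset.mem_range.2 (Nat.lt_succ_of_le he),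
      Finset.mem_image.2 ⟨(α, β), Finset.mem_product.2 ⟨hα, hβ⟩, rfl⟩⟩
  have hD0 : ∀ γ ∈ D, ∑ j, γ j = 0 := by
    intro γ hγ
    obtain ⟨e, -, h1⟩ := Finset.mem_biUnion.1 hγ
    obtain ⟨p, hp, rfl⟩ := Finset.mem_image.1 h1
    rw [Finset.mem_product, mem_TT, mem_TT] at hp
    exact dif_sum (hp.1.trans hp.2.symm)
  obtain ⟨l, hl1, hl2⟩ := weights (LamC 𝒰 u) (LamC_sat 𝒰 u) (fun γ h => h.1)
    (D.filter fun γ => γ ∉ LamC 𝒰 u) (fun z hz => hD0 z (Finset.mem_filter.1 hz).1)
    (fun z hz => (Finset.mem_filter.1 hz).2)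
  have hdifl : ∀ α β : Fin r →₀ ℕ, ∑ j, (l j : ℤ) * dif α β j =
      ((∑ j, l j * α j : ℕ) : ℤ) - (∑ j, l j * β j : ℕ) := by
    intro α β
    push_cast
    rw [← Finset.sum_sub_distrib]
    refine Finset.sum_congr rfl fun j _ => ?_
    unfold dif
    ring
  have hl : ∀ e ≤ d', ∀ α ∈ TT r e, ∀ β ∈ TT r e,
      (∑ j, l j * α j = ∑ j, l j * β j ↔ dif α β ∈ LamC 𝒰 u) := by
    intro e he α hα β hβ
    constructor
    · intro h1
      by_contra h2
      apply hl2 _ (Finset.mem_filter.2 ⟨hDm e he α hα β hβ, h2⟩)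
      rw [hdifl, h1, sub_self]
    · intro h1
      have h2 := hl1 _ h1
      rw [hdifl, sub_eq_zero] at h2
      exact_mod_cast h2
  -- the constants
  have hcex : ∀ γ : Fin r → ℤ, ∃ c : Kˣ, γ ∈ LamC 𝒰 u →
      ∀ᶠ s in (𝒰 : Filter ℕ), mon (u s) γ = c := by
    intro γ
    by_cases hγ : γ ∈ LamC 𝒰 u
    · obtain ⟨-, c, hc⟩ := hγ
      exact ⟨c, fun _ => hc⟩
    · exact ⟨1, fun h => absurd h hγ⟩
  choose cst hcst using hcex
  have hev : ∀ᶠ s in (𝒰 : Filter ℕ), ∀ γ ∈ D, γ ∈ LamC 𝒰 u → mon (u s) γ = cst γ := by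
    refine (Filter.eventually_all_finset D).2 fun γ _ => ?_
    by_cases hγ : γ ∈ LamC 𝒰 u
    · filter_upwards [hcst γ hγ] with s hs _
      exact hs
    · exact Eventually.of_forall fun s h => absurd h hγ
  set w : Fin r × Fin (n + 1) → K := fun q => v q.1 q.2 with hw
  have hptw : ∀ s, (fun i => ∑ j, w (j, i) * (u s j : K)) = pt v (u s) := by
    intro s
    funext i
    unfold pt
    exact Finset.sum_congr rfl fun j _ => mul_comm _ _
  -- the curve lies on the variety
  have hcur : ∀ᶠ s in (𝒰 : Filter ℕ), ∀ F ∈ F1, aeval (curve l v (u s)) F = 0 := by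
    filter_upwards [hev] with s hs F hFm
    obtain ⟨e, hed, he⟩ := hF1 F hFm
    have hed' : e ≤ d' := hed.trans (le_max_left _ _)
    have hCS := class_const hU 𝒰 hΓ u hu e l (hl e hed') cst (by
        filter_upwards [hev] with s hs α hα β hβ h1
        exact hs _ (hDm e hed' α hα β hβ) h1) (cc F e w) (by
        filter_upwards [hv0] with s hs
        have h1 := expand (B := K) he w (fun j => (u s j : K))
        simp only [Algebra.algebraMap_self, RingHom.id_apply] at h1
        rw [← h1, hptw s]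
        have h2 := hF s F hFm
        rwa [hs] at h2) s (fun α hα β hβ h1 => hs _ (hDm e hed' α hα β hβ) h1)
    obtain ⟨S, hS⟩ := exists_gens (LamC 𝒰 u)
    refine curve_mem F v (u s) S (fun A _ _ t ht => ?_) l (fun γ hγ => hl1 γ (by
      rw [← hS]
      exact AddSubgroup.subset_closure hγ))
    have h5 := orbit_zero he l (fun j => (u s j : K)) w hCS (S : Set (Fin r → ℤ)) (by
      intro α hα β hβ hab
      rw [hS]
      exact (hl e hed' α hα β hβ).1 hab) A t (fun γ hγ => ht γ hγ)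
    rw [← h5]
    congr 1
    congr 1
    funext i
    refine Finset.sum_congr rfl fun j _ => ?_
    rw [map_mul]
    ring
  -- so it is constant
  have hcon : ∀ᶠ s in (𝒰 : Filter ℕ), ¬ Nonconst (curve l v (u s)) := by
    filter_upwards [hcur, hv0] with s hs h0 hn
    obtain ⟨G, hGm, hG0⟩ := hG s
    apply hG0
    have h1 := h _ hs hn G hGm
    have h2 := congrArg (Polynomial.evalRingHom (1 : K)) h1
    rw [map_zero, aeval_def, MvPolynomial.hom_eval₂] at h2
    rw [aeval_def, ← h2, h0]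
    have h3 : (fun i => Polynomial.evalRingHom (1 : K) (curve l v (u s) i)) = pt v (u s) :=
      funext fun i => curve_eval_one l v (u s) i
    change _ = eval₂ _ (fun i => Polynomial.evalRingHom (1 : K) (curve l v (u s) i)) G
    rw [h3]
    congr 1
    ext a
    simp
  -- the coordinates which do not vanish
  obtain ⟨i₀, hi₀⟩ := ev_exists 𝒰 (ι := Fin (n + 1)) (P := fun i s => pt v (u s) i ≠ 0) (by
    filter_upwards [hv0] with s hs
    have h1 := hx s
    rw [hs] at h1
    exact Function.ne_iff.1 h1)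
  obtain ⟨j₀, hj₀⟩ := ev_exists 𝒰 (ι := Fin r)
    (P := fun j₀ s => ∑ j with l j = l j₀, (u s j : K) * v j i₀ ≠ 0) (by
    filter_upwards [hi₀] with s hs
    by_contra hcon
    push Not at hcon
    apply hs
    unfold pt
    rw [← Finset.sum_fiberwise_of_maps_to (g := l) (t := Finset.univ.image l)
      (fun j hj => Finset.mem_image_of_mem _ hj)]
    refine Finset.sum_eq_zero fun m hm => ?_
    obtain ⟨j₀, -, rfl⟩ := Finset.mem_image.1 hm
    exact hcon j₀)
  set κ : Fin r → Kˣ := fun j => cst (dif (Finsupp.single j 1) (Finsupp.single j₀ 1)) with hκ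
  set Y : Fin (n + 1) → K := fun i => ∑ j with l j = l j₀, (κ j : K) * v j i with hY
  have hT1 : ∀ j : Fin r, (Finsupp.single j 1 : Fin r →₀ ℕ) ∈ TT r 1 := fun j =>
    mem_TT.2 (Finsupp.degree_single _ _)
  have hsum1 : ∀ j : Fin r, ∑ i, l i * (Finsupp.single j 1 : Fin r →₀ ℕ) i = l j := by
    intro j
    rw [Finset.sum_eq_single j]
    · simp
    · intro i _ hi
      rw [Finsupp.single_apply, if_neg (Ne.symm hi), mul_zero]
    · intro h
      exact absurd (Finset.mem_univ _) h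
  have hprod1 : ∀ (s : ℕ) (j : Fin r),
      (∏ i, u s i ^ (Finsupp.single j 1 : Fin r →₀ ℕ) i : Kˣ) = u s j := by
    intro s j
    rw [Finset.prod_eq_single j]
    · simp
    · intro i _ hi
      rw [Finsupp.single_apply, if_neg (Ne.symm hi), pow_zero]
    · intro h
      exact absurd (Finset.mem_univ _) h
  have hpar : ∀ᶠ s in (𝒰 : Filter ℕ), ∀ i, ∑ j with l j = l j₀, (u s j : K) * v j i =
      (u s j₀ : K) * Y i := by
    filter_upwards [hev] with s hs i
    rw [hY]
    simp only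
    rw [Finset.mul_sum]
    refine Finset.sum_congr rfl fun j hj => ?_
    rw [Finset.mem_filter] at hj
    have h1 := (hl 1 (le_max_right _ _) _ (hT1 j) _ (hT1 j₀)).1 (by rw [hsum1, hsum1, hj.2])
    have h2 := hs _ (hDm 1 (le_max_right _ _) _ (hT1 j) _ (hT1 j₀)) h1
    rw [mon_dif, hprod1, hprod1, div_eq_iff_eq_mul] at h2
    rw [h2]
    push_cast
    ring
  -- the points agree
  have hpts : ∀ᶠ s in (𝒰 : Filter ℕ), ∃ hY0 : Y ≠ 0, P s = Projectivization.mk K Y hY0 := by
    filter_upwards [hpar, hcon, hi₀, hj₀, hv0] with s h1 h2 h3 h4 h5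
    have hY0 : Y i₀ ≠ 0 := by
      rw [h1] at h4
      exact right_ne_zero_of_mul h4
    have hY' : Y ≠ 0 := fun h => hY0 (by rw [h]; rfl)
    refine ⟨hY', ?_⟩
    rw [hPe s, Projectivization.mk_eq_mk_iff']
    refine ⟨pt v (u s) i₀ / Y i₀, ?_⟩
    funext i
    rw [h5]
    simp only [Pi.smul_apply, smul_eq_mul]
    have h6 : ∀ b c : K, (curve l v (u s) i).eval b * (curve l v (u s) i₀).eval c =
        (curve l v (u s) i₀).eval b * (curve l v (u s) i).eval c := by
      intro b c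
      by_contra hne
      exact h2 ⟨i, i₀, b, c, hne⟩
    have h7 : (curve l v (u s) i) * Polynomial.C ((curve l v (u s) i₀).eval 1) =
        (curve l v (u s) i₀) * Polynomial.C ((curve l v (u s) i).eval 1) := by
      apply Polynomial.funext
      intro b
      rw [Polynomial.eval_mul, Polynomial.eval_mul, Polynomial.eval_C, Polynomial.eval_C]
      exact h6 b 1
    have h8 := congrArg (fun p => Polynomial.coeff p (l j₀)) h7
    simp only [Polynomial.coeff_mul_C] at h8
    rw [curve_coeff, curve_coeff, curve_eval_one, curve_eval_one, h1, h1] at h8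
    have h9 : (u s j₀ : K) ≠ 0 := Units.ne_zero _
    have h10 : Y i * pt v (u s) i₀ = Y i₀ * pt v (u s) i := by
      apply mul_left_cancel₀ h9
      linear_combination h8
    field_simp
    linear_combination h10
  -- two different points agree
  have hinf2 : {s | ∃ hY0 : Y ≠ 0, P s = Projectivization.mk K Y hY0}.Infinite := by
    intro hfin
    have h1 := hfin.compl_mem_hyperfilter
    obtain ⟨s, h2, h3⟩ := (hpts.and h1).exists
    exact h3 h2
  obtain ⟨s, ⟨h1, h2⟩, t, ⟨h3, h4⟩, hst⟩ := hinf2.nontrivial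
  exact hst (hPinj (h2.trans h4.symm))

end Pool.Agent.V8H29.FS
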