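import Mathlib
import Pool.Agent.V8H29.FS7

/-!
# Rational curves, points over finitely generated rings, curves of genus at most one
-/

set_option autoImplicit false

namespace Pool.Agent.V8H29.FS

open MvPolynomial FF Pool.Agent.W603.LV Pool.Agent.W603.PV IntermediateField
open scoped LinearAlgebra.Projectivization

section

variable {K : Type} [Field K] {n : ℕ}

/-- polynomials with proportional values define a constant map -/
lemma not_nonconst {q : Fin (n + 1) → Polynomial K} {p : Fin (n + 1) → K} (hp : p ≠ 0)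
    (h : ∀ i j, q i * Polynomial.C (p j) = q j * Polynomial.C (p i)) : ¬ Nonconst q := by
  rintro ⟨i, j, a, b, hab⟩
  obtain ⟨m, hm⟩ := Function.ne_iff.1 hp
  have hm : p m ≠ 0 := hm
  apply hab
  have h1 : ∀ (i : Fin (n + 1)) (a : K), (q i).eval a * p m = (q m).eval a * p i := by
    intro i a
    have h2 := congrArg (Polynomial.eval a) (h i m)
    simpa using h2
  apply mul_right_cancel₀ (mul_ne_zero hm hm)
  linear_combination (q j).eval b * p m * h1 i a + (q m).eval a * p i * h1 j b -
    (q i).eval b * p m * h1 j a - (q m).eval a * p j * h1 i b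

/-- infinitely many parameters give infinitely many points of a nonconstant curve -/
lemma curve_points [CharZero K] {q : Fin (n + 1) → Polynomial K} (hn : Nonconst q)
    {A : Set K} (hA : A.Infinite) {Z : Set (ℙ K (Fin (n + 1) → K))} (hZ : Z.Finite) :
    ∃ a ∈ A, ∀ hx : (fun i => (q i).eval a) ≠ 0,
      Projectivization.mk K (fun i => (q i).eval a) hx ∉ Z := by
  classical
  by_contra hcon
  push Not at hcon
  choose hx hZm using hcon
  obtain ⟨z, -, hzinf⟩ : ∃ z ∈ Z, {a ∈ A | z = if h : (fun i => (q i).eval a) ≠ 0 then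
      Projectivization.mk K (fun i => (q i).eval a) h else z}.Infinite := by
    by_contra hcon
    push Not at hcon
    apply hA
    refine (hZ.biUnion (t := fun z => {a ∈ A | z = if h : (fun i => (q i).eval a) ≠ 0 then
      Projectivization.mk K (fun i => (q i).eval a) h else z}) fun z hz => by
        simpa using hcon z hz).subset fun a ha => ?_
    refine Set.mem_biUnion (hZm a ha) ?_
    refine ⟨ha, ?_⟩
    rw [dif_pos (hx a ha)]
  refine not_nonconst (p := z.rep) z.rep_nonzero (fun i j => ?_) hn
  have h1 : (q i * Polynomial.C (z.rep j) - q j * Polynomial.C (z.rep i)) = 0 := by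
    apply Polynomial.eq_zero_of_infinite_isRoot
    refine hzinf.mono fun a ha => ?_
    obtain ⟨ha, h2⟩ := ha
    rw [dif_pos (hx a ha)] at h2
    rw [← z.mk_rep, Projectivization.mk_eq_mk_iff'] at h2
    obtain ⟨c, hc⟩ := h2
    have e1 : ∀ i, c * (q i).eval a = z.rep i := fun i => by
      have := congrFun hc i
      simpa using this
    change Polynomial.IsRoot _ a
    rw [Polynomial.IsRoot, Polynomial.eval_sub, Polynomial.eval_mul, Polynomial.eval_mul,
      Polynomial.eval_C, Polynomial.eval_C, ← e1, ← e1]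
    ring
  exact sub_eq_zero.1 h1

lemma curve_nonzero {q : Fin (n + 1) → Polynomial K} (hn : Nonconst q) : ∃ i, q i ≠ 0 := by
  obtain ⟨i, j, a, b, hab⟩ := hn
  by_contra hcon
  push Not at hcon
  rw [hcon i, hcon j] at hab
  simp at hab

lemma aeval_eval (q : Fin (n + 1) → Polynomial K) (a : K) (F : MvPolynomial (Fin (n + 1)) K) :
    aeval (fun i => (q i).eval a) F = (aeval q F).eval a := by
  have h2 := MvPolynomial.hom_eval₂ F (algebraMap K (Polynomial K)) (Polynomial.evalRingHom a) q
  rw [aeval_def, aeval_def]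
  change _ = Polynomial.evalRingHom a _
  rw [h2]
  congr 1
  ext b
  simp

/-- **Short sums of units on rational curves.** -/
theorem arith_rat [CharZero K] {F1 F2 : Set (MvPolynomial (Fin (n + 1)) K)}
    (h : ArithFin F1 F2) : RatCurvesIn F1 F2 := by
  classical
  intro q hq hn G hG
  by_contra hG0
  set D : ℕ := Finset.univ.sup fun i => (q i).natDegree with hD
  set two : Kˣ := Units.mk0 2 two_ne_zero with htwo
  set v : Fin (D + 1) → Fin (n + 1) → K := fun j i => (q i).coeff j with hv
  have hfin := h (Subgroup.zpowers two) ⟨{two}, by simp [Subgroup.zpowers_eq_closure]⟩ (D + 1)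
    (Finset.univ.image v)
  have hinf : (Set.range fun m : ℕ => (2 : K) ^ m).Infinite :=
    Set.infinite_range_of_injective fun a b hab => by
      have h1 : ((2 : ℕ) : K) ^ a = ((2 : ℕ) : K) ^ b := by simpa using hab
      have h2 : (2 : ℕ) ^ a = 2 ^ b := by exact_mod_cast h1
      exact Nat.pow_right_injective le_rfl h2
  have hinf2 : ((Set.range fun m : ℕ => (2 : K) ^ m) \
      {a | (aeval q G).IsRoot a}).Infinite :=
    hinf.sdiff (by
      have h1 : {a | (aeval q G).IsRoot a} = ((aeval q G).roots.toFinset : Set K) := by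
        ext a
        simp [hG0]
      rw [h1]
      exact Finset.finite_toSet _)
  obtain ⟨i1, hi1⟩ := curve_nonzero hn
  have hinf3 : (((Set.range fun m : ℕ => (2 : K) ^ m) \
      {a | (aeval q G).IsRoot a}) \ {a | (q i1).IsRoot a}).Infinite :=
    hinf2.sdiff (by
      have h1 : {a | (q i1).IsRoot a} = ((q i1).roots.toFinset : Set K) := by
        ext a
        simp [hi1]
      rw [h1]
      exact Finset.finite_toSet _)
  obtain ⟨a, ⟨⟨⟨m, rfl⟩, ha2⟩, ha3⟩, ha4⟩ := curve_points hn hinf3 hfin
  set u : Fin (D + 1) → Kˣ := fun j => (two ^ m) ^ (j : ℕ) with hu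
  have hpt : pt v u = fun i => (q i).eval ((2 : K) ^ m) := by
    funext i
    unfold pt
    rw [Polynomial.eval_eq_sum_range' (n := D + 1) (Nat.lt_succ_of_le
      (Finset.le_sup (f := fun i => (q i).natDegree) (Finset.mem_univ i))), Finset.sum_range]
    refine Finset.sum_congr rfl fun j _ => ?_
    rw [hu, hv]
    simp only
    rw [Units.val_pow_eq_pow_val, Units.val_pow_eq_pow_val, htwo, Units.val_mk0]
    ring
  have hx : (fun i => (q i).eval ((2 : K) ^ m)) ≠ 0 := by
    intro h0
    exact ha3 (congrFun h0 i1)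
  apply ha4 hx
  have hx' : pt v u ≠ 0 := by rw [hpt]; exact hx
  refine ⟨v, u, hx', fun j => Finset.mem_image_of_mem _ (Finset.mem_univ _), fun j => ?_,
    fun F hF => ?_, ⟨G, hG, ?_⟩, ?_⟩
  · exact Subgroup.pow_mem _ (Subgroup.pow_mem _ (Subgroup.mem_zpowers _) _) _
  · rw [hpt, aeval_eval, hq F hF, Polynomial.eval_zero]
  · rw [hpt, aeval_eval]
    exact ha2
  · congr 1
    exact hpt.symm

/-- the points with coprime coordinates in the ring generated by `T` -/
def RingPts (F1 F2 : Set (MvPolynomial (Fin (n + 1)) K)) (T : Finset K) :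
    Set (ℙ K (Fin (n + 1) → K)) :=
  {p | ∃ (x : Fin (n + 1) → K) (hx : x ≠ 0), (∀ i, x i ∈ Subring.closure (T : Set K)) ∧
    (∃ c : Fin (n + 1) → K, (∀ i, c i ∈ Subring.closure (T : Set K)) ∧ ∑ i, c i * x i = 1) ∧
    (∀ F ∈ F1, aeval x F = 0) ∧ (∃ G ∈ F2, aeval x G ≠ 0) ∧ p = Projectivization.mk K x hx}

/-- **Integral points on rational curves.** -/
theorem ring_rat [CharZero K] {F1 F2 : Set (MvPolynomial (Fin (n + 1)) K)}
    (hF1 : ∀ F ∈ F1, ∃ e, F.IsHomogeneous e) (hF2 : ∀ F ∈ F2, ∃ e, F.IsHomogeneous e)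
    (h : ∀ T : Finset K, (RingPts F1 F2 T).Finite) : RatCurvesIn F1 F2 := by
  classical
  intro q hq hn G hG
  by_contra hG0
  -- coprime coordinates
  obtain ⟨i1, hi1⟩ := curve_nonzero hn
  obtain ⟨g, hg⟩ := (IsPrincipalIdealRing.principal (Ideal.span (Set.range q))).principal
  have hg' : Ideal.span (Set.range q) = Ideal.span {g} := hg
  have hdiv : ∀ i, ∃ p, q i = g * p := by
    intro i
    have h1 : q i ∈ Ideal.span {g} := by
      rw [← hg']
      exact Ideal.subset_span ⟨i, rfl⟩
    exact Ideal.mem_span_singleton'.1 h1 |>.imp fun p hp => by rw [← hp, mul_comm]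
  choose p hp using hdiv
  have hg0 : g ≠ 0 := by
    rintro rfl
    apply hi1
    rw [hp, zero_mul]
  have hbez : ∃ c : Fin (n + 1) → Polynomial K, ∑ i, c i * p i = 1 := by
    have h1 : g ∈ Ideal.span (Set.range q) := by
      rw [hg']
      exact Ideal.mem_span_singleton_self g
    obtain ⟨c, hc⟩ := (Ideal.mem_span_range_iff_exists_fun).1 h1
    refine ⟨c, mul_left_cancel₀ hg0 ?_⟩
    rw [Finset.mul_sum, mul_one]
    conv_rhs => rw [← hc]
    refine Finset.sum_congr rfl fun i _ => ?_
    rw [hp i]
    ring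
  obtain ⟨c, hc⟩ := hbez
  have hsc : ∀ (F : MvPolynomial (Fin (n + 1)) K) (e : ℕ), F.IsHomogeneous e →
      aeval q F = g ^ e * aeval p F := by
    intro F e he
    rw [← aeval_smul_homog F he g p]
    congr 1
    congr 1
    funext i
    exact hp i
  have hpF : ∀ F ∈ F1, aeval p F = 0 := by
    intro F hF
    obtain ⟨e, he⟩ := hF1 F hF
    have h1 := hq F hF
    rw [hsc F e he] at h1
    exact (mul_eq_zero.1 h1).resolve_left (pow_ne_zero _ hg0)
  have hpG : aeval p G ≠ 0 := by
    obtain ⟨e, he⟩ := hF2 G hG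
    intro h0
    apply hG0
    rw [hsc G e he, h0, mul_zero]
  have hpn : Nonconst p := by
    obtain ⟨i, j, a, b, hab⟩ := hn
    refine ⟨i, j, a, b, fun h0 => hab ?_⟩
    rw [hp i, hp j]
    simp only [Polynomial.eval_mul]
    linear_combination (g.eval a * g.eval b) * h0
  -- the ring
  set D : ℕ := Finset.univ.sup fun i => max (p i).natDegree (c i).natDegree with hD
  set T : Finset K := (Finset.univ : Finset (Fin (n + 1))).biUnion fun i =>
    (Finset.range (D + 1)).image (fun m => (p i).coeff m) ∪
      (Finset.range (D + 1)).image (fun m => (c i).coeff m) with hT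
  have hDp : ∀ i, (p i).natDegree ≤ D := fun i => (le_max_left _ _).trans
    (Finset.le_sup (f := fun i => max (p i).natDegree (c i).natDegree) (Finset.mem_univ i))
  have hDc : ∀ i, (c i).natDegree ≤ D := fun i => (le_max_right _ _).trans
    (Finset.le_sup (f := fun i => max (p i).natDegree (c i).natDegree) (Finset.mem_univ i))
  have hev : ∀ (f : Polynomial K), f.natDegree ≤ D →
      (∀ m ∈ Finset.range (D + 1), f.coeff m ∈ Subring.closure (T : Set K)) → ∀ a : ℕ,
      f.eval (a : K) ∈ Subring.closure (T : Set K) := by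
    intro f hf hcf a
    rw [Polynomial.eval_eq_sum_range' (Nat.lt_succ_of_le hf)]
    exact sum_mem fun m hm => mul_mem (hcf m hm) (pow_mem (_root_.natCast_mem _ a) _)
  have hpT : ∀ i (a : ℕ), (p i).eval (a : K) ∈ Subring.closure (T : Set K) := fun i a =>
    hev _ (hDp i) (fun m hm => Subring.subset_closure (Finset.mem_coe.2 (Finset.mem_biUnion.2
      ⟨i, Finset.mem_univ _, Finset.mem_union_left _ (Finset.mem_image_of_mem _ hm)⟩))) a
  have hcT : ∀ i (a : ℕ), (c i).eval (a : K) ∈ Subring.closure (T : Set K) := fun i a =>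
    hev _ (hDc i) (fun m hm => Subring.subset_closure (Finset.mem_coe.2 (Finset.mem_biUnion.2
      ⟨i, Finset.mem_univ _, Finset.mem_union_right _ (Finset.mem_image_of_mem _ hm)⟩))) a
  have hinf : (Set.range fun m : ℕ => (m : K)).Infinite :=
    Set.infinite_range_of_injective Nat.cast_injective
  have hinf2 : ((Set.range fun m : ℕ => (m : K)) \ {a | (aeval p G).IsRoot a}).Infinite :=
    hinf.sdiff (by
      have h1 : {a | (aeval p G).IsRoot a} = ((aeval p G).roots.toFinset : Set K) := by
        ext a
        simp [hpG]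
      rw [h1]
      exact Finset.finite_toSet _)
  obtain ⟨a, ⟨⟨m, rfl⟩, ha2⟩, ha4⟩ := curve_points hpn hinf2 (h T)
  have hb : ∑ i, (c i).eval (m : K) * (p i).eval (m : K) = 1 := by
    have h1 := congrArg (Polynomial.eval (m : K)) hc
    rw [Polynomial.eval_finsetSum, Polynomial.eval_one] at h1
    rw [← h1]
    exact Finset.sum_congr rfl fun i _ => (Polynomial.eval_mul).symm
  have hx : (fun i => (p i).eval (m : K)) ≠ 0 := by
    intro h0
    rw [Finset.sum_eq_zero fun i _ => by
      have := congrFun h0 i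
      simp only [Pi.zero_apply] at this
      rw [this, mul_zero]] at hb
    exact zero_ne_one hb
  apply ha4 hx
  refine ⟨_, hx, fun i => hpT i m, ⟨fun i => (c i).eval (m : K), fun i => hcT i m, hb⟩,
    fun F hF => ?_, ⟨G, hG, ?_⟩, rfl⟩
  · rw [aeval_eval, hpF F hF, Polynomial.eval_zero]
  · rw [aeval_eval]
    exact ha2

/-- the rational function field has no regular differentials -/
theorem canDeg_ratFunc [IsAlgClosed K] [CharZero K] : canDeg K (RatFunc K) ≤ 0 := by
  classical
  have hFF : IsFF K (RatFunc K) := isFF_ratFunc K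
  obtain ⟨t, htd⟩ : ∃ t : RatFunc K, t = RatFunc.X := ⟨_, rfl⟩
  have ht : Transcendental K t := htd ▸ RatFunc.transcendental_X
  have hgt1 : hgt K t = 1 := by
    rw [hgt_eq_finrank ht, htd, RatFunc.adjoin_X]
    simp
  obtain ⟨D0, hD0⟩ := exists_der (k := K) (K := RatFunc K)
  have h0 := der_ne_zero hD0 ht
  obtain ⟨D, hDd⟩ : ∃ D : Derivation K (RatFunc K) (RatFunc K), D = (D0 t)⁻¹ • D0 := ⟨_, rfl⟩
  have hDt : D t = 1 := by
    rw [hDd, Derivation.coe_smul, Pi.smul_apply, smul_eq_mul, inv_mul_cancel₀ h0]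
  have hD : D ≠ 0 := by
    rintro h
    rw [h] at hDt
    simp at hDt
  rw [canDeg_eq hD, neg_nonpos]
  apply finsum_nonneg
  intro P
  by_cases hP : P.ord t < 0
  · have h5 := (ord_der P hD hP.ne).2
    rw [hDt, P.ord_one] at h5
    omega
  · push Not at hP
    obtain ⟨c, hc⟩ := exists_const P (Or.inr hP : Ge P 0 t)
    have h6 : t - algebraMap K (RatFunc K) c ≠ 0 := by
      intro h
      rw [sub_eq_zero] at h
      exact ht (h ▸ isAlgebraic_algebraMap c)
    have h7 := hc.resolve_left h6
    have h8 := (ord_der P hD (f := t - algebraMap K (RatFunc K) c) (by omega)).2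
    rw [map_sub, hDt, Derivation.map_algebraMap, sub_zero, P.ord_one] at h8
    -- the zero is simple
    have h9 : P.ord (t - algebraMap K (RatFunc K) c) ≤
        hgt K (t - algebraMap K (RatFunc K) c)⁻¹ := by
      obtain ⟨T, hT⟩ := exists_supp (k := K) (Finset.univ : Finset (Fin 1))
        ![(t - algebraMap K (RatFunc K) c)⁻¹]
      have h1 : ∀ P : Place K (RatFunc K), P.ord (t - algebraMap K (RatFunc K) c)⁻¹ ≠ 0 → P ∈ T :=
        fun P => hT 0 (Finset.mem_univ _) P
      rw [hgt_finset _ T h1]
      have h2 : P ∈ T := h1 P (by rw [P.ord_inv]; omega)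
      have h3 := Finset.single_le_sum (f := fun P : Place K (RatFunc K) =>
        max (-P.ord (t - algebraMap K (RatFunc K) c)⁻¹) 0) (fun _ _ => le_max_right _ _) h2
      refine le_trans ?_ h3
      simp only [P.ord_inv, neg_neg]
      exact le_max_left _ _
    have h10 : hgt K (t - algebraMap K (RatFunc K) c) = 1 := by
      have h11 : Transcendental K (t - algebraMap K (RatFunc K) c) := by
        intro h
        apply ht
        have := h.add (isAlgebraic_algebraMap c)
        rwa [sub_add_cancel] at this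
      rw [hgt_eq_finrank h11]
      have h12 : K⟮t - algebraMap K (RatFunc K) c⟯ = ⊤ := by
        rw [eq_top_iff, ← RatFunc.adjoin_X, ← htd, adjoin_simple_le_iff]
        have h13 := add_mem (mem_adjoin_simple_self K (t - algebraMap K (RatFunc K) c))
          (K⟮t - algebraMap K (RatFunc K) c⟯.algebraMap_mem c)
        rwa [sub_add_cancel] at h13
      rw [h12]
      simp
    rw [hgt_inv, h10] at h9
    omega

/-- the morphisms from curves of genus at most one are constant or have images in `{F2 = 0}` -/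
def GenusOneOff (F1 F2 : Set (MvPolynomial (Fin (n + 1)) K)) : Prop :=
  ∀ (L : Type) [Field L] [Algebra K L] [IsFF K L], canDeg K L ≤ 0 → ∀ f : Fin (n + 1) → L,
    f ≠ 0 → (∀ F ∈ F1, aeval f F = 0) → (∃ G ∈ F2, aeval f G ≠ 0) →
    ∃ (c : L) (x : Fin (n + 1) → K), ∀ i, f i = c * algebraMap K L (x i)

/-- **Rational curves and genus at most one.** -/
theorem genus_rat [IsAlgClosed K] [CharZero K] {F1 F2 : Set (MvPolynomial (Fin (n + 1)) K)}
    (h : GenusOneOff F1 F2) : RatCurvesIn F1 F2 := by
  classical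
  intro q hq hn G hG
  by_contra hG0
  have hFF : IsFF K (RatFunc K) := isFF_ratFunc K
  obtain ⟨i1, hi1⟩ := curve_nonzero hn
  have hinj : Function.Injective (algebraMap (Polynomial K) (RatFunc K)) :=
    RatFunc.algebraMap_injective K
  have hev : ∀ F : MvPolynomial (Fin (n + 1)) K,
      aeval (fun i => algebraMap (Polynomial K) (RatFunc K) (q i)) F =
      algebraMap (Polynomial K) (RatFunc K) (aeval q F) := fun F =>
    MvPolynomial.aeval_algebraMap_apply (RatFunc K) _ F
  obtain ⟨c, x, hcx⟩ := h (RatFunc K) canDeg_ratFunc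
    (fun i => algebraMap (Polynomial K) (RatFunc K) (q i)) (by
      intro h0
      apply hi1
      apply hinj
      rw [map_zero]
      exact congrFun h0 i1) (fun F hF => by rw [hev, hq F hF, map_zero])
    ⟨G, hG, by rw [hev, Ne, map_eq_zero_iff _ hinj]; exact hG0⟩
  have hx : x ≠ 0 := by
    rintro rfl
    apply hi1
    apply hinj
    rw [hcx, map_zero, Pi.zero_apply, map_zero, mul_zero]
  refine not_nonconst hx (fun i j => ?_) hn
  apply hinj
  rw [map_mul, map_mul, hcx, hcx]
  have e : ∀ a : K, algebraMap (Polynomial K) (RatFunc K) (Polynomial.C a) =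
      algebraMap K (RatFunc K) a := fun a => by
    rw [← Polynomial.algebraMap_eq, ← IsScalarTower.algebraMap_apply]
  rw [e, e]
  ring

end

end Pool.Agent.V8H29.FS
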