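import Mathlib
import Pool.Agent.V8H29.FS8

/-!
# Short sums with a fixed number of terms
-/

set_option autoImplicit false

namespace Pool.Agent.V8H29.FS

open MvPolynomial FF Pool.Agent.W603.LV Pool.Agent.W603.PV IntermediateField Filter
open Pool.Agent.K1H77.PA (ULI)
open scoped LinearAlgebra.Projectivization

/-- the values at `1` of the nonconstant curves over `K` with `r` terms in `{F1 = 0}` lie in
`{F2 = 0}` -/
def RCur {k : Type} [Field k] (K : Type) [Field K] [Algebra k K] {n : ℕ} (r : ℕ)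
    (F1 F2 : Set (MvPolynomial (Fin (n + 1)) k)) : Prop :=
  ∀ (l : Fin r → ℕ) (v : Fin r → Fin (n + 1) → K) (u : Fin r → Kˣ), pt v u ≠ 0 →
    (∀ F ∈ F1, aeval (curve l v u) F = 0) → Nonconst (curve l v u) →
    ∀ G ∈ F2, aeval (pt v u) G = 0

/-- **Outside the rational curves of small degree.** -/
theorem off_special_r (n d r : ℕ) : ∃ C N0 : ℕ, 0 < N0 ∧ ∀ (k K : Type) [Field k] [Field K]
    [Algebra k K] [CharZero k] [IsFF k K] [IsAlgClosed k]
    (F1 F2 : Set (MvPolynomial (Fin (n + 1)) k)), (∀ F ∈ F1, ∃ e ≤ d, F.IsHomogeneous e) →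
    RCur K r F1 F2 → ∀ (S : Finset (Place k K)) (N : ℕ), N0 ≤ N → ∀ (u : Fin r → Kˣ),
    (∀ P ∉ S, ∀ i j, (N : ℤ) ∣ P.ord (u i : K) - P.ord (u j : K)) →
    ∀ (h : ℤ), 0 ≤ h → ∀ (v : Fin r → Fin (n + 1) → K), VecLe k h v →
    pt v u ≠ 0 → (∀ F ∈ F1, aeval (pt v u) F = 0) → (∃ G ∈ F2, aeval (pt v u) G ≠ 0) →
    pht k (pt v u) ≤ C * N * (chi S + h) := by
  obtain ⟨C, L, N0, hN0, hmain⟩ := torusStructure n d r
  refine ⟨C, N0, hN0, ?_⟩
  intro k K _ _ _ _ _ _ F1 F2 hF1 hcur S N hN u hdvd h h0 v hv hx hz hG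
  have haev : ∀ (x : Fin (n + 1) → K) (F : MvPolynomial (Fin (n + 1)) k),
      aeval x (map (algebraMap k K) F) = aeval x F := fun x F => aeval_map_algebraMap K x F
  obtain ⟨S', u', -, -, -, -, h5, h6⟩ := hmain k K S N hN u hdvd h h0 v hv
    ((map (algebraMap k K)) '' F1) (by
      rintro _ ⟨F, hF, rfl⟩
      obtain ⟨e, he, hom⟩ := hF1 F hF
      refine ⟨⟨e, he, hom.map _⟩, fun β β' => ?_⟩
      rw [coeff_map, coeff_map, ← map_div₀, hgt_const]
      exact h0) (by
      rintro _ ⟨F, hF, rfl⟩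
      rw [haev]
      exact hz F hF)
  rcases h6 hx with h6 | ⟨l, hlL, hl0, hn⟩
  · exact h6
  · exfalso
    obtain ⟨G, hG2, hG0⟩ := hG
    apply hG0
    exact hcur l v u hx (fun F hF => by
      have h8 := curve_mem (map (algebraMap k K) F) v u S' (fun A _ _ t ht =>
        h5 A t ht _ ⟨F, hF, rfl⟩) l hl0
      rwa [aeval_map_algebraMap] at h8) hn G hG2

/-- linear bound -/
def LinR {k : Type} [Field k] {n : ℕ} (r : ℕ) (F1 F2 : Set (MvPolynomial (Fin (n + 1)) k)) :
    Prop :=
  ∃ C N0 : ℕ, ∀ (K : Type) [Field K] [Algebra k K] [IsFF k K] (S : Finset (Place k K))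
    (N : ℕ), N0 ≤ N → ∀ (u : Fin r → Kˣ),
    (∀ P ∉ S, ∀ i j, (N : ℤ) ∣ P.ord (u i : K) - P.ord (u j : K)) →
    ∀ (h : ℤ), 0 ≤ h → ∀ (v : Fin r → Fin (n + 1) → K), VecLe k h v →
    pt v u ≠ 0 → (∀ F ∈ F1, aeval (pt v u) F = 0) → (∃ G ∈ F2, aeval (pt v u) G ≠ 0) →
    pht k (pt v u) ≤ C * N * (chi S + h)

/-- bounded heights for constant vectors and `S`-units -/
def BddR {k : Type} [Field k] {n : ℕ} (r : ℕ) (F1 F2 : Set (MvPolynomial (Fin (n + 1)) k)) :
    Prop :=
  ∀ (K : Type) [Field K] [Algebra k K] [IsFF k K] (S : Finset (Place k K)),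
    ∃ B : ℤ, ∀ (u : Fin r → Kˣ), (∀ P ∉ S, ∀ j, P.ord (u j : K) = 0) →
    ∀ (v : Fin r → Fin (n + 1) → k), pt (fun j i => algebraMap k K (v j i)) u ≠ 0 →
    (∀ F ∈ F1, aeval (pt (fun j i => algebraMap k K (v j i)) u) F = 0) →
    (∃ G ∈ F2, aeval (pt (fun j i => algebraMap k K (v j i)) u) G ≠ 0) →
    pht k (pt (fun j i => algebraMap k K (v j i)) u) ≤ B

theorem lin_bdd_r {k : Type} [Field k] [IsAlgClosed k] [CharZero k] {n r : ℕ}
    {F1 F2 : Set (MvPolynomial (Fin (n + 1)) k)} (h : LinR r F1 F2) : BddR r F1 F2 := by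
  intro K _ _ _ S
  obtain ⟨C, N0, hmain⟩ := h
  refine ⟨C * N0 * (chi S + 0), fun u hu v hx hz hG => ?_⟩
  refine hmain K S N0 le_rfl u (fun P hP i j => ?_) 0 le_rfl _ (fun j i j' i' => ?_) hx hz hG
  · rw [hu P hP, hu P hP, sub_self]
    exact dvd_zero _
  · rw [← map_div₀, hgt_const]

/-- finiteness of short sums of units -/
def ArR {K : Type} [Field K] {n : ℕ} (r : ℕ) (F1 F2 : Set (MvPolynomial (Fin (n + 1)) K)) :
    Prop :=
  ∀ Γ : Subgroup Kˣ, Γ.FG → ∀ V : Finset (Fin (n + 1) → K), (UnitPts F1 F2 Γ r V).Finite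

theorem bdd_cur {k : Type} [Field k] [IsAlgClosed k] [CharZero k] {n D : ℕ}
    {F1 F2 : Set (MvPolynomial (Fin (n + 1)) k)} (h : BddR (D + 1) F1 F2) : CurvesIn D F1 F2 := by
  classical
  intro q hqD hq hn G hG
  by_contra hG0
  have hFF : IsFF k (RatFunc k) := isFF_ratFunc k
  have ht : Transcendental k (RatFunc.X : RatFunc k) := RatFunc.transcendental_X
  obtain ⟨S, hS⟩ := exists_supp (k := k) (Finset.univ : Finset (Fin 1))
    ![(RatFunc.X : RatFunc k)]
  have hSX : ∀ P : Place k (RatFunc k), P.ord RatFunc.X ≠ 0 → P ∈ S := fun P =>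
    hS 0 (Finset.mem_univ _) P
  obtain ⟨B, hB⟩ := h (RatFunc k) S
  set X1 : (RatFunc k)ˣ := Units.mk0 (RatFunc.X : RatFunc k) RatFunc.X_ne_zero with hX1
  set v : Fin (D + 1) → Fin (n + 1) → k := fun j i => (q i).coeff j with hv
  have hkey : ∀ m : ℕ, 0 < m → (m : ℤ) ≤ B := by
    intro m hm
    set g : RatFunc k := RatFunc.X ^ m with hg
    have hgt' : Transcendental k g := ht.pow hm
    set u : Fin (D + 1) → (RatFunc k)ˣ := fun j => (X1 ^ m) ^ (j : ℕ) with hu
    have hpt : ∀ i, pt (fun j i => algebraMap k (RatFunc k) (v j i)) u i =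
        Polynomial.aeval g (q i) := by
      intro i
      unfold pt
      rw [Polynomial.aeval_eq_sum_range' (n := D + 1) (Nat.lt_succ_of_le (hqD i)),
        Finset.sum_range]
      refine Finset.sum_congr rfl fun j _ => ?_
      rw [Algebra.smul_def, hu, hv, hg]
      simp only
      rw [Units.val_pow_eq_pow_val, Units.val_pow_eq_pow_val, hX1, Units.val_mk0]
      ring
    have hinj : Function.Injective (Polynomial.aeval g : Polynomial k →ₐ[k] RatFunc k) :=
      transcendental_iff_injective.1 hgt'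
    have hptf : pt (fun j i => algebraMap k (RatFunc k) (v j i)) u =
        fun i => Polynomial.aeval g (q i) := funext hpt
    have haev : ∀ F : MvPolynomial (Fin (n + 1)) k,
        aeval (fun i => Polynomial.aeval g (q i)) F = Polynomial.aeval g (aeval q F) :=
      fun F => (MvPolynomial.comp_aeval_apply q (Polynomial.aeval g) F).symm
    obtain ⟨i, j, a, b, hab⟩ := hn
    have hqi : q i ≠ 0 ∧ q j ≠ 0 := by
      constructor
      · intro h0
        rw [h0] at hab
        simp at hab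
      · intro h0
        rw [h0] at hab
        simp at hab
    have hj0 : Polynomial.aeval g (q j) ≠ 0 := by
      rw [Ne, map_eq_zero_iff _ hinj]
      exact hqi.2
    have hx0 : pt (fun j i => algebraMap k (RatFunc k) (v j i)) u ≠ 0 := by
      intro h0
      apply hj0
      rw [← hpt, h0]
      rfl
    have h1 := hB u (by
      intro P hP l
      have h2 : P.ord (RatFunc.X : RatFunc k) = 0 := by
        by_contra hne
        exact hP (hSX P hne)
      rw [hu]
      simp only
      rw [Units.val_pow_eq_pow_val, Units.val_pow_eq_pow_val, hX1, Units.val_mk0, P.ord_pow,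
        P.ord_pow, h2]
      ring) v hx0 (by
      intro F hF
      rw [hptf, haev, hq F hF, map_zero]) ⟨G, hG, by
      rw [hptf, haev, Ne, map_eq_zero_iff _ hinj]
      exact hG0⟩
    rw [hptf] at h1
    refine le_trans ?_ h1
    refine le_trans ?_ (ratio_le (f := fun i => Polynomial.aeval g (q i)) (l := j) hj0 i)
    set f : RatFunc k := Polynomial.aeval g (q i) / Polynomial.aeval g (q j) with hf
    have hft : Transcendental k f := by
      intro halg
      have h2 := IsAlgClosed.degree_eq_one_of_irreducible k (minpoly.irreducible halg.isIntegral)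
      obtain ⟨c, hc⟩ := minpoly.mem_range_of_degree_eq_one k f h2
      have h3 : Polynomial.aeval g (q i) = Polynomial.aeval g (Polynomial.C c * q j) := by
        rw [map_mul, Polynomial.aeval_C, hc, hf, div_mul_cancel₀ _ hj0]
      have h4 := hinj h3
      apply hab
      rw [h4, Polynomial.eval_mul, Polynomial.eval_mul, Polynomial.eval_C, Polynomial.eval_C]
      ring
    have hfm : f ∈ k⟮g⟯ := by
      have hm1 : ∀ p : Polynomial k, Polynomial.aeval g p ∈ k⟮g⟯ := fun p =>
        IntermediateField.algebra_adjoin_le_adjoin k {g}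
          (Polynomial.aeval_mem_adjoin_singleton k g)
      exact div_mem (hm1 _) (hm1 _)
    refine le_trans ?_ (hgt_le_of_mem hft hfm hgt')
    rw [hg, hgt_pow RatFunc.X_ne_zero]
    have h2 : 1 ≤ hgt k (RatFunc.X : RatFunc k) := by
      by_contra hlt
      obtain ⟨c, hc⟩ := const_of_hgt (k := k) (f := (RatFunc.X : RatFunc k)) (by omega)
      apply ht
      rw [hc]
      exact isAlgebraic_algebraMap c
    have h3 : (0 : ℤ) ≤ m := Int.natCast_nonneg m
    nlinarith
  have h1 := hkey (B.toNat + 1) (Nat.succ_pos _)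
  push_cast at h1
  have := Int.self_le_toNat B
  linarith

/-- **Finiteness of the short sums of units outside the rational curves.** -/
theorem arith_r {K : Type} [Field K] [CharZero K] (hU : ULI K) {n d r : ℕ}
    {F1 F2 : Set (MvPolynomial (Fin (n + 1)) K)} (hF1 : ∀ F ∈ F1, ∃ e ≤ d, F.IsHomogeneous e)
    (h : RCur K r F1 F2) : ArR r F1 F2 := by
  classical
  intro Γ hΓ V
  by_contra hinf
  have hinf : (UnitPts F1 F2 Γ r V).Infinite := hinf
  set P : ℕ → ℙ K (Fin (n + 1) → K) := fun s => (hinf.natEmbedding _ s : ℙ K (Fin (n + 1) → K))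
    with hP
  have hPinj : Function.Injective P := fun s t hst =>
    (hinf.natEmbedding _).injective (Subtype.ext hst)
  have hPm : ∀ s, P s ∈ UnitPts F1 F2 Γ r V := fun s => (hinf.natEmbedding _ s).2
  choose v' u hx hv hu hF hG hPe using hPm
  set 𝒰 : Ultrafilter ℕ := Filter.hyperfilter ℕ with h𝒰
  -- fixed vectors
  obtain ⟨v0, hv0⟩ := ev_exists 𝒰 (ι := Fin r → V)
    (P := fun w s => v' s = fun j => (w j : Fin (n + 1) → K))
    (Eventually.of_forall fun s => ⟨fun j => ⟨v' s j, hv s j⟩, rfl⟩)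
  set v : Fin r → Fin (n + 1) → K := fun j => (v0 j : Fin (n + 1) → K) with hvd
  set d' := max d 1 with hd'
  set D : Finset (Fin r → ℤ) := (Finset.range (d' + 1)).biUnion fun e =>
    ((TT r e) ×ˢ (TT r e)).image fun p => dif p.1 p.2 with hD
  have hDm : ∀ e ≤ d', ∀ α ∈ TT r e, ∀ β ∈ TT r e, dif α β ∈ D := by
    intro e he α hα β hβ
    exact Finset.mem_biUnion.2 ⟨e, Finset.mem_range.2 (Nat.lt_succ_of_le he),
      Finset.mem_image.2 ⟨(α, β), Finset.mem_product.2 ⟨hα, hβ⟩, rfl⟩⟩
  have hD0 : ∀ γ ∈ D, ∑ j, γ j = 0 := by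
    intro γ hγ
    obtain ⟨e, -, h1⟩ := Finset.mem_biUnion.1 hγ
    obtain ⟨p, hp, rfl⟩ := Finset.mem_image.1 h1
    rw [Finset.mem_product, mem_TT, mem_TT] at hp
    exact dif_sum (hp.1.trans hp.2.symm)
  obtain ⟨l, hl1, hl2⟩ := weights (LamC 𝒰 u) (LamC_sat 𝒰 u) (fun γ h => h.1)
    (D.filter fun γ => γ ∉ LamC 𝒰 u) (fun z hz => hD0 z (Finset.mem_filter.1 hz).1)
    (fun z hz => (Finset.mem_filter.1 hz).2)
  have hdifl : ∀ α β : Fin r →₀ ℕ, ∑ j, (l j : ℤ) * dif α β j =
      ((∑ j, l j * α j : ℕ) : ℤ) - (∑ j, l j * β j : ℕ) := by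
    intro α β
    push_cast
    rw [← Finset.sum_sub_distrib]
    refine Finset.sum_congr rfl fun j _ => ?_
    unfold dif
    ring
  have hl : ∀ e ≤ d', ∀ α ∈ TT r e, ∀ β ∈ TT r e,
      (∑ j, l j * α j = ∑ j, l j * β j ↔ dif α β ∈ LamC 𝒰 u) := by
    intro e he α hα β hβ
    constructor
    · intro h1
      by_contra h2
      apply hl2 _ (Finset.mem_filter.2 ⟨hDm e he α hα β hβ, h2⟩)
      rw [hdifl, h1, sub_self]
    · intro h1
      have h2 := hl1 _ h1
      rw [hdifl, sub_eq_zero] at h2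
      exact_mod_cast h2
  -- the constants
  have hcex : ∀ γ : Fin r → ℤ, ∃ c : Kˣ, γ ∈ LamC 𝒰 u →
      ∀ᶠ s in (𝒰 : Filter ℕ), mon (u s) γ = c := by
    intro γ
    by_cases hγ : γ ∈ LamC 𝒰 u
    · obtain ⟨-, c, hc⟩ := hγ
      exact ⟨c, fun _ => hc⟩
    · exact ⟨1, fun h => absurd h hγ⟩
  choose cst hcst using hcex
  have hev : ∀ᶠ s in (𝒰 : Filter ℕ), ∀ γ ∈ D, γ ∈ LamC 𝒰 u → mon (u s) γ = cst γ := by
    refine (Filter.eventually_all_finset D).2 fun γ _ => ?_
    by_cases hγ : γ ∈ LamC 𝒰 u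
    · filter_upwards [hcst γ hγ] with s hs _
      exact hs
    · exact Eventually.of_forall fun s h => absurd h hγ
  set w : Fin r × Fin (n + 1) → K := fun q => v q.1 q.2 with hw
  have hptw : ∀ s, (fun i => ∑ j, w (j, i) * (u s j : K)) = pt v (u s) := by
    intro s
    funext i
    unfold pt
    exact Finset.sum_congr rfl fun j _ => mul_comm _ _
  -- the curve lies on the variety
  have hcur : ∀ᶠ s in (𝒰 : Filter ℕ), ∀ F ∈ F1, aeval (curve l v (u s)) F = 0 := by
    filter_upwards [hev] with s hs F hFm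
    obtain ⟨e, hed, he⟩ := hF1 F hFm
    have hed' : e ≤ d' := hed.trans (le_max_left _ _)
    have hCS := class_const hU 𝒰 hΓ u hu e l (hl e hed') cst (by
        filter_upwards [hev] with s hs α hα β hβ h1
        exact hs _ (hDm e hed' α hα β hβ) h1) (cc F e w) (by
        filter_upwards [hv0] with s hs
        have h1 := expand (B := K) he w (fun j => (u s j : K))
        simp only [Algebra.algebraMap_self, RingHom.id_apply] at h1
        rw [← h1, hptw s]
        have h2 := hF s F hFm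
        rwa [hs] at h2) s (fun α hα β hβ h1 => hs _ (hDm e hed' α hα β hβ) h1)
    obtain ⟨S, hS⟩ := exists_gens (LamC 𝒰 u)
    refine curve_mem F v (u s) S (fun A _ _ t ht => ?_) l (fun γ hγ => hl1 γ (by
      rw [← hS]
      exact AddSubgroup.subset_closure hγ))
    have h5 := orbit_zero he l (fun j => (u s j : K)) w hCS (S : Set (Fin r → ℤ)) (by
      intro α hα β hβ hab
      rw [hS]
      exact (hl e hed' α hα β hβ).1 hab) A t (fun γ hγ => ht γ hγ)
    rw [← h5]
    congr 1
    congr 1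
    funext i
    refine Finset.sum_congr rfl fun j _ => ?_
    rw [map_mul]
    ring
  -- so it is constant
  have hcon : ∀ᶠ s in (𝒰 : Filter ℕ), ¬ Nonconst (curve l v (u s)) := by
    filter_upwards [hcur, hv0] with s hs h0 hn
    obtain ⟨G, hGm, hG0⟩ := hG s
    apply hG0
    rw [h0]
    exact h l v (u s) (by rw [← h0]; exact hx s) hs hn G hGm
  -- the coordinates which do not vanish
  obtain ⟨i₀, hi₀⟩ := ev_exists 𝒰 (ι := Fin (n + 1)) (P := fun i s => pt v (u s) i ≠ 0) (by
    filter_upwards [hv0] with s hs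
    have h1 := hx s
    rw [hs] at h1
    exact Function.ne_iff.1 h1)
  obtain ⟨j₀, hj₀⟩ := ev_exists 𝒰 (ι := Fin r)
    (P := fun j₀ s => ∑ j with l j = l j₀, (u s j : K) * v j i₀ ≠ 0) (by
    filter_upwards [hi₀] with s hs
    by_contra hcon
    push Not at hcon
    apply hs
    unfold pt
    rw [← Finset.sum_fiberwise_of_maps_to (g := l) (t := Finset.univ.image l)
      (fun j hj => Finset.mem_image_of_mem _ hj)]
    refine Finset.sum_eq_zero fun m hm => ?_
    obtain ⟨j₀, -, rfl⟩ := Finset.mem_image.1 hm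
    exact hcon j₀)
  set κ : Fin r → Kˣ := fun j => cst (dif (Finsupp.single j 1) (Finsupp.single j₀ 1)) with hκ
  set Y : Fin (n + 1) → K := fun i => ∑ j with l j = l j₀, (κ j : K) * v j i with hY
  have hT1 : ∀ j : Fin r, (Finsupp.single j 1 : Fin r →₀ ℕ) ∈ TT r 1 := fun j =>
    mem_TT.2 (Finsupp.degree_single _ _)
  have hsum1 : ∀ j : Fin r, ∑ i, l i * (Finsupp.single j 1 : Fin r →₀ ℕ) i = l j := by
    intro j
    rw [Finset.sum_eq_single j]
    · simp
    · intro i _ hi
      rw [Finsupp.single_apply, if_neg (Ne.symm hi), mul_zero]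
    · intro h
      exact absurd (Finset.mem_univ _) h
  have hprod1 : ∀ (s : ℕ) (j : Fin r),
      (∏ i, u s i ^ (Finsupp.single j 1 : Fin r →₀ ℕ) i : Kˣ) = u s j := by
    intro s j
    rw [Finset.prod_eq_single j]
    · simp
    · intro i _ hi
      rw [Finsupp.single_apply, if_neg (Ne.symm hi), pow_zero]
    · intro h
      exact absurd (Finset.mem_univ _) h
  have hpar : ∀ᶠ s in (𝒰 : Filter ℕ), ∀ i, ∑ j with l j = l j₀, (u s j : K) * v j i =
      (u s j₀ : K) * Y i := by
    filter_upwards [hev] with s hs i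
    rw [hY]
    simp only
    rw [Finset.mul_sum]
    refine Finset.sum_congr rfl fun j hj => ?_
    rw [Finset.mem_filter] at hj
    have h1 := (hl 1 (le_max_right _ _) _ (hT1 j) _ (hT1 j₀)).1 (by rw [hsum1, hsum1, hj.2])
    have h2 := hs _ (hDm 1 (le_max_right _ _) _ (hT1 j) _ (hT1 j₀)) h1
    rw [mon_dif, hprod1, hprod1, div_eq_iff_eq_mul] at h2
    rw [h2]
    push_cast
    ring
  -- the points agree
  have hpts : ∀ᶠ s in (𝒰 : Filter ℕ), ∃ hY0 : Y ≠ 0, P s = Projectivization.mk K Y hY0 := by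
    filter_upwards [hpar, hcon, hi₀, hj₀, hv0] with s h1 h2 h3 h4 h5
    have hY0 : Y i₀ ≠ 0 := by
      rw [h1] at h4
      exact right_ne_zero_of_mul h4
    have hY' : Y ≠ 0 := fun h => hY0 (by rw [h]; rfl)
    refine ⟨hY', ?_⟩
    rw [hPe s, Projectivization.mk_eq_mk_iff']
    refine ⟨pt v (u s) i₀ / Y i₀, ?_⟩
    funext i
    rw [h5]
    simp only [Pi.smul_apply, smul_eq_mul]
    have h6 : ∀ b c : K, (curve l v (u s) i).eval b * (curve l v (u s) i₀).eval c =
        (curve l v (u s) i₀).eval b * (curve l v (u s) i).eval c := by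
      intro b c
      by_contra hne
      exact h2 ⟨i, i₀, b, c, hne⟩
    have h7 : (curve l v (u s) i) * Polynomial.C ((curve l v (u s) i₀).eval 1) =
        (curve l v (u s) i₀) * Polynomial.C ((curve l v (u s) i).eval 1) := by
      apply Polynomial.funext
      intro b
      rw [Polynomial.eval_mul, Polynomial.eval_mul, Polynomial.eval_C, Polynomial.eval_C]
      exact h6 b 1
    have h8 := congrArg (fun p => Polynomial.coeff p (l j₀)) h7
    simp only [Polynomial.coeff_mul_C] at h8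
    rw [curve_coeff, curve_coeff, curve_eval_one, curve_eval_one, h1, h1] at h8
    have h9 : (u s j₀ : K) ≠ 0 := Units.ne_zero _
    have h10 : Y i * pt v (u s) i₀ = Y i₀ * pt v (u s) i := by
      apply mul_left_cancel₀ h9
      linear_combination h8
    field_simp
    linear_combination h10
  -- two different points agree
  have hinf2 : {s | ∃ hY0 : Y ≠ 0, P s = Projectivization.mk K Y hY0}.Infinite := by
    intro hfin
    have h1 := hfin.compl_mem_hyperfilter
    obtain ⟨s, h2, h3⟩ := (hpts.and h1).exists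
    exact h3 h2
  obtain ⟨s, ⟨h1, h2⟩, t, ⟨h3, h4⟩, hst⟩ := hinf2.nontrivial
  exact hst (hPinj (h2.trans h4.symm))

/-- **Short sums of units on rational curves.** -/
theorem arith_cur {K : Type} [Field K] [CharZero K] {n D : ℕ}
    {F1 F2 : Set (MvPolynomial (Fin (n + 1)) K)}
    (h : ArR (D + 1) F1 F2) : CurvesIn D F1 F2 := by
  classical
  intro q hqD hq hn G hG
  by_contra hG0
  set two : Kˣ := Units.mk0 2 two_ne_zero with htwo
  set v : Fin (D + 1) → Fin (n + 1) → K := fun j i => (q i).coeff j with hv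
  have hfin := h (Subgroup.zpowers two) ⟨{two}, by simp [Subgroup.zpowers_eq_closure]⟩
    (Finset.univ.image v)
  have hinf : (Set.range fun m : ℕ => (2 : K) ^ m).Infinite :=
    Set.infinite_range_of_injective fun a b hab => by
      have h1 : ((2 : ℕ) : K) ^ a = ((2 : ℕ) : K) ^ b := by simpa using hab
      have h2 : (2 : ℕ) ^ a = 2 ^ b := by exact_mod_cast h1
      exact Nat.pow_right_injective le_rfl h2
  have hinf2 : ((Set.range fun m : ℕ => (2 : K) ^ m) \
      {a | (aeval q G).IsRoot a}).Infinite :=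
    hinf.sdiff (by
      have h1 : {a | (aeval q G).IsRoot a} = ((aeval q G).roots.toFinset : Set K) := by
        ext a
        simp [hG0]
      rw [h1]
      exact Finset.finite_toSet _)
  obtain ⟨i1, hi1⟩ := curve_nonzero hn
  have hinf3 : (((Set.range fun m : ℕ => (2 : K) ^ m) \
      {a | (aeval q G).IsRoot a}) \ {a | (q i1).IsRoot a}).Infinite :=
    hinf2.sdiff (by
      have h1 : {a | (q i1).IsRoot a} = ((q i1).roots.toFinset : Set K) := by
        ext a
        simp [hi1]
      rw [h1]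
      exact Finset.finite_toSet _)
  obtain ⟨a, ⟨⟨⟨m, rfl⟩, ha2⟩, ha3⟩, ha4⟩ := curve_points hn hinf3 hfin
  set u : Fin (D + 1) → Kˣ := fun j => (two ^ m) ^ (j : ℕ) with hu
  have hpt : pt v u = fun i => (q i).eval ((2 : K) ^ m) := by
    funext i
    unfold pt
    rw [Polynomial.eval_eq_sum_range' (n := D + 1) (Nat.lt_succ_of_le (hqD i)), Finset.sum_range]
    refine Finset.sum_congr rfl fun j _ => ?_
    rw [hu, hv]
    simp only
    rw [Units.val_pow_eq_pow_val, Units.val_pow_eq_pow_val, htwo, Units.val_mk0]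
    ring
  have hx : (fun i => (q i).eval ((2 : K) ^ m)) ≠ 0 := by
    intro h0
    exact ha3 (congrFun h0 i1)
  apply ha4 hx
  have hx' : pt v u ≠ 0 := by rw [hpt]; exact hx
  refine ⟨v, u, hx', fun j => Finset.mem_image_of_mem _ (Finset.mem_univ _), fun j => ?_,
    fun F hF => ?_, ⟨G, hG, ?_⟩, ?_⟩
  · exact Subgroup.pow_mem _ (Subgroup.pow_mem _ (Subgroup.mem_zpowers _) _) _
  · rw [hpt, aeval_eval, hq F hF, Polynomial.eval_zero]
  · rw [hpt, aeval_eval]
    exact ha2
  · congr 1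
    exact hpt.symm


end Pool.Agent.V8H29.FS
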