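import Mathlib
import Pool.Agent.V8H29.EN1
import Pool.Agent.V8H29.FS9

/-!
# Sums of zero-free entire functions times vectors of smaller order
-/

set_option autoImplicit false

namespace Pool.Agent.V8H29.EN

open MvPolynomial Pool.Agent.V8H29.FS

/-- a ring of entire functions of order less than `ρ` which contains the exponentials of the
polynomials of degree less than `ρ` -/
structure Good (ρ : ℕ) (A : Subalgebra ℂ (ℂ → ℂ)) : Prop where
  ord : ∀ f ∈ A, OrdLt ρ f
  exp : ∀ p : Polynomial ℂ, p.natDegree < ρ → (fun z => Complex.exp (p.eval z)) ∈ A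

lemma polyLt_sum {ρ r : ℕ} {g : Fin r → ℂ → ℂ} {γ δ : Fin r → ℤ}
    (h1 : PolyLt ρ fun z => ∑ j, (γ j : ℂ) * g j z)
    (h2 : PolyLt ρ fun z => ∑ j, (δ j : ℂ) * g j z) :
    PolyLt ρ fun z => ∑ j, ((γ + δ) j : ℂ) * g j z := by
  obtain ⟨p, hp, h1⟩ := h1
  obtain ⟨q, hq, h2⟩ := h2
  refine ⟨p + q, lt_of_le_of_lt (Polynomial.natDegree_add_le _ _) (max_lt hp hq), fun z => ?_⟩
  rw [Polynomial.eval_add, ← h1, ← h2, ← Finset.sum_add_distrib]
  refine Finset.sum_congr rfl fun j _ => ?_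
  rw [Pi.add_apply]
  push_cast
  ring

/-- the exponents whose combination is a polynomial of degree less than `ρ` -/
def LamP (ρ : ℕ) (hρ : 0 < ρ) {r : ℕ} (g : Fin r → ℂ → ℂ) : AddSubgroup (Fin r → ℤ) where
  carrier := {γ | ∑ j, γ j = 0 ∧ PolyLt ρ fun z => ∑ j, (γ j : ℂ) * g j z}
  add_mem' := by
    rintro γ δ ⟨h1, h2⟩ ⟨h3, h4⟩
    refine ⟨?_, polyLt_sum h2 h4⟩
    simp only [Pi.add_apply]
    rw [Finset.sum_add_distrib, h1, h3, add_zero]
  zero_mem' := by
    refine ⟨by simp, 0, by simpa using hρ, fun z => by simp⟩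
  neg_mem' := by
    rintro γ ⟨h1, p, hp, h2⟩
    refine ⟨?_, -p, by rwa [Polynomial.natDegree_neg], fun z => ?_⟩
    · simp only [Pi.neg_apply]
      rw [Finset.sum_neg_distrib, h1, neg_zero]
    · rw [Polynomial.eval_neg, ← h2, ← Finset.sum_neg_distrib]
      refine Finset.sum_congr rfl fun j _ => ?_
      rw [Pi.neg_apply]
      push_cast
      ring

lemma LamP_sat (ρ : ℕ) (hρ : 0 < ρ) {r : ℕ} (g : Fin r → ℂ → ℂ) (m : ℤ) (γ : Fin r → ℤ)
    (hm : m ≠ 0) (h : m • γ ∈ LamP ρ hρ g) : γ ∈ LamP ρ hρ g := by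
  obtain ⟨h1, p, hp, h2⟩ := h
  refine ⟨?_, Polynomial.C ((m : ℂ)⁻¹) * p, ?_, fun z => ?_⟩
  · simp only [Pi.smul_apply, smul_eq_mul] at h1
    rw [← Finset.mul_sum] at h1
    exact (mul_eq_zero.1 h1).resolve_left hm
  · exact lt_of_le_of_lt (Polynomial.natDegree_C_mul_le _ _) hp
  · rw [Polynomial.eval_mul, Polynomial.eval_C, ← h2, Finset.mul_sum]
    refine Finset.sum_congr rfl fun j _ => ?_
    have hm' : (m : ℂ) ≠ 0 := by exact_mod_cast hm
    rw [Pi.smul_apply, smul_eq_mul]
    push_cast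
    field_simp

lemma prod_exp {r : ℕ} (g : Fin r → ℂ → ℂ) (α : Fin r →₀ ℕ) (z : ℂ) :
    ∏ j, Complex.exp (g j z) ^ α j = Complex.exp (∑ j, (α j : ℂ) * g j z) := by
  rw [Complex.exp_sum]
  refine Finset.prod_congr rfl fun j _ => ?_
  rw [← Complex.exp_nat_mul]

/-- **The class sums vanish.** -/
theorem class_ord {ρ : ℕ} (hρ : 0 < ρ) {r : ℕ} {g : Fin r → ℂ → ℂ}
    (hg : ∀ j, Differentiable ℂ (g j)) (e : ℕ) (l : Fin r → ℕ)
    (hl : ∀ α ∈ TT r e, ∀ β ∈ TT r e,
      (∑ j, l j * α j = ∑ j, l j * β j ↔ dif α β ∈ LamP ρ hρ g))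
    (c : (Fin r →₀ ℕ) → ℂ → ℂ) (hc : ∀ α ∈ TT r e, OrdLt ρ (c α))
    (hsum : ∀ z, ∑ α ∈ TT r e, c α z * ∏ j, Complex.exp (g j z) ^ α j = 0) (m : ℕ) (z : ℂ) :
    CS l (fun j => Complex.exp (g j z)) (fun α => c α z) e m = 0 := by
  classical
  set W : (Fin r →₀ ℕ) → ℕ := fun α => ∑ j, l j * α j with hW
  set J : Finset ℕ := (TT r e).image W with hJ
  have hex : ∀ m, ∃ β : Fin r →₀ ℕ, m ∈ J → β ∈ TT r e ∧ W β = m := by
    intro m
    by_cases hm : m ∈ J
    · obtain ⟨β, h1, h2⟩ := Finset.mem_image.1 hm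
      exact ⟨β, fun _ => ⟨h1, h2⟩⟩
    · exact ⟨0, fun h => absurd h hm⟩
  choose rep hrep using hex
  set C : ℕ → ℂ → ℂ := fun m z => ∑ α ∈ TT r e with W α = m,
    c α z * Complex.exp (∑ j, (dif α (rep m) j : ℂ) * g j z) with hC
  set H : ℕ → ℂ → ℂ := fun m z => ∑ j, (rep m j : ℂ) * g j z with hH
  have hCS : ∀ m z, CS l (fun j => Complex.exp (g j z)) (fun α => c α z) e m =
      C m z * Complex.exp (H m z) := by
    intro m z
    unfold CS
    rw [hC, hH]
    simp only
    rw [Finset.sum_mul]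
    refine Finset.sum_congr rfl fun α _ => ?_
    rw [prod_exp, mul_assoc, ← Complex.exp_add, ← Finset.sum_add_distrib]
    congr 2
    refine Finset.sum_congr rfl fun j _ => ?_
    unfold dif
    push_cast
    ring
  by_cases hm : m ∈ J
  · rw [hCS, borel_ord hρ J (c := C) (h := H) ?_ ?_ ?_ ?_ m hm z, zero_mul]
    · intro m hm
      have h1 : C m = ∑ α ∈ TT r e with W α = m,
          (c α) * fun z => Complex.exp (∑ j, (dif α (rep m) j : ℂ) * g j z) := by
        funext z
        rw [Finset.sum_apply]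
        rfl
      rw [h1]
      have h2 : (∑ α ∈ TT r e with W α = m,
          (c α) * fun z => Complex.exp (∑ j, (dif α (rep m) j : ℂ) * g j z)) ∈ ordRing ρ hρ := by
        refine sum_mem fun α hα => mul_mem ?_ ?_
        · exact hc α (Finset.mem_filter.1 hα).1
        · refine ordLt_exp ?_
          have h3 := (hl α (Finset.mem_filter.1 hα).1 _ (hrep m hm).1).1
            ((Finset.mem_filter.1 hα).2.trans (hrep m hm).2.symm)
          exact h3.2
      exact h2
    · intro m _
      exact Differentiable.fun_sum fun j _ => (differentiable_const _).mul (hg j)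
    · intro m hm m' hm' hne hp
      apply hne
      have h1 : dif (rep m) (rep m') ∈ LamP ρ hρ g := by
        refine ⟨dif_sum ((mem_TT.1 (hrep m hm).1).trans (mem_TT.1 (hrep m' hm').1).symm), ?_⟩
        obtain ⟨p, hp1, hp2⟩ := hp
        refine ⟨p, hp1, fun z => ?_⟩
        rw [← hp2, hH]
        simp only
        rw [← Finset.sum_sub_distrib]
        refine Finset.sum_congr rfl fun j _ => ?_
        unfold dif
        push_cast
        ring
      have h2 := (hl _ (hrep m hm).1 _ (hrep m' hm').1).2 h1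
      exact (hrep m hm).2.symm.trans (h2.trans (hrep m' hm').2)
    · intro z
      rw [← hsum z, ← Finset.sum_fiberwise_of_maps_to (g := W) (t := J)
        (fun α hα => Finset.mem_image_of_mem _ hα)]
      refine Finset.sum_congr rfl fun m _ => ?_
      rw [← hCS]
      rfl
  · unfold CS
    refine Finset.sum_eq_zero fun α hα => ?_
    exact absurd (Finset.mem_image.2 ⟨α, (Finset.mem_filter.1 hα).1, (Finset.mem_filter.1 hα).2⟩) hm

lemma aeval_mem_int {A : Subalgebra ℂ (ℂ → ℂ)} {ι : Type} (P : MvPolynomial ι ℤ)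
    {W : ι → ℂ → ℂ} (hW : ∀ q, W q ∈ A) : (fun z => aeval (fun q => W q z) P) ∈ A := by
  induction P using MvPolynomial.induction_on with
  | C a =>
    have h1 : (fun z : ℂ => aeval (fun q => W q z) (C a : MvPolynomial ι ℤ)) =
        algebraMap ℂ (ℂ → ℂ) (a : ℂ) := by
      funext z
      simp
    rw [h1]
    exact A.algebraMap_mem _
  | add p q hp hq =>
    have h1 : (fun z : ℂ => aeval (fun q => W q z) (p + q)) =
        (fun z => aeval (fun q => W q z) p) + fun z => aeval (fun q => W q z) q := by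
      funext z
      simp
    rw [h1]
    exact add_mem hp hq
  | mul_X p i hp =>
    have h1 : (fun z : ℂ => aeval (fun q => W q z) (p * X i)) =
        (fun z => aeval (fun q => W q z) p) * W i := by
      funext z
      simp
    rw [h1]
    exact mul_mem hp (hW i)

lemma cc_mem {A : Subalgebra ℂ (ℂ → ℂ)} {n r : ℕ} (F : MvPolynomial (Fin (n + 1)) ℂ) (e : ℕ)
    {W : Fin r × Fin (n + 1) → ℂ → ℂ} (hW : ∀ q, W q ∈ A) (α : Fin r →₀ ℕ) :
    (fun z => cc F e (fun q => W q z) α) ∈ A := by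
  have h1 : (fun z => cc F e (fun q => W q z) α) =
      ∑ β ∈ TT (n + 1) e, (algebraMap ℂ (ℂ → ℂ) (F.coeff β)) *
        fun z => aeval (fun q => W q z) ((PP r β).coeff α) := by
    funext z
    rw [Finset.sum_apply]
    rfl
  rw [h1]
  exact sum_mem fun β _ => mul_mem (A.algebraMap_mem _) (aeval_mem_int _ hW)

/-- finitely many of the equations suffice -/
lemma exists_fin {n : ℕ} (F1 : Set (MvPolynomial (Fin (n + 1)) ℂ)) :
    ∃ F3 : Finset (MvPolynomial (Fin (n + 1)) ℂ), (F3 : Set _) ⊆ F1 ∧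
      ∀ (B : Type) [CommRing B] [Algebra ℂ B] (x : Fin (n + 1) → B),
        (∀ F ∈ F3, aeval x F = 0) → ∀ F ∈ F1, aeval x F = 0 := by
  have h1 : (Ideal.span F1).FG := IsNoetherian.noetherian _
  obtain ⟨F3, h2, h3⟩ := (Submodule.fg_span_iff_fg_span_finset_subset F1).1 h1
  refine ⟨F3, h2, fun B _ _ x hx F hF => ?_⟩
  have h4 : F ∈ Ideal.span (F3 : Set (MvPolynomial (Fin (n + 1)) ℂ)) := by
    have h5 : F ∈ Ideal.span F1 := Ideal.subset_span hF
    rw [Ideal.span, h3] at h5
    exact h5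
  have h5 : Ideal.span (F3 : Set (MvPolynomial (Fin (n + 1)) ℂ)) ≤
      RingHom.ker (aeval x : MvPolynomial (Fin (n + 1)) ℂ →ₐ[ℂ] B) :=
    Ideal.span_le.2 fun G hG => hx G hG
  exact h5 h4

lemma coeff_prop {n : ℕ} {q : Fin (n + 1) → Polynomial ℂ} (h : ¬ Nonconst q)
    (i j : Fin (n + 1)) (m m' : ℕ) :
    (q i).coeff m * (q j).coeff m' = (q j).coeff m * (q i).coeff m' := by
  have h1 : ∀ b, q i * Polynomial.C ((q j).eval b) = q j * Polynomial.C ((q i).eval b) := by
    intro b
    apply Polynomial.funext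
    intro a
    rw [Polynomial.eval_mul, Polynomial.eval_mul, Polynomial.eval_C, Polynomial.eval_C]
    by_contra hne
    exact h ⟨i, j, a, b, hne⟩
  have h2 : Polynomial.C ((q i).coeff m) * q j = Polynomial.C ((q j).coeff m) * q i := by
    apply Polynomial.funext
    intro b
    have h3 := congrArg (fun p => Polynomial.coeff p m) (h1 b)
    simp only [Polynomial.coeff_mul_C] at h3
    rw [Polynomial.eval_mul, Polynomial.eval_mul, Polynomial.eval_C, Polynomial.eval_C]
    exact h3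
  have h3 := congrArg (fun p => Polynomial.coeff p m') h2
  simpa [Polynomial.coeff_C_mul] using h3

/-- the value at some point is defined and lies outside `{F2 = 0}` -/
def NotIn {n : ℕ} (F2 : Set (MvPolynomial (Fin (n + 1)) ℂ)) (f : Fin (n + 1) → ℂ → ℂ) : Prop :=
  ∃ z, (∃ i, f i z ≠ 0) ∧ ∃ G ∈ F2, aeval (fun i => f i z) G ≠ 0

/-- **The structure theorem.** -/
theorem struct {n r : ℕ} {F1 F2 : Set (MvPolynomial (Fin (n + 1)) ℂ)}
    (hF1 : ∀ F ∈ F1, ∃ e, F.IsHomogeneous e) (hcur : RCur ℂ r F1 F2) {ρ : ℕ} (hρ : 0 < ρ)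
    {A : Subalgebra ℂ (ℂ → ℂ)} (hA : Good ρ A) {g : Fin r → ℂ → ℂ}
    (hg : ∀ j, Differentiable ℂ (g j)) {a : Fin r → Fin (n + 1) → ℂ → ℂ} (ha : ∀ j i, a j i ∈ A)
    {f : Fin (n + 1) → ℂ → ℂ} (hf : ∀ i z, f i z = ∑ j, Complex.exp (g j z) * a j i z)
    (hX : ∀ F ∈ F1, ∀ z, aeval (fun i => f i z) F = 0) (hZ : NotIn F2 f) :
    ∃ w : Fin (n + 1) → ℂ → ℂ, (∀ i, w i ∈ A) ∧ (∃ i z, w i z ≠ 0) ∧
      ∀ i j z, f i z * w j z = f j z * w i z := by
  classical
  obtain ⟨F3, hF31, hF3⟩ := exists_fin F1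
  have hdeg : ∀ F : MvPolynomial (Fin (n + 1)) ℂ, ∃ e, F ∈ F3 → F.IsHomogeneous e := by
    intro F
    by_cases hF : F ∈ F3
    · obtain ⟨e, he⟩ := hF1 F (hF31 hF)
      exact ⟨e, fun _ => he⟩
    · exact ⟨0, fun h => absurd h hF⟩
  choose dg hdg using hdeg
  set d' := max (F3.sup dg) 1 with hd'
  set D : Finset (Fin r → ℤ) := (Finset.range (d' + 1)).biUnion fun e =>
    ((TT r e) ×ˢ (TT r e)).image fun p => dif p.1 p.2 with hD
  have hDm : ∀ e ≤ d', ∀ α ∈ TT r e, ∀ β ∈ TT r e, dif α β ∈ D := by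
    intro e he α hα β hβ
    exact Finset.mem_biUnion.2 ⟨e, Finset.mem_range.2 (Nat.lt_succ_of_le he),
      Finset.mem_image.2 ⟨(α, β), Finset.mem_product.2 ⟨hα, hβ⟩, rfl⟩⟩
  have hD0 : ∀ γ ∈ D, ∑ j, γ j = 0 := by
    intro γ hγ
    obtain ⟨e, -, h1⟩ := Finset.mem_biUnion.1 hγ
    obtain ⟨p, hp, rfl⟩ := Finset.mem_image.1 h1
    rw [Finset.mem_product, mem_TT, mem_TT] at hp
    exact dif_sum (hp.1.trans hp.2.symm)
  obtain ⟨l, hl1, hl2⟩ := weights (LamP ρ hρ g) (LamP_sat ρ hρ g) (fun γ h => h.1)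
    (D.filter fun γ => γ ∉ LamP ρ hρ g) (fun z hz => hD0 z (Finset.mem_filter.1 hz).1)
    (fun z hz => (Finset.mem_filter.1 hz).2)
  have hdifl : ∀ α β : Fin r →₀ ℕ, ∑ j, (l j : ℤ) * dif α β j =
      ((∑ j, l j * α j : ℕ) : ℤ) - (∑ j, l j * β j : ℕ) := by
    intro α β
    push_cast
    rw [← Finset.sum_sub_distrib]
    refine Finset.sum_congr rfl fun j _ => ?_
    unfold dif
    ring
  have hl : ∀ e ≤ d', ∀ α ∈ TT r e, ∀ β ∈ TT r e,
      (∑ j, l j * α j = ∑ j, l j * β j ↔ dif α β ∈ LamP ρ hρ g) := by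
    intro e he α hα β hβ
    constructor
    · intro h1
      by_contra h2
      apply hl2 _ (Finset.mem_filter.2 ⟨hDm e he α hα β hβ, h2⟩)
      rw [hdifl, h1, sub_self]
    · intro h1
      have h2 := hl1 _ h1
      rw [hdifl, sub_eq_zero] at h2
      exact_mod_cast h2
  obtain ⟨S, hS⟩ := exists_gens (LamP ρ hρ g)
  set u : ℂ → Fin r → ℂˣ := fun z j => Units.mk0 (Complex.exp (g j z)) (Complex.exp_ne_zero _)
    with hu
  set v : ℂ → Fin r → Fin (n + 1) → ℂ := fun z j i => a j i z with hv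
  have hpt : ∀ z, pt (v z) (u z) = fun i => f i z := by
    intro z
    funext i
    rw [hf]
    rfl
  -- the curve lies on the variety
  have hcurX : ∀ z, ∀ F ∈ F1, aeval (curve l (v z) (u z)) F = 0 := by
    intro z
    refine hF3 _ _ fun F hF => ?_
    have he := hdg F hF
    set e := dg F with hedef
    have hed : e ≤ d' := (Finset.le_sup (f := dg) hF).trans (le_max_left _ _)
    have hCS := class_ord hρ hg e l (hl e hed)
      (fun α z => cc F e (fun q : Fin r × Fin (n + 1) => a q.1 q.2 z) α)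
      (fun α _ => hA.ord _ (cc_mem F e (W := fun q : Fin r × Fin (n + 1) => a q.1 q.2)
        (fun q => ha q.1 q.2) α)) (fun z => by
        have h1 := expand (B := ℂ) he (fun q : Fin r × Fin (n + 1) => a q.1 q.2 z)
          (fun j => Complex.exp (g j z))
        simp only [Algebra.algebraMap_self, RingHom.id_apply] at h1
        rw [← h1]
        have h2 := hX F (hF31 hF) z
        rw [← h2]
        congr 1
        congr 1
        funext i
        rw [hf]
        exact Finset.sum_congr rfl fun j _ => mul_comm _ _)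
    refine curve_mem F (v z) (u z) S (fun B _ _ t ht => ?_) l (fun γ hγ => hl1 γ (by
      rw [← hS]
      exact AddSubgroup.subset_closure hγ))
    have h5 := orbit_zero he l (fun j => Complex.exp (g j z))
      (fun q : Fin r × Fin (n + 1) => a q.1 q.2 z) (fun m => hCS m z) (S : Set (Fin r → ℤ)) (by
      intro α hα β hβ hab
      rw [hS]
      exact (hl e hed α hα β hβ).1 hab) B t (fun γ hγ => ht γ hγ)
    rw [← h5]
    congr 1
    congr 1
    funext i
    refine Finset.sum_congr rfl fun j _ => ?_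
    rw [map_mul]
    change (t j : B) * (algebraMap ℂ B (Complex.exp (g j z)) * algebraMap ℂ B (a j i z)) = _
    ring
  -- entire functions
  have hfd : ∀ i, Differentiable ℂ (f i) := by
    intro i
    have h1 : f i = fun z => ∑ j, Complex.exp (g j z) * a j i z := funext (hf i)
    rw [h1]
    exact Differentiable.fun_sum fun j _ => (hg j).cexp.mul (hA.ord _ (ha j i)).1
  set Q : ℕ → Fin (n + 1) → ℂ → ℂ := fun m i z => ∑ j with l j = m,
    Complex.exp (g j z) * a j i z with hQ
  have hQd : ∀ m i, Differentiable ℂ (Q m i) := fun m i =>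
    Differentiable.fun_sum fun j _ => (hg j).cexp.mul (hA.ord _ (ha j i)).1
  have hQc : ∀ m i z, (curve l (v z) (u z) i).coeff m = Q m i z := by
    intro m i z
    rw [curve_coeff]
    rfl
  have hfQ : ∀ i z, f i z = ∑ m ∈ Finset.univ.image l, Q m i z := by
    intro i z
    rw [hf, ← Finset.sum_fiberwise_of_maps_to (g := l) (t := Finset.univ.image l)
      (fun j hj => Finset.mem_image_of_mem _ hj)]
  obtain ⟨z0, ⟨i0, hi0⟩, G, hG, hG0⟩ := hZ
  -- the functions are proportional
  have hprop : ∀ m m' i j z, Q m i z * Q m' j z = Q m j z * Q m' i z := by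
    intro m m' i j z
    have h1 : AnalyticOnNhd ℂ (fun z => Q m i z * Q m' j z) Set.univ := fun z _ =>
      ((hQd m i).mul (hQd m' j)).analyticAt z
    have h2 : AnalyticOnNhd ℂ (fun z => Q m j z * Q m' i z) Set.univ := fun z _ =>
      ((hQd m j).mul (hQd m' i)).analyticAt z
    refine congrFun (h1.eq_of_eventuallyEq (z₀ := z0) h2 ?_) z
    have h3 : ∀ᶠ z in nhds z0, f i0 z ≠ 0 := (hfd i0).continuous.continuousAt.eventually_ne hi0
    have h4 : ∀ᶠ z in nhds z0, aeval (fun i => f i z) G ≠ 0 := by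
      have h5 : Continuous fun z => aeval (fun i => f i z) G := by
        have h6 : (fun z => aeval (fun i => f i z) G) = fun z => eval (fun i => f i z) G := by
          funext z
          rw [aeval_eq_eval]
        rw [h6]
        exact (MvPolynomial.continuous_eval G).comp (continuous_pi fun i => (hfd i).continuous)
      exact h5.continuousAt.eventually_ne hG0
    filter_upwards [h3, h4] with z hz1 hz2
    have h5 : ¬ Nonconst (curve l (v z) (u z)) := by
      intro hn
      apply hz2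
      have h6 := hcur l (v z) (u z) (by
        rw [hpt]
        intro h0
        exact hz1 (congrFun h0 i0)) (hcurX z) hn G hG
      rwa [hpt] at h6
    have h6 := coeff_prop h5 i j m m'
    rwa [hQc, hQc, hQc, hQc] at h6
  -- a nonzero class
  obtain ⟨m0, hm0, hQ0⟩ : ∃ m0 ∈ Finset.univ.image l, Q m0 i0 z0 ≠ 0 := by
    by_contra hcon
    push Not at hcon
    apply hi0
    rw [hfQ]
    exact Finset.sum_eq_zero hcon
  obtain ⟨j0, -, rfl⟩ := Finset.mem_image.1 hm0
  set w : Fin (n + 1) → ℂ → ℂ := fun i z => ∑ j with l j = l j0,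
    Complex.exp (g j z - g j0 z) * a j i z with hw
  have hwQ : ∀ i z, Q (l j0) i z = Complex.exp (g j0 z) * w i z := by
    intro i z
    rw [hQ, hw]
    simp only
    rw [Finset.mul_sum]
    refine Finset.sum_congr rfl fun j _ => ?_
    rw [← mul_assoc, ← Complex.exp_add]
    congr 2
    ring
  refine ⟨w, fun i => ?_, ⟨i0, z0, fun h0 => hQ0 (by rw [hwQ, h0, mul_zero])⟩, fun i j z => ?_⟩
  · have h1 : w i = ∑ j with l j = l j0, (fun z => Complex.exp (g j z - g j0 z)) * a j i := by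
      funext z
      rw [Finset.sum_apply]
      rfl
    rw [h1]
    refine sum_mem fun j hj => mul_mem ?_ (ha j i)
    have h2 : (Finsupp.single j 1 : Fin r →₀ ℕ) ∈ TT r 1 := mem_TT.2 (Finsupp.degree_single _ _)
    have h3 : (Finsupp.single j0 1 : Fin r →₀ ℕ) ∈ TT r 1 := mem_TT.2 (Finsupp.degree_single _ _)
    have hsum1 : ∀ j : Fin r, ∑ i, l i * (Finsupp.single j 1 : Fin r →₀ ℕ) i = l j := by
      intro j
      rw [Finset.sum_eq_single j]
      · simp
      · intro i _ hi
        rw [Finsupp.single_apply, if_neg (Ne.symm hi), mul_zero]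
      · intro h
        exact absurd (Finset.mem_univ _) h
    have hsum2 : ∀ (j : Fin r) (z : ℂ), ∑ i, ((Finsupp.single j 1 : Fin r →₀ ℕ) i : ℂ) * g i z =
        g j z := by
      intro j z
      rw [Finset.sum_eq_single j]
      · simp
      · intro i _ hi
        rw [Finsupp.single_apply, if_neg (Ne.symm hi), Nat.cast_zero, zero_mul]
      · intro h
        exact absurd (Finset.mem_univ _) h
    have h4 := (hl 1 (le_max_right _ _) _ h2 _ h3).1 (by
      rw [hsum1, hsum1]
      exact (Finset.mem_filter.1 hj).2)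
    obtain ⟨-, p, hp, h5⟩ := h4
    have h6 : (fun z => Complex.exp (g j z - g j0 z)) = fun z => Complex.exp (p.eval z) := by
      funext z
      rw [← h5, ← hsum2 j z, ← hsum2 j0 z, ← Finset.sum_sub_distrib]
      congr 1
      refine Finset.sum_congr rfl fun i _ => ?_
      unfold dif
      push_cast
      ring
    rw [h6]
    exact hA.exp p hp
  · have h1 : f i z * Q (l j0) j z = f j z * Q (l j0) i z := by
      rw [hfQ, hfQ, Finset.sum_mul, Finset.sum_mul]
      exact Finset.sum_congr rfl fun m _ => hprop m (l j0) i j z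
    rw [hwQ, hwQ] at h1
    apply mul_left_cancel₀ (Complex.exp_ne_zero (g j0 z))
    linear_combination h1

end Pool.Agent.V8H29.EN
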