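import Mathlib
import Pool.Agent.V8H29.EN2

/-!
# Entire curves with coordinates in the ring generated by zero-free functions and functions of
small order
-/

set_option autoImplicit false

namespace Pool.Agent.V8H29.EN

open MvPolynomial Pool.Agent.V8H29.FS
open Pool.Agent.TH242.MK (exists_log)

/-- the ring generated by `A` and the entire functions without zeros -/
def zfRing (A : Subalgebra ℂ (ℂ → ℂ)) : Subring (ℂ → ℂ) :=
  Subring.closure ((A : Set (ℂ → ℂ)) ∪ {f | Differentiable ℂ f ∧ ∀ z, f z ≠ 0})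

/-- the elements as sums -/
lemma zfRing_form {A : Subalgebra ℂ (ℂ → ℂ)} {f : ℂ → ℂ} (hf : f ∈ zfRing A) :
    ∃ (ι : Type) (_ : Fintype ι) (g a : ι → ℂ → ℂ), (∀ i, Differentiable ℂ (g i)) ∧
      (∀ i, a i ∈ A) ∧ ∀ z, f z = ∑ i, Complex.exp (g i z) * a i z := by
  induction hf using Subring.closure_induction with
  | mem f hf =>
    rcases hf with hf | ⟨hf, h0⟩
    · exact ⟨Unit, inferInstance, fun _ _ => 0, fun _ => f, fun _ => differentiable_const _,
        fun _ => hf, fun z => by simp⟩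
    · obtain ⟨g, hg, hgf⟩ := exists_log hf h0
      exact ⟨Unit, inferInstance, fun _ => g, fun _ => 1, fun _ => hg, fun _ => one_mem A,
        fun z => by simp [hgf]⟩
  | zero => exact ⟨Empty, inferInstance, fun _ _ => 0, fun _ => 0, fun _ => differentiable_const _,
      fun _ => zero_mem A, fun z => by simp⟩
  | one => exact ⟨Unit, inferInstance, fun _ _ => 0, fun _ => 1, fun _ => differentiable_const _,
      fun _ => one_mem A, fun z => by simp⟩
  | neg f _ ih =>
    obtain ⟨ι, _, g, a, h1, h2, h3⟩ := ih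
    exact ⟨ι, inferInstance, g, fun i => -a i, h1, fun i => neg_mem (h2 i), fun z => by
      rw [Pi.neg_apply, h3, ← Finset.sum_neg_distrib]
      exact Finset.sum_congr rfl fun i _ => by
        change _ = Complex.exp (g i z) * (-(a i z))
        ring⟩
  | add f f' _ _ ih ih' =>
    obtain ⟨ι, _, g, a, h1, h2, h3⟩ := ih
    obtain ⟨ι', _, g', a', h1', h2', h3'⟩ := ih'
    refine ⟨ι ⊕ ι', inferInstance, Sum.elim g g', Sum.elim a a', fun i => ?_, fun i => ?_,
      fun z => ?_⟩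
    · rcases i with i | i
      · exact h1 i
      · exact h1' i
    · rcases i with i | i
      · exact h2 i
      · exact h2' i
    · rw [Pi.add_apply, h3, h3', Fintype.sum_sum_type]
      rfl
  | mul f f' _ _ ih ih' =>
    obtain ⟨ι, _, g, a, h1, h2, h3⟩ := ih
    obtain ⟨ι', _, g', a', h1', h2', h3'⟩ := ih'
    refine ⟨ι × ι', inferInstance, fun i z => g i.1 z + g' i.2 z, fun i => a i.1 * a' i.2,
      fun i => (h1 i.1).add (h1' i.2), fun i => mul_mem (h2 i.1) (h2' i.2), fun z => ?_⟩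
    rw [Pi.mul_apply, h3, h3', Finset.sum_mul_sum, Fintype.sum_prod_type]
    refine Finset.sum_congr rfl fun i _ => Finset.sum_congr rfl fun j _ => ?_
    change _ = Complex.exp (g i z + g' j z) * (a i z * a' j z)
    rw [Complex.exp_add]
    ring

/-- vectors with coordinates in the ring -/
lemma zfRing_vec {A : Subalgebra ℂ (ℂ → ℂ)} {n : ℕ} {f : Fin (n + 1) → ℂ → ℂ}
    (hf : ∀ i, f i ∈ zfRing A) : ∃ (r : ℕ) (g : Fin r → ℂ → ℂ) (a : Fin r → Fin (n + 1) → ℂ → ℂ),
      (∀ j, Differentiable ℂ (g j)) ∧ (∀ j i, a j i ∈ A) ∧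
      ∀ i z, f i z = ∑ j, Complex.exp (g j z) * a j i z := by
  classical
  choose ι hι g a h1 h2 h3 using fun i => zfRing_form (hf i)
  set T : Type := Σ i, ι i with hT
  set e : T ≃ Fin (Fintype.card T) := Fintype.equivFin T with he
  refine ⟨Fintype.card T, fun j => g (e.symm j).1 (e.symm j).2,
    fun j i => if (e.symm j).1 = i then a (e.symm j).1 (e.symm j).2 else 0,
    fun j => h1 _ _, fun j i => ?_, fun i z => ?_⟩
  · simp only
    split_ifs
    · exact h2 _ _
    · exact zero_mem A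
  · rw [h3, e.symm.sum_comp (fun t : T => Complex.exp (g t.1 t.2 z) *
      (if t.1 = i then a t.1 t.2 else 0 : ℂ → ℂ) z)]
    rw [Fintype.sum_sigma, Finset.sum_eq_single i]
    · simp
    · intro i' _ hi'
      refine Finset.sum_eq_zero fun j _ => ?_
      simp [hi']
    · intro h
      exact absurd (Finset.mem_univ _) h

lemma rcur_of_rat {n : ℕ} {F1 F2 : Set (MvPolynomial (Fin (n + 1)) ℂ)} (h : RatCurvesIn F1 F2)
    (r : ℕ) : RCur ℂ r F1 F2 := by
  intro l v u _ hX hn G hG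
  have h1 := h _ hX hn G hG
  have h2 := aeval_eval (curve l v u) 1 G
  rw [h1, Polynomial.eval_zero] at h2
  rw [← h2]
  congr 1
  congr 1
  funext i
  rw [curve_eval_one]

/-- the curve `f` is proportional to a curve with coordinates in `A` -/
def PropTo {n : ℕ} (A : Subalgebra ℂ (ℂ → ℂ)) (f : Fin (n + 1) → ℂ → ℂ) : Prop :=
  ∃ w : Fin (n + 1) → ℂ → ℂ, (∀ i, w i ∈ A) ∧ (∃ i z, w i z ≠ 0) ∧
    ∀ i j z, f i z * w j z = f j z * w i z

/-- the curve `f` is constant -/
def ConstCurve {n : ℕ} (f : Fin (n + 1) → ℂ → ℂ) : Prop :=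
  ∀ i j z z', f i z * f j z' = f j z * f i z'

/-- the curve lies in `{F1 = 0}` -/
def InX {n : ℕ} (F1 : Set (MvPolynomial (Fin (n + 1)) ℂ)) (f : Fin (n + 1) → ℂ → ℂ) : Prop :=
  ∀ F ∈ F1, ∀ z, aeval (fun i => f i z) F = 0

theorem rat_prop {n : ℕ} {F1 F2 : Set (MvPolynomial (Fin (n + 1)) ℂ)}
    (hF1 : ∀ F ∈ F1, ∃ e, F.IsHomogeneous e) (h : RatCurvesIn F1 F2) {ρ : ℕ} (hρ : 0 < ρ)
    {A : Subalgebra ℂ (ℂ → ℂ)} (hA : Good ρ A) {f : Fin (n + 1) → ℂ → ℂ}
    (hf : ∀ i, f i ∈ zfRing A) (hX : InX F1 f) (hZ : NotIn F2 f) : PropTo A f := by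
  obtain ⟨r, g, a, h1, h2, h3⟩ := zfRing_vec hf
  exact struct hF1 (rcur_of_rat h r) hρ hA h1 h2 h3 hX hZ

/-- cancelling a function which is not identically zero -/
lemma cancel {h k : ℂ → ℂ} (hh : Differentiable ℂ h) (hk : Differentiable ℂ k)
    (hk0 : ∃ z, k z ≠ 0) (hhk : ∀ z, h z * k z = 0) (z : ℂ) : h z = 0 := by
  obtain ⟨z0, hz0⟩ := hk0
  have h1 : AnalyticOnNhd ℂ h Set.univ := fun z _ => hh.analyticAt z
  refine congrFun (h1.eq_of_eventuallyEq (z₀ := z0) (g := 0) (fun w _ => analyticAt_const) ?_) z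
  filter_upwards [hk.continuous.continuousAt.eventually_ne hz0] with w hw
  exact (mul_eq_zero.1 (hhk w)).resolve_right hw

lemma zf_diff {ρ : ℕ} {A : Subalgebra ℂ (ℂ → ℂ)} (hA : Good ρ A) {f : ℂ → ℂ}
    (hf : f ∈ zfRing A) : Differentiable ℂ f := by
  obtain ⟨ι, _, g, a, h1, h2, h3⟩ := zfRing_form hf
  have h4 : f = fun z => ∑ i, Complex.exp (g i z) * a i z := funext h3
  rw [h4]
  exact Differentiable.fun_sum fun i _ => (h1 i).cexp.mul (hA.ord _ (h2 i)).1

/-- the polynomial functions -/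
noncomputable def polyFun : Subalgebra ℂ (ℂ → ℂ) :=
  (Polynomial.aeval (fun z : ℂ => z) : Polynomial ℂ →ₐ[ℂ] (ℂ → ℂ)).range

lemma mem_polyFun {f : ℂ → ℂ} : f ∈ polyFun ↔ ∃ p : Polynomial ℂ, ∀ z, f z = p.eval z := by
  have h1 : ∀ (p : Polynomial ℂ) (z : ℂ), Polynomial.aeval (fun z : ℂ => z) p z = p.eval z := by
    intro p z
    have h2 := Polynomial.aeval_algHom_apply (Pi.evalAlgHom ℂ (fun _ : ℂ => ℂ) z)
      (fun z : ℂ => z) p
    simp only [Pi.evalAlgHom_apply] at h2
    rw [← h2, Polynomial.coe_aeval_eq_eval]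
  constructor
  · rintro ⟨p, rfl⟩
    exact ⟨p, fun z => h1 p z⟩
  · rintro ⟨p, hp⟩
    exact ⟨p, funext fun z => (h1 p z).trans (hp z).symm⟩

lemma good_poly : Good 1 polyFun where
  ord f hf := by
    obtain ⟨p, hp⟩ := mem_polyFun.1 hf
    have h1 : f = fun z => p.eval z := funext hp
    rw [h1]
    exact ordLt_poly one_pos p
  exp p hp := by
    have h1 := Polynomial.eq_C_of_natDegree_eq_zero (by omega : p.natDegree = 0)
    refine mem_polyFun.2 ⟨Polynomial.C (Complex.exp (p.coeff 0)), fun z => ?_⟩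
    rw [h1]
    simp

lemma good_ord {ρ : ℕ} (hρ : 0 < ρ) : Good ρ (ordRing ρ hρ) where
  ord _ hf := hf
  exp p hp := ordLt_exp ⟨p, hp, fun _ => rfl⟩

/-- polynomial curves -/
theorem rat_const {n : ℕ} {F1 F2 : Set (MvPolynomial (Fin (n + 1)) ℂ)}
    (hF1 : ∀ F ∈ F1, ∃ e, F.IsHomogeneous e) (hF2 : ∀ F ∈ F2, ∃ e, F.IsHomogeneous e)
    (h : RatCurvesIn F1 F2) {f : Fin (n + 1) → ℂ → ℂ}
    (hf : ∀ i, f i ∈ zfRing polyFun) (hX : InX F1 f) (hZ : NotIn F2 f) : ConstCurve f := by
  obtain ⟨w, hw, ⟨i1, z1, hi1⟩, hfw⟩ := rat_prop hF1 h one_pos good_poly hf hX hZ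
  choose q hq using fun i => mem_polyFun.1 (hw i)
  obtain ⟨z0, ⟨i0, hi0⟩, G, hG, hG0⟩ := hZ
  have hfd : ∀ i, Differentiable ℂ (f i) := fun i => zf_diff good_poly (hf i)
  have hwd : ∀ i, Differentiable ℂ (w i) := fun i => (good_poly.ord _ (hw i)).1
  have hpd : ∀ F : MvPolynomial (Fin (n + 1)) ℂ, ∀ v : Fin (n + 1) → ℂ → ℂ,
      (∀ i, Differentiable ℂ (v i)) → Differentiable ℂ fun z => aeval (fun i => v i z) F := by
    intro F v hv
    induction F using MvPolynomial.induction_on with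
    | C a => simp
    | add p q hp hq =>
      simp only [map_add]
      exact hp.add hq
    | mul_X p i hp =>
      simp only [map_mul, aeval_X]
      exact hp.mul (hv i)
  have hev : ∀ (F : MvPolynomial (Fin (n + 1)) ℂ) (z : ℂ),
      aeval (fun i => w i z) F = (aeval q F).eval z := by
    intro F z
    rw [← aeval_eval]
    congr 1
    congr 1
    funext i
    rw [hq]
  -- comparison of the values
  have hcmp : ∀ (F : MvPolynomial (Fin (n + 1)) ℂ) (e : ℕ), F.IsHomogeneous e → ∀ (i : Fin (n + 1))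
      (z : ℂ), f i z ^ e * aeval (fun i => w i z) F = w i z ^ e * aeval (fun i => f i z) F := by
    intro F e he i z
    rw [← aeval_smul_homog _ he, ← aeval_smul_homog _ he]
    congr 1
    congr 1
    funext j
    rw [hfw i j z]
    ring
  have hqX : ∀ F ∈ F1, aeval q F = 0 := by
    intro F hF
    obtain ⟨e, he⟩ := hF1 F hF
    apply Polynomial.funext
    intro z
    rw [Polynomial.eval_zero, ← hev]
    refine cancel (hpd F w hwd) ((hfd i0).pow e) ⟨z0, ?_⟩ (fun z => ?_) z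
    · exact pow_ne_zero _ hi0
    · have h1 := hcmp F e he i0 z
      rw [hX F hF z, mul_zero] at h1
      rw [mul_comm]
      exact h1
  have hqG : aeval q G ≠ 0 := by
    intro h0
    obtain ⟨e, he⟩ := hF2 G hG
    apply hG0
    refine cancel (hpd G f hfd) ((hwd i1).pow e) ⟨z1, pow_ne_zero _ hi1⟩ (fun z => ?_) z0
    have h1 := hcmp G e he i1 z
    rw [hev, h0, Polynomial.eval_zero, mul_zero] at h1
    rw [mul_comm]
    exact h1.symm
  have hn : ¬ Nonconst q := fun hn => hqG (h q hqX hn G hG)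
  have hqq : ∀ i j a b, w i a * w j b = w j a * w i b := by
    intro i j a b
    by_contra hne
    exact hn ⟨i, j, a, b, by rwa [hq, hq, hq, hq] at hne⟩
  intro i j z z'
  have h1 : ∀ z z', w i1 z ≠ 0 → w i1 z' ≠ 0 → f i z * f j z' - f j z * f i z' = 0 := by
    intro z z' hz hz'
    apply mul_right_cancel₀ (mul_ne_zero hz hz')
    linear_combination (f j z' * w i1 z') * hfw i i1 z - (f i z' * w i1 z') * hfw j i1 z +
      (f i1 z * w i z) * hfw j i1 z' - (f i1 z * w j z) * hfw i i1 z' +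
      f i1 z * f i1 z' * hqq i j z z'
  have h2 : ∀ z', w i1 z' ≠ 0 → ∀ z, f i z * f j z' - f j z * f i z' = 0 := by
    intro z' hz' z
    refine cancel (h := fun z => f i z * f j z' - f j z * f i z') (k := w i1)
      (((hfd i).mul (differentiable_const _)).sub ((hfd j).mul (differentiable_const _)))
      (hwd i1) ⟨z1, hi1⟩ (fun z => ?_) z
    by_cases hz : w i1 z = 0
    · rw [hz, mul_zero]
    · rw [h1 z z' hz hz', zero_mul]
  have h3 := cancel (h := fun z' => f i z * f j z' - f j z * f i z') (k := w i1)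
      (((differentiable_const _).mul (hfd j)).sub ((differentiable_const _).mul (hfd i)))
      (hwd i1) ⟨z1, hi1⟩ (fun z' => by
        by_cases hz : w i1 z' = 0
        · rw [hz, mul_zero]
        · rw [h2 z' hz z, zero_mul]) z'
  exact sub_eq_zero.1 h3

end Pool.Agent.V8H29.EN
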