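import Mathlib
import Pool.Agent.V8H29.FS9
import Pool.Agent.H533R3.SL.Asm

/-!
# Short sums on varieties that are not uniruled
-/

set_option autoImplicit false

namespace Pool.Agent.V8H29.FS

open MvPolynomial
open Pool.Agent.K1H77.PA (ULI)
open Pool.Agent.H533R3.SL (Uniruled cur exists_hyper)

/-- **One hypersurface for all the curves with `r` terms.** -/
theorem hyper_rcur {k : Type} [Field k] {n : ℕ} (F1 : Set (MvPolynomial (Fin (n + 1)) k))
    (hprime : (Ideal.span F1).IsPrime) (hnu : ¬ Uniruled (Ideal.span F1)) (d : ℕ)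
    (hF1 : ∀ F ∈ F1, ∃ e ≤ d, F.IsHomogeneous e) (r : ℕ) :
    ∃ G : MvPolynomial (Fin (n + 1)) k, (∃ e, G.IsHomogeneous e) ∧ G ∉ Ideal.span F1 ∧
      ∀ (L : Type) [Field L] [Algebra k L], RCur L r F1 {G} := by
  obtain ⟨G, hG1, hG2, hG3⟩ := exists_hyper F1 hprime hnu (max d 1) (le_max_right _ _)
    (fun F hF => by
      obtain ⟨e, he, hom⟩ := hF1 F hF
      exact ⟨e, he.trans (le_max_left _ _), hom⟩) r
  refine ⟨G, hG1, hG2, fun L _ _ l v u hx hcur hn G' hG' => ?_⟩
  rw [Set.mem_singleton_iff] at hG'
  subst hG'
  have h1 := hG3 L (fun j i => (u j : L) * v j i) l hcur (by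
    by_contra hcon
    push Not at hcon
    exact not_nonconst hx (fun i j => hcon i j) hn)
  exact h1

lemma generic_weights {s : ℕ} (Z : Finset (Fin s → ℤ)) (hZ : ∀ z ∈ Z, z ≠ 0) :
    ∃ w : Fin s → ℤ, ∀ z ∈ Z, ∑ m, w m * z m ≠ 0 := by
  classical
  set p : (Fin s → ℤ) → Polynomial ℤ := fun z => ∑ m, Polynomial.C (z m) * Polynomial.X ^ (m : ℕ)
    with hp
  have hpne : ∀ z ∈ Z, p z ≠ 0 := by
    intro z hz h0
    apply hZ z hz
    funext m
    have h1 := congrArg (fun q => Polynomial.coeff q (m : ℕ)) h0
    simp only [hp, Polynomial.finsetSum_coeff, Polynomial.coeff_zero] at h1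
    rw [Finset.sum_eq_single m] at h1
    · simpa using h1
    · intro b _ hb
      rw [Polynomial.coeff_C_mul_X_pow, if_neg]
      intro h
      exact hb (Fin.ext h.symm)
    · intro h
      exact absurd (Finset.mem_univ _) h
  have hprod : ∏ z ∈ Z, p z ≠ 0 := Finset.prod_ne_zero_iff.2 hpne
  obtain ⟨B, hB⟩ : ∃ B : ℤ, (∏ z ∈ Z, p z).eval B ≠ 0 := by
    by_contra hcon
    push Not at hcon
    exact hprod (Polynomial.funext fun B => by rw [hcon B, Polynomial.eval_zero])
  rw [Polynomial.eval_prod] at hB
  refine ⟨fun m => B ^ (m : ℕ), fun z hz => ?_⟩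
  have h1 := Finset.prod_ne_zero_iff.1 hB z hz
  simp only [hp, Polynomial.eval_finsetSum, Polynomial.eval_mul, Polynomial.eval_C,
    Polynomial.eval_pow, Polynomial.eval_X] at h1
  intro h
  apply h1
  rw [← h]
  exact Finset.sum_congr rfl fun m _ => mul_comm _ _

/-- the value at `t` of the map `∑ c_j t ^ (a_j)` from a torus -/
def tval {L : Type} [Field L] {n s r : ℕ} (a : Fin r → Fin s → ℤ) (c : Fin r → Fin (n + 1) → L)
    {M : Type} [Field M] [Algebra L M] (t : Fin s → Mˣ) : Fin (n + 1) → M :=
  fun i => ∑ j, ((∏ m, t m ^ a j m : Mˣ) : M) * algebraMap L M (c j i)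

/-- Let `L` be an extension field of `k`. The nonconstant maps over `L` from tori to `{F1 = 0}`
which are given by Laurent polynomials with coefficients in `L` and with `r` terms have their
image in `{F2 = 0}`. -/
def TorusIn {k : Type} [Field k] {n : ℕ} (r : ℕ) (F1 F2 : Set (MvPolynomial (Fin (n + 1)) k)) :
    Prop :=
  ∀ (L : Type) [Field L] [Algebra k L] (s : ℕ) (a : Fin r → Fin s → ℤ)
    (c : Fin r → Fin (n + 1) → L),
    (∀ (M : Type) [Field M] [Algebra L M] (t : Fin s → Mˣ), ∀ F ∈ F1,
      aeval (tval a c t) (map (algebraMap k L) F) = 0) →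
    (∃ (M : Type) (_ : Field M) (_ : Algebra L M) (t t' : Fin s → Mˣ) (i j : Fin (n + 1)),
      tval a c t i * tval a c t' j ≠ tval a c t j * tval a c t' i) →
    ∀ (M : Type) [Field M] [Algebra L M] (t : Fin s → Mˣ), tval a c t ≠ 0 → ∀ G ∈ F2,
      aeval (tval a c t) (map (algebraMap k L) G) = 0

/-- the value as a sum over the different exponents -/
lemma tval_classes {L : Type} [Field L] {n s r : ℕ} (a : Fin r → Fin s → ℤ)
    (c : Fin r → Fin (n + 1) → L) {M : Type} [Field M] [Algebra L M] (t : Fin s → Mˣ)
    (i : Fin (n + 1)) : tval a c t i = ∑ α ∈ Finset.univ.image a,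
      ((∏ m, t m ^ α m : Mˣ) : M) * algebraMap L M (∑ j with a j = α, c j i) := by
  classical
  unfold tval
  rw [← Finset.sum_fiberwise_of_maps_to (g := a) (t := Finset.univ.image a)
    (fun j hj => Finset.mem_image_of_mem _ hj)]
  refine Finset.sum_congr rfl fun α _ => ?_
  rw [map_sum, Finset.mul_sum]
  refine Finset.sum_congr rfl fun j hj => ?_
  rw [(Finset.mem_filter.1 hj).2]

/-- **Maps from tori.** -/
theorem torus_of_rcur {k : Type} [Field k] [CharZero k] {n r : ℕ} {F1 F2 : Set (MvPolynomial (Fin (n + 1)) k)}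
    (hF1 : ∀ F ∈ F1, ∃ e, F.IsHomogeneous e)
    (h : ∀ (L : Type) [Field L] [Algebra k L], RCur L r F1 F2) : TorusIn r F1 F2 := by
  classical
  intro L _ _ s a c hX hnc M _ _ t hx G hG
  let _ : Algebra k M := ((algebraMap L M).comp (algebraMap k L)).toAlgebra
  have ht : IsScalarTower k L M := IsScalarTower.of_algebraMap_eq fun _ => rfl
  have hcM : CharZero M := charZero_of_injective_algebraMap (algebraMap k M).injective
  rw [aeval_map_algebraMap]
  -- generic weights
  obtain ⟨w, hw⟩ := generic_weights (((Finset.univ : Finset (Fin r × Fin r)).image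
    fun p => a p.1 - a p.2).filter fun z => z ≠ 0) (fun z hz => (Finset.mem_filter.1 hz).2)
  set W : Fin r → ℤ := fun j => ∑ m, w m * a j m with hW
  have hWeq : ∀ j j', W j = W j' → a j = a j' := by
    intro j j' hjj
    by_contra hne
    refine hw (a j - a j') (Finset.mem_filter.2 ⟨Finset.mem_image.2 ⟨(j, j'), Finset.mem_univ _,
      rfl⟩, sub_ne_zero.2 hne⟩) ?_
    simp only [Pi.sub_apply, mul_sub]
    rw [Finset.sum_sub_distrib, sub_eq_zero]
    exact hjj
  set A : ℤ := ∑ j, |W j| with hA
  have hAj : ∀ j, 0 ≤ W j + A := by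
    intro j
    have h1 : |W j| ≤ A := Finset.single_le_sum (f := fun j => |W j|) (fun _ _ => abs_nonneg _)
      (Finset.mem_univ j)
    have h2 := neg_abs_le (W j)
    linarith
  set l : Fin r → ℕ := fun j => (W j + A).toNat with hl
  have hlj : ∀ j, ((l j : ℕ) : ℤ) = W j + A := fun j => Int.toNat_of_nonneg (hAj j)
  set v : Fin r → Fin (n + 1) → M := fun j i => algebraMap L M (c j i) with hv
  set u : Fin r → Mˣ := fun j => ∏ m, t m ^ a j m with hu
  have hpt : pt v u = tval a c t := rfl
  rw [← hpt] at hx ⊢
  -- the curve lies on the variety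
  have hcur : ∀ F ∈ F1, aeval (curve l v u) F = 0 := by
    intro F hF
    obtain ⟨e, he⟩ := hF1 F hF
    let _ : Algebra L (RatFunc M) := ((algebraMap M (RatFunc M)).comp (algebraMap L M)).toAlgebra
    set τ : (RatFunc M)ˣ := Units.mk0 (RatFunc.X : RatFunc M) RatFunc.X_ne_zero with hτ
    set T : Fin s → (RatFunc M)ˣ := fun m =>
      Units.map (algebraMap M (RatFunc M) : M →* RatFunc M) (t m) * τ ^ w m with hT
    have h1 := hX (RatFunc M) T F hF
    have h2 : ∀ i, ((τ ^ A : (RatFunc M)ˣ) : RatFunc M) * tval a c T i =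
        algebraMap (Polynomial M) (RatFunc M) (curve l v u i) := by
      intro i
      unfold tval curve
      rw [map_sum, Finset.mul_sum]
      refine Finset.sum_congr rfl fun j _ => ?_
      have h3 : (∏ m, T m ^ a j m : (RatFunc M)ˣ) =
          Units.map (algebraMap M (RatFunc M) : M →* RatFunc M) (u j) * τ ^ W j := by
        rw [hT, hu]
        simp only [mul_zpow]
        rw [Finset.prod_mul_distrib, map_prod]
        congr 1
        · exact Finset.prod_congr rfl fun m _ => (map_zpow _ _ _).symm
        · rw [← prod_zpow_sum]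
          exact Finset.prod_congr rfl fun m _ => (zpow_mul _ _ _).symm
      have h4 : (τ ^ A * τ ^ W j : (RatFunc M)ˣ) = τ ^ l j := by
        rw [← zpow_add, ← zpow_natCast, hlj, add_comm]
      rw [h3, Units.val_mul, map_mul (algebraMap (Polynomial M) (RatFunc M)), map_pow,
        RatFunc.algebraMap_X, RatFunc.algebraMap_C]
      have h5 := congrArg (fun x : (RatFunc M)ˣ => (x : RatFunc M)) h4
      simp only [Units.val_mul, Units.val_pow_eq_pow_val] at h5
      have h6 : (τ : RatFunc M) = RatFunc.X := rfl
      rw [h6] at h5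
      rw [← h5]
      have h7 : algebraMap L (RatFunc M) (c j i) = algebraMap M (RatFunc M) (v j i) := rfl
      rw [h7]
      have h8 : RatFunc.C ((u j : M) * v j i) = algebraMap M (RatFunc M) (u j : M) *
          algebraMap M (RatFunc M) (v j i) := by
        rw [← map_mul]
        rfl
      rw [h8]
      have h9 : ((Units.map (algebraMap M (RatFunc M) : M →* RatFunc M) (u j) : (RatFunc M)ˣ) :
          RatFunc M) = algebraMap M (RatFunc M) (u j : M) := rfl
      rw [h9]
      ring
    have h3 : aeval (fun i => algebraMap (Polynomial M) (RatFunc M) (curve l v u i))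
        (map (algebraMap k L) F) = 0 := by
      rw [← funext h2, aeval_smul_homog _ (he.map _), h1, mul_zero]
    have h4 : aeval (fun i => algebraMap (Polynomial M) (RatFunc M) (curve l v u i))
        (map (algebraMap k L) F) = algebraMap (Polynomial M) (RatFunc M) (aeval (curve l v u) F) := by
      rw [aeval_def, aeval_def, eval₂_map, MvPolynomial.hom_eval₂]
      rfl
    rw [h4] at h3
    exact (map_eq_zero_iff _ (RatFunc.algebraMap_injective M)).1 h3
  -- it is not constant
  have hn : Nonconst (curve l v u) := by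
    by_contra hcon
    obtain ⟨i₀, hi₀⟩ := Function.ne_iff.1 hx
    have hi₀ : pt v u i₀ ≠ 0 := hi₀
    set Cc : (Fin s → ℤ) → Fin (n + 1) → L := fun α i => ∑ j with a j = α, c j i with hCc
    have hprop : ∀ α ∈ Finset.univ.image a, ∀ i, algebraMap L M (Cc α i) * pt v u i₀ =
        algebraMap L M (Cc α i₀) * pt v u i := by
      intro α hα i
      obtain ⟨j₀, -, rfl⟩ := Finset.mem_image.1 hα
      have h2 : (curve l v u i) * Polynomial.C ((curve l v u i₀).eval 1) =
          (curve l v u i₀) * Polynomial.C ((curve l v u i).eval 1) := by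
        apply Polynomial.funext
        intro b
        rw [Polynomial.eval_mul, Polynomial.eval_mul, Polynomial.eval_C, Polynomial.eval_C]
        by_contra hne
        exact hcon ⟨i, i₀, b, 1, hne⟩
      have h3 := congrArg (fun p => Polynomial.coeff p (l j₀)) h2
      simp only [Polynomial.coeff_mul_C] at h3
      rw [curve_coeff, curve_coeff, curve_eval_one, curve_eval_one] at h3
      have h4 : ∀ i, ∑ j with l j = l j₀, (u j : M) * v j i = (u j₀ : M) *
          algebraMap L M (Cc (a j₀) i) := by
        intro i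
        rw [hCc]
        simp only
        rw [map_sum, Finset.mul_sum]
        have h5 : (Finset.univ.filter fun j => l j = l j₀) =
            Finset.univ.filter fun j => a j = a j₀ := by
          ext j
          simp only [Finset.mem_filter, Finset.mem_univ, true_and]
          constructor
          · intro h6
            apply hWeq
            have h7 := hlj j
            rw [h6, hlj j₀] at h7
            linarith
          · intro h6
            rw [hl, hW]
            simp only
            rw [h6]
        rw [h5]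
        refine Finset.sum_congr rfl fun j hj => ?_
        have h6 : u j = u j₀ := by
          rw [hu]
          simp only
          rw [(Finset.mem_filter.1 hj).2]
        rw [h6]
      rw [h4, h4] at h3
      have h5 : (u j₀ : M) ≠ 0 := Units.ne_zero _
      apply mul_left_cancel₀ h5
      linear_combination h3
    have hinj : Function.Injective (algebraMap L M) := (algebraMap L M).injective
    have hC2 : ∀ α ∈ Finset.univ.image a, ∀ β ∈ Finset.univ.image a, ∀ i j,
        Cc α i * Cc β j = Cc α j * Cc β i := by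
      intro α hα β hβ i j
      apply hinj
      rw [map_mul, map_mul]
      apply mul_right_cancel₀ (mul_ne_zero hi₀ hi₀)
      have e1 := hprop α hα i
      have e2 := hprop β hβ j
      have e3 := hprop α hα j
      have e4 := hprop β hβ i
      linear_combination (algebraMap L M (Cc β j) * pt v u i₀) * e1 +
        (algebraMap L M (Cc α i₀) * pt v u i) * e2 -
        (algebraMap L M (Cc β i) * pt v u i₀) * e3 -
        (algebraMap L M (Cc α i₀) * pt v u j) * e4
    obtain ⟨M', _, _, t1, t2, i, j, hij⟩ := hnc
    apply hij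
    rw [tval_classes a c t1 i, tval_classes a c t2 j, tval_classes a c t1 j,
      tval_classes a c t2 i, Finset.sum_mul_sum, Finset.sum_mul_sum]
    refine Finset.sum_congr rfl fun α hα => Finset.sum_congr rfl fun β hβ => ?_
    have h1 := congrArg (algebraMap L M') (hC2 α hα β hβ i j)
    rw [map_mul, map_mul] at h1
    simp only [hCc] at h1
    linear_combination (((∏ m, t1 m ^ α m : M'ˣ) : M') * ((∏ m, t2 m ^ β m : M'ˣ) : M')) * h1
  exact h M l v u hx hcur hn G hG

end Pool.Agent.V8H29.FS
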