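import Mathlib
import Pool.Agent.V8H29.FS10
import Pool.Agent.K1H41.PA.Uli
import Pool.Agent.K1H33.PA.UliQ

/-!
# Short sums on uniruled varieties, and the equivalence
-/

set_option autoImplicit false

namespace Pool.Agent.V8H29.FS

open MvPolynomial
open Pool.Agent.K1H77.PA (ULI)
open Pool.Agent.H533R3.SL (Uniruled cur exists_hyper)

/-- finiteness of short sums of units over all extension fields -/
def ArExt {k : Type} [Field k] {n : ℕ} (r : ℕ) (F1 F2 : Set (MvPolynomial (Fin (n + 1)) k)) :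
    Prop :=
  ∀ (E : Type) [Field E] [Algebra k E],
    ArR r ((map (algebraMap k E)) '' F1) ((map (algebraMap k E)) '' F2)

theorem arExt_of_rcur {k : Type} [Field k] [CharZero k] {n d r : ℕ}
    {F1 F2 : Set (MvPolynomial (Fin (n + 1)) k)} (hF1 : ∀ F ∈ F1, ∃ e ≤ d, F.IsHomogeneous e)
    (h : ∀ (L : Type) [Field L] [Algebra k L], RCur L r F1 F2) : ArExt r F1 F2 := by
  intro E _ _
  have hcE : CharZero E := charZero_of_injective_algebraMap (algebraMap k E).injective
  have hU : ULI E := Pool.Agent.K1H41.PA.t_ULI Pool.Agent.K1H33.PA.t_ULI_Q E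
  refine arith_r hU (d := d) ?_ ?_
  · rintro _ ⟨F, hF, rfl⟩
    obtain ⟨e, he, hom⟩ := hF1 F hF
    exact ⟨e, he, hom.map _⟩
  · intro l v u hx hcur hn G' hG'
    obtain ⟨G, hG, rfl⟩ := hG'
    rw [aeval_map_algebraMap]
    refine h E l v u hx (fun F hF => ?_) hn G hG
    have h1 := hcur _ ⟨F, hF, rfl⟩
    rwa [aeval_map_algebraMap] at h1

theorem arExt_self {k : Type} [Field k] {n r : ℕ}
    {F1 F2 : Set (MvPolynomial (Fin (n + 1)) k)} (h : ArExt r F1 F2) : ArR r F1 F2 := by
  have h1 := h k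
  have h2 : ∀ F3 : Set (MvPolynomial (Fin (n + 1)) k), (map (algebraMap k k)) '' F3 = F3 := by
    intro F3
    have h3 : ∀ F : MvPolynomial (Fin (n + 1)) k, map (algebraMap k k) F = F := fun F => by
      rw [Algebra.algebraMap_self, map_id]
    simp only [h3]
    exact Set.image_id' _
  rwa [h2, h2] at h1

/-- the curves of bounded degree in a uniruled variety are dense -/
theorem uni_curves {k : Type} [Field k] [IsAlgClosed k] [CharZero k] {n : ℕ}
    {F1 : Set (MvPolynomial (Fin (n + 1)) k)} (h : Uniruled (Ideal.span F1)) :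
    ∃ D : ℕ, ∀ G : MvPolynomial (Fin (n + 1)) k, (∃ e, G.IsHomogeneous e) →
      G ∉ Ideal.span F1 → ¬ CurvesIn D F1 {G} := by
  obtain ⟨E, _, _, p, hp, hgen, i, j, hne⟩ := h
  refine ⟨Finset.univ.sup fun i => (p i).natDegree, fun G hG hGI hcur => ?_⟩
  refine hgen G hG hGI ?_
  refine specialise hcur p (fun i => Finset.le_sup (f := fun i => (p i).natDegree)
    (Finset.mem_univ i)) (fun F hF => hp F (Ideal.subset_span hF)) ?_ 1 G rfl
  have hcE : CharZero E := charZero_of_injective_algebraMap (algebraMap k E).injective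
  by_contra hcon
  apply hne
  apply Polynomial.funext
  intro a
  rw [Polynomial.eval_mul, Polynomial.eval_mul, Polynomial.eval_C, Polynomial.eval_C]
  by_contra h1
  exact hcon ⟨i, j, a, 1, h1⟩

/-- the maps from the torus `𝔾ₘ` to a uniruled variety -/
theorem torus_not_uni {k : Type} [Field k] {n : ℕ} {F1 : Set (MvPolynomial (Fin (n + 1)) k)}
    (h : ∀ r : ℕ, ∃ G : MvPolynomial (Fin (n + 1)) k, (∃ e, G.IsHomogeneous e) ∧
      G ∉ Ideal.span F1 ∧ TorusIn r F1 {G}) : ¬ Uniruled (Ideal.span F1) := by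
  rintro ⟨E, _, _, p, hp, hgen, i, j, hne⟩
  set D : ℕ := Finset.univ.sup fun i => (p i).natDegree with hD
  obtain ⟨G, hG, hGI, hT⟩ := h (D + 1)
  set c : Fin (D + 1) → Fin (n + 1) → E := fun m i => (p i).coeff m with hc
  set a : Fin (D + 1) → Fin 1 → ℤ := fun m _ => ((m : ℕ) : ℤ) with ha
  have hval : ∀ (M : Type) [Field M] [Algebra E M] (t : Fin 1 → Mˣ) (i : Fin (n + 1)),
      tval a c t i = Polynomial.aeval ((t 0 : Mˣ) : M) (p i) := by
    intro M _ _ t i
    unfold tval
    rw [Polynomial.aeval_eq_sum_range' (n := D + 1) (Nat.lt_succ_of_le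
      (Finset.le_sup (f := fun i => (p i).natDegree) (Finset.mem_univ i))), Finset.sum_range]
    refine Finset.sum_congr rfl fun m _ => ?_
    rw [Fin.prod_univ_one, ha, hc, Algebra.smul_def]
    simp only
    rw [zpow_natCast, Units.val_pow_eq_pow_val, mul_comm]
  have haev : ∀ (M : Type) [Field M] [Algebra E M] (t : Fin 1 → Mˣ)
      (F : MvPolynomial (Fin (n + 1)) k), aeval (tval a c t) (map (algebraMap k E) F) =
        Polynomial.aeval ((t 0 : Mˣ) : M) (aeval p F) := by
    intro M _ _ t F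
    have h1 : tval a c t = fun i => Polynomial.aeval ((t 0 : Mˣ) : M) (p i) :=
      funext fun i => hval M t i
    rw [h1, aeval_def, aeval_def, eval₂_map]
    have h2 := MvPolynomial.hom_eval₂ F (algebraMap k (Polynomial E))
      ((Polynomial.aeval ((t 0 : Mˣ) : M) : Polynomial E →ₐ[E] M) : Polynomial E →+* M) p
    change _ = ((Polynomial.aeval ((t 0 : Mˣ) : M) : Polynomial E →ₐ[E] M) :
      Polynomial E →+* M) _
    rw [h2]
    congr 1
    ext b
    simp [Polynomial.algebraMap_apply]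
  have hfin := hT E 1 a c (fun M _ _ t F hF => by
      rw [haev, hp F (Ideal.subset_span hF), map_zero])
    ⟨RatFunc E, inferInstance, inferInstance,
      fun _ => Units.mk0 (RatFunc.X : RatFunc E) RatFunc.X_ne_zero, fun _ => 1, i, j, by
      rw [hval, hval, hval, hval, Units.val_mk0, Units.val_one]
      have e1 : ∀ q : Polynomial E, Polynomial.aeval (RatFunc.X : RatFunc E) q =
          algebraMap (Polynomial E) (RatFunc E) q := by
        intro q
        rw [← RatFunc.algebraMap_X, Polynomial.aeval_algebraMap_apply]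
        simp
      have e2 : ∀ q : Polynomial E, Polynomial.aeval (1 : RatFunc E) q =
          algebraMap (Polynomial E) (RatFunc E) (Polynomial.C (q.eval 1)) := by
        intro q
        have h3 := Polynomial.aeval_algebraMap_apply (RatFunc E) (1 : E) q
        rw [map_one] at h3
        rw [h3, RatFunc.algebraMap_C]
        simp
      rw [e1, e2, e1, e2, ← map_mul, ← map_mul]
      intro h3
      exact hne (RatFunc.algebraMap_injective E h3)⟩ E (fun _ => 1) (by
      intro h0
      have h1 : ∀ i, (p i).eval 1 = 0 := by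
        intro i
        have h2 := congrFun h0 i
        rw [hval] at h2
        simpa [Polynomial.aeval_def, Polynomial.eval₂_eq_eval_map] using h2
      apply hne
      rw [h1, h1, Polynomial.C_0, mul_zero, mul_zero]) G rfl
  rw [haev] at hfin
  refine hgen G hG hGI ?_
  have h1 := aeval_def (fun i => (p i).eval 1) G
  have h2 := MvPolynomial.hom_eval₂ G (algebraMap k (Polynomial E)) (Polynomial.evalRingHom (1 : E)) p
  rw [h1]
  have h4 : Polynomial.eval (1 : E) (aeval p G) = 0 := by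
    simpa [Polynomial.aeval_def, Polynomial.eval₂_eq_eval_map] using hfin
  have h3 : (Polynomial.evalRingHom (1 : E)) (aeval p G) = 0 := h4
  rw [← h3, aeval_def, h2]
  congr 1
  ext b
  simp [Polynomial.algebraMap_apply]

/-- **The equivalence.** -/
theorem tfae_uni {k : Type} [Field k] [IsAlgClosed k] [CharZero k] {n d : ℕ}
    (F1 : Set (MvPolynomial (Fin (n + 1)) k)) (hF1 : ∀ F ∈ F1, ∃ e ≤ d, F.IsHomogeneous e)
    (hprime : (Ideal.span F1).IsPrime) :
    [¬ Uniruled (Ideal.span F1),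
      ∀ r, ∃ G, (∃ e, G.IsHomogeneous e) ∧ G ∉ Ideal.span F1 ∧ TorusIn r F1 {G},
      ∀ r, ∃ G, (∃ e, G.IsHomogeneous e) ∧ G ∉ Ideal.span F1 ∧ LinR r F1 {G},
      ∀ r, ∃ G, (∃ e, G.IsHomogeneous e) ∧ G ∉ Ideal.span F1 ∧ BddR r F1 {G},
      ∀ r, ∃ G, (∃ e, G.IsHomogeneous e) ∧ G ∉ Ideal.span F1 ∧ ArExt r F1 {G},
      ∀ r, ∃ G, (∃ e, G.IsHomogeneous e) ∧ G ∉ Ideal.span F1 ∧
        TorusIn r F1 {G} ∧ LinR r F1 {G} ∧ ArExt r F1 {G}].TFAE := by
  tfae_have 1 → 6 := by
    intro h r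
    obtain ⟨G, h1, h2, h3⟩ := hyper_rcur F1 hprime h d hF1 r
    obtain ⟨C, N0, -, hmain⟩ := off_special_r n d r
    refine ⟨G, h1, h2, torus_of_rcur (fun F hF => (hF1 F hF).imp fun e h => h.2) h3,
      ⟨C, N0, fun K _ _ _ => hmain k K F1 {G} hF1 (h3 K)⟩, arExt_of_rcur hF1 h3⟩
  tfae_have 6 → 2 := fun h r => by
    obtain ⟨G, h1, h2, h3, -⟩ := h r
    exact ⟨G, h1, h2, h3⟩
  tfae_have 6 → 3 := fun h r => by
    obtain ⟨G, h1, h2, -, h3, -⟩ := h r
    exact ⟨G, h1, h2, h3⟩
  tfae_have 6 → 5 := fun h r => by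
    obtain ⟨G, h1, h2, -, -, h3⟩ := h r
    exact ⟨G, h1, h2, h3⟩
  tfae_have 3 → 4 := fun h r => by
    obtain ⟨G, h1, h2, h3⟩ := h r
    exact ⟨G, h1, h2, lin_bdd_r h3⟩
  tfae_have 4 → 1 := fun h hu => by
    obtain ⟨D, hD⟩ := uni_curves hu
    obtain ⟨G, h1, h2, h3⟩ := h (D + 1)
    exact hD G h1 h2 (bdd_cur h3)
  tfae_have 5 → 1 := fun h hu => by
    obtain ⟨D, hD⟩ := uni_curves hu
    obtain ⟨G, h1, h2, h3⟩ := h (D + 1)
    exact hD G h1 h2 (arith_cur (arExt_self h3))
  tfae_have 2 → 1 := torus_not_uni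
  tfae_finish

end Pool.Agent.V8H29.FS
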