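import Mathlib
import Pool.Agent.V8H29.EN3
import Pool.Agent.V8H29.FS11
import Pool.Agent.TH182.TC.Core

/-!
# Entire curves in the ring generated by zero-free functions: the equivalences
-/

set_option autoImplicit false

namespace Pool.Agent.V8H29.EN

open MvPolynomial Pool.Agent.V8H29.FS
open Pool.Agent.H533R3.SL (Uniruled)
open Pool.Agent.TH182.TC (EllipticRigid TorusRigid)

/-- an entire function `g` which is not a polynomial of degree less than `ρ`, such that `exp g`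
takes all nonzero values -/
structure Big (ρ : ℕ) (g : ℂ → ℂ) : Prop where
  diff : Differentiable ℂ g
  not : ¬ PolyLt ρ g
  surj : ∀ a : ℂ, a ≠ 0 → ∃ z, Complex.exp (g z) = a

lemma big_pow {ρ : ℕ} (hρ : 0 < ρ) : Big ρ fun z => z ^ ρ where
  diff := differentiable_id.pow ρ
  not := by
    rintro ⟨p, hp1, hp2⟩
    have h2 : p = Polynomial.X ^ ρ := by
      apply Polynomial.funext
      intro z
      rw [← hp2]
      simp
    rw [h2, Polynomial.natDegree_X_pow] at hp1
    exact lt_irrefl _ hp1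
  surj a ha := by
    obtain ⟨z, hz⟩ := IsAlgClosed.exists_pow_nat_eq (Complex.log a) hρ
    exact ⟨z, by rw [hz, Complex.exp_log ha]⟩

lemma big_exp (ρ : ℕ) : Big ρ Complex.exp where
  diff := Complex.differentiable_exp
  not := by
    rintro ⟨p, -, hp2⟩
    -- `exp` is periodic and not constant
    have h1 : p - Polynomial.C (p.eval 0) = 0 := by
      apply Polynomial.eq_zero_of_infinite_isRoot
      have h2 : (Set.range fun m : ℕ => (m : ℂ) * (2 * Real.pi * Complex.I)).Infinite := by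
        refine Set.infinite_range_of_injective fun a b hab => ?_
        have h3 : (2 * (Real.pi : ℂ) * Complex.I) ≠ 0 := Complex.two_pi_I_ne_zero
        have h4 := mul_right_cancel₀ h3 hab
        exact_mod_cast h4
      refine h2.mono ?_
      rintro _ ⟨m, rfl⟩
      change Polynomial.IsRoot _ _
      rw [Polynomial.IsRoot, Polynomial.eval_sub, Polynomial.eval_C, ← hp2, ← hp2,
        Complex.exp_nat_mul_two_pi_mul_I, Complex.exp_zero, sub_self]
    have h2 := hp2 1
    have h3 := hp2 0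
    rw [sub_eq_zero.1 h1, Polynomial.eval_C] at h2
    rw [← h3, Complex.exp_zero] at h2
    have h4 := congrArg norm h2
    rw [Complex.norm_exp, norm_one, Complex.one_re] at h4
    have := Real.add_one_le_exp 1
    linarith
  surj a ha := by
    by_cases hl : Complex.log a = 0
    · refine ⟨Complex.log (2 * Real.pi * Complex.I), ?_⟩
      rw [Complex.exp_log Complex.two_pi_I_ne_zero, Complex.exp_two_pi_mul_I,
        ← Complex.exp_log ha, hl, Complex.exp_zero]
    · exact ⟨Complex.log (Complex.log a), by rw [Complex.exp_log hl, Complex.exp_log ha]⟩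

/-- the entire curve given by a rational curve and an exponential -/
noncomputable def expc {n : ℕ} (g : ℂ → ℂ) (q : Fin (n + 1) → Polynomial ℂ) :
    Fin (n + 1) → ℂ → ℂ :=
  fun i z => (q i).eval (Complex.exp (g z))

lemma expc_mem {n : ℕ} {g : ℂ → ℂ} (hg : Differentiable ℂ g) (q : Fin (n + 1) → Polynomial ℂ)
    (A : Subalgebra ℂ (ℂ → ℂ)) (i : Fin (n + 1)) : expc g q i ∈ zfRing A := by
  have h1 : expc g q i = ∑ m ∈ Finset.range ((q i).natDegree + 1),
      (fun _ : ℂ => (q i).coeff m) * (fun z : ℂ => Complex.exp (g z)) ^ m := by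
    funext z
    rw [Finset.sum_apply]
    exact Polynomial.eval_eq_sum_range _
  rw [h1]
  have h2 : (fun z : ℂ => Complex.exp (g z)) ∈ zfRing A :=
    Subring.subset_closure (Or.inr ⟨hg.cexp, fun z => Complex.exp_ne_zero _⟩)
  have h3 : ∀ c : ℂ, (fun _ : ℂ => c) ∈ zfRing A := fun c =>
    Subring.subset_closure (Or.inl (A.algebraMap_mem c))
  exact sum_mem fun m _ => mul_mem (h3 _) (pow_mem h2 _)

lemma aeval_expc {n : ℕ} (g : ℂ → ℂ) (q : Fin (n + 1) → Polynomial ℂ)
    (F : MvPolynomial (Fin (n + 1)) ℂ) (z : ℂ) :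
    aeval (fun i => expc g q i z) F = (aeval q F).eval (Complex.exp (g z)) :=
  aeval_eval q _ F

lemma expc_in {n : ℕ} (g : ℂ → ℂ) {q : Fin (n + 1) → Polynomial ℂ}
    {F1 : Set (MvPolynomial (Fin (n + 1)) ℂ)} (hq : ∀ F ∈ F1, aeval q F = 0) :
    InX F1 (expc g q) := by
  intro F hF z
  rw [aeval_expc, hq F hF, Polynomial.eval_zero]

lemma expc_notIn {n : ℕ} {ρ : ℕ} {g : ℂ → ℂ} (hg : Big ρ g) {q : Fin (n + 1) → Polynomial ℂ}
    (hn : Nonconst q) {F2 : Set (MvPolynomial (Fin (n + 1)) ℂ)} {G : MvPolynomial (Fin (n + 1)) ℂ}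
    (hG : G ∈ F2) (hq : aeval q G ≠ 0) : NotIn F2 (expc g q) := by
  obtain ⟨i, hi⟩ := curve_nonzero hn
  obtain ⟨a, ha⟩ : ∃ a, ((aeval q G) * q i * Polynomial.X).eval a ≠ 0 := by
    by_contra hcon
    push Not at hcon
    refine mul_ne_zero (mul_ne_zero hq hi) Polynomial.X_ne_zero (Polynomial.funext fun a => ?_)
    rw [hcon, Polynomial.eval_zero]
  rw [Polynomial.eval_mul, Polynomial.eval_mul, Polynomial.eval_X] at ha
  obtain ⟨z, hz⟩ := hg.surj _ (right_ne_zero_of_mul ha)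
  refine ⟨z, ⟨i, ?_⟩, G, hG, ?_⟩
  · change (q i).eval (Complex.exp (g z)) ≠ 0
    rw [hz]
    exact right_ne_zero_of_mul (left_ne_zero_of_mul ha)
  · rw [aeval_expc, hz]
    exact left_ne_zero_of_mul (left_ne_zero_of_mul ha)

/-- the curve is not proportional to a curve of small order -/
theorem expc_not_prop {n : ℕ} {ρ : ℕ} (hρ : 0 < ρ) {g : ℂ → ℂ} (hg : Big ρ g)
    {q : Fin (n + 1) → Polynomial ℂ}
    (hn : Nonconst q) {w : Fin (n + 1) → ℂ → ℂ} (hw : ∀ i, OrdLt ρ (w i))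
    (hw0 : ∃ i z, w i z ≠ 0) (h : ∀ i j z, expc g q i z * w j z = expc g q j z * w i z) :
    False := by
  classical
  obtain ⟨i1, z1, hz1⟩ := hw0
  set d : ℕ := Finset.univ.sup fun i => (q i).natDegree with hd
  have hqd : ∀ i, (q i).natDegree ≤ d := fun i =>
    Finset.le_sup (f := fun i => (q i).natDegree) (Finset.mem_univ i)
  have hkey : ∀ i j m z, (q i).coeff m * w j z = (q j).coeff m * w i z := by
    intro i j m z
    by_cases hm : m ∈ Finset.range (d + 1)
    · have h1 := borel_ord hρ (Finset.range (d + 1))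
        (c := fun m z => (q i).coeff m * w j z - (q j).coeff m * w i z)
        (h := fun m z => (m : ℂ) * g z) (by
          intro m _
          have h2 : (fun z => (q i).coeff m * w j z - (q j).coeff m * w i z) =
              (fun _ : ℂ => (q i).coeff m) * w j + -((fun _ : ℂ => (q j).coeff m) * w i) := by
            funext z
            simp [sub_eq_add_neg]
          rw [h2]
          exact ordLt_add (ordLt_mul (ordLt_const hρ _) (hw j))
            (ordLt_neg (ordLt_mul (ordLt_const hρ _) (hw i)))) (by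
          intro m _
          exact (differentiable_const _).mul hg.diff) (by
          intro m _ m' _ hne hp
          obtain ⟨p, hp1, hp2⟩ := hp
          have h3 : ((m : ℂ) - m') ≠ 0 := sub_ne_zero.2 (by exact_mod_cast hne)
          refine hg.not ⟨Polynomial.C ((m : ℂ) - m')⁻¹ * p,
            lt_of_le_of_lt (Polynomial.natDegree_C_mul_le _ _) hp1, fun z => ?_⟩
          rw [Polynomial.eval_mul, Polynomial.eval_C, ← hp2]
          field_simp) (by
          intro z
          have h2 := h i j z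
          unfold expc at h2
          rw [Polynomial.eval_eq_sum_range' (Nat.lt_succ_of_le (hqd i)),
            Polynomial.eval_eq_sum_range' (Nat.lt_succ_of_le (hqd j)), Finset.sum_mul,
            Finset.sum_mul, ← sub_eq_zero, ← Finset.sum_sub_distrib] at h2
          rw [← h2]
          refine Finset.sum_congr rfl fun m _ => ?_
          rw [Complex.exp_nat_mul]
          ring) m hm z
      exact sub_eq_zero.1 h1
    · have h1 : ∀ i, (q i).coeff m = 0 := fun i => by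
        apply Polynomial.coeff_eq_zero_of_natDegree_lt
        have := hqd i
        have : ¬ m < d + 1 := fun h => hm (Finset.mem_range.2 h)
        omega
      rw [h1, h1, zero_mul, zero_mul]
  refine not_nonconst (p := fun i => w i z1) (fun h0 => hz1 (congrFun h0 i1)) (fun i j => ?_) hn
  ext m
  rw [Polynomial.coeff_mul_C, Polynomial.coeff_mul_C]
  exact hkey i j m z1

lemma OrdLt.mono {ρ ρ' : ℕ} (h : ρ ≤ ρ') {f : ℂ → ℂ} (hf : OrdLt ρ f) : OrdLt ρ' f := by
  obtain ⟨hd, σ, A, h0, h1, h2⟩ := hf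
  exact ⟨hd, σ, A, h0, h1.trans_le (by exact_mod_cast h), h2⟩

/-- the entire functions of finite order -/
def finRing : Subalgebra ℂ (ℂ → ℂ) where
  carrier := {f | ∃ ρ, 0 < ρ ∧ OrdLt ρ f}
  mul_mem' := by
    rintro f g ⟨ρ, hρ, hf⟩ ⟨ρ', -, hg⟩
    exact ⟨max ρ ρ', lt_max_of_lt_left hρ,
      ordLt_mul (hf.mono (le_max_left _ _)) (hg.mono (le_max_right _ _))⟩
  add_mem' := by
    rintro f g ⟨ρ, hρ, hf⟩ ⟨ρ', -, hg⟩
    exact ⟨max ρ ρ', lt_max_of_lt_left hρ,
      ordLt_add (hf.mono (le_max_left _ _)) (hg.mono (le_max_right _ _))⟩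
  algebraMap_mem' c := ⟨1, one_pos, ordLt_const one_pos c⟩

lemma prop_of_const {n : ℕ} {f : Fin (n + 1) → ℂ → ℂ} {F2 : Set (MvPolynomial (Fin (n + 1)) ℂ)}
    (hZ : NotIn F2 f) (hf : ConstCurve f) {ρ : ℕ} (hρ : 0 < ρ) :
    ∃ w : Fin (n + 1) → ℂ → ℂ, (∀ i, OrdLt ρ (w i)) ∧ (∃ i z, w i z ≠ 0) ∧
      ∀ i j z, f i z * w j z = f j z * w i z := by
  obtain ⟨z0, ⟨i0, hi0⟩, -⟩ := hZ
  exact ⟨fun i _ => f i z0, fun i => ordLt_const hρ _, ⟨i0, z0, hi0⟩, fun i j z => hf i j z z0⟩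

lemma zf_mono {A B : Subalgebra ℂ (ℂ → ℂ)} (h : A ≤ B) : zfRing A ≤ zfRing B :=
  Subring.closure_mono (Set.union_subset_union_left _ h)

lemma ordRing_mono {ρ ρ' : ℕ} (hρ : 0 < ρ) (hρ' : 0 < ρ') (h : ρ ≤ ρ') :
    ordRing ρ hρ ≤ ordRing ρ' hρ' := fun _ hf => OrdLt.mono h hf

lemma zf_fin {f : ℂ → ℂ} (hf : f ∈ zfRing finRing) :
    ∃ ρ, ∃ hρ : 0 < ρ, f ∈ zfRing (ordRing ρ hρ) := by
  induction hf using Subring.closure_induction with
  | mem f hf =>
    rcases hf with ⟨ρ, hρ, hf⟩ | hf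
    · exact ⟨ρ, hρ, Subring.subset_closure (Or.inl hf)⟩
    · exact ⟨1, one_pos, Subring.subset_closure (Or.inr hf)⟩
  | zero => exact ⟨1, one_pos, zero_mem _⟩
  | one => exact ⟨1, one_pos, one_mem _⟩
  | neg f _ ih =>
    obtain ⟨ρ, hρ, h⟩ := ih
    exact ⟨ρ, hρ, neg_mem h⟩
  | add f g _ _ ih ih' =>
    obtain ⟨ρ, hρ, h⟩ := ih
    obtain ⟨ρ', hρ', h'⟩ := ih'
    have h0 : 0 < max ρ ρ' := lt_max_of_lt_left hρ
    exact ⟨max ρ ρ', h0, add_mem (zf_mono (ordRing_mono hρ h0 (le_max_left _ _)) h)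
      (zf_mono (ordRing_mono hρ' h0 (le_max_right _ _)) h')⟩
  | mul f g _ _ ih ih' =>
    obtain ⟨ρ, hρ, h⟩ := ih
    obtain ⟨ρ', hρ', h'⟩ := ih'
    have h0 : 0 < max ρ ρ' := lt_max_of_lt_left hρ
    exact ⟨max ρ ρ', h0, mul_mem (zf_mono (ordRing_mono hρ h0 (le_max_left _ _)) h)
      (zf_mono (ordRing_mono hρ' h0 (le_max_right _ _)) h')⟩

lemma zf_fin_vec {n : ℕ} {f : Fin (n + 1) → ℂ → ℂ} (hf : ∀ i, f i ∈ zfRing finRing) :
    ∃ ρ, ∃ hρ : 0 < ρ, ∀ i, f i ∈ zfRing (ordRing ρ hρ) := by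
  choose ρ hρ h using fun i => zf_fin (hf i)
  have h0 : 0 < Finset.univ.sup ρ :=
    (hρ 0).trans_le (Finset.le_sup (f := ρ) (Finset.mem_univ 0))
  exact ⟨_, h0, fun i => zf_mono (ordRing_mono (hρ i) h0
    (Finset.le_sup (f := ρ) (Finset.mem_univ i))) (h i)⟩

/-- **The equivalences.** -/
theorem tfae_en {n : ℕ} (F1 F2 : Set (MvPolynomial (Fin (n + 1)) ℂ))
    (hF1 : ∀ F ∈ F1, ∃ e, F.IsHomogeneous e) (hF2 : ∀ F ∈ F2, ∃ e, F.IsHomogeneous e) :
    [RatCurvesIn F1 F2,
      ∀ ρ, 0 < ρ → ∀ A : Subalgebra ℂ (ℂ → ℂ), Good ρ A → ∀ f : Fin (n + 1) → ℂ → ℂ,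
        (∀ i, f i ∈ zfRing A) → InX F1 f → NotIn F2 f → PropTo A f,
      ∀ ρ, ∀ hρ : 0 < ρ, ∀ f : Fin (n + 1) → ℂ → ℂ,
        (∀ i, f i ∈ zfRing (ordRing ρ hρ)) → InX F1 f → NotIn F2 f → PropTo (ordRing ρ hρ) f,
      ∃ ρ, ∃ hρ : 0 < ρ, ∀ f : Fin (n + 1) → ℂ → ℂ,
        (∀ i, f i ∈ zfRing (ordRing ρ hρ)) → InX F1 f → NotIn F2 f → PropTo (ordRing ρ hρ) f,
      ∀ f : Fin (n + 1) → ℂ → ℂ, (∀ i, f i ∈ zfRing finRing) → InX F1 f → NotIn F2 f →
        PropTo finRing f,
      ∀ f : Fin (n + 1) → ℂ → ℂ, (∀ i, f i ∈ zfRing polyFun) → InX F1 f → NotIn F2 f →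
        ConstCurve f,
      ∀ f : Fin (n + 1) → ℂ → ℂ, (∀ i, f i ∈ zfRing ⊥) → InX F1 f → NotIn F2 f →
        ConstCurve f].TFAE := by
  tfae_have 1 → 2 := fun h ρ hρ A hA f hf hX hZ => rat_prop hF1 h hρ hA hf hX hZ
  tfae_have 2 → 3 := fun h ρ hρ f => h ρ hρ _ (good_ord hρ) f
  tfae_have 3 → 4 := fun h => ⟨1, one_pos, h 1 one_pos⟩
  tfae_have 4 → 1 := by
    rintro ⟨ρ, hρ, h⟩ q hq hn G hG
    by_contra hG0
    have hg := big_pow hρ
    obtain ⟨w, hw, hw0, hfw⟩ := h (expc _ q) (expc_mem hg.diff q _) (expc_in _ hq)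
      (expc_notIn hg hn hG hG0)
    exact expc_not_prop hρ hg hn hw hw0 hfw
  tfae_have 3 → 5 := by
    intro h f hf hX hZ
    obtain ⟨ρ, hρ, h1⟩ := zf_fin_vec hf
    obtain ⟨w, hw, hw0, hfw⟩ := h ρ hρ f h1 hX hZ
    exact ⟨w, fun i => ⟨ρ, hρ, hw i⟩, hw0, hfw⟩
  tfae_have 5 → 1 := by
    intro h q hq hn G hG
    by_contra hG0
    obtain ⟨w, hw, hw0, hfw⟩ := h (expc _ q) (expc_mem (big_exp 0).diff q _) (expc_in _ hq)
      (expc_notIn (big_exp 0) hn hG hG0)
    choose ρ hρ hw using hw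
    have h0 : 0 < Finset.univ.sup ρ :=
      (hρ 0).trans_le (Finset.le_sup (f := ρ) (Finset.mem_univ 0))
    exact expc_not_prop h0 (big_exp _) hn (fun i => (hw i).mono
      (Finset.le_sup (f := ρ) (Finset.mem_univ i))) hw0 hfw
  tfae_have 1 → 6 := fun h f hf hX hZ => rat_const hF1 hF2 h hf hX hZ
  tfae_have 6 → 7 := fun h f hf => h f fun i => zf_mono bot_le (hf i)
  tfae_have 7 → 1 := by
    intro h q hq hn G hG
    by_contra hG0
    have hg := big_pow one_pos
    have hZ := expc_notIn hg hn hG hG0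
    obtain ⟨w, hw, hw0, hfw⟩ := prop_of_const hZ (h (expc _ q) (expc_mem hg.diff q _)
      (expc_in _ hq) hZ) one_pos
    exact expc_not_prop one_pos hg hn hw hw0 hfw
  tfae_finish

/-- varieties without nonconstant maps from elliptic curves contain no rational curves -/
theorem rat_of_rigid {n : ℕ} {ι : Type} {F : ι → MvPolynomial (Fin (n + 1)) ℂ}
    (hF : ∀ i, ∃ d, (F i).IsHomogeneous d) (hX : EllipticRigid F)
    (F2 : Set (MvPolynomial (Fin (n + 1)) ℂ)) : RatCurvesIn (Set.range F) F2 := by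
  classical
  intro q hq hn G _
  exfalso
  obtain ⟨i1, hi1⟩ := curve_nonzero hn
  obtain ⟨g, hg⟩ := (IsPrincipalIdealRing.principal (Ideal.span (Set.range q))).principal
  have hg' : Ideal.span (Set.range q) = Ideal.span {g} := hg
  have hdiv : ∀ i, ∃ p, q i = g * p := by
    intro i
    have h1 : q i ∈ Ideal.span {g} := by
      rw [← hg']
      exact Ideal.subset_span ⟨i, rfl⟩
    exact Ideal.mem_span_singleton'.1 h1 |>.imp fun p hp => by rw [← hp, mul_comm]
  choose p hp using hdiv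
  have hg0 : g ≠ 0 := by
    rintro rfl
    apply hi1
    rw [hp, zero_mul]
  have hbez : ∃ c : Fin (n + 1) → Polynomial ℂ, ∑ i, c i * p i = 1 := by
    have h1 : g ∈ Ideal.span (Set.range q) := by
      rw [hg']
      exact Ideal.mem_span_singleton_self g
    obtain ⟨c, hc⟩ := (Ideal.mem_span_range_iff_exists_fun).1 h1
    refine ⟨c, mul_left_cancel₀ hg0 ?_⟩
    rw [Finset.mul_sum, mul_one]
    conv_rhs => rw [← hc]
    refine Finset.sum_congr rfl fun i _ => ?_
    rw [hp i]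
    ring
  obtain ⟨c, hc⟩ := hbez
  have hpF : ∀ i, aeval p (F i) = 0 := by
    intro i
    obtain ⟨e, he⟩ := hF i
    have h1 := hq (F i) ⟨i, rfl⟩
    have h2 : aeval q (F i) = g ^ e * aeval p (F i) := by
      rw [← aeval_smul_homog (F i) he g p]
      congr 1
      congr 1
      funext i
      exact hp i
    rw [h2] at h1
    exact (mul_eq_zero.1 h1).resolve_left (pow_ne_zero _ hg0)
  obtain ⟨i, j, a, b, hab⟩ := hn
  apply hab
  have h1 := Pool.Agent.TH182.TC.no_rational hF hX p (by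
    intro t
    by_contra hcon
    push Not at hcon
    have h2 := congrArg (Polynomial.eval t) hc
    rw [Polynomial.eval_finsetSum, Polynomial.eval_one] at h2
    rw [Finset.sum_eq_zero fun i _ => by rw [Polynomial.eval_mul, hcon i, mul_zero]] at h2
    exact zero_ne_one h2) (by
    intro t i
    have h2 := aeval_eval p t (F i)
    rw [hpF i, Polynomial.eval_zero] at h2
    rw [← h2, aeval_eq_eval]) a b i j
  rw [hp i, hp j]
  simp only [Polynomial.eval_mul]
  linear_combination (g.eval a * g.eval b) * h1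

lemma good_bot : Good 1 (⊥ : Subalgebra ℂ (ℂ → ℂ)) where
  ord f hf := by
    obtain ⟨c, rfl⟩ := Algebra.mem_bot.1 hf
    exact ordLt_const one_pos c
  exp p hp := by
    have h1 := Polynomial.eq_C_of_natDegree_eq_zero (by omega : p.natDegree = 0)
    refine Algebra.mem_bot.2 ⟨Complex.exp (p.coeff 0), funext fun z => ?_⟩
    rw [h1]
    simp

/-- **Varieties which are not uniruled.** -/
theorem tfae_nu {n d : ℕ} (F1 : Set (MvPolynomial (Fin (n + 1)) ℂ))
    (hF1 : ∀ F ∈ F1, ∃ e ≤ d, F.IsHomogeneous e) (hprime : (Ideal.span F1).IsPrime) :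
    [¬ Uniruled (Ideal.span F1),
      ∀ r, ∃ G, (∃ e, G.IsHomogeneous e) ∧ G ∉ Ideal.span F1 ∧
        ∀ ρ, 0 < ρ → ∀ A : Subalgebra ℂ (ℂ → ℂ), Good ρ A → ∀ g : Fin r → ℂ → ℂ,
        (∀ j, Differentiable ℂ (g j)) → ∀ a : Fin r → Fin (n + 1) → ℂ → ℂ,
        (∀ j i, a j i ∈ A) → InX F1 (fun i z => ∑ j, Complex.exp (g j z) * a j i z) →
        NotIn {G} (fun i z => ∑ j, Complex.exp (g j z) * a j i z) →
        PropTo A fun i z => ∑ j, Complex.exp (g j z) * a j i z,
      ∀ r, ∃ G, (∃ e, G.IsHomogeneous e) ∧ G ∉ Ideal.span F1 ∧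
        ∀ g : Fin r → ℂ → ℂ, (∀ j, Differentiable ℂ (g j)) → ∀ a : Fin r → Fin (n + 1) → ℂ,
        InX F1 (fun i z => ∑ j, Complex.exp (g j z) * a j i) →
        NotIn {G} (fun i z => ∑ j, Complex.exp (g j z) * a j i) →
        ConstCurve fun i z => ∑ j, Complex.exp (g j z) * a j i].TFAE := by
  classical
  tfae_have 1 → 2 := by
    intro h r
    obtain ⟨G, h1, h2, h3⟩ := hyper_rcur F1 hprime h d hF1 r
    exact ⟨G, h1, h2, fun ρ hρ A hA g hg a ha hX hZ =>
      struct (fun F hF => (hF1 F hF).imp fun e h => h.2) (h3 ℂ) hρ hA hg ha (fun _ _ => rfl) hX hZ⟩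
  tfae_have 2 → 3 := by
    intro h r
    obtain ⟨G, h1, h2, h3⟩ := h r
    refine ⟨G, h1, h2, fun g hg a hX hZ => ?_⟩
    obtain ⟨w, hw, ⟨i1, z1, hi1⟩, hfw⟩ := h3 1 one_pos ⊥ good_bot g hg (fun j i _ => a j i)
      (fun j i => Algebra.mem_bot.2 ⟨a j i, rfl⟩) hX hZ
    choose c hc using fun i => Algebra.mem_bot.1 (hw i)
    have hwc : ∀ i z, w i z = c i := fun i z => by rw [← hc i]; rfl
    have hc1 : c i1 ≠ 0 := by rwa [hwc] at hi1
    intro i j z z'
    have e1 := hfw i i1 z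
    have e2 := hfw j i1 z
    have e3 := hfw j i1 z'
    have e4 := hfw i i1 z'
    simp only [hwc] at e1 e2 e3 e4
    apply mul_right_cancel₀ (mul_ne_zero hc1 hc1)
    linear_combination ((∑ x, Complex.exp (g x z') * a x j) * c i1) * e1 -
      ((∑ x, Complex.exp (g x z') * a x i) * c i1) * e2 +
      ((∑ x, Complex.exp (g x z) * a x i1) * c i) * e3 -
      ((∑ x, Complex.exp (g x z) * a x i1) * c j) * e4
  tfae_have 3 → 1 := by
    intro h hu
    obtain ⟨D, hD⟩ := uni_curves hu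
    obtain ⟨G, h1, h2, h3⟩ := h (D + 1)
    apply hD G h1 h2
    intro q hqD hq hn G' hG'
    by_contra hG0
    have hqe : (fun i z => ∑ j : Fin (D + 1), Complex.exp (((j : ℕ) : ℂ) * z) *
        (q i).coeff j) = expc (fun z => z ^ 1) q := by
      funext i z
      unfold expc
      rw [Polynomial.eval_eq_sum_range' (Nat.lt_succ_of_le (hqD i)), Finset.sum_range]
      refine Finset.sum_congr rfl fun j _ => ?_
      rw [Complex.exp_nat_mul]
      simp only [pow_one]
      ring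
    have h4 := h3 (fun j z => ((j : ℕ) : ℂ) * z)
      (fun j => (differentiable_const _).mul differentiable_id) (fun j i => (q i).coeff j)
    rw [hqe] at h4
    have hg := big_pow one_pos
    have hZ := expc_notIn hg hn hG' hG0
    obtain ⟨w, hw, hw0, hfw⟩ := prop_of_const hZ (h4 (expc_in _ hq) hZ) one_pos
    exact expc_not_prop one_pos hg hn hw hw0 hfw
  tfae_finish

end Pool.Agent.V8H29.EN
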