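import Mathlib
import Pool.Agent.N254.SQ.Fin

/-!
# Smooth hypersurfaces through a projective variety, with control of the points over the base field

A variant of `Pool.Agent.N254.SQ.geo` which also controls the points over the base field for which
many disjoint partial sums vanish.
-/

set_option autoImplicit false

namespace Pool.Agent.V8H29.GE

open MvPolynomial
open Pool.Agent.N254.SQ

theorem aee {K σ : Type} [Field K] (x : σ → K) (p : MvPolynomial σ K) :
    aeval x p = eval x p := rfl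

/-- the main theorem for the zeros of forms of the same degree with large Jacobian rank -/
theorem main_forms' (hP : Part_stm) (hS : Size_stm) (hB : Blocks_stm) (hSm : Smooth_stm)
    (n e : ℕ) (hn : 1 ≤ n) : ∃ D₁ : ℕ, ∀ D, D₁ ≤ D → ∀ (K : Type) [Field K] [CharZero K]
      (ι : Type) [Fintype ι] (q : ι → MvPolynomial (Fin (n + 1)) K),
      (∀ i, (q i).IsHomogeneous e) → ∀ r : ℕ,
      (∀ (Ω : Type) [Field Ω] [Algebra K Ω] (x : Fin (n + 1) → Ω), x ≠ 0 →
        (∀ i, aeval x (q i) = 0) →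
        r < (Matrix.of fun (i : ι) (j : Fin (n + 1)) => (aeval x (pderiv j (q i)) : Ω)).rank) →
      (∀ (Ω : Type) [Field Ω] [Algebra K Ω] (x : Fin (n + 1) → Ω) (a : Fin (n + 1)), x a = 1 →
        (∀ i, aeval x (q i) = 0) → Algebra.trdeg K (Algebra.adjoin K (Set.range x)) ≤ r) →
      ∃ c : Fin (n * (2 * n + 1)) × ι → K, Smooth (hyp q D c) ∧
        (∀ (σ : K →+* ℂ) (f : Fin (n + 1) → ℂ → ℂ), (∀ j, Differentiable ℂ (f j)) →
          (∀ z, ∃ j, f j z ≠ 0) → (∀ z, eval (fun j => f j z) (map σ (hyp q D c)) = 0) →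
          (∃ i j z w, f i z * f j w ≠ f j z * f i w) →
          ∀ z i, eval (fun j => f j z) (map σ (q i)) = 0) ∧
        ∀ 𝓑 : Finset (Finset (Fin (n * (2 * n + 1)))), (∀ B ∈ 𝓑, B.Nonempty) →
          (∀ B ∈ 𝓑, ∀ B' ∈ 𝓑, B ≠ B' → Disjoint B B') → 2 * n + 1 ≤ 𝓑.card →
          ∀ x : Fin (n + 1) → K, x ≠ 0 →
            (∀ B ∈ 𝓑, ∑ t ∈ B, eval x (∑ i, C (c (t, i)) * q i) *
              eval x (lin K n (t : ℕ)) ^ D = 0) →
            ∀ i, eval x (q i) = 0 := by
  classical
  obtain ⟨D₁, hD₁⟩ := curves hP hS n e (n * (2 * n + 1))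
  refine ⟨max D₁ 1, fun D hD K _ _ ι _ q hq r hr1 hr2 => ?_⟩
  have hDD : D₁ ≤ D := le_trans (le_max_left _ _) hD
  have hD1 : 1 ≤ D := le_trans (le_max_right _ _) hD
  set L := n * (2 * n + 1) with hL
  have hL2 : 2 * n + 1 ≤ L := Nat.le_mul_of_pos_left _ hn
  obtain ⟨Δ₁, hΔ₁, hB1⟩ := hB K n L D e ι q hq
  obtain ⟨Δ₂, hΔ₂, hS1⟩ := hSm K n L D e r ι q hq hD1 hL2 hr1 hr2
  obtain ⟨c, hc⟩ : ∃ c : Fin L × ι → K, eval c (Δ₁ * Δ₂) ≠ 0 := by
    by_contra hcon
    push Not at hcon
    exact mul_ne_zero hΔ₁ hΔ₂ (MvPolynomial.funext fun c => by rw [hcon c, map_zero])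
  rw [map_mul] at hc
  have hc1 := left_ne_zero_of_mul hc
  have hc2 := right_ne_zero_of_mul hc
  have haev : ∀ (Ω : Type) [Field Ω] (σ : K →+* Ω) (Δ : MvPolynomial (Fin L × ι) K),
      eval c Δ ≠ 0 → eval₂ σ (fun p => σ (c p)) Δ ≠ 0 := by
    intro Ω _ σ Δ h h2
    apply h
    apply σ.injective
    rw [map_zero, ← h2]
    exact (eval₂_comp (f := σ) (g := c) Δ).trans rfl
  refine ⟨c, ?_, ?_, ?_⟩
  · intro Ω _ σ x hx
    let _ : Algebra K Ω := σ.toAlgebra
    obtain ⟨j, hj⟩ := hS1 Ω (fun p => σ (c p)) (haev Ω σ Δ₂ hc2) x hx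
    refine ⟨j, ?_⟩
    rw [map_hyp]
    exact hj
  · intro σ f hf h0 hF hnc z i
    let _ : Algebra K ℂ := σ.toAlgebra
    obtain ⟨𝓑, hne, hdis, hvan, hcard⟩ := hD₁ D hDD
      (fun t => ∑ i, C (σ (c (t, i))) * map σ (q i))
      (fun t => fam_hom (fun i => (hq i).map σ) _) f hf h0 (by
        intro z
        have h1 := hF z
        rw [map_hyp, hyp, map_sum] at h1
        rw [← h1]
        apply Finset.sum_congr rfl
        intro t _
        rw [map_mul, map_pow]
        rfl) hnc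
    have hcard2 : 2 * n + 1 ≤ 𝓑.card := Nat.le_of_mul_le_mul_left hcard hn
    have hx : (fun j => f j z) ≠ (0 : Fin (n + 1) → ℂ) := by
      intro h
      obtain ⟨j, hj⟩ := h0 z
      exact hj (congrFun h j)
    have key := hB1 ℂ (fun p => σ (c p)) (haev ℂ σ Δ₁ hc1) 𝓑 hne hdis hcard2 (fun j => f j z) hx
      (by
        intro B hBB
        rw [← hvan B hBB z]
        apply Finset.sum_congr rfl
        intro t _
        unfold term
        rw [map_sum]
        congr 1
        · apply Finset.sum_congr rfl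
          intro i _
          rw [map_mul, eval_C, eval_map]
          rfl
        · rw [← map_lin σ, eval_map]
          rfl) i
    rw [eval_map]
    exact key
  · intro 𝓑 hne hdis hcard x hx hvan i
    have key := hB1 K c (by rwa [aee]) 𝓑 hne hdis hcard x hx (by
        intro B hBB
        rw [← hvan B hBB]
        apply Finset.sum_congr rfl
        intro t _
        rw [map_sum]
        congr 1
        apply Finset.sum_congr rfl
        intro i _
        rw [map_mul, eval_C, aee]) i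
    rwa [aee] at key

/-- the geometric form of the main theorem, with control of the points over the base field -/
theorem geo' (H : Leaves) : ∃ D₁ : ℕ → ℕ, ∀ (n d : ℕ), 1 ≤ n → 3 ≤ d →
    ∃ (N : ℕ) (m : Fin (N + 1) → Fin (n + 1) → ℕ), Mon n N d m ∧ 2 * n < N ∧
      ∀ D, D₁ N ≤ D → ∀ (K : Type) [Field K] [CharZero K] (κ : Type) [Finite κ]
        (F : κ → MvPolynomial (Fin (n + 1)) K) (g : κ → ℕ), (∀ k, (F k).IsHomogeneous (g k)) →
        (∀ k, g k ≤ d) →
        ∃ Q : Fin (N * (2 * N + 1)) → MvPolynomial (Fin (N + 1)) K,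
          (∀ t, (Q t).IsHomogeneous 2) ∧ Smooth (powerSum D Q) ∧
          (∀ (Ω : Type) [Field Ω] (σ : K →+* Ω) (x : Fin (n + 1) → Ω),
            (∀ k, eval x (map σ (F k)) = 0) → eval (ver m x) (map σ (powerSum D Q)) = 0) ∧
          (∀ (σ : K →+* ℂ) (f : Fin (N + 1) → ℂ → ℂ), (∀ j, Differentiable ℂ (f j)) →
            (∀ z, ∃ j, f j z ≠ 0) → (∀ z, eval (fun j => f j z) (map σ (powerSum D Q)) = 0) →
            (∃ i j z w, f i z * f j w ≠ f j z * f i w) →
            ∀ z, ∃ x : Fin (n + 1) → ℂ, x ≠ 0 ∧ (∀ k, eval x (map σ (F k)) = 0) ∧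
              (fun j => f j z) = ver m x) ∧
          ∀ 𝓑 : Finset (Finset (Fin (N * (2 * N + 1)))), (∀ B ∈ 𝓑, B.Nonempty) →
            (∀ B ∈ 𝓑, ∀ B' ∈ 𝓑, B ≠ B' → Disjoint B B') → 2 * N + 1 ≤ 𝓑.card →
            ∀ y : Fin (N + 1) → K, y ≠ 0 →
              (∀ B ∈ 𝓑, ∑ t ∈ B, eval y (Q t) * eval y (lin K N (t : ℕ)) ^ D = 0) →
              ∃ (x : Fin (n + 1) → K) (s : K), x ≠ 0 ∧ s ≠ 0 ∧ (∀ k, eval x (F k) = 0) ∧
                y = s • ver m x := by
  classical
  have hmain := fun (N : ℕ) (hN1 : 1 ≤ N) => main_forms' H.part H.size H.blocks H.smooth N 2 hN1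
  refine ⟨fun N => if h : 1 ≤ N then (hmain N h).choose else 0, fun n d hn hd => ?_⟩
  obtain ⟨N, m, hm, hN⟩ := H.num n d hn hd
  refine ⟨N, m, hm, hN, ?_⟩
  have hN1 : 1 ≤ N := by omega
  have hd1 : 1 ≤ d := by omega
  simp only [hN1, dif_pos]
  have hD₁ := (hmain N hN1).choose_spec
  intro D hD K _ _ κ _ F g hF hg
  obtain ⟨ι, _, q, hq2, hqv, hqr⟩ := H.ver K n N d m hm hd1 κ F g hF hg
  obtain ⟨c, hc1, hc2, hc3⟩ := hD₁ D hD K ι q hq2 n (by
    intro Ω _ _ x hx hxq
    have h1 := (hqr Ω x hx hxq).1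
    omega) (by
    intro Ω _ _ y a hya hyq
    have hy0 : y ≠ 0 := by
      intro h
      rw [h] at hya
      exact zero_ne_one hya
    obtain ⟨-, x, a', b, hxa, hyb, hyc, -⟩ := hqr Ω y hy0 hyq
    refine td_scale H.td x a' hxa (ver m x) y (fun b => ?_) a (fun c => ?_)
    · refine ⟨∏ j, X j ^ m b j, ?_⟩
      rw [map_prod]
      unfold ver
      apply Finset.prod_congr rfl
      intro j _
      rw [map_pow, aeval_X]
    · have h1 := hyc a
      rw [hya] at h1
      have h2 : ver m x a ≠ 0 := by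
        intro h3
        rw [h3, mul_zero] at h1
        exact one_ne_zero h1
      rw [hyc c]
      rw [eq_div_iff h2]
      linear_combination (-ver m x c) * h1)
  refine ⟨fun t => ∑ i, C (c (t, i)) * q i, fun t => fam_hom hq2 _, hc1, ?_, ?_, ?_⟩
  · intro Ω _ σ x hx
    let _ : Algebra K Ω := σ.toAlgebra
    refine hyp_vanish σ q D c (ver m x) fun i => ?_
    rw [eval_map]
    refine hqv Ω x (fun k => ?_) i
    have := hx k
    rw [eval_map] at this
    exact this
  · intro σ f hf h0 hF' hnc z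
    let _ : Algebra K ℂ := σ.toAlgebra
    have h1 := hc2 σ f hf h0 hF' hnc z
    have hx0 : (fun j => f j z) ≠ (0 : Fin (N + 1) → ℂ) := by
      intro h
      obtain ⟨j, hj⟩ := h0 z
      exact hj (congrFun h j)
    obtain ⟨-, x, a, b, hxa, hyb, hyc, hFx⟩ := hqr ℂ (fun j => f j z) hx0 (fun i => by
      have := h1 i
      rw [eval_map] at this
      exact this)
    obtain ⟨s, hs⟩ := IsAlgClosed.exists_pow_nat_eq (f b z) (n := d) (by omega)
    have hs0 : s ≠ 0 := by
      intro h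
      rw [h, zero_pow (by omega)] at hs
      exact hyb hs.symm
    refine ⟨s • x, ?_, fun k => ?_, ?_⟩
    · intro h
      have h2 := congrFun h a
      rw [Pi.smul_apply, hxa, smul_eq_mul, mul_one] at h2
      exact hs0 h2
    · have h2 : eval (s • x) (map σ (F k)) = s ^ g k * eval x (map σ (F k)) := by
        have h3 := eval₂_scale (RingHom.id ℂ) ((hF k).map σ) s x
        exact h3
      rw [h2, eval_map]
      have := hFx k
      rw [show eval₂ σ x (F k) = aeval x (F k) from rfl, this, mul_zero]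
    · rw [ver_smul hm, hs]
      funext c
      exact hyc c
  · intro 𝓑 hne hdis hcard y hy hvan
    have h1 := hc3 𝓑 hne hdis hcard y hy hvan
    obtain ⟨-, x, a, b, hxa, hyb, hyc, hFx⟩ := hqr K y hy (fun i => by
      rw [aee]
      exact h1 i)
    refine ⟨x, y b, ?_, hyb, fun k => ?_, funext fun c => hyc c⟩
    · intro h
      rw [h] at hxa
      exact zero_ne_one hxa
    · have := hFx k
      rwa [aee] at this

end Pool.Agent.V8H29.GE
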