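import Mathlib

/-!
# Points with power coordinates: few linear relations between monomials
-/

set_option autoImplicit false

namespace Pool.Agent.V8H29.PP

open Finset

/-- vanishing of all power sums from a vanishing family of powers of linear polynomials -/
theorem pow_sums {ι : Type} [Fintype ι] (w t : ι → ℚ) (r : ℕ)
    (h : ∀ l : ℚ, ∑ a, w a * (1 + l * t a) ^ r = 0) (k : ℕ) (hk : k ≤ r) :
    ∑ a, w a * t a ^ k = 0 := by
  set P : Polynomial ℚ := ∑ a, Polynomial.C (w a) *
    (((Polynomial.X + 1 : Polynomial ℚ) ^ r).comp (Polynomial.C (t a) * Polynomial.X)) with hP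
  have h0 : P = 0 := by
    apply Polynomial.funext
    intro l
    rw [hP, Polynomial.eval_finsetSum, Polynomial.eval_zero, ← h l]
    refine Finset.sum_congr rfl fun a _ => ?_
    simp only [Polynomial.eval_mul, Polynomial.eval_C, Polynomial.eval_comp, Polynomial.eval_pow,
      Polynomial.eval_add, Polynomial.eval_X, Polynomial.eval_one]
    ring
  have h1 := congrArg (fun p => Polynomial.coeff p k) h0
  simp only [hP, Polynomial.finsetSum_coeff, Polynomial.coeff_C_mul, Polynomial.comp_C_mul_X_coeff,
    Polynomial.coeff_X_add_one_pow, Polynomial.coeff_zero] at h1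
  have hc : ((r.choose k : ℕ) : ℚ) ≠ 0 := by
    exact_mod_cast (Nat.choose_pos hk).ne'
  have h2 : ((r.choose k : ℕ) : ℚ) * ∑ a, w a * t a ^ k = 0 := by
    rw [← h1, Finset.mul_sum]
    refine Finset.sum_congr rfl fun a _ => ?_
    ring
  exact (mul_eq_zero.1 h2).resolve_left hc

/-- the sums with arbitrary functions of the ratios vanish -/
theorem fun_sums {ι : Type} [Fintype ι] (w t : ι → ℚ) (r : ℕ) (hr : Fintype.card ι ≤ r + 1)
    (h : ∀ l : ℚ, ∑ a, w a * (1 + l * t a) ^ r = 0) (g : ℚ → ℂ) :
    ∑ a, (w a : ℂ) * g (t a) = 0 := by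
  classical
  set s : Finset ℚ := univ.image t with hs
  have hinj : Set.InjOn (fun q : ℚ => (q : ℂ)) s := fun x _ y _ hxy => by
    have hxy' : (x : ℂ) = (y : ℂ) := hxy
    exact_mod_cast hxy'
  set Q : Polynomial ℂ := Lagrange.interpolate s (fun q : ℚ => (q : ℂ)) g with hQ
  have hdeg : Q.natDegree ≤ r := by
    have h1 : Q.degree < s.card := Lagrange.degree_interpolate_lt _ hinj
    have h2 : s.card ≤ r + 1 := (Finset.card_image_le).trans hr
    by_cases hQ0 : Q = 0
    · rw [hQ0]; simp
    · rw [Polynomial.degree_eq_natDegree hQ0] at h1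
      have h3 : Q.natDegree < s.card := by exact_mod_cast h1
      omega
  have hev : ∀ a, g (t a) = Q.eval ((t a : ℚ) : ℂ) := by
    intro a
    rw [hQ]
    exact (Lagrange.eval_interpolate_at_node g hinj (Finset.mem_image_of_mem t (mem_univ a))).symm
  calc ∑ a, (w a : ℂ) * g (t a)
      = ∑ a, (w a : ℂ) * ∑ k ∈ range (r + 1), Q.coeff k * ((t a : ℚ) : ℂ) ^ k := by
        refine Finset.sum_congr rfl fun a _ => ?_
        rw [hev a, Polynomial.eval_eq_sum_range' (Nat.lt_succ_of_le hdeg)]
    _ = ∑ k ∈ range (r + 1), Q.coeff k * ((∑ a, w a * t a ^ k : ℚ) : ℂ) := by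
        simp_rw [Finset.mul_sum]
        rw [Finset.sum_comm]
        refine Finset.sum_congr rfl fun k _ => ?_
        push_cast
        rw [Finset.mul_sum]
        refine Finset.sum_congr rfl fun a _ => ?_
        ring
    _ = 0 := by
        refine Finset.sum_eq_zero fun k hk => ?_
        rw [pow_sums w t r h k (by simpa [Nat.lt_succ_iff] using hk)]
        simp

/-- a rational number with trivial valuations is a sign -/
theorem abs_eq_one_of_val {q : ℚ} (hq : q ≠ 0)
    (h : ∀ p : ℕ, p.Prime → padicValRat p q = 0) : |q| = 1 := by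
  have hn : q.num.natAbs = 1 := by
    by_contra hne
    obtain ⟨p, hp, hpd⟩ := Nat.exists_prime_and_dvd hne
    have := Fact.mk hp
    have h1 := h p hp
    have h2 : padicValNat p q.den = 0 := by
      apply padicValNat.eq_zero_of_not_dvd
      intro hd
      have h5 : p ∣ 1 := by
        have h6 := Nat.dvd_gcd hpd hd
        rwa [q.reduced.gcd_eq_one] at h6
      exact hp.one_lt.ne' (Nat.dvd_one.1 h5)
    have h3 : 1 ≤ padicValInt p q.num := by
      rw [padicValInt]
      exact one_le_padicValNat_of_dvd (Int.natAbs_ne_zero.2 (Rat.num_ne_zero.2 hq)) hpd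
    rw [padicValRat] at h1
    omega
  have hd : q.den = 1 := by
    by_contra hne
    obtain ⟨p, hp, hpd⟩ := Nat.exists_prime_and_dvd hne
    have := Fact.mk hp
    have h1 := h p hp
    have h2 : padicValInt p q.num = 0 := by
      rw [padicValInt, hn]
      simp
    have h3 : 1 ≤ padicValNat p q.den := one_le_padicValNat_of_dvd q.den_nz hpd
    rw [padicValRat] at h1
    omega
  rw [← Rat.num_div_den q, hd, abs_div]
  have : |(q.num : ℚ)| = 1 := by
    rw [← Int.cast_abs, Int.abs_eq_natAbs, hn]
    simp
  rw [this]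
  simp

/-- two nonzero rational numbers with different absolute values have different valuations at some
prime -/
theorem exists_val_ne {x y : ℚ} (hx : x ≠ 0) (hy : y ≠ 0) (h : |x| ≠ |y|) :
    ∃ p : ℕ, p.Prime ∧ padicValRat p x ≠ padicValRat p y := by
  by_contra hcon
  push Not at hcon
  apply h
  have h1 : |x / y| = 1 := by
    apply abs_eq_one_of_val (div_ne_zero hx hy)
    intro p hp
    have := Fact.mk hp
    rw [padicValRat.div hx hy, hcon p hp, sub_self]
  rw [abs_div, div_eq_one_iff_eq (abs_ne_zero.2 hy)] at h1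
  exact h1

section core

variable {N : ℕ} {A : Type} [Fintype A]

/-- the value of the monomial with exponents `e a` -/
def mon {R : Type} [CommRing R] (e : A → Fin N → ℕ) (x : Fin N → R) (a : A) : R :=
  ∏ i, x i ^ e a i

/-- **The core lemma.** If the monomials of `u` and of `u'` are in a linear space on which the
form in `r`-th powers vanishes, then the torus orbit with exponents the valuations of the ratios
is in the variety. -/
theorem orbit (e : A → Fin N → ℕ) (r : ℕ) (hr : Fintype.card A ≤ r + 1) (hr0 : r ≠ 0)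
    (c : A → ℚ)
    (s u u' : Fin N → ℤ) (hsupp : ∀ i, u i = 0 ↔ u' i = 0) (V : Submodule ℚ (A → ℚ))
    (hu : (fun a => mon e (fun i => (u i : ℚ)) a) ∈ V)
    (hu' : (fun a => mon e (fun i => (u' i : ℚ)) a) ∈ V)
    (hV : ∀ z ∈ V, ∑ a, c a * (mon e (fun i => (s i : ℚ)) a * z a ^ r) = 0)
    (p : ℕ) (hp : p.Prime) (τ : ℂ) (hτ : τ ≠ 0) :
    ∑ a, (c a : ℂ) * mon e (fun i => ((s i : ℂ) * (u i : ℂ) ^ r) *
      τ ^ (padicValRat p ((u' i : ℚ) / (u i : ℚ)))) a = 0 := by
  classical
  have := Fact.mk hp
  set M : A → ℚ := fun a => mon e (fun i => (u i : ℚ)) a with hM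
  set M' : A → ℚ := fun a => mon e (fun i => (u' i : ℚ)) a with hM'
  set S : A → ℚ := fun a => mon e (fun i => (s i : ℚ)) a with hS
  have hMM : ∀ a, M a = 0 → M' a = 0 := by
    intro a ha
    simp only [hM, mon, Finset.prod_eq_zero_iff, mem_univ, true_and] at ha
    obtain ⟨i, hi⟩ := ha
    simp only [hM', mon, Finset.prod_eq_zero_iff, mem_univ, true_and]
    refine ⟨i, ?_⟩
    have h0 : e a i ≠ 0 := by
      intro h0
      rw [h0] at hi
      simp at hi
    rw [pow_eq_zero_iff h0] at hi ⊢
    exact_mod_cast (hsupp i).1 (by exact_mod_cast hi)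
  have key : ∀ l : ℚ, ∑ a, (c a * (S a * M a ^ r)) * (1 + l * (M' a / M a)) ^ r = 0 := by
    intro l
    have h1 : (fun a => M a + l * M' a) ∈ V := by
      have := V.add_mem hu (V.smul_mem l hu')
      exact this
    rw [← hV _ h1]
    refine Finset.sum_congr rfl fun a _ => ?_
    by_cases ha : M a = 0
    · rw [hMM a ha, ha]
      simp [hr0]
    · have : M a + l * M' a = M a * (1 + l * (M' a / M a)) := by
        field_simp
      rw [this, mul_pow]
      ring
  have h2 := fun_sums (fun a => c a * (S a * M a ^ r)) (fun a => M' a / M a) r hr key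
    (fun q => τ ^ padicValRat p q)
  rw [← h2]
  refine Finset.sum_congr rfl fun a _ => ?_
  have hx : mon e (fun i => ((s i : ℂ) * (u i : ℂ) ^ r) *
      τ ^ (padicValRat p ((u' i : ℚ) / (u i : ℚ)))) a =
      ((S a * M a ^ r : ℚ) : ℂ) * ∏ i, (τ ^ (padicValRat p ((u' i : ℚ) / (u i : ℚ)))) ^ e a i := by
    simp only [mon, hS, hM]
    push_cast
    rw [← Finset.prod_pow, ← Finset.prod_mul_distrib, ← Finset.prod_mul_distrib]
    refine Finset.prod_congr rfl fun i _ => ?_
    rw [mul_pow, mul_pow, ← pow_mul, ← pow_mul, mul_comm r]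
  rw [hx]
  by_cases ha : M a = 0
  · rw [ha]
    simp [hr0]
  · have hne : ∀ i, e a i ≠ 0 → (u i : ℚ) ≠ 0 := by
      intro i hi h0
      apply ha
      simp only [hM, mon]
      exact Finset.prod_eq_zero (mem_univ i) (by rw [h0, zero_pow hi])
    have hne' : ∀ i, e a i ≠ 0 → (u' i : ℚ) ≠ 0 := by
      intro i hi h0
      apply hne i hi
      have := (hsupp i).2 (by exact_mod_cast h0)
      exact_mod_cast this
    have h3 : padicValRat p (M' a / M a) =
        ∑ i, (e a i : ℤ) * padicValRat p ((u' i : ℚ) / (u i : ℚ)) := by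
      have h4 : M' a / M a = ∏ i, (if e a i = 0 then (1 : ℚ) else (u' i : ℚ) / (u i : ℚ)) ^ e a i := by
        simp only [hM, hM', mon]
        rw [← Finset.prod_div_distrib]
        refine Finset.prod_congr rfl fun i _ => ?_
        by_cases hi : e a i = 0
        · simp [hi]
        · rw [if_neg hi, div_pow]
      rw [h4]
      have h5 : ∀ T : Finset (Fin N), padicValRat p
          (∏ i ∈ T, (if e a i = 0 then (1 : ℚ) else (u' i : ℚ) / (u i : ℚ)) ^ e a i) =
          ∑ i ∈ T, (e a i : ℤ) * padicValRat p ((u' i : ℚ) / (u i : ℚ)) := by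
        intro T
        induction T using Finset.induction_on with
        | empty => simp
        | insert i T hi ih =>
          have hfac : ∀ i, (if e a i = 0 then (1 : ℚ) else (u' i : ℚ) / (u i : ℚ)) ^ e a i ≠ 0 := by
            intro i
            by_cases h0 : e a i = 0
            · simp [h0]
            · rw [if_neg h0]
              exact pow_ne_zero _ (div_ne_zero (hne' i h0) (hne i h0))
          rw [Finset.prod_insert hi, Finset.sum_insert hi, padicValRat.mul (hfac i)
            (Finset.prod_ne_zero_iff.2 fun i _ => hfac i), ih]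
          congr 1
          by_cases h0 : e a i = 0
          · simp [h0]
          · rw [if_neg h0, padicValRat.pow]
      exact h5 univ
    rw [h3]
    have h6 : ∏ i, (τ ^ (padicValRat p ((u' i : ℚ) / (u i : ℚ)))) ^ e a i =
        τ ^ (∑ i, (e a i : ℤ) * padicValRat p ((u' i : ℚ) / (u i : ℚ))) := by
      have h7 : ∀ T : Finset (Fin N), ∏ i ∈ T, (τ ^ (padicValRat p ((u' i : ℚ) / (u i : ℚ)))) ^ e a i =
          τ ^ (∑ i ∈ T, (e a i : ℤ) * padicValRat p ((u' i : ℚ) / (u i : ℚ))) := by
        intro T
        induction T using Finset.induction_on with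
        | empty => simp
        | insert i T hi ih =>
          rw [Finset.prod_insert hi, Finset.sum_insert hi, zpow_add₀ hτ, ih, mul_comm (e a i : ℤ),
            zpow_mul, zpow_natCast]
      exact h7 univ
    rw [h6]
    push_cast
    ring

end core

end Pool.Agent.V8H29.PP
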