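import Mathlib
import Pool.Agent.Y902.GN.Cov
import Pool.Agent.V8H29.PP1

/-!
# Points with power coordinates: counting
-/

set_option autoImplicit false

namespace Pool.Agent.V8H29.PP

open Finset

/-- finitely many generators -/
theorem exists_gens {m : ℕ} (FF : Set (Fin m → ℤ)) : ∃ G : Finset (Fin m → ℤ), (G : Set _) ⊆ FF ∧
    G.card ≤ m ∧ ∀ c ∈ FF, (fun a => (c a : ℚ)) ∈
      Submodule.span ℚ ((fun (c : Fin m → ℤ) (a : Fin m) => (c a : ℚ)) '' (G : Set _)) := by
  classical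
  set ι : (Fin m → ℤ) → (Fin m → ℚ) := fun c a => (c a : ℚ) with hι
  obtain ⟨b, hb1, hb2, hb3⟩ := exists_linearIndependent ℚ (ι '' FF)
  have hfin : b.Finite := by
    have : Finite b := hb3.finite
    exact Set.toFinite b
  have hcard : hfin.toFinset.card ≤ m := by
    have i1 : Fintype b := hfin.fintype
    have h1 : Fintype.card b ≤ Module.finrank ℚ (Fin m → ℚ) := hb3.fintype_card_le_finrank
    rw [Module.finrank_fin_fun] at h1
    have h2 : Fintype.card b = hfin.toFinset.card := by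
      rw [← Set.toFinset_card]
      congr 1
      ext x
      simp
    omega
  have hb1' : ∀ v ∈ b, ∃ c, c ∈ FF ∧ ι c = v := fun v hv => hb1 hv
  choose! f hf1 hf2 using hb1'
  refine ⟨hfin.toFinset.image f, ?_, Finset.card_image_le.trans hcard, fun c hc => ?_⟩
  · intro x hx
    simp only [coe_image, Set.Finite.coe_toFinset, Set.mem_image] at hx
    obtain ⟨v, hv, rfl⟩ := hx
    exact hf1 v hv
  · have h1 : ι c ∈ Submodule.span ℚ (ι '' FF) := Submodule.subset_span ⟨c, hc, rfl⟩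
    rw [← hb2] at h1
    refine Submodule.span_mono ?_ h1
    intro v hv
    refine ⟨f v, ?_, hf2 v hv⟩
    simp only [coe_image, Set.Finite.coe_toFinset, Set.mem_image]
    exact ⟨v, hv, rfl⟩

variable {N m : ℕ}

/-- the point `x` lies on a nonconstant orbit of a one-parameter group, contained in the variety -/
def OnOrb (e : Fin m → Fin N → ℕ) (FF : Set (Fin m → ℤ)) (x : Fin N → ℤ) : Prop :=
  ∃ a : Fin N → ℤ, (∃ i j, x i ≠ 0 ∧ x j ≠ 0 ∧ a i ≠ a j) ∧ ∀ τ : ℂ, τ ≠ 0 → ∀ c ∈ FF,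
    ∑ k, (c k : ℂ) * mon e (fun i => (x i : ℂ) * τ ^ a i) k = 0

/-- the points -/
def Bad (e : Fin m → Fin N → ℕ) (E Y r : ℕ) (FF : Set (Fin m → ℤ)) : Set (Fin N → ℤ) :=
  {u | univ.gcd u = 1 ∧ (∀ i, |u i| ≤ (Y : ℤ)) ∧ ∃ s : Fin N → ℤ,
    (∀ i, s i ≠ 0 ∧ |s i| ≤ (Y : ℤ) ^ E) ∧
    (∀ c ∈ FF, ∑ k, c k * mon e (fun i => s i * u i ^ r) k = 0) ∧
    ¬ OnOrb e FF (fun i => s i * u i ^ r)}

theorem abs_mon_le (e : Fin m → Fin N → ℕ) {D : ℕ} (he : ∀ a i, e a i ≤ D) {B : ℤ} (hB : 1 ≤ B)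
    (x : Fin N → ℤ) (hx : ∀ i, |x i| ≤ B) (a : Fin m) : |mon e x a| ≤ B ^ (N * D) := by
  unfold mon
  rw [Finset.abs_prod]
  calc ∏ i, |x i ^ e a i| ≤ ∏ _i : Fin N, B ^ D := by
        refine Finset.prod_le_prod (fun i _ => abs_nonneg _) fun i _ => ?_
        rw [abs_pow]
        calc |x i| ^ e a i ≤ B ^ e a i := pow_le_pow_left₀ (abs_nonneg _) (hx i) _
          _ ≤ B ^ D := pow_le_pow_right₀ hB (he a i)
    _ = B ^ (N * D) := by
        rw [Finset.prod_const, Finset.card_univ, Fintype.card_fin, ← pow_mul, mul_comm]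

theorem mon_ne_zero (e : Fin m → Fin N → ℕ) (x : Fin N → ℤ) (hx : ∀ i, x i ≠ 0) (a : Fin m) :
    mon e x a ≠ 0 := Finset.prod_ne_zero_iff.2 fun i _ => pow_ne_zero _ (hx i)

theorem mon_mul {R : Type} [CommRing R] {A : Type} (e : A → Fin N → ℕ) (x y : Fin N → R) (a : A) :
    mon e (fun i => x i * y i) a = mon e x a * mon e y a := by
  unfold mon
  rw [← Finset.prod_mul_distrib]
  exact Finset.prod_congr rfl fun i _ => mul_pow _ _ _

theorem mon_pow {R : Type} [CommRing R] {A : Type} (e : A → Fin N → ℕ) (x : Fin N → R) (r : ℕ)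
    (a : A) : mon e (fun i => x i ^ r) a = mon e x a ^ r := by
  unfold mon
  rw [← Finset.prod_pow]
  exact Finset.prod_congr rfl fun i _ => by rw [← pow_mul, ← pow_mul, mul_comm]

theorem mon_cast {R : Type} [CommRing R] {A : Type} (e : A → Fin N → ℕ) (x : Fin N → ℤ) (a : A) :
    ((mon e x a : ℤ) : R) = mon e (fun i => (x i : R)) a := by
  unfold mon
  push_cast
  rfl

/-- primitive vectors with proportional absolute values -/
theorem abs_eq_of_cross {u u' : Fin N → ℤ} (h : univ.gcd u = 1) (h' : univ.gcd u' = 1)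
    (hc : ∀ i j, |u' i| * |u j| = |u' j| * |u i|) (i : Fin N) : |u i| = |u' i| := by
  have h1 : (univ.gcd fun j => |u' i| * u j) = |u' i| := by
    rw [Finset.gcd_mul_left, h, mul_one, Int.normalize_of_nonneg (abs_nonneg _)]
  have h2 : (univ.gcd fun j => |u i| * u' j) = |u i| := by
    rw [Finset.gcd_mul_left, h', mul_one, Int.normalize_of_nonneg (abs_nonneg _)]
  rw [← h1, ← h2]
  apply dvd_antisymm_of_normalize_eq Finset.normalize_gcd Finset.normalize_gcd
  · refine Finset.dvd_gcd fun j _ => ?_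
    have h3 : (univ.gcd fun j => |u i| * u' j) ∣ |u i| * u' j := Finset.gcd_dvd (mem_univ j)
    rw [← dvd_abs, abs_mul, abs_abs] at h3 ⊢
    rw [hc i j, mul_comm]
    exact h3
  · refine Finset.dvd_gcd fun j _ => ?_
    have h3 : (univ.gcd fun j => |u' i| * u j) ∣ |u' i| * u j := Finset.gcd_dvd (mem_univ j)
    rw [← dvd_abs, abs_mul, abs_abs] at h3 ⊢
    rw [mul_comm |u i|, ← hc i j]
    exact h3

/-- two points in the same cell -/
theorem same_cell (e : Fin m → Fin N → ℕ) (r : ℕ) (hr : m ≤ r + 1) (hr0 : r ≠ 0)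
    (FF : Set (Fin m → ℤ)) (G : Finset (Fin m → ℤ))
    (hG : ∀ c ∈ FF, (fun a => (c a : ℚ)) ∈
      Submodule.span ℚ ((fun (c : Fin m → ℤ) (a : Fin m) => (c a : ℚ)) '' (G : Set _)))
    (s u u' : Fin N → ℤ) (hs : ∀ i, s i ≠ 0) (h : univ.gcd u = 1) (h' : univ.gcd u' = 1)
    (hsign : ∀ i, SignType.sign (u i) = SignType.sign (u' i))
    (hV : ∀ c ∈ G, ∃ V : Submodule ℚ (Fin m → ℚ), (fun a => mon e (fun i => (u i : ℚ)) a) ∈ V ∧
      (fun a => mon e (fun i => (u' i : ℚ)) a) ∈ V ∧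
      ∀ z ∈ V, ∑ a, (c a : ℚ) * (mon e (fun i => (s i : ℚ)) a * z a ^ r) = 0)
    (hno : ¬ OnOrb e FF (fun i => s i * u i ^ r)) : u = u' := by
  classical
  have hsupp : ∀ i, u i = 0 ↔ u' i = 0 := by
    intro i
    rw [← sign_eq_zero_iff, hsign, sign_eq_zero_iff]
  have habs : ∀ i, |u i| = |u' i| := by
    apply abs_eq_of_cross h h'
    by_contra hcon
    push Not at hcon
    obtain ⟨i, j, hij⟩ := hcon
    have hi : u i ≠ 0 := by
      intro h0
      apply hij
      rw [h0, (hsupp i).1 h0]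
      simp
    have hj : u j ≠ 0 := by
      intro h0
      apply hij
      rw [h0, (hsupp j).1 h0]
      simp
    have hi' : u' i ≠ 0 := fun h0 => hi ((hsupp i).2 h0)
    have hj' : u' j ≠ 0 := fun h0 => hj ((hsupp j).2 h0)
    have hiQ : (u i : ℚ) ≠ 0 := by exact_mod_cast hi
    have hjQ : (u j : ℚ) ≠ 0 := by exact_mod_cast hj
    have hiQ' : (u' i : ℚ) ≠ 0 := by exact_mod_cast hi'
    have hjQ' : (u' j : ℚ) ≠ 0 := by exact_mod_cast hj'
    obtain ⟨p, hp, hpv⟩ := exists_val_ne (x := (u' i : ℚ) / (u i : ℚ)) (y := (u' j : ℚ) / (u j : ℚ))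
      (div_ne_zero hiQ' hiQ) (div_ne_zero hjQ' hjQ) (by
        rw [abs_div, abs_div]
        intro h0
        rw [div_eq_div_iff (abs_ne_zero.2 hiQ) (abs_ne_zero.2 hjQ)] at h0
        exact hij (by exact_mod_cast h0))
    apply hno
    refine ⟨fun i => padicValRat p ((u' i : ℚ) / (u i : ℚ)), ⟨i, j, ?_, ?_, hpv⟩, ?_⟩
    · exact mul_ne_zero (hs i) (pow_ne_zero _ hi)
    · exact mul_ne_zero (hs j) (pow_ne_zero _ hj)
    · intro τ hτ c hc
      set w : Fin m → ℂ := fun k => mon e (fun i => (((s i * u i ^ r : ℤ)) : ℂ) *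
        τ ^ (padicValRat p ((u' i : ℚ) / (u i : ℚ)))) k with hw
      have hGz : ∀ c ∈ G, ∑ k, (((c k : ℤ) : ℚ) : ℂ) * w k = 0 := by
        intro c hc
        obtain ⟨V, hV1, hV2, hV3⟩ := hV c hc
        have h1 := orbit e r (by rw [Fintype.card_fin]; exact hr) hr0 (fun a => (c a : ℚ)) s u u'
          hsupp V hV1 hV2 hV3 p hp τ hτ
        rw [← h1]
        refine Finset.sum_congr rfl fun k _ => ?_
        congr 1
        rw [hw]
        simp only
        congr 1
        funext i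
        push_cast
        ring
      let φ : (Fin m → ℚ) →ₗ[ℚ] ℂ :=
        { toFun := fun v => ∑ k, ((v k : ℚ) : ℂ) * w k
          map_add' := fun v v' => by
            rw [← Finset.sum_add_distrib]
            refine Finset.sum_congr rfl fun k _ => ?_
            simp only [Pi.add_apply]
            push_cast
            ring
          map_smul' := fun q v => by
            simp only [Pi.smul_apply, smul_eq_mul, RingHom.id_apply]
            rw [Rat.smul_def, Finset.mul_sum]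
            refine Finset.sum_congr rfl fun k _ => ?_
            push_cast
            ring }
      have h2 : ∀ v ∈ Submodule.span ℚ
          ((fun (c : Fin m → ℤ) (a : Fin m) => (c a : ℚ)) '' (G : Set _)), φ v = 0 := by
        intro v hv
        have h3 : Submodule.span ℚ
            ((fun (c : Fin m → ℤ) (a : Fin m) => (c a : ℚ)) '' (G : Set _)) ≤ LinearMap.ker φ := by
          rw [Submodule.span_le]
          rintro _ ⟨c, hc, rfl⟩
          exact hGz c hc
        exact h3 hv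
      have h4 := h2 _ (hG c hc)
      rw [← h4]
      show _ = ∑ k, ((((c k : ℤ) : ℚ)) : ℂ) * w k
      refine Finset.sum_congr rfl fun k _ => ?_
      congr 1
  funext i
  have h1 := habs i
  have h2 := hsign i
  rcases lt_trichotomy (u i) 0 with h3 | h3 | h3
  · have h4 : u' i < 0 := by
      rw [sign_neg h3] at h2
      exact sign_eq_neg_one_iff.1 h2.symm
    rw [abs_of_neg h3, abs_of_neg h4] at h1
    omega
  · rw [h3, (hsupp i).1 h3]
  · have h4 : 0 < u' i := by
      rw [sign_pos h3] at h2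
      exact sign_eq_one_iff.1 h2.symm
    rw [abs_of_pos h3, abs_of_pos h4] at h1
    exact h1

open Pool.Agent.Y902.GN in
/-- **The count.** -/
theorem main (e : Fin m → Fin N → ℕ) (D E : ℕ) (he : ∀ a i, e a i ≤ D) (ε : ℝ) (hε : 0 < ε) :
    ∃ (R : ℕ) (δ : ℝ), 0 < δ ∧ ∀ (Y r : ℕ) (FF : Set (Fin m → ℤ)), 1 ≤ Y → R ≤ r →
      (r : ℝ) ≤ (Y : ℝ) ^ δ → (∀ c ∈ FF, ∀ a, ((|c a| : ℤ) : ℝ) ≤ Real.exp ((Y : ℝ) ^ δ)) →
      (Bad e E Y r FF).Finite ∧ ((Bad e E Y r FF).ncard : ℝ) ≤ (Y : ℝ) ^ ε := by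
  classical
  obtain ⟨K, hK⟩ : ∃ K : ℕ, K = N * D + 1 := ⟨_, rfl⟩
  have hK1 : (1 : ℝ) ≤ K := by
    rw [hK]
    push_cast
    have : (0 : ℝ) ≤ (N : ℝ) * D := by positivity
    linarith
  set ε' : ℝ := ε / (2 * ((m : ℝ) + 1) * K) with hε'
  have hε'0 : 0 < ε' := by positivity
  obtain ⟨R, δ, hδ, H⟩ := cov m m E ε' hε'0
  set δ₁ : ℝ := min δ 1 with hδ₁
  have hδ₁0 : 0 < δ₁ := lt_min hδ one_pos
  set Y0 : ℕ := ⌈((3 : ℝ) ^ N) ^ (2 / ε)⌉₊ with hY0
  refine ⟨R + m + Y0 + 1, δ₁, hδ₁0, fun Y r FF hY hr hrY hFF => ?_⟩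
  have hY1 : (1 : ℝ) ≤ Y := by exact_mod_cast hY
  have hrYY : (r : ℝ) ≤ Y := by
    refine hrY.trans ?_
    calc (Y : ℝ) ^ δ₁ ≤ (Y : ℝ) ^ (1 : ℝ) := Real.rpow_le_rpow_of_exponent_le hY1 (min_le_right _ _)
      _ = Y := Real.rpow_one _
  have hY0Y : (Y0 : ℝ) ≤ Y := by
    refine le_trans ?_ hrYY
    exact_mod_cast (by omega : Y0 ≤ r)
  have h3N : ((3 : ℝ) ^ N) ≤ (Y : ℝ) ^ (ε / 2) := by
    have h1 : ((3 : ℝ) ^ N) ^ (2 / ε) ≤ Y := (Nat.le_ceil _).trans hY0Y
    calc ((3 : ℝ) ^ N) = (((3 : ℝ) ^ N) ^ (2 / ε)) ^ (ε / 2) := by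
          rw [← Real.rpow_mul (by positivity)]
          have : 2 / ε * (ε / 2) = 1 := by field_simp
          rw [this, Real.rpow_one]
      _ ≤ (Y : ℝ) ^ (ε / 2) := Real.rpow_le_rpow (by positivity) h1 (by positivity)
  -- the large parameter
  have hYK1 : 1 ≤ Y ^ K := Nat.one_le_pow _ _ hY
  have hYδ : (Y : ℝ) ^ δ₁ ≤ ((Y ^ K : ℕ) : ℝ) ^ δ := by
    push_cast
    rw [← Real.rpow_natCast, ← Real.rpow_mul (by positivity)]
    refine Real.rpow_le_rpow_of_exponent_le hY1 ?_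
    calc δ₁ ≤ δ := min_le_left _ _
      _ = 1 * δ := (one_mul _).symm
      _ ≤ K * δ := by gcongr
  have hcov := fun c : Fin m → ℤ => fun hc : ∀ a, ((|c a| : ℤ) : ℝ) ≤ Real.exp ((Y : ℝ) ^ δ₁) =>
    H (Y ^ K) hYK1 r (by omega) (hrY.trans hYδ) c
      (fun i => (hc i).trans (Real.exp_le_exp.2 hYδ)) (fun i j => if i = j then 1 else 0)
      (fun i j => by
        have h1 : (1 : ℤ) ≤ ((Y ^ K : ℕ) : ℤ) ^ E := one_le_pow₀ (by exact_mod_cast hYK1)
        split_ifs
        · simpa using h1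
        · simp only [abs_zero]
          linarith)
  choose! L hL1 hL2 using hcov
  obtain ⟨G, hG1, hG2, hG3⟩ := exists_gens FF
  have hbad : ∀ u ∈ Bad e E Y r FF, ∃ s : Fin N → ℤ, (∀ i, s i ≠ 0) ∧
      ¬ OnOrb e FF (fun i => s i * u i ^ r) ∧ ∀ c ∈ G, ∃ V ∈ L c,
      (fun a => mon e (fun i => (u i : ℚ)) a) ∈ V ∧
      ∀ z ∈ V, ∑ a, (c a : ℚ) * (mon e (fun i => (s i : ℚ)) a * z a ^ r) = 0 := by
    rintro u ⟨hu1, hu2, s, hs, hz, hno⟩
    refine ⟨s, fun i => (hs i).1, hno, fun c hc => ?_⟩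
    have hYZ : (1 : ℤ) ≤ (Y : ℤ) := by exact_mod_cast hY
    obtain ⟨V, hV, hV1, hV2⟩ := hL2 c (hFF c (hG1 hc)) (fun a => mon e u a) (fun a => mon e s a)
      (fun a => (abs_mon_le e he hYZ u hu2 a).trans (by
        push_cast
        exact pow_le_pow_right₀ hYZ (by omega)))
      (fun a => ⟨mon_ne_zero e s (fun i => (hs i).1) a,
        (abs_mon_le e he (one_le_pow₀ hYZ) s (fun i => (hs i).2) a).trans (by
          push_cast
          rw [← pow_mul, ← pow_mul]
          refine pow_le_pow_right₀ hYZ ?_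
          rw [hK, mul_comm]
          exact Nat.mul_le_mul_right _ (by omega))⟩)
      (by
        unfold spF lin
        refine Eq.trans ?_ (hz c (hG1 hc))
        refine Finset.sum_congr rfl fun a _ => ?_
        rw [mon_mul, mon_pow]
        congr 3
        simp)
    refine ⟨V, hV, ?_, fun z hzV => ?_⟩
    · have h1 : (fun a => mon e (fun i => (u i : ℚ)) a) = fun a => ((mon e u a : ℤ) : ℚ) := by
        funext a
        rw [mon_cast]
      rw [h1]
      exact hV1
    · have h1 := hV2 z hzV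
      unfold spFQ linQ at h1
      rw [← h1]
      refine Finset.sum_congr rfl fun a _ => ?_
      rw [mon_cast]
      congr 3
      simp
  choose! ss hs1 hs2 hs3 using hbad
  choose! VV hVV1 hVV2 hVV3 using hs3
  have hfin : (Bad e E Y r FF).Finite := by
    refine Set.Finite.subset (Set.Finite.pi' (ι := Fin N) (t := fun _ => Set.Icc (-(Y : ℤ)) Y)
      fun i => Set.finite_Icc _ _) ?_
    rintro u ⟨-, hu, -⟩ i
    exact abs_le.1 (hu i)
  refine ⟨hfin, ?_⟩
  rw [Set.ncard_eq_toFinset_card _ hfin]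
  set P : Finset ((G → Submodule ℚ (Fin m → ℚ)) × (Fin N → SignType)) :=
    (Fintype.piFinset fun c : G => L c.1) ×ˢ univ with hP
  have hcard : hfin.toFinset.card ≤ P.card := by
    refine Finset.card_le_card_of_injOn
      (fun u => ((fun c : G => VV u c.1), fun i => SignType.sign (u i))) ?_ ?_
    · intro u hu
      have hu' : u ∈ Bad e E Y r FF := by simpa using hu
      simp only [hP, Finset.coe_product, Set.mem_prod, Finset.mem_coe, Fintype.mem_piFinset,
        Finset.mem_univ, and_true]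
      exact fun c => hVV1 u hu' c.1 c.2
    · intro u hu u' hu' huu
      have h1 : u ∈ Bad e E Y r FF := by simpa using hu
      have h1' : u' ∈ Bad e E Y r FF := by simpa using hu'
      rw [Prod.mk.injEq] at huu
      refine same_cell e r (by omega) (by omega) FF G hG3 (ss u) u u' (hs1 u h1) h1.1 h1'.1
        (fun i => congrFun huu.2 i) (fun c hc => ⟨VV u c, hVV2 u h1 c hc, ?_, hVV3 u h1 c hc⟩)
        (hs2 u h1)
      have h2 : VV u c = VV u' c := congrFun huu.1 ⟨c, hc⟩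
      rw [h2]
      exact hVV2 u' h1' c hc
  have hPc : (P.card : ℝ) ≤ (Y : ℝ) ^ (ε / 2) * (3 : ℝ) ^ N := by
    rw [hP, Finset.card_product, Fintype.card_piFinset]
    have h3 : (univ : Finset (Fin N → SignType)).card = 3 ^ N := by
      rw [Finset.card_univ, Fintype.card_pi, Finset.prod_const, Finset.card_univ, Fintype.card_fin]
      rfl
    rw [h3]
    push_cast
    refine mul_le_mul_of_nonneg_right ?_ (by positivity)
    have hb1 : (1 : ℝ) ≤ (((Y ^ K : ℕ) : ℝ) ^ ε') :=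
      Real.one_le_rpow (by exact_mod_cast hYK1) hε'0.le
    calc (∏ c : G, ((L c.1).card : ℝ)) ≤ ∏ _c : G, (((Y ^ K : ℕ) : ℝ) ^ ε') := by
          refine Finset.prod_le_prod (fun c _ => by positivity) fun c _ => ?_
          exact hL1 c.1 (hFF c.1 (hG1 c.2))
      _ = (((Y ^ K : ℕ) : ℝ) ^ ε') ^ G.card := by
          rw [Finset.prod_const, Finset.card_univ, Fintype.card_coe]
      _ ≤ (((Y ^ K : ℕ) : ℝ) ^ ε') ^ (m + 1) := pow_le_pow_right₀ hb1 (by omega)
      _ = (Y : ℝ) ^ (ε / 2) := by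
          push_cast
          rw [← Real.rpow_natCast, ← Real.rpow_natCast, ← Real.rpow_mul (by positivity),
            ← Real.rpow_mul (by positivity)]
          congr 1
          rw [hε']
          push_cast
          field_simp
  calc ((hfin.toFinset.card : ℕ) : ℝ) ≤ P.card := by exact_mod_cast hcard
    _ ≤ (Y : ℝ) ^ (ε / 2) * (3 : ℝ) ^ N := hPc
    _ ≤ (Y : ℝ) ^ (ε / 2) * (Y : ℝ) ^ (ε / 2) := by gcongr
    _ = (Y : ℝ) ^ ε := by
        rw [← Real.rpow_add (by linarith)]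
        congr 1
        ring

end Pool.Agent.V8H29.PP
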