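import Mathlib
import Pool.Agent.V8H29.GE1
import Pool.Agent.V8H29.PP2

/-!
# Rational points on `∑ Q_t(y) (y_0 + t y_1 + ⋯ + t^N y_N)^D = 0`
-/

set_option autoImplicit false

namespace Pool.Agent.V8H29.GE

open Finset
open MvPolynomial (C X eval IsHomogeneous)
open Pool.Agent.Y902.GN (Pat covk CovSol ratios spF)

/-- the coefficients of the linear forms -/
def vh (N L : ℕ) : Fin L → Fin (N + 1) → ℤ := fun t j => ((t : ℕ) : ℤ) ^ (j : ℕ)

variable {N L : ℕ}

theorem lin_eval (t : Fin L) (y : Fin (N + 1) → ℤ) :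
    eval (fun j => (y j : ℚ)) (Pool.Agent.N254.SQ.lin ℚ N (t : ℕ)) =
      ((Pool.Agent.Y902.GN.lin (vh N L t) y : ℤ) : ℚ) := by
  unfold Pool.Agent.N254.SQ.lin Pool.Agent.Y902.GN.lin vh
  rw [map_sum]
  push_cast
  refine sum_congr rfl fun j _ => ?_
  rw [map_mul, MvPolynomial.eval_C, MvPolynomial.eval_X]

/-- the linear forms are in general position -/
theorem vand (B : Finset (Fin L)) (hB : N + 1 ≤ B.card) (z : Fin (N + 1) → ℚ)
    (hz : ∀ t ∈ B, ∑ j : Fin (N + 1), ((t : ℕ) : ℚ) ^ (j : ℕ) * z j = 0) : z = 0 := by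
  classical
  obtain ⟨B', hB', hc⟩ := exists_subset_card_eq hB
  let f : Fin (N + 1) ≃ B' := (B'.equivFinOfCardEq hc).symm
  refine Matrix.eq_zero_of_forall_index_sum_pow_mul_eq_zero
    (f := fun i => (((f i : Fin L) : ℕ) : ℚ)) ?_ fun i => hz _ (hB' (f i).2)
  intro a b hab
  simp only [Nat.cast_inj] at hab
  exact f.injective (Subtype.ext (Fin.ext hab))

/-- a large block determines the point -/
theorem determined (B : Finset (Fin L)) (hB : N + 1 ≤ B.card) (y y' : Fin (N + 1) → ℤ)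
    (hne : ∀ t ∈ B, Pool.Agent.Y902.GN.lin (vh N L t) y ≠ 0)
    (hne' : ∀ t ∈ B, Pool.Agent.Y902.GN.lin (vh N L t) y' ≠ 0)
    (h : ∀ t ∈ B, ∀ t' ∈ B, (Pool.Agent.Y902.GN.lin (vh N L t) y : ℚ) /
      Pool.Agent.Y902.GN.lin (vh N L t') y = (Pool.Agent.Y902.GN.lin (vh N L t) y' : ℚ) /
      Pool.Agent.Y902.GN.lin (vh N L t') y') (i j : Fin (N + 1)) : y' i * y j = y' j * y i := by
  classical
  obtain ⟨t₀, ht₀⟩ : B.Nonempty := card_pos.1 (by omega)
  set a : ℚ := ((Pool.Agent.Y902.GN.lin (vh N L t₀) y : ℤ) : ℚ) with ha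
  set b : ℚ := ((Pool.Agent.Y902.GN.lin (vh N L t₀) y' : ℤ) : ℚ) with hb
  have ha0 : a ≠ 0 := by
    rw [ha]
    exact_mod_cast hne t₀ ht₀
  have hb0 : b ≠ 0 := by
    rw [hb]
    exact_mod_cast hne' t₀ ht₀
  have hz : (fun j => a * (y' j : ℚ) - b * (y j : ℚ)) = 0 := by
    refine vand (L := L) B hB _ fun t ht => ?_
    have h1 := h t ht t₀ ht₀
    rw [← ha, ← hb, div_eq_div_iff ha0 hb0] at h1
    have e1 : ∀ w : Fin (N + 1) → ℤ, (Pool.Agent.Y902.GN.lin (vh N L t) w : ℚ) =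
        ∑ j : Fin (N + 1), ((t : ℕ) : ℚ) ^ (j : ℕ) * (w j : ℚ) := by
      intro w
      unfold Pool.Agent.Y902.GN.lin vh
      push_cast
      rfl
    rw [e1, e1] at h1
    have e2 : ∑ j : Fin (N + 1), ((t : ℕ) : ℚ) ^ (j : ℕ) * (a * (y' j : ℚ) - b * (y j : ℚ)) =
        a * (∑ j : Fin (N + 1), ((t : ℕ) : ℚ) ^ (j : ℕ) * (y' j : ℚ)) -
        b * ∑ j : Fin (N + 1), ((t : ℕ) : ℚ) ^ (j : ℕ) * (y j : ℚ) := by
      rw [mul_sum, mul_sum, ← sum_sub_distrib]
      exact sum_congr rfl fun j _ => by ring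
    rw [e2]
    linear_combination -h1
  have hi := congrFun hz i
  have hj := congrFun hz j
  simp only [Pi.zero_apply] at hi hj
  have h2 : (a : ℚ) * ((y' i : ℚ) * y j - y' j * y i) = 0 := by
    linear_combination (y j : ℚ) * hi - (y i : ℚ) * hj
  have h3 := (mul_eq_zero.1 h2).resolve_left ha0
  have h4 : ((y' i : ℚ) * y j) = (y' j * y i : ℚ) := by linarith
  exact_mod_cast h4

/-- proportional primitive vectors -/
theorem prim_prop {u u' : Fin (N + 1) → ℤ} (h : univ.gcd u = 1) (h' : univ.gcd u' = 1)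
    (hc : ∀ i j, u' i * u j = u' j * u i) : u' = u ∨ u' = -u := by
  have h1 := Pool.Agent.V8H29.PP.abs_eq_of_cross h h' (fun i j => by
    rw [← abs_mul, ← abs_mul, hc i j])
  obtain ⟨j, hj⟩ : ∃ j, u j ≠ 0 := by
    by_contra hcon
    push Not at hcon
    have : univ.gcd u = 0 := Finset.gcd_eq_zero_iff.2 fun i _ => hcon i
    rw [this] at h
    exact zero_ne_one h
  rcases abs_eq_abs.1 (h1 j).symm with h2 | h2
  · left
    funext i
    have := hc i j
    rw [h2, mul_comm (u j)] at this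
    exact mul_right_cancel₀ hj this
  · right
    funext i
    have h3 := hc i j
    rw [h2] at h3
    have h4 : u' i * u j = (-u) i * u j := by
      rw [h3, Pi.neg_apply]
      ring
    exact mul_right_cancel₀ hj h4

/-- a bound for the values of forms -/
theorem abs_eval_le {F : MvPolynomial (Fin (N + 1)) ℚ} {e : ℕ} (hF : F.IsHomogeneous e)
    {B : ℕ} (y : Fin (N + 1) → ℤ) (hy : ∀ j, |y j| ≤ (B : ℤ)) :
    |eval (fun j => (y j : ℚ)) F| ≤ (∑ α ∈ F.support, |F.coeff α|) * (B : ℚ) ^ e := by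
  rw [MvPolynomial.eval_eq', sum_mul]
  refine (abs_sum_le_sum_abs _ _).trans (sum_le_sum fun α hα => ?_)
  rw [abs_mul]
  refine mul_le_mul_of_nonneg_left ?_ (abs_nonneg _)
  rw [abs_prod]
  have h1 : ∑ j, α j = e := by
    have h2 := hF (MvPolynomial.mem_support_iff.1 hα)
    rw [Finsupp.weight_apply, Finsupp.sum_fintype _ _ (fun _ => by simp)] at h2
    simpa using h2
  calc ∏ j, |(y j : ℚ) ^ α j| ≤ ∏ j, (B : ℚ) ^ α j := by
        refine prod_le_prod (fun j _ => abs_nonneg _) fun j _ => ?_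
        rw [abs_pow]
        refine pow_le_pow_left₀ (abs_nonneg _) ?_ _
        exact_mod_cast hy j
    _ = (B : ℚ) ^ e := by rw [prod_pow_eq_pow_sum, h1]

/-- clearing denominators -/
theorem clear_one {σ : Type} (Q : MvPolynomial σ ℚ) : ∃ (q : ℕ) (Q' : MvPolynomial σ ℤ), q ≠ 0 ∧
    MvPolynomial.map (Int.castRingHom ℚ) Q' = C (q : ℚ) * Q := by
  induction Q using MvPolynomial.induction_on with
  | C a =>
    refine ⟨a.den, C a.num, a.den_nz, ?_⟩
    rw [MvPolynomial.map_C, ← MvPolynomial.C_mul]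
    congr 1
    rw [mul_comm]
    exact (Rat.mul_den_eq_num a).symm
  | add p q hp hq =>
    obtain ⟨a, p', ha, hp'⟩ := hp
    obtain ⟨b, q', hb, hq'⟩ := hq
    refine ⟨a * b, C (b : ℤ) * p' + C (a : ℤ) * q', mul_ne_zero ha hb, ?_⟩
    rw [map_add, map_mul, map_mul, hp', hq', MvPolynomial.map_C, MvPolynomial.map_C]
    push_cast
    simp only [eq_intCast, Int.cast_natCast, MvPolynomial.C_mul]
    ring
  | mul_X p i hp =>
    obtain ⟨a, p', ha, hp'⟩ := hp
    refine ⟨a, p' * X i, ha, ?_⟩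
    rw [map_mul, hp', MvPolynomial.map_X]
    ring

theorem clear {σ : Type} (Q : Fin L → MvPolynomial σ ℚ) :
    ∃ (q : ℕ) (Q' : Fin L → MvPolynomial σ ℤ), q ≠ 0 ∧
    ∀ t, MvPolynomial.map (Int.castRingHom ℚ) (Q' t) = C (q : ℚ) * Q t := by
  classical
  choose q Q' hq hQ' using fun t => clear_one (Q t)
  refine ⟨∏ t, q t, fun t => C ((∏ t' ∈ univ.erase t, q t' : ℕ) : ℤ) * Q' t,
    prod_ne_zero_iff.2 fun t _ => hq t, fun t => ?_⟩
  rw [map_mul, hQ' t, MvPolynomial.map_C, ← mul_assoc, ← MvPolynomial.C_mul]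
  congr 2
  rw [← prod_erase_mul univ q (mem_univ t)]
  push_cast
  simp

end Pool.Agent.V8H29.GE
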