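import Mathlib
import Pool.Agent.V8H29.GE2

/-!
# Counting the rational points without many vanishing partial sums
-/

set_option autoImplicit false

namespace Pool.Agent.V8H29.GE

open Finset
open MvPolynomial (C X eval IsHomogeneous)
open Pool.Agent.Y902.GN (Pat covk CovSol ratios spF)

variable {N L : ℕ}

/-- `2 N + 1` disjoint partial sums vanish at `y` -/
def Blk (D : ℕ) (Q : Fin L → MvPolynomial (Fin (N + 1)) ℚ) (y : Fin (N + 1) → ℚ) : Prop :=
  ∃ 𝓑 : Finset (Finset (Fin L)), (∀ B ∈ 𝓑, B.Nonempty) ∧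
    (∀ B ∈ 𝓑, ∀ B' ∈ 𝓑, B ≠ B' → Disjoint B B') ∧ 2 * N + 1 ≤ 𝓑.card ∧
    ∀ B ∈ 𝓑, ∑ t ∈ B, eval y (Q t) * eval y (Pool.Agent.N254.SQ.lin ℚ N (t : ℕ)) ^ D = 0

/-- the other primitive solutions -/
def Exc (D B : ℕ) (Q : Fin L → MvPolynomial (Fin (N + 1)) ℚ) : Set (Fin (N + 1) → ℤ) :=
  {y | univ.gcd y = 1 ∧ (∀ j, |y j| ≤ (B : ℤ)) ∧
    eval (fun j => (y j : ℚ)) (Pool.Agent.N254.SQ.powerSum D Q) = 0 ∧
    ¬ Blk D Q fun j => (y j : ℚ)}

theorem box_finite (B : ℕ) : {y : Fin (N + 1) → ℤ | ∀ j, |y j| ≤ (B : ℤ)}.Finite ∧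
    {y : Fin (N + 1) → ℤ | ∀ j, |y j| ≤ (B : ℤ)}.ncard = (2 * B + 1) ^ (N + 1) := by
  classical
  have h : {y : Fin (N + 1) → ℤ | ∀ j, |y j| ≤ (B : ℤ)} =
      (Fintype.piFinset fun _ : Fin (N + 1) => Icc (-(B : ℤ)) B : Finset (Fin (N + 1) → ℤ)) := by
    ext y
    simp [abs_le, Pi.le_def, forall_and]
  rw [h]
  refine ⟨finite_toSet _, ?_⟩
  rw [Set.ncard_coe_finset, Fintype.card_piFinset]
  simp only [Int.card_Icc, prod_const, card_univ, Fintype.card_fin]
  congr 1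
  omega

theorem eval_cast (Q' : MvPolynomial (Fin (N + 1)) ℤ) (y : Fin (N + 1) → ℤ) :
    ((eval y Q' : ℤ) : ℚ) =
      eval (fun j => (y j : ℚ)) (MvPolynomial.map (Int.castRingHom ℚ) Q') := by
  rw [MvPolynomial.eval_map]
  exact MvPolynomial.eval₂_comp (f := Int.castRingHom ℚ) (g := y) Q'

/-- a point without many vanishing partial sums has a large block -/
theorem large_block (hN : 1 ≤ N) (hL : L = N * (2 * N + 1)) (D : ℕ)
    (Q : Fin L → MvPolynomial (Fin (N + 1)) ℚ) (Q' : Fin L → MvPolynomial (Fin (N + 1)) ℤ) (q : ℕ)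
    (hq : q ≠ 0) (hQ : ∀ t, MvPolynomial.map (Int.castRingHom ℚ) (Q' t) = C (q : ℚ) * Q t)
    (y : Fin (N + 1) → ℤ) (s u : Fin L → ℤ)
    (hsu : ∀ t, u t * s t = eval y (Q' t)) (P : Finset (Finset (Fin L)))
    (hP : Pat u (vh N L) D s y P) (hnb : ¬ Blk D Q fun j => (y j : ℚ)) :
    ∃ B ∈ P, N + 1 ≤ B.card := by
  classical
  by_contra hcon
  push Not at hcon
  apply hnb
  have hq' : (q : ℚ) ≠ 0 := by exact_mod_cast hq
  have hterm : ∀ t, ((u t * (s t * Pool.Agent.Y902.GN.lin (vh N L t) y ^ D) : ℤ) : ℚ) =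
      q * (eval (fun j => (y j : ℚ)) (Q t) *
        eval (fun j => (y j : ℚ)) (Pool.Agent.N254.SQ.lin ℚ N (t : ℕ)) ^ D) := by
    intro t
    rw [lin_eval, ← mul_assoc, hsu t, ← mul_assoc]
    push_cast
    rw [eval_cast, hQ t, map_mul, MvPolynomial.eval_C]
  set Z : Finset (Fin L) := univ \ P.biUnion id with hZ
  set 𝓑 : Finset (Finset (Fin L)) := P ∪ Z.image (fun t => {t}) with h𝓑
  have hPZ : ∀ B ∈ P, ∀ t ∈ Z, Disjoint B {t} := by
    intro B hB t ht
    rw [disjoint_singleton_right]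
    intro h
    exact (mem_sdiff.1 ht).2 (mem_biUnion.2 ⟨B, hB, h⟩)
  refine ⟨𝓑, fun B hB => ?_, fun B hB B' hB' hne => ?_, ?_, fun B hB => ?_⟩
  · rcases mem_union.1 hB with h | h
    · exact (hP.blk B h).1
    · obtain ⟨t, -, rfl⟩ := mem_image.1 h
      exact singleton_nonempty t
  · rcases mem_union.1 hB with h | h
    · rcases mem_union.1 hB' with h' | h'
      · exact hP.dis h h' hne
      · obtain ⟨t, ht, rfl⟩ := mem_image.1 h'
        exact hPZ B h t ht
    · obtain ⟨t, ht, rfl⟩ := mem_image.1 h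
      rcases mem_union.1 hB' with h' | h'
      · exact (hPZ B' h' t ht).symm
      · obtain ⟨t', ht', rfl⟩ := mem_image.1 h'
        rw [disjoint_singleton]
        intro h3
        exact hne (by rw [h3])
  · have hcov : (univ : Finset (Fin L)) ⊆ 𝓑.biUnion id := by
      intro t _
      by_cases ht : t ∈ P.biUnion id
      · obtain ⟨B, hB, hBt⟩ := mem_biUnion.1 ht
        exact mem_biUnion.2 ⟨B, mem_union_left _ hB, hBt⟩
      · refine mem_biUnion.2 ⟨{t}, mem_union_right _ (mem_image_of_mem _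
          (mem_sdiff.2 ⟨mem_univ _, ht⟩)), mem_singleton_self t⟩
    have h1 := card_le_card hcov
    have h2 : (𝓑.biUnion id).card ≤ 𝓑.card * N := by
      refine card_biUnion_le_card_mul _ _ _ fun B hB => ?_
      rcases mem_union.1 hB with h | h
      · have := hcon B h
        simp only [id]
        omega
      · obtain ⟨t, -, rfl⟩ := mem_image.1 h
        simpa using hN
    rw [card_univ, Fintype.card_fin] at h1
    have h3 : N * (2 * N + 1) ≤ N * 𝓑.card := by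
      rw [← hL, mul_comm N]
      exact h1.trans h2
    exact Nat.le_of_mul_le_mul_left h3 hN
  · apply (mul_eq_zero.1 (?_ : (q : ℚ) * _ = 0)).resolve_left hq'
    rw [mul_sum]
    rcases mem_union.1 hB with h | h
    · have h1 := (hP.blk B h).2.1
      have h2 := congrArg (Int.cast : ℤ → ℚ) h1
      rw [Int.cast_sum, Int.cast_zero] at h2
      rw [← h2]
      exact sum_congr rfl fun t _ => (hterm t).symm
    · obtain ⟨t, ht, rfl⟩ := mem_image.1 h
      rw [sum_singleton, ← hterm t]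
      have h1 : ¬ t ∈ P.biUnion id := (mem_sdiff.1 ht).2
      rw [hP.un t, not_not] at h1
      rw [h1, Int.cast_zero]

/-- **Few points without many vanishing partial sums.** -/
theorem count (N : ℕ) (hN : 1 ≤ N) (ε : ℝ) (hε : 0 < ε) : ∃ R : ℕ, ∀ D, R ≤ D →
    ∀ Q : Fin (N * (2 * N + 1)) → MvPolynomial (Fin (N + 1)) ℚ, (∀ t, (Q t).IsHomogeneous 2) →
      ∃ C : ℝ, ∀ B : ℕ, 1 ≤ B → (Exc D B Q).Finite ∧
        ((Exc D B Q).ncard : ℝ) ≤ C * (B : ℝ) ^ ε := by
  classical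
  obtain ⟨L, hL⟩ : ∃ L, L = N * (2 * N + 1) := ⟨_, rfl⟩
  rw [← hL]
  obtain ⟨R, δ, hδ, H⟩ := covk (N + 1) L 3 ε hε
  refine ⟨max R 1, fun D hD Q hQ => ?_⟩
  have hRD : R ≤ D := (le_max_left _ _).trans hD
  have hD1 : 1 ≤ D := (le_max_right _ _).trans hD
  obtain ⟨q, Q', hq, hQ'⟩ := clear Q
  set c0 : ℚ := q * ∑ t, ∑ α ∈ (Q t).support, |(Q t).coeff α| with hc0
  obtain ⟨Y₀, hY1, hY2, hY3, hY4⟩ : ∃ Y₀ : ℕ, 1 ≤ Y₀ ∧ c0 ≤ Y₀ ∧ L ^ N ≤ Y₀ ∧
      (D : ℝ) ≤ (Y₀ : ℝ) ^ δ := by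
    refine ⟨max (max 1 ⌈c0⌉₊) (max (L ^ N) ⌈(D : ℝ) ^ (1 / δ)⌉₊), ?_, ?_, ?_, ?_⟩
    · exact (le_max_left _ _).trans (le_max_left _ _)
    · refine (Nat.le_ceil c0).trans ?_
      exact_mod_cast (le_max_right _ _).trans (le_max_left _ _)
    · exact (le_max_left _ _).trans (le_max_right _ _)
    · have h1 : (D : ℝ) ^ (1 / δ) ≤
          ((max (max 1 ⌈c0⌉₊) (max (L ^ N) ⌈(D : ℝ) ^ (1 / δ)⌉₊) : ℕ) : ℝ) := by
        refine (Nat.le_ceil _).trans ?_
        exact_mod_cast (le_max_right _ _).trans (le_max_right _ _)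
      calc (D : ℝ) = ((D : ℝ) ^ (1 / δ)) ^ δ := by
            rw [← Real.rpow_mul (Nat.cast_nonneg D), one_div_mul_cancel hδ.ne', Real.rpow_one]
        _ ≤ _ := Real.rpow_le_rpow (by positivity) h1 hδ.le
  refine ⟨((2 * Y₀ + 1 : ℕ) : ℝ) ^ (N + 1) + 2 * 2 ^ L, fun B hB => ?_⟩
  have hB1 : (1 : ℝ) ≤ B := by exact_mod_cast hB
  have hBε : 1 ≤ (B : ℝ) ^ ε := Real.one_le_rpow hB1 hε.le
  obtain ⟨hbf, hbc⟩ := box_finite (N := N) B
  have hsub : Exc D B Q ⊆ {y : Fin (N + 1) → ℤ | ∀ j, |y j| ≤ (B : ℤ)} := fun y hy => hy.2.1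
  have hfin : (Exc D B Q).Finite := hbf.subset hsub
  refine ⟨hfin, ?_⟩
  rcases Nat.lt_or_ge B Y₀ with hBY | hBY
  · -- small heights
    have h1 : (Exc D B Q).ncard ≤ (2 * Y₀ + 1) ^ (N + 1) := by
      refine (Set.ncard_le_ncard hsub hbf).trans ?_
      rw [hbc]
      exact Nat.pow_le_pow_left (by omega) _
    have h2 : ((Exc D B Q).ncard : ℝ) ≤ ((2 * Y₀ + 1 : ℕ) : ℝ) ^ (N + 1) := by exact_mod_cast h1
    calc ((Exc D B Q).ncard : ℝ) ≤ (((2 * Y₀ + 1 : ℕ) : ℝ) ^ (N + 1) + 2 * 2 ^ L) * 1 := by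
          rw [mul_one]
          have : (0 : ℝ) ≤ 2 * 2 ^ L := by positivity
          linarith
      _ ≤ _ := mul_le_mul_of_nonneg_left hBε (by positivity)
  -- large heights
  have hBZ : (1 : ℤ) ≤ B := by exact_mod_cast hB
  let T : (Fin (N + 1) → ℤ) → Finset (Fin L) := fun y => univ.filter fun t => eval y (Q' t) ≠ 0
  let u : Finset (Fin L) → Fin L → ℤ := fun T t => if t ∈ T then 1 else 0
  let s : (Fin (N + 1) → ℤ) → Fin L → ℤ := fun y t => if t ∈ T y then eval y (Q' t) else 1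
  have hsu : ∀ y t, u (T y) t * s y t = eval y (Q' t) := by
    intro y t
    simp only [u, s]
    by_cases ht : t ∈ T y
    · rw [if_pos ht, if_pos ht, one_mul]
    · rw [if_neg ht, zero_mul]
      simp only [T, mem_filter, mem_univ, true_and, not_not] at ht
      exact ht.symm
  have hval : ∀ (y : Fin (N + 1) → ℤ), (∀ j, |y j| ≤ (B : ℤ)) → ∀ t,
      |eval y (Q' t)| ≤ (B : ℤ) ^ 3 := by
    intro y hy t
    have h1 := abs_eval_le (hQ t) y hy
    have h2 : |((eval y (Q' t) : ℤ) : ℚ)| ≤ (B : ℚ) ^ 3 := by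
      rw [eval_cast, hQ' t, map_mul, MvPolynomial.eval_C, abs_mul, Nat.abs_cast]
      calc (q : ℚ) * |eval (fun j => (y j : ℚ)) (Q t)|
          ≤ q * ((∑ α ∈ (Q t).support, |(Q t).coeff α|) * (B : ℚ) ^ 2) := by gcongr
        _ = (q * ∑ α ∈ (Q t).support, |(Q t).coeff α|) * (B : ℚ) ^ 2 := by ring
        _ ≤ c0 * (B : ℚ) ^ 2 := by
            refine mul_le_mul_of_nonneg_right ?_ (by positivity)
            rw [hc0]
            refine mul_le_mul_of_nonneg_left ?_ (Nat.cast_nonneg q)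
            exact single_le_sum (f := fun t => ∑ α ∈ (Q t).support, |(Q t).coeff α|)
              (fun i _ => sum_nonneg fun _ _ => abs_nonneg _) (mem_univ t)
        _ ≤ B * (B : ℚ) ^ 2 := by
            refine mul_le_mul_of_nonneg_right (hY2.trans ?_) (by positivity)
            exact_mod_cast hBY
        _ = (B : ℚ) ^ 3 := by ring
    exact_mod_cast h2
  have hsol : ∀ y ∈ Exc D B Q, ∃ κ : Finset (Finset (Fin L)) × (Fin L → Fin L → ℚ),
      CovSol (N + 1) L 3 D B (u (T y)) (vh N L) κ y (s y) := by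
    rintro y ⟨-, hy2, hy3, -⟩
    have h0 : spF (u (T y)) (vh N L) D (s y) y = 0 := by
      have h1 : ((spF (u (T y)) (vh N L) D (s y) y : ℤ) : ℚ) = 0 := by
        unfold spF
        rw [Int.cast_sum]
        have h2 : (q : ℚ) * eval (fun j => (y j : ℚ)) (Pool.Agent.N254.SQ.powerSum D Q) = 0 := by
          rw [hy3, mul_zero]
        rw [← h2, Pool.Agent.N254.SQ.powerSum, map_sum, mul_sum]
        refine sum_congr rfl fun t _ => ?_
        rw [map_mul, map_pow, lin_eval, ← mul_assoc, hsu, ← mul_assoc]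
        push_cast
        rw [eval_cast, hQ' t, map_mul, MvPolynomial.eval_C]
      exact_mod_cast h1
    obtain ⟨P, hP⟩ := Pat.ex h0
    refine ⟨(P, ratios P (vh N L) y), hy2, fun t => ?_, hP, rfl⟩
    simp only [s]
    by_cases ht : t ∈ T y
    · rw [if_pos ht]
      have h3 := ht
      simp only [T, mem_filter, mem_univ, true_and] at h3
      exact ⟨h3, hval y hy2 t⟩
    · rw [if_neg ht]
      refine ⟨one_ne_zero, ?_⟩
      rw [abs_one]
      exact one_le_pow₀ hBZ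
  choose! κ hκ using hsol
  set S : Finset (Fin (N + 1) → ℤ) := hfin.toFinset with hS
  have hSm : ∀ y, y ∈ S ↔ y ∈ Exc D B Q := fun y => Set.Finite.mem_toFinset _
  let f : (Fin (N + 1) → ℤ) → Finset (Fin L) × (Finset (Finset (Fin L)) × (Fin L → Fin L → ℚ)) :=
    fun y => (T y, κ y)
  have hfib : ∀ y ∈ Exc D B Q, ∀ y' ∈ Exc D B Q, f y = f y' → y' = y ∨ y' = -y := by
    intro y hy y' hy' hff
    have hκκ : κ y = κ y' := congrArg Prod.snd hff
    have hc := hκ y hy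
    have hc' := hκ y' hy'
    obtain ⟨B₀, hB₀, hcard⟩ := large_block hN hL D Q Q' q hq hQ' y (s y) (u (T y))
      (hsu y) (κ y).1 hc.pat hy.2.2.2
    refine prim_prop hy.1 hy'.1 (determined B₀ hcard y y' ?_ ?_ ?_)
    · intro t ht h0
      have h1 := (hc.pat.un t).1 (mem_biUnion.2 ⟨B₀, hB₀, ht⟩)
      rw [h0, zero_pow (by omega), mul_zero, mul_zero] at h1
      exact h1 rfl
    · intro t ht h0
      have h1 := (hc'.pat.un t).1 (mem_biUnion.2 ⟨B₀, by rw [← hκκ]; exact hB₀, ht⟩)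
      rw [h0, zero_pow (by omega), mul_zero, mul_zero] at h1
      exact h1 rfl
    · intro t ht t' ht'
      have h1 : ratios (κ y).1 (vh N L) y t t' = ratios (κ y').1 (vh N L) y' t t' := by
        rw [← hc.rat, ← hc'.rat, hκκ]
      unfold ratios at h1
      rw [if_pos ⟨B₀, hB₀, ht, ht'⟩, if_pos ⟨B₀, by rw [← hκκ]; exact hB₀, ht, ht'⟩] at h1
      exact h1
  have hcard1 : S.card ≤ 2 * (S.image f).card := by
    refine card_le_mul_card_image S 2 fun a ha => ?_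
    obtain ⟨y, hy, rfl⟩ := mem_image.1 ha
    have h1 : (S.filter fun x => f x = f y) ⊆ {y, -y} := by
      intro y' hy'
      rw [mem_filter] at hy'
      rcases hfib y ((hSm y).1 hy) y' ((hSm y').1 hy'.1) hy'.2.symm with h | h
      · rw [h]; exact mem_insert_self _ _
      · rw [h]; exact mem_insert_of_mem (mem_singleton_self _)
    exact (card_le_card h1).trans card_le_two
  have hcard2 : ((S.image f).card : ℝ) ≤ 2 ^ L * (B : ℝ) ^ ε := by
    have h1 : (S.image f).card = ∑ T₀ ∈ (univ : Finset (Fin L)).powerset,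
        ((S.image f).filter fun p => p.1 = T₀).card :=
      card_eq_sum_card_fiberwise fun p _ => by
        exact mem_coe.2 (mem_powerset.2 (subset_univ _))
    rw [h1]
    push_cast
    have h2 : ∀ T₀ ∈ (univ : Finset (Fin L)).powerset,
        ((((S.image f).filter fun p => p.1 = T₀).card : ℕ) : ℝ) ≤ (B : ℝ) ^ ε := by
      intro T₀ _
      have h3 : ((S.image f).filter fun p => p.1 = T₀).card =
          (((S.image f).filter fun p => p.1 = T₀).image Prod.snd).card := by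
        rw [card_image_of_injOn]
        intro p hp p' hp' hpp
        rw [mem_coe, mem_filter] at hp hp'
        exact Prod.ext (hp.2.trans hp'.2.symm) hpp
      rw [h3]
      refine H B hB D hRD (hY4.trans (Real.rpow_le_rpow (Nat.cast_nonneg _)
        (by exact_mod_cast hBY) hδ.le)) (u T₀) (fun i => ?_) (vh N L) (fun i j => ?_) _
        fun κ₀ hκ₀ => ?_
      · have h4 : |u T₀ i| ≤ 1 := by
          simp only [u]
          split_ifs <;> simp
        have h5 : ((|u T₀ i| : ℤ) : ℝ) ≤ 1 := by exact_mod_cast h4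
        exact h5.trans (Real.one_le_exp (Real.rpow_nonneg (Nat.cast_nonneg _) _))
      · unfold vh
        rw [abs_pow, Nat.abs_cast]
        have h4 : ((i : ℕ) : ℤ) ^ (j : ℕ) ≤ (B : ℤ) := by
          have h5 : (i : ℕ) ^ (j : ℕ) ≤ B := by
            calc (i : ℕ) ^ (j : ℕ) ≤ L ^ (j : ℕ) := Nat.pow_le_pow_left (by omega) _
              _ ≤ L ^ N := Nat.pow_le_pow_right (by have := i.2; omega) (by have := j.2; omega)
              _ ≤ Y₀ := hY3
              _ ≤ B := hBY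
          exact_mod_cast h5
        calc ((i : ℕ) : ℤ) ^ (j : ℕ) ≤ (B : ℤ) := h4
          _ = (B : ℤ) ^ 1 := (pow_one _).symm
          _ ≤ (B : ℤ) ^ 3 := pow_le_pow_right₀ hBZ (by norm_num)
      · obtain ⟨p, hp, rfl⟩ := mem_image.1 hκ₀
        rw [mem_filter] at hp
        obtain ⟨y, hy, rfl⟩ := mem_image.1 hp.1
        refine ⟨y, s y, ?_⟩
        have h4 := hκ y ((hSm y).1 hy)
        have h5 : T y = T₀ := hp.2
        rw [h5] at h4
        exact h4
    refine (sum_le_sum h2).trans (le_of_eq ?_)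
    rw [sum_const, card_powerset, card_univ, Fintype.card_fin, nsmul_eq_mul]
    push_cast
    ring
  have h5 : (Exc D B Q).ncard = S.card := Set.ncard_eq_toFinset_card _ hfin
  rw [h5]
  have h6 : ((S.card : ℕ) : ℝ) ≤ 2 * ((S.image f).card : ℝ) := by exact_mod_cast hcard1
  have h7 : (0 : ℝ) ≤ ((2 * Y₀ + 1 : ℕ) : ℝ) ^ (N + 1) * (B : ℝ) ^ ε := by positivity
  calc ((S.card : ℕ) : ℝ) ≤ 2 * ((S.image f).card : ℝ) := h6
    _ ≤ 2 * (2 ^ L * (B : ℝ) ^ ε) := by linarith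
    _ ≤ (((2 * Y₀ + 1 : ℕ) : ℝ) ^ (N + 1) + 2 * 2 ^ L) * (B : ℝ) ^ ε := by
      rw [add_mul]
      linarith

end Pool.Agent.V8H29.GE
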