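import Mathlib
import Pool.Agent.V8H29.GE3
import Pool.Agent.Results.MP_627a61_nt.SmoothHypersurfacesSuffice
import Pool.Agent.TH409.SH.NF

/-!
# Heights of rational points and the Veronese map
-/

set_option autoImplicit false

namespace Pool.Agent.V8H29.GE

open Finset
open scoped LinearAlgebra.Projectivization
open MvPolynomial (eval)
open Pool.Agent.N254.SQ (Mon ver ver_smul ver_prop ver_ne_zero)
open Pool.Agent.Results.MP_627a61_nt.SmoothHypersurfacesSuffice (points powerForm)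

variable {n N d : ℕ} {m : Fin (N + 1) → Fin (n + 1) → ℕ}

theorem cast_ne_zero {x : Fin (n + 1) → ℤ} (h : univ.gcd x = 1) : (fun j => (x j : ℚ)) ≠ 0 := by
  intro h0
  have : univ.gcd x = 0 := Finset.gcd_eq_zero_iff.2 fun i _ => by
    have := congrFun h0 i
    simpa using this
  rw [this] at h
  exact zero_ne_one h

/-- every rational point is given by a primitive vector -/
theorem prim_rep (P : ℙ ℚ (Fin (n + 1) → ℚ)) : ∃ (x : Fin (n + 1) → ℤ) (h : univ.gcd x = 1),
    P = Projectivization.mk ℚ (fun j => (x j : ℚ)) (cast_ne_zero h) := by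
  classical
  set z : Fin (n + 1) → ℤ := fun j => (P.rep j).num * ∏ i ∈ univ.erase j, ((P.rep i).den : ℤ)
    with hz
  set c : ℚ := ∏ i, ((P.rep i).den : ℚ) with hc
  have hc0 : c ≠ 0 := prod_ne_zero_iff.2 fun i _ => by exact_mod_cast (P.rep i).den_nz
  have hzc : ∀ j, (z j : ℚ) = c * P.rep j := by
    intro j
    rw [hz, hc, ← prod_erase_mul univ (fun i => ((P.rep i).den : ℚ)) (mem_univ j)]
    push_cast
    have h1 : ((P.rep j).den : ℚ) * P.rep j = (P.rep j).num := by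
      rw [mul_comm]
      exact Rat.mul_den_eq_num _
    rw [mul_assoc, h1]
    ring
  obtain ⟨x, hx1, hx2⟩ := Finset.extract_gcd z (univ_nonempty (α := Fin (n + 1)))
  refine ⟨x, hx2, ?_⟩
  set g : ℤ := univ.gcd z with hg
  have hg0 : (g : ℚ) ≠ 0 := by
    intro h
    have h' : g = 0 := by exact_mod_cast h
    apply P.rep_nonzero
    funext j
    have h1 := hzc j
    rw [hx1 j (mem_univ j), h', zero_mul, Int.cast_zero] at h1
    exact (mul_eq_zero.1 h1.symm).resolve_left hc0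
  conv_lhs => rw [← P.mk_rep]
  rw [Projectivization.mk_eq_mk_iff']
  refine ⟨c⁻¹ * g, funext fun j => ?_⟩
  rw [Pi.smul_apply, smul_eq_mul]
  have h1 := hzc j
  rw [hx1 j (mem_univ j)] at h1
  push_cast at h1
  rw [mul_assoc, h1, ← mul_assoc, inv_mul_cancel₀ hc0, one_mul]

theorem mulHeight_prim {x : Fin (n + 1) → ℤ} (h : univ.gcd x = 1) :
    (Projectivization.mk ℚ (fun j => (x j : ℚ)) (cast_ne_zero h)).mulHeight =
      ((⨆ j, |x j| : ℤ) : ℝ) := by
  rw [Projectivization.mulHeight_mk]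
  exact Rat.mulHeight_eq_max_abs_of_gcd_eq_one h

theorem abs_le_height {x : Fin (n + 1) → ℤ} (j : Fin (n + 1)) : |x j| ≤ ⨆ j, |x j| :=
  Finite.le_ciSup (fun j => |x j|) j

theorem ver_pure (hm : Mon n N d m) (j : Fin (n + 1)) :
    ∃ a, ∀ (R : Type) [CommRing R] (x : Fin (n + 1) → R), ver m x a = x j ^ d := by
  classical
  obtain ⟨a, ha⟩ := hm.surj (fun i => if i = j then d else 0) (by simp)
  refine ⟨a, fun R _ x => ?_⟩
  unfold ver
  rw [ha, prod_eq_single j]
  · simp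
  · intro b _ hb
    simp only
    rw [if_neg hb, pow_zero]
  · intro h
    exact absurd (mem_univ _) h

/-- the Veronese image of a primitive vector is primitive -/
theorem ver_prim (hm : Mon n N d m) {x : Fin (n + 1) → ℤ} (h : univ.gcd x = 1) :
    univ.gcd (ver m x) = 1 := by
  classical
  by_contra hcon
  set g : ℤ := univ.gcd (ver m x) with hg
  have hg0 : 0 ≤ g := by
    have h1 : normalize g = g := by rw [hg, Finset.normalize_gcd]
    rw [← h1, ← Int.abs_eq_normalize]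
    exact abs_nonneg g
  have hg1 : g.natAbs ≠ 1 := by
    intro h1
    apply hcon
    omega
  obtain ⟨p, hp, hpg⟩ := Nat.exists_prime_and_dvd hg1
  have hpg' : (p : ℤ) ∣ g := Int.natCast_dvd.2 hpg
  have hpx : ∀ j, (p : ℤ) ∣ x j := by
    intro j
    obtain ⟨a, ha⟩ := ver_pure hm j
    have h1 : (p : ℤ) ∣ ver m x a := hpg'.trans (gcd_dvd (mem_univ a))
    rw [ha ℤ x] at h1
    exact (Nat.prime_iff_prime_int.1 hp).dvd_of_dvd_pow h1
  have h2 : (p : ℤ) ∣ univ.gcd x := dvd_gcd fun j _ => hpx j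
  rw [h] at h2
  have h3 := Int.natCast_dvd.1 h2
  simp only [Int.natAbs_one, Nat.dvd_one] at h3
  exact hp.one_lt.ne' h3

theorem ver_sup (hm : Mon n N d m) (x : Fin (n + 1) → ℤ) :
    (⨆ a, |ver m x a|) = (⨆ j, |x j|) ^ d := by
  apply le_antisymm
  · refine ciSup_le fun a => ?_
    unfold ver
    rw [abs_prod]
    calc ∏ j, |x j ^ m a j| ≤ ∏ j, (⨆ j, |x j|) ^ m a j := by
          refine prod_le_prod (fun _ _ => abs_nonneg _) fun j _ => ?_
          rw [abs_pow]
          exact pow_le_pow_left₀ (abs_nonneg _) (abs_le_height j) _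
      _ = (⨆ j, |x j|) ^ d := by rw [prod_pow_eq_pow_sum, hm.deg]
  · obtain ⟨j, hj⟩ := exists_eq_ciSup_of_finite (f := fun j => |x j|)
    obtain ⟨a, ha⟩ := ver_pure hm j
    rw [← hj]
    have h1 := abs_le_height (x := ver m x) a
    rw [ha ℤ x, abs_pow] at h1
    exact h1

theorem ver_cast (x : Fin (n + 1) → ℤ) :
    ver m (fun j => (x j : ℚ)) = fun a => ((ver m x a : ℤ) : ℚ) := by
  funext a
  unfold ver
  push_cast
  rfl

/-- the Veronese map on rational points -/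
noncomputable def vmap (hm : Mon n N d m) (hd : 1 ≤ d) (P : ℙ ℚ (Fin (n + 1) → ℚ)) :
    ℙ ℚ (Fin (N + 1) → ℚ) :=
  Projectivization.mk ℚ (ver m P.rep) (ver_ne_zero hm hd P.rep_nonzero)

theorem vmap_mk (hm : Mon n N d m) (hd : 1 ≤ d) {x : Fin (n + 1) → ℚ} (hx : x ≠ 0) :
    vmap hm hd (Projectivization.mk ℚ x hx) =
      Projectivization.mk ℚ (ver m x) (ver_ne_zero hm hd hx) := by
  unfold vmap
  rw [Projectivization.mk_eq_mk_iff']
  obtain ⟨a, ha⟩ := Projectivization.exists_smul_eq_mk_rep ℚ x hx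
  refine ⟨(a : ℚ) ^ d, ?_⟩
  rw [← ha]
  exact (ver_smul hm (a : ℚ) x).symm

theorem vmap_inj (hm : Mon n N d m) (hd : 1 ≤ d) : Function.Injective (vmap hm hd) := by
  intro P P' hP
  obtain ⟨a, ha⟩ := (Projectivization.mk_eq_mk_iff' ℚ _ _ _ _).1 hP
  obtain ⟨c, hc⟩ := ver_prop (c := a) hm hd P.rep_nonzero ha.symm
  rw [← P.mk_rep, ← P'.mk_rep, Projectivization.mk_eq_mk_iff']
  exact ⟨c, hc.symm⟩

theorem vmap_height (hm : Mon n N d m) (hd : 1 ≤ d) (P : ℙ ℚ (Fin (n + 1) → ℚ)) :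
    (vmap hm hd P).mulHeight = P.mulHeight ^ d := by
  obtain ⟨x, hx, rfl⟩ := prim_rep P
  rw [vmap_mk, mulHeight_prim hx]
  have h1 : ∀ (y : Fin (N + 1) → ℚ) (hy : y ≠ 0), y = (fun a => ((ver m x a : ℤ) : ℚ)) →
      (Projectivization.mk ℚ y hy).mulHeight = ((⨆ a, |ver m x a| : ℤ) : ℝ) := by
    rintro y hy rfl
    exact mulHeight_prim (ver_prim hm hx)
  rw [h1 _ _ (ver_cast x), ver_sup hm]
  push_cast
  rfl

/-- the rational points of height at most `B` -/
def upTo {k : ℕ} {ι : Type} (F : ι → MvPolynomial (Fin (k + 1)) ℚ) (B : ℝ) :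
    Set (ℙ ℚ (Fin (k + 1) → ℚ)) :=
  {P | P ∈ points F ∧ P.mulHeight ≤ B}

theorem upTo_finite {k : ℕ} {ι : Type} (F : ι → MvPolynomial (Fin (k + 1)) ℚ) (B : ℝ) :
    (upTo F B).Finite := by
  refine (Pool.Agent.TH409.SH.northcott_proj ℚ B).subset ?_
  rintro P ⟨-, hP⟩
  refine ⟨P.rep, P.rep_nonzero, P.mk_rep.symm, ?_⟩
  rw [← P.mk_rep, Projectivization.mulHeight_mk] at hP
  exact hP

end Pool.Agent.V8H29.GE
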