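import Mathlib
import Pool.Agent.V8H29.GE4

/-!
# Comparison of the counting functions
-/

set_option autoImplicit false

namespace Pool.Agent.V8H29.GE

open Finset
open scoped LinearAlgebra.Projectivization
open MvPolynomial (eval)
open Pool.Agent.N254.SQ (Mon ver ver_smul ver_prop ver_ne_zero)
open Pool.Agent.Results.MP_627a61_nt.SmoothHypersurfacesSuffice (points powerForm power_hom)

variable {n N d : ℕ} {m : Fin (N + 1) → Fin (n + 1) → ℕ}

theorem eval_rep {k e : ℕ} {G : MvPolynomial (Fin (k + 1)) ℚ} (hG : G.IsHomogeneous e)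
    {x : Fin (k + 1) → ℚ} (hx : x ≠ 0) :
    eval (Projectivization.mk ℚ x hx).rep G = 0 ↔ eval x G = 0 := by
  obtain ⟨a, ha⟩ := Projectivization.exists_smul_eq_mk_rep ℚ x hx
  have h1 : eval (Projectivization.mk ℚ x hx).rep G = (a : ℚ) ^ e * eval x G := by
    rw [← ha]
    exact Pool.Agent.N254.SQ.eval₂_scale (RingHom.id ℚ) hG (a : ℚ) x
  rw [h1, mul_eq_zero]
  constructor
  · rintro (h | h)
    · exact absurd h (pow_ne_zero _ (Units.ne_zero a))
    · exact h
  · exact Or.inr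

/-- **Comparison.** -/
theorem compare (hm : Mon n N d m) (hd : 1 ≤ d) {ε : ℝ} (hε : 0 < ε) {ι : Type}
    (F : ι → MvPolynomial (Fin (n + 1)) ℚ) (g : ι → ℕ) (hF : ∀ i, (F i).IsHomogeneous (g i)) (D : ℕ)
    (Q : Fin (N * (2 * N + 1)) → MvPolynomial (Fin (N + 1)) ℚ) (hQ : ∀ t, (Q t).IsHomogeneous 2)
    (hv : ∀ x : Fin (n + 1) → ℚ, (∀ i, eval x (F i) = 0) → eval (ver m x) (powerForm D Q) = 0)
    (hb : ∀ y : Fin (N + 1) → ℚ, y ≠ 0 → Blk D Q y → ∃ (x : Fin (n + 1) → ℚ) (s : ℚ), x ≠ 0 ∧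
      s ≠ 0 ∧ (∀ k, eval x (F k) = 0) ∧ y = s • ver m x)
    (hcount : ∃ C : ℝ, ∀ B : ℕ, 1 ≤ B → (Exc D B Q).Finite ∧
      ((Exc D B Q).ncard : ℝ) ≤ C * (B : ℝ) ^ (ε / d)) :
    ∃ C : ℝ, ∀ B : ℝ, 1 ≤ B →
      (upTo F B).ncard ≤ (upTo (fun _ : Unit => powerForm D Q) (B ^ d)).ncard ∧
      ((upTo (fun _ : Unit => powerForm D Q) (B ^ d)).ncard : ℝ) ≤
        (upTo F B).ncard + C * B ^ ε := by
  classical
  obtain ⟨C, hC⟩ := hcount
  refine ⟨max C 0, fun B hB => ?_⟩
  have hB0 : 0 < B := by linarith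
  have hpf := power_hom (D := D) hQ
  refine ⟨?_, ?_⟩
  · refine Set.ncard_le_ncard_of_injOn (vmap hm hd) ?_ (vmap_inj hm hd).injOn (upTo_finite _ _)
    rintro P ⟨hP1, hP2⟩
    refine ⟨fun _ => ?_, ?_⟩
    · unfold vmap
      rw [eval_rep hpf]
      exact hv _ hP1
    · rw [vmap_height]
      exact pow_le_pow_left₀ (zero_le_one.trans P.one_le_mulHeight) hP2 d
  · set B' : ℕ := ⌊B ^ d⌋₊ with hB'
    have hBd : 1 ≤ B ^ d := one_le_pow₀ hB
    have hB'1 : 1 ≤ B' := Nat.one_le_floor_iff _ |>.mpr hBd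
    obtain ⟨hfin, hcard⟩ := hC B' hB'1
    let ψ : (Fin (N + 1) → ℤ) → ℙ ℚ (Fin (N + 1) → ℚ) := fun y =>
      if h : univ.gcd y = 1 then Projectivization.mk ℚ (fun j => (y j : ℚ)) (cast_ne_zero h)
      else Projectivization.mk ℚ (fun _ => 1) (fun h => one_ne_zero (congrFun h 0))
    have hsub : upTo (fun _ : Unit => powerForm D Q) (B ^ d) ⊆
        vmap hm hd '' (upTo F B) ∪ ψ '' (Exc D B' Q) := by
      rintro P ⟨hP1, hP2⟩
      obtain ⟨y, hy, rfl⟩ := prim_rep P
      have hy0 := cast_ne_zero hy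
      have hyA : eval (fun j => (y j : ℚ)) (powerForm D Q) = 0 := (eval_rep hpf hy0).1 (hP1 ())
      by_cases hblk : Blk D Q fun j => (y j : ℚ)
      · left
        obtain ⟨x, s, hx0, hs0, hxF, hyx⟩ := hb _ hy0 hblk
        have hφ : vmap hm hd (Projectivization.mk ℚ x hx0) =
            Projectivization.mk ℚ (fun j => (y j : ℚ)) hy0 := by
          rw [vmap_mk, Projectivization.mk_eq_mk_iff']
          exact ⟨s⁻¹, by rw [hyx, smul_smul, inv_mul_cancel₀ hs0, one_smul]⟩
        refine ⟨Projectivization.mk ℚ x hx0, ⟨fun i => (eval_rep (hF i) hx0).2 (hxF i), ?_⟩, hφ⟩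
        have h1 := vmap_height hm hd (Projectivization.mk ℚ x hx0)
        rw [hφ] at h1
        rw [h1] at hP2
        exact (pow_le_pow_iff_left₀ (Projectivization.mulHeight_pos _).le hB0.le (by omega)).1 hP2
      · right
        refine ⟨y, ⟨hy, fun j => ?_, ?_, hblk⟩, ?_⟩
        · rw [mulHeight_prim hy] at hP2
          have h1 : ((|y j| : ℤ) : ℝ) ≤ B ^ d := by
            refine le_trans ?_ hP2
            exact_mod_cast abs_le_height (x := y) j
          have h2 : ((y j).natAbs : ℝ) ≤ B ^ d := by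
            rwa [Nat.cast_natAbs]
          have h3 : (y j).natAbs ≤ B' := Nat.le_floor h2
          rw [Int.abs_eq_natAbs]
          exact_mod_cast h3
        · exact hyA
        · simp only [ψ]
          rw [dif_pos hy]
    have h1 : (upTo (fun _ : Unit => powerForm D Q) (B ^ d)).ncard ≤
        (upTo F B).ncard + (Exc D B' Q).ncard := by
      refine (Set.ncard_le_ncard hsub (((upTo_finite F B).image _).union (hfin.image _))).trans ?_
      refine (Set.ncard_union_le _ _).trans ?_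
      exact Nat.add_le_add (Set.ncard_image_le (upTo_finite F B)) (Set.ncard_image_le hfin)
    have h2 : ((Exc D B' Q).ncard : ℝ) ≤ max C 0 * B ^ ε := by
      refine hcard.trans ?_
      have h3 : (B' : ℝ) ^ (ε / d) ≤ B ^ ε := by
        have hd0 : (d : ℝ) ≠ 0 := by
          have : d ≠ 0 := by omega
          exact_mod_cast this
        calc (B' : ℝ) ^ (ε / d) ≤ (B ^ d) ^ (ε / d) :=
              Real.rpow_le_rpow (Nat.cast_nonneg _) (Nat.floor_le (by positivity)) (by positivity)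
          _ = B ^ ε := by
              rw [← Real.rpow_natCast, ← Real.rpow_mul hB0.le]
              congr 1
              field_simp
      calc C * (B' : ℝ) ^ (ε / d) ≤ max C 0 * (B' : ℝ) ^ (ε / d) :=
            mul_le_mul_of_nonneg_right (le_max_left _ _) (Real.rpow_nonneg (Nat.cast_nonneg _) _)
        _ ≤ max C 0 * B ^ ε := mul_le_mul_of_nonneg_left h3 (le_max_right _ _)
    have h3 : ((upTo (fun _ : Unit => powerForm D Q) (B ^ d)).ncard : ℝ) ≤
        ((upTo F B).ncard : ℝ) + ((Exc D B' Q).ncard : ℝ) := by exact_mod_cast h1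
    linarith

end Pool.Agent.V8H29.GE
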