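import Mathlib
import Pool.Agent.NH29.GN.Stm3

/-!
# Small sequences in a number field and weights
-/

set_option autoImplicit false

namespace Pool.Agent.V8H29.SU

open Filter Height
open Pool.Agent.NH29.GN (SmN)

section small

variable {κ : Type} [Field κ] [NumberField κ] {𝒰 : Ultrafilter ℕ} {H : ℕ → ℝ}

lemma sm_const (hH : ∀ B : ℝ, ∀ᶠ s in (𝒰 : Filter ℕ), B ≤ H s) (b : κ) :
    SmN 𝒰 H fun _ => b := fun N => hH (N * logHeight₁ b)

lemma sm_mul {f g : ℕ → κ} (hf : SmN 𝒰 H f) (hg : SmN 𝒰 H g) :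
    SmN 𝒰 H fun s => f s * g s := by
  intro N
  filter_upwards [hf (2 * N), hg (2 * N)] with s h1 h2
  have h3 := logHeight₁_mul_le (f s) (g s)
  push_cast at h1 h2
  have h4 : (N : ℝ) * logHeight₁ (f s * g s) ≤ N * (logHeight₁ (f s) + logHeight₁ (g s)) :=
    mul_le_mul_of_nonneg_left h3 (Nat.cast_nonneg N)
  linarith

lemma sm_inv {f : ℕ → κ} (hf : SmN 𝒰 H f) : SmN 𝒰 H fun s => (f s)⁻¹ := by
  intro N
  filter_upwards [hf N] with s h1
  rwa [logHeight₁_inv]

lemma sm_congr {f g : ℕ → κ} (hf : SmN 𝒰 H f) (h : ∀ᶠ s in (𝒰 : Filter ℕ), f s = g s) :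
    SmN 𝒰 H g := by
  intro N
  filter_upwards [hf N, h] with s h1 h2
  rwa [← h2]

lemma sm_zpow {f : ℕ → κ} {m : ℤ} (hm : m ≠ 0) (hf : SmN 𝒰 H fun s => f s ^ m) : SmN 𝒰 H f := by
  intro N
  filter_upwards [hf N] with s h1
  rw [logHeight₁_zpow] at h1
  have h2 : (1 : ℝ) ≤ (m.natAbs : ℝ) := by
    exact_mod_cast Nat.one_le_iff_ne_zero.2 (Int.natAbs_ne_zero.2 hm)
  have h3 : (N : ℝ) * logHeight₁ (f s) ≤ N * (m.natAbs * logHeight₁ (f s)) := by
    refine mul_le_mul_of_nonneg_left ?_ (Nat.cast_nonneg N)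
    calc logHeight₁ (f s) = 1 * logHeight₁ (f s) := (one_mul _).symm
      _ ≤ m.natAbs * logHeight₁ (f s) :=
        mul_le_mul_of_nonneg_right h2 (zero_le_logHeight₁ _)
  linarith

lemma sm_sum (hH : ∀ B : ℝ, ∀ᶠ s in (𝒰 : Filter ℕ), B ≤ H s) {ι : Type} (t : Finset ι)
    {f : ι → ℕ → κ} (hf : ∀ i ∈ t, SmN 𝒰 H (f i)) : SmN 𝒰 H fun s => ∑ i ∈ t, f i s := by
  classical
  intro N
  have h1 : ∀ᶠ s in (𝒰 : Filter ℕ), ∀ i ∈ t,
      ((2 * N * (t.card + 1) : ℕ) : ℝ) * logHeight₁ (f i s) ≤ H s :=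
    (Filter.eventually_all_finset t).2 fun i hi => hf i hi _
  filter_upwards [h1, hH (2 * N * (totalWeight κ * Real.log t.card))] with s h1 h2
  have h3 := logHeight₁_sum_le t fun i => f i s
  have h0 : 0 ≤ H s ∨ t = ∅ := by
    rcases t.eq_empty_or_nonempty with h | ⟨i, hi⟩
    · exact Or.inr h
    · exact Or.inl (le_trans (by have := zero_le_logHeight₁ (f i s); positivity) (h1 i hi))
  have h4 : 2 * (N : ℝ) * ∑ i ∈ t, logHeight₁ (f i s) ≤ H s := by
    rcases h0 with h0 | h0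
    · have h5 : ∀ i ∈ t, 2 * (N : ℝ) * logHeight₁ (f i s) ≤ H s / (t.card + 1) := by
        intro i hi
        rw [le_div_iff₀ (by positivity)]
        have := h1 i hi
        push_cast at this
        linarith
      calc 2 * (N : ℝ) * ∑ i ∈ t, logHeight₁ (f i s)
          = ∑ i ∈ t, 2 * (N : ℝ) * logHeight₁ (f i s) := Finset.mul_sum _ _ _
        _ ≤ ∑ _i ∈ t, H s / (t.card + 1) := Finset.sum_le_sum h5
        _ = t.card * (H s / (t.card + 1)) := by rw [Finset.sum_const, nsmul_eq_mul]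
        _ ≤ (t.card + 1) * (H s / (t.card + 1)) := by gcongr; linarith
        _ = H s := by field_simp
    · subst h0
      simpa using h2
  have h5 : (N : ℝ) * logHeight₁ (∑ i ∈ t, f i s) ≤
      N * (totalWeight κ * Real.log t.card + ∑ i ∈ t, logHeight₁ (f i s)) :=
    mul_le_mul_of_nonneg_left h3 (Nat.cast_nonneg N)
  linarith

end small

/-- **Weights.** -/
theorem weights {r : ℕ} (Λ : AddSubgroup (Fin r → ℤ))
    (hsat : ∀ (m : ℤ) (γ : Fin r → ℤ), m ≠ 0 → m • γ ∈ Λ → γ ∈ Λ)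
    (h0 : ∀ γ ∈ Λ, ∑ j, γ j = 0) (Z : Finset (Fin r → ℤ)) (hZ0 : ∀ z ∈ Z, ∑ j, z j = 0)
    (hZ : ∀ z ∈ Z, z ∉ Λ) :
    ∃ l : Fin r → ℕ, (∀ γ ∈ Λ, ∑ j, (l j : ℤ) * γ j = 0) ∧ ∀ z ∈ Z, ∑ j, (l j : ℤ) * z j ≠ 0 := by
  classical
  set ι : (Fin r → ℤ) → (Fin r → ℚ) := fun γ j => (γ j : ℚ) with hι
  set W : Submodule ℚ (Fin r → ℚ) := Submodule.span ℚ (ι '' (Λ : Set (Fin r → ℤ))) with hW
  -- saturation
  have hmem : ∀ x ∈ W, ∃ m : ℤ, m ≠ 0 ∧ ∃ γ ∈ Λ, (m : ℚ) • x = ι γ := by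
    intro x hx
    induction hx using Submodule.span_induction with
    | mem x hx =>
      obtain ⟨γ, hγ, rfl⟩ := hx
      exact ⟨1, one_ne_zero, γ, hγ, by simp⟩
    | zero => exact ⟨1, one_ne_zero, 0, Λ.zero_mem, by funext j; simp [hι]⟩
    | add x y _ _ ihx ihy =>
      obtain ⟨m, hm, γ, hγ, h1⟩ := ihx
      obtain ⟨m', hm', γ', hγ', h2⟩ := ihy
      refine ⟨m * m', mul_ne_zero hm hm', m' • γ + m • γ', Λ.add_mem (Λ.zsmul_mem hγ _)
        (Λ.zsmul_mem hγ' _), ?_⟩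
      funext j
      have e1 := congrFun h1 j
      have e2 := congrFun h2 j
      simp only [hι, Pi.smul_apply, smul_eq_mul, Pi.add_apply] at e1 e2 ⊢
      push_cast
      rw [← e1, ← e2]
      ring
    | smul q x _ ih =>
      obtain ⟨m, hm, γ, hγ, h1⟩ := ih
      refine ⟨m * q.den, mul_ne_zero hm (by exact_mod_cast q.den_nz), q.num • γ,
        Λ.zsmul_mem hγ _, ?_⟩
      funext j
      have e1 := congrFun h1 j
      simp only [hι, Pi.smul_apply, smul_eq_mul] at e1 ⊢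
      push_cast
      rw [← e1]
      have hq : (q.den : ℚ) * q = q.num := by
        rw [mul_comm]
        exact Rat.mul_den_eq_num q
      calc (m : ℚ) * q.den * (q * x j) = (q.den * q) * (m * x j) := by ring
        _ = q.num * (m * x j) := by rw [hq]
  have hZW : ∀ z ∈ Z, ι z ∉ W := by
    intro z hz hzW
    obtain ⟨m, hm, γ, hγ, h1⟩ := hmem _ hzW
    apply hZ z hz
    apply hsat m z hm
    have : m • z = γ := by
      funext j
      have e1 := congrFun h1 j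
      simp only [hι, Pi.smul_apply, smul_eq_mul] at e1 ⊢
      exact_mod_cast e1
    rwa [this]
  obtain ⟨f, hf⟩ := Module.exists_dual_forall_apply_ne_zero (K := ℚ) (M := (Fin r → ℚ) ⧸ W)
    (fun z : Z => W.mkQ (ι z.1)) (fun z => by
      rw [Submodule.mkQ_apply, ne_eq, Submodule.Quotient.mk_eq_zero]
      exact hZW z.1 z.2)
  -- rational weights
  set g : Fin r → ℚ := fun j => f (W.mkQ (Pi.single j 1)) with hg
  have hgs : ∀ x : Fin r → ℚ, f (W.mkQ x) = ∑ j, g j * x j := by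
    intro x
    have h1 : x = ∑ j, x j • (Pi.single j (1 : ℚ) : Fin r → ℚ) := by
      funext i
      rw [Finset.sum_apply]
      simp only [Pi.smul_apply, smul_eq_mul]
      rw [Finset.sum_eq_single i]
      · simp
      · intro j _ hj
        rw [Pi.single_eq_of_ne (Ne.symm hj)]
        simp
      · intro h
        exact absurd (Finset.mem_univ i) h
    conv_lhs => rw [h1]
    rw [map_sum, map_sum]
    refine Finset.sum_congr rfl fun j _ => ?_
    rw [map_smul, map_smul, smul_eq_mul, mul_comm]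
  -- common denominator
  set N : ℕ := ∏ j, (g j).den with hN
  have hN0 : (N : ℚ) ≠ 0 := by
    exact_mod_cast Finset.prod_ne_zero_iff.2 fun j _ => (g j).den_nz
  have hint : ∀ j, ∃ a : ℤ, (N : ℚ) * g j = a := by
    intro j
    refine ⟨(∏ i ∈ Finset.univ.erase j, ((g i).den : ℤ)) * (g j).num, ?_⟩
    have h1 : (N : ℚ) = (∏ i ∈ Finset.univ.erase j, ((g i).den : ℚ)) * (g j).den := by
      rw [hN]
      push_cast
      rw [Finset.prod_erase_mul _ _ (Finset.mem_univ j)]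
    rw [h1, mul_assoc, mul_comm ((g j).den : ℚ), Rat.mul_den_eq_num]
    push_cast
    ring
  choose a ha using hint
  set A : ℤ := ∑ j, |a j| with hA
  have hAj : ∀ j, 0 ≤ a j + A := by
    intro j
    have h1 : |a j| ≤ A := Finset.single_le_sum (f := fun j => |a j|) (fun _ _ => abs_nonneg _)
      (Finset.mem_univ j)
    have h2 := neg_abs_le (a j)
    linarith
  have hl : ∀ j, (((a j + A).toNat : ℕ) : ℤ) = a j + A := fun j => Int.toNat_of_nonneg (hAj j)
  have hsum : ∀ γ : Fin r → ℤ, ∑ j, γ j = 0 → ((∑ j, (((a j + A).toNat : ℕ) : ℤ) * γ j : ℤ) : ℚ) =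
      N * f (W.mkQ (ι γ)) := by
    intro γ hγ
    rw [hgs, Finset.mul_sum]
    have h1 : ∑ j, (((a j + A).toNat : ℕ) : ℤ) * γ j = ∑ j, a j * γ j := by
      have h2 : ∑ j, (((a j + A).toNat : ℕ) : ℤ) * γ j = ∑ j, a j * γ j + A * ∑ j, γ j := by
        rw [Finset.mul_sum, ← Finset.sum_add_distrib]
        refine Finset.sum_congr rfl fun j _ => ?_
        rw [hl]
        ring
      rw [h2, hγ, mul_zero, add_zero]
    rw [h1]
    push_cast
    refine Finset.sum_congr rfl fun j _ => ?_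
    rw [← ha j, mul_assoc]
  refine ⟨fun j => (a j + A).toNat, fun γ hγ => ?_, fun z hz hcon => ?_⟩
  · have h1 := hsum γ (h0 γ hγ)
    have h2 : W.mkQ (ι γ) = 0 := by
      rw [Submodule.mkQ_apply, Submodule.Quotient.mk_eq_zero]
      exact Submodule.subset_span ⟨γ, hγ, rfl⟩
    rw [h2, map_zero, mul_zero] at h1
    exact_mod_cast h1
  · have h1 := hsum z (hZ0 z hz)
    rw [hcon] at h1
    have h2 := hf ⟨z, hz⟩
    rw [Int.cast_zero] at h1
    rcases mul_eq_zero.1 h1.symm with h3 | h3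
    · exact hN0 h3
    · exact h2 h3

end Pool.Agent.V8H29.SU
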