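import Mathlib
import Pool.Agent.V8H29.SU1

/-!
# Vanishing sums of units with small coefficients split according to weights
-/

set_option autoImplicit false

namespace Pool.Agent.V8H29.SU

open Filter Height
open Pool.Agent.NH29.GN (SmN MueStm)

variable {κ : Type} [Field κ] [NumberField κ] {𝒰 : Ultrafilter ℕ} {H : ℕ → ℝ}

lemma sm_add (hH : ∀ B : ℝ, ∀ᶠ s in (𝒰 : Filter ℕ), B ≤ H s) {f g : ℕ → κ}
    (hf : SmN 𝒰 H f) (hg : SmN 𝒰 H g) : SmN 𝒰 H fun s => f s + g s := by
  have h := sm_sum hH (Finset.univ : Finset Bool) (f := fun b => if b then f else g)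
    (by intro b _; cases b <;> simpa)
  refine sm_congr h (Eventually.of_forall fun s => ?_)
  simp

theorem class_sums (hmue : MueStm) {Γ : Subgroup κˣ} (hΓ : Γ.FG)
    (hH : ∀ B : ℝ, ∀ᶠ s in (𝒰 : Filter ℕ), B ≤ H s) {ι : Type} (T : Finset ι)
    (U : ι → ℕ → κˣ) (hU : ∀ i s, U i s ∈ Γ) (c : ι → ℕ → κ) (hc : ∀ i ∈ T, SmN 𝒰 H (c i))
    (hsum : ∀ᶠ s in (𝒰 : Filter ℕ), ∑ i ∈ T, c i s * (U i s : κ) = 0) (wt : ι → ℕ)
    (h1 : ∀ i ∈ T, ∀ j ∈ T, wt i = wt j → SmN 𝒰 H fun s => (U i s : κ) / U j s)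
    (h2 : ∀ i ∈ T, ∀ j ∈ T, (SmN 𝒰 H fun s => (U i s : κ) / U j s) → wt i = wt j) (w : ℕ) :
    ∀ᶠ s in (𝒰 : Filter ℕ), ∑ i ∈ T with wt i = w, c i s * (U i s : κ) = 0 := by
  classical
  rcases T.eq_empty_or_nonempty with hT | ⟨i₀, hi₀⟩
  · subst hT
    exact Eventually.of_forall fun s => by simp
  have hne : Nonempty ι := ⟨i₀⟩
  have hrep : ∀ w ∈ T.image wt, ∃ i ∈ T, wt i = w := fun w hw => Finset.mem_image.1 hw
  choose! rep hrT hrw using hrep
  set CC : ℕ → ℕ → κ := fun w s => ∑ i ∈ T with wt i = w, c i s * ((U i s : κ) / U (rep w) s)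
    with hCC
  have hCCs : ∀ w ∈ T.image wt, SmN 𝒰 H (CC w) := by
    intro w hw
    refine sm_sum hH _ fun i hi => ?_
    rw [Finset.mem_filter] at hi
    exact sm_mul (hc i hi.1) (h1 i hi.1 _ (hrT w hw) (hi.2.trans (hrw w hw).symm))
  have hCCm : ∀ w s, CC w s * (U (rep w) s : κ) = ∑ i ∈ T with wt i = w, c i s * (U i s : κ) := by
    intro w s
    rw [hCC]
    simp only
    rw [Finset.sum_mul]
    refine Finset.sum_congr rfl fun i _ => ?_
    rw [mul_assoc, div_mul_cancel₀ _ (Units.ne_zero _)]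
  have htot : ∀ s, ∑ w ∈ T.image wt, CC w s * (U (rep w) s : κ) =
      ∑ i ∈ T, c i s * (U i s : κ) := by
    intro s
    rw [← Finset.sum_fiberwise_of_maps_to (fun i hi => Finset.mem_image_of_mem wt hi)]
    exact Finset.sum_congr rfl fun w _ => hCCm w s
  set J : Finset ℕ := (T.image wt).filter fun w => ¬ ∀ᶠ s in (𝒰 : Filter ℕ), CC w s = 0 with hJ
  have hJe : J = ∅ := by
    by_contra hne
    have hJne : Nonempty J := (Finset.nonempty_iff_ne_empty.2 hne).coe_sort
    have hz : ∀ᶠ s in (𝒰 : Filter ℕ), ∀ w ∈ (T.image wt).filter fun w => ¬ w ∈ J, CC w s = 0 := by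
      refine (Filter.eventually_all_finset _).2 fun w hw => ?_
      rw [Finset.mem_filter] at hw
      by_contra hcon
      exact hw.2 (Finset.mem_filter.2 ⟨hw.1, hcon⟩)
    obtain ⟨i, j, hij, hsm⟩ := hmue κ Γ hΓ 𝒰 H hH J (fun w s => U (rep w) s) (fun w s => CC w s)
      (fun w s => hU _ s) (fun w => by
        have := (Finset.mem_filter.1 w.2).2
        exact Ultrafilter.eventually_not.2 this)
      (fun w => hCCs w (Finset.mem_filter.1 w.2).1) (by
        filter_upwards [hsum, hz] with s hs1 hs2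
        rw [← htot s] at hs1
        rw [← hs1]
        rw [Finset.sum_coe_sort J (fun w => CC w s * (U (rep w) s : κ))]
        refine Finset.sum_subset (Finset.filter_subset _ _) fun w hw hwJ => ?_
        rw [hs2 w (Finset.mem_filter.2 ⟨hw, hwJ⟩), zero_mul])
    apply hij
    have hi := (Finset.mem_filter.1 i.2).1
    have hj := (Finset.mem_filter.1 j.2).1
    have h3 := h2 _ (hrT _ hi) _ (hrT _ hj) hsm
    rw [hrw _ hi, hrw _ hj] at h3
    exact Subtype.ext h3
  by_cases hw : w ∈ T.image wt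
  · have h3 : ∀ᶠ s in (𝒰 : Filter ℕ), CC w s = 0 := by
      by_contra hcon
      have : w ∈ J := Finset.mem_filter.2 ⟨hw, hcon⟩
      rw [hJe] at this
      exact absurd this (Finset.notMem_empty w)
    filter_upwards [h3] with s hs
    rw [← hCCm, hs, zero_mul]
  · refine Eventually.of_forall fun s => ?_
    rw [Finset.sum_eq_zero]
    intro i hi
    rw [Finset.mem_filter] at hi
    exact absurd (hi.2 ▸ Finset.mem_image_of_mem wt hi.1) hw

end Pool.Agent.V8H29.SU
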