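import Mathlib
import Pool.Agent.V8H29.SU2

/-!
# Forms at sums of units: expansion, and the rational curve
-/

set_option autoImplicit false

namespace Pool.Agent.V8H29.SU

open Filter Height MvPolynomial
open Pool.Agent.NH29.GN (SmN MueStm)

variable {k : Type} [Field k] {n r : ℕ}

/-- the value of a form at the universal sum `∑ w_j y_j` -/
noncomputable def GG (r : ℕ) (F : MvPolynomial (Fin (n + 1)) k) :
    MvPolynomial (Fin r) (MvPolynomial (Fin r × Fin (n + 1)) k) :=
  aeval (fun i => ∑ j : Fin r, C (X (j, i)) * X j) F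

lemma GG_homog {F : MvPolynomial (Fin (n + 1)) k} {e : ℕ} (hF : F.IsHomogeneous e) :
    (GG r F).IsHomogeneous e := by
  have h := hF.aeval (S := MvPolynomial (Fin r × Fin (n + 1)) k) (n := 1)
    (fun i => ∑ j : Fin r, C (X (j, i)) * X j) (by
      intro i
      refine IsHomogeneous.sum _ _ _ fun j _ => ?_
      have h1 := (isHomogeneous_C (Fin r) (X (j, i) : MvPolynomial (Fin r × Fin (n + 1)) k)).mul
        (isHomogeneous_X (MvPolynomial (Fin r × Fin (n + 1)) k) j)
      rwa [zero_add] at h1)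
  rw [one_mul] at h
  exact h

lemma GG_eval {L : Type} [CommRing L] [Algebra k L] (F : MvPolynomial (Fin (n + 1)) k)
    (w : Fin r × Fin (n + 1) → L) (y : Fin r → L) :
    aeval (fun i => ∑ j : Fin r, w (j, i) * y j) F =
      ∑ α ∈ (GG r F).support, aeval w ((GG r F).coeff α) * ∏ j, y j ^ α j := by
  have h1 : eval₂ ((aeval w : MvPolynomial (Fin r × Fin (n + 1)) k →ₐ[k] L) :
      MvPolynomial (Fin r × Fin (n + 1)) k →+* L) y (GG r F) =
      aeval (fun i => ∑ j : Fin r, w (j, i) * y j) F := by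
    unfold GG
    rw [aeval_def, ← coe_eval₂Hom, eval₂_comp_left]
    rw [aeval_def]
    congr 1
    · ext a
      rw [RingHom.comp_apply, IsScalarTower.algebraMap_apply k
        (MvPolynomial (Fin r × Fin (n + 1)) k)
        (MvPolynomial (Fin r) (MvPolynomial (Fin r × Fin (n + 1)) k)), MvPolynomial.algebraMap_eq,
        coe_eval₂Hom, eval₂_C]
      exact (aeval w).commutes a
    · funext i
      simp
  rw [← h1, eval₂_eq']
  rfl

section main

variable {κ : Type} [Field κ] [NumberField κ] [Algebra k κ] {𝒰 : Ultrafilter ℕ} {H : ℕ → ℝ}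

lemma sm_aeval (hH : ∀ B : ℝ, ∀ᶠ s in (𝒰 : Filter ℕ), B ≤ H s) {ι : Type} (w : ι → ℕ → κ)
    (hw : ∀ i, SmN 𝒰 H (w i)) (P : MvPolynomial ι k) :
    SmN 𝒰 H fun s => aeval (fun i => w i s) P := by
  induction P using MvPolynomial.induction_on with
  | C a =>
    refine sm_congr (sm_const hH (algebraMap k κ a)) (Eventually.of_forall fun s => ?_)
    rw [aeval_C]
  | add p q hp hq =>
    refine sm_congr (sm_add hH hp hq) (Eventually.of_forall fun s => ?_)
    rw [map_add]
  | mul_X p i hp =>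
    refine sm_congr (sm_mul hp (hw i)) (Eventually.of_forall fun s => ?_)
    rw [map_mul, aeval_X]

/-- the exponent vectors of sum zero whose monomials in the units are small -/
def Lam (𝒰 : Ultrafilter ℕ) (H : ℕ → ℝ) (hH : ∀ B : ℝ, ∀ᶠ s in (𝒰 : Filter ℕ), B ≤ H s)
    (u : Fin r → ℕ → κˣ) : AddSubgroup (Fin r → ℤ) where
  carrier := {γ | ∑ j, γ j = 0 ∧ SmN 𝒰 H fun s => ((∏ j, u j s ^ γ j : κˣ) : κ)}
  add_mem' := by
    rintro γ δ ⟨h1, h2⟩ ⟨h3, h4⟩
    refine ⟨?_, ?_⟩
    · simp only [Pi.add_apply]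
      rw [Finset.sum_add_distrib, h1, h3, add_zero]
    · refine sm_congr (sm_mul h2 h4) (Eventually.of_forall fun s => ?_)
      rw [← Units.val_mul, ← Finset.prod_mul_distrib]
      congr 1
      refine Finset.prod_congr rfl fun j _ => ?_
      rw [Pi.add_apply, zpow_add]
  zero_mem' := by
    refine ⟨by simp, ?_⟩
    refine sm_congr (sm_const hH 1) (Eventually.of_forall fun s => ?_)
    simp
  neg_mem' := by
    rintro γ ⟨h1, h2⟩
    refine ⟨?_, ?_⟩
    · simp only [Pi.neg_apply]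
      rw [Finset.sum_neg_distrib, h1, neg_zero]
    · refine sm_congr (sm_inv h2) (Eventually.of_forall fun s => ?_)
      rw [← Units.val_inv_eq_inv_val, ← Finset.prod_inv_distrib]
      congr 1
      refine Finset.prod_congr rfl fun j _ => ?_
      rw [Pi.neg_apply, zpow_neg]

lemma Lam_sat (hH : ∀ B : ℝ, ∀ᶠ s in (𝒰 : Filter ℕ), B ≤ H s) (u : Fin r → ℕ → κˣ) (m : ℤ)
    (γ : Fin r → ℤ) (hm : m ≠ 0) (h : m • γ ∈ Lam 𝒰 H hH u) : γ ∈ Lam 𝒰 H hH u := by
  obtain ⟨h1, h2⟩ := h
  refine ⟨?_, ?_⟩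
  · simp only [Pi.smul_apply, smul_eq_mul] at h1
    rw [← Finset.mul_sum] at h1
    exact (mul_eq_zero.1 h1).resolve_left hm
  · refine sm_zpow hm ?_
    refine sm_congr h2 (Eventually.of_forall fun s => ?_)
    rw [← Units.val_zpow_eq_zpow_val, ← Finset.prod_zpow]
    congr 1
    refine Finset.prod_congr rfl fun j _ => ?_
    rw [Pi.smul_apply, smul_eq_mul, mul_comm, zpow_mul]

end main

end Pool.Agent.V8H29.SU
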