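import Mathlib
import Pool.Agent.V8H29.SU3

/-!
# Sums of units on a variety without rational curves
-/

set_option autoImplicit false

namespace Pool.Agent.V8H29.SU

open Filter Height MvPolynomial
open Pool.Agent.NH29.GN (SmN MueStm)

variable {k : Type} [Field k] {n r : ℕ}
variable {κ : Type} [Field κ] [NumberField κ] [Algebra k κ] {𝒰 : Ultrafilter ℕ} {H : ℕ → ℝ}

/-- the difference of two exponents -/
def dif (α β : Fin r →₀ ℕ) : Fin r → ℤ := fun j => (α j : ℤ) - β j

lemma dif_sum {α β : Fin r →₀ ℕ} (h : α.degree = β.degree) : ∑ j, dif α β j = 0 := by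
  have h1 : ∀ γ : Fin r →₀ ℕ, γ.degree = ∑ j, γ j := fun γ => Finsupp.degree_eq_sum γ
  unfold dif
  rw [Finset.sum_sub_distrib, sub_eq_zero]
  rw [h1, h1] at h
  exact_mod_cast h

lemma dif_prod (u : Fin r → ℕ → κˣ) (α β : Fin r →₀ ℕ) (s : ℕ) :
    ((∏ j, u j s ^ dif α β j : κˣ) : κ) =
      ((∏ j, u j s ^ α j : κˣ) : κ) / ((∏ j, u j s ^ β j : κˣ) : κ) := by
  rw [← Units.val_div_eq_div_val, ← Finset.prod_div_distrib]
  congr 1
  refine Finset.prod_congr rfl fun j _ => ?_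
  unfold dif
  rw [zpow_sub, zpow_natCast, zpow_natCast, div_eq_mul_inv]

/-- the weights -/
theorem exists_weights (hH : ∀ B : ℝ, ∀ᶠ s in (𝒰 : Filter ℕ), B ≤ H s) (u : Fin r → ℕ → κˣ)
    (T : Finset (Fin r →₀ ℕ)) :
    ∃ l : Fin r → ℕ, ∀ α ∈ T, ∀ β ∈ T, α.degree = β.degree →
      ((∑ j, l j * α j = ∑ j, l j * β j) ↔ SmN 𝒰 H fun s =>
        ((∏ j, u j s ^ α j : κˣ) : κ) / ((∏ j, u j s ^ β j : κˣ) : κ)) := by
  classical
  set Z : Finset (Fin r → ℤ) := (((T ×ˢ T).filter fun p => p.1.degree = p.2.degree).image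
    fun p => dif p.1 p.2).filter fun γ => γ ∉ Lam 𝒰 H hH u with hZ
  obtain ⟨l, hl1, hl2⟩ := weights (Lam 𝒰 H hH u) (fun m γ hm h => Lam_sat hH u m γ hm h)
    (fun γ h => h.1) Z (by
      intro z hz
      obtain ⟨p, hp, rfl⟩ := Finset.mem_image.1 (Finset.mem_filter.1 hz).1
      exact dif_sum (Finset.mem_filter.1 hp).2) (fun z hz => (Finset.mem_filter.1 hz).2)
  refine ⟨l, fun α hα β hβ hd => ?_⟩
  have e1 : ∑ j, (l j : ℤ) * dif α β j = ((∑ j, l j * α j : ℕ) : ℤ) - (∑ j, l j * β j : ℕ) := by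
    push_cast
    rw [← Finset.sum_sub_distrib]
    refine Finset.sum_congr rfl fun j _ => ?_
    unfold dif
    ring
  have e2 : dif α β ∈ Lam 𝒰 H hH u ↔ SmN 𝒰 H fun s =>
        ((∏ j, u j s ^ α j : κˣ) : κ) / ((∏ j, u j s ^ β j : κˣ) : κ) := by
    constructor
    · intro h
      exact sm_congr h.2 (Eventually.of_forall fun s => dif_prod u α β s)
    · intro h
      exact ⟨dif_sum hd, sm_congr h (Eventually.of_forall fun s => (dif_prod u α β s).symm)⟩
  rw [← e2]
  constructor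
  · intro h
    by_contra hcon
    have h3 := hl2 (dif α β) (Finset.mem_filter.2 ⟨Finset.mem_image.2 ⟨(α, β),
      Finset.mem_filter.2 ⟨Finset.mem_product.2 ⟨hα, hβ⟩, hd⟩, rfl⟩, hcon⟩)
    rw [e1, h, sub_self] at h3
    exact h3 rfl
  · intro h
    have h3 := hl1 _ h
    rw [e1, sub_eq_zero] at h3
    exact_mod_cast h3

/-- the rational curve with weights -/
noncomputable def wc (l : Fin r → ℕ) (u : Fin r → κ) (w : Fin r × Fin (n + 1) → κ)
    (i : Fin (n + 1)) : Polynomial κ :=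
  ∑ j, Polynomial.C (w (j, i)) * (Polynomial.C (u j) * Polynomial.X ^ l j)

lemma wc_eval_one (l : Fin r → ℕ) (u : Fin r → κ) (w : Fin r × Fin (n + 1) → κ)
    (i : Fin (n + 1)) : (wc l u w i).eval 1 = ∑ j, w (j, i) * u j := by
  unfold wc
  rw [Polynomial.eval_finsetSum]
  refine Finset.sum_congr rfl fun j _ => ?_
  simp

lemma wc_coeff (l : Fin r → ℕ) (u : Fin r → κ) (w : Fin r × Fin (n + 1) → κ)
    (i : Fin (n + 1)) (m : ℕ) : (wc l u w i).coeff m = ∑ j with l j = m, w (j, i) * u j := by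
  classical
  unfold wc
  rw [Polynomial.finsetSum_coeff, Finset.sum_filter]
  refine Finset.sum_congr rfl fun j _ => ?_
  rw [← mul_assoc, ← Polynomial.C_mul, Polynomial.coeff_C_mul_X_pow]
  by_cases h : l j = m
  · rw [if_pos h.symm, if_pos h]
  · rw [if_neg (Ne.symm h), if_neg h]

/-- the value of a form at the curve -/
lemma wc_aeval (F : MvPolynomial (Fin (n + 1)) k) (l : Fin r → ℕ) (u : Fin r → κ)
    (w : Fin r × Fin (n + 1) → κ)
    (h : ∀ m : ℕ, ∑ α ∈ (GG r F).support with ∑ j, l j * α j = m,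
      aeval w ((GG r F).coeff α) * ∏ j, u j ^ α j = 0) :
    aeval (wc l u w) F = 0 := by
  classical
  have h1 := GG_eval (L := Polynomial κ) F (fun q => Polynomial.C (w q))
    (fun j => Polynomial.C (u j) * Polynomial.X ^ l j)
  have h2 : aeval (wc l u w) F = ∑ α ∈ (GG r F).support,
      Polynomial.C (aeval w ((GG r F).coeff α) * ∏ j, u j ^ α j) *
        Polynomial.X ^ (∑ j, l j * α j) := by
    refine h1.trans (Finset.sum_congr rfl fun α _ => ?_)
    have h3 : aeval (fun q => Polynomial.C (w q)) ((GG r F).coeff α) =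
        Polynomial.C (aeval w ((GG r F).coeff α)) :=
      MvPolynomial.aeval_algebraMap_apply (Polynomial κ) w _
    rw [h3, Polynomial.C_mul, mul_assoc]
    congr 1
    simp only [mul_pow]
    rw [Finset.prod_mul_distrib]
    congr 1
    · rw [map_prod]
      simp
    · rw [← Finset.prod_pow_eq_pow_sum]
      refine Finset.prod_congr rfl fun j _ => ?_
      rw [pow_mul]
  rw [h2]
  rw [← Finset.sum_fiberwise_of_maps_to (g := fun α : Fin r →₀ ℕ => ∑ j, l j * α j)
    (t := (GG r F).support.image fun α : Fin r →₀ ℕ => ∑ j, l j * α j)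
    (fun α hα => Finset.mem_image_of_mem _ hα)]
  refine Finset.sum_eq_zero fun m _ => ?_
  have h4 : ∀ α ∈ (GG r F).support.filter fun α : Fin r →₀ ℕ => ∑ j, l j * α j = m,
      Polynomial.C (aeval w ((GG r F).coeff α) * ∏ j, u j ^ α j) *
        Polynomial.X ^ (∑ j, l j * α j) =
      Polynomial.C (aeval w ((GG r F).coeff α) * ∏ j, u j ^ α j) * Polynomial.X ^ m := by
    intro α hα
    rw [(Finset.mem_filter.1 hα).2]
  rw [Finset.sum_congr rfl h4, ← Finset.sum_mul, ← map_sum, h m, map_zero, zero_mul]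

end Pool.Agent.V8H29.SU
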