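import Mathlib
import Pool.Agent.V8H29.SU4
import Pool.Agent.NH29.GN.Mue
import Pool.Agent.NH29.GN.Mov
import Pool.Agent.NH29.GN.MovS
import Pool.Agent.NH29.GN.MovD
import Pool.Agent.NH29.GN.Hn
import Pool.Agent.NH29.GN.Gal

/-!
# Sums of units on a variety without rational curves: the ratios of the coordinates are small
-/

set_option autoImplicit false

namespace Pool.Agent.V8H29.SU

open Filter Height MvPolynomial
open Pool.Agent.NH29.GN (SmN MueStm)

theorem mue0 : MueStm :=
  Pool.Agent.NH29.GN.mue (Pool.Agent.NH29.GN.mov (Pool.Agent.NH29.GN.movs Pool.Agent.NH29.GN.gal)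
    Pool.Agent.NH29.GN.movd) Pool.Agent.NH29.GN.hn

variable {k : Type} [Field k] {n r : ℕ}
variable {κ : Type} [Field κ] [NumberField κ] [Algebra k κ] {𝒰 : Ultrafilter ℕ} {H : ℕ → ℝ}

lemma ev_exists {ι : Type} [Finite ι] {P : ι → ℕ → Prop}
    (h : ∀ᶠ s in (𝒰 : Filter ℕ), ∃ i, P i s) : ∃ i, ∀ᶠ s in (𝒰 : Filter ℕ), P i s := by
  have h1 := (Ultrafilter.eventually_exists_mem_iff (is := (Set.univ : Set ι)) (P := P)
    Set.finite_univ).1 (by
      filter_upwards [h] with s hs
      obtain ⟨i, hi⟩ := hs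
      exact ⟨i, Set.mem_univ _, hi⟩)
  obtain ⟨i, -, hi⟩ := h1
  exact ⟨i, hi⟩

theorem small_ratio {Γ : Subgroup κˣ} (hΓ : Γ.FG)
    (hH : ∀ B : ℝ, ∀ᶠ s in (𝒰 : Filter ℕ), B ≤ H s) (FF : Finset (MvPolynomial (Fin (n + 1)) k))
    (hom : ∀ F ∈ FF, ∃ e, F.IsHomogeneous e)
    (hno : ∀ q : Fin (n + 1) → Polynomial κ, (∀ F ∈ FF, aeval q F = 0) →
      ∀ i j (a b : κ), (q i).eval a * (q j).eval b = (q j).eval a * (q i).eval b)
    (u : Fin r → ℕ → κˣ) (hu : ∀ j s, u j s ∈ Γ) (w : Fin r × Fin (n + 1) → ℕ → κ)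
    (hw : ∀ q, SmN 𝒰 H (w q))
    (hx : ∀ᶠ s in (𝒰 : Filter ℕ), ∃ i, ∑ j, w (j, i) s * (u j s : κ) ≠ 0)
    (hF : ∀ F ∈ FF, ∀ᶠ s in (𝒰 : Filter ℕ),
      aeval (fun i => ∑ j, w (j, i) s * (u j s : κ)) F = 0) :
    ∃ i₀, (∀ᶠ s in (𝒰 : Filter ℕ), ∑ j, w (j, i₀) s * (u j s : κ) ≠ 0) ∧
      ∀ i, SmN 𝒰 H fun s =>
        (∑ j, w (j, i) s * (u j s : κ)) / ∑ j, w (j, i₀) s * (u j s : κ) := by
  classical
  -- the exponents
  set T : Finset (Fin r →₀ ℕ) := (FF.biUnion fun F => (GG r F).support) ∪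
    Finset.univ.image (fun j : Fin r => Finsupp.single j 1) with hT
  obtain ⟨l, hl⟩ := exists_weights hH u T
  -- the curve lies on the variety
  have hcur : ∀ᶠ s in (𝒰 : Filter ℕ), ∀ F ∈ FF,
      aeval (wc l (fun j => (u j s : κ)) (fun q => w q s)) F = 0 := by
    refine (Filter.eventually_all_finset _).2 fun F hFF => ?_
    obtain ⟨e, he⟩ := hom F hFF
    have hdeg : ∀ α ∈ (GG r F).support, α.degree = e := fun α hα => by
      have h1 := (GG_homog (r := r) he) (mem_support_iff.1 hα)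
      rw [← h1, Finsupp.degree_eq_weight_one]
      rfl
    have hTm : ∀ α ∈ (GG r F).support, α ∈ T := fun α hα =>
      Finset.mem_union_left _ (Finset.mem_biUnion.2 ⟨F, hFF, hα⟩)
    have hcs := fun m => class_sums mue0 hΓ hH (GG r F).support
      (fun α s => ∏ j, u j s ^ α j) (fun α s => Subgroup.prod_mem _ fun j _ =>
        Γ.pow_mem (hu j s) _) (fun α s => aeval (fun q => w q s) ((GG r F).coeff α))
      (fun α _ => sm_aeval hH w hw _) (by
        filter_upwards [hF F hFF] with s hs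
        rw [GG_eval F (fun q => w q s) (fun j => (u j s : κ))] at hs
        rw [← hs]
        refine Finset.sum_congr rfl fun α _ => ?_
        push_cast
        rfl)
      (fun α => ∑ j, l j * α j)
      (fun α hα β hβ hab => (hl α (hTm α hα) β (hTm β hβ)
        ((hdeg α hα).trans (hdeg β hβ).symm)).1 hab)
      (fun α hα β hβ hab => (hl α (hTm α hα) β (hTm β hβ)
        ((hdeg α hα).trans (hdeg β hβ).symm)).2 hab) m
    have hcs' : ∀ᶠ s in (𝒰 : Filter ℕ), ∀ m ∈ (GG r F).support.image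
        (fun α : Fin r →₀ ℕ => ∑ j, l j * α j),
        ∑ α ∈ (GG r F).support with ∑ j, l j * α j = m,
          aeval (fun q => w q s) ((GG r F).coeff α) * ((∏ j, u j s ^ α j : κˣ) : κ) = 0 :=
      (Filter.eventually_all_finset _).2 fun m _ => hcs m
    filter_upwards [hcs'] with s hs
    refine wc_aeval F l _ _ fun m => ?_
    by_cases hm : m ∈ (GG r F).support.image (fun α : Fin r →₀ ℕ => ∑ j, l j * α j)
    · rw [← hs m hm]
      refine Finset.sum_congr rfl fun α _ => ?_
      push_cast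
      rfl
    · refine Finset.sum_eq_zero fun α hα => ?_
      rw [Finset.mem_filter] at hα
      exact absurd (hα.2 ▸ Finset.mem_image_of_mem (fun α : Fin r →₀ ℕ => ∑ j, l j * α j) hα.1) hm
  -- proportionality
  have hprop : ∀ᶠ s in (𝒰 : Filter ℕ), ∀ (m : ℕ) (i i' : Fin (n + 1)),
      (∑ j with l j = m, w (j, i) s * (u j s : κ)) * ∑ j, w (j, i') s * (u j s : κ) =
      (∑ j with l j = m, w (j, i') s * (u j s : κ)) * ∑ j, w (j, i) s * (u j s : κ) := by
    filter_upwards [hcur] with s hs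
    intro m i i'
    have h1 := hno _ hs i i'
    have h2 : (wc l (fun j => (u j s : κ)) (fun q => w q s) i) *
        Polynomial.C ((wc l (fun j => (u j s : κ)) (fun q => w q s) i').eval 1) =
        (wc l (fun j => (u j s : κ)) (fun q => w q s) i') *
        Polynomial.C ((wc l (fun j => (u j s : κ)) (fun q => w q s) i).eval 1) := by
      apply Polynomial.funext
      intro a
      rw [Polynomial.eval_mul, Polynomial.eval_mul, Polynomial.eval_C, Polynomial.eval_C]
      exact h1 a 1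
    have h3 := congrArg (fun p => Polynomial.coeff p m) h2
    simp only [Polynomial.coeff_mul_C] at h3
    rw [wc_coeff, wc_coeff, wc_eval_one, wc_eval_one] at h3
    exact h3
  obtain ⟨i₀, hi₀⟩ := ev_exists hx
  -- a part which does not vanish
  have hpart : ∀ᶠ s in (𝒰 : Filter ℕ), ∃ j₀ : Fin r,
      ∑ j with l j = l j₀, w (j, i₀) s * (u j s : κ) ≠ 0 := by
    filter_upwards [hi₀] with s hs
    by_contra hcon
    push Not at hcon
    apply hs
    rw [← Finset.sum_fiberwise_of_maps_to (g := l) (t := Finset.univ.image l)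
      (fun j hj => Finset.mem_image_of_mem _ hj)]
    refine Finset.sum_eq_zero fun m hm => ?_
    obtain ⟨j₀, -, rfl⟩ := Finset.mem_image.1 hm
    exact hcon j₀
  obtain ⟨j₀, hj₀⟩ := ev_exists hpart
  refine ⟨i₀, hi₀, fun i => ?_⟩
  -- the part divided by a unit
  set Y : Fin (n + 1) → ℕ → κ := fun i s =>
    ∑ j with l j = l j₀, w (j, i) s * ((u j s : κ) / u j₀ s) with hY
  have hYs : ∀ i, SmN 𝒰 H (Y i) := by
    intro i
    refine sm_sum hH _ fun j hj => sm_mul (hw _) ?_
    rw [Finset.mem_filter] at hj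
    have hmem : ∀ j : Fin r, Finsupp.single j 1 ∈ T := fun j =>
      Finset.mem_union_right _ (Finset.mem_image_of_mem _ (Finset.mem_univ j))
    have h1 := (hl _ (hmem j) _ (hmem j₀) (by
      rw [Finsupp.degree_single, Finsupp.degree_single])).1 (by
        have : ∀ j : Fin r, ∑ i, l i * (Finsupp.single j 1 : Fin r →₀ ℕ) i = l j := by
          intro j
          rw [Finset.sum_eq_single j]
          · simp
          · intro i _ hi
            rw [Finsupp.single_apply, if_neg (Ne.symm hi), mul_zero]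
          · intro h
            exact absurd (Finset.mem_univ _) h
        rw [this, this]
        exact hj.2)
    refine sm_congr h1 (Eventually.of_forall fun s => ?_)
    have h2 : ∀ j : Fin r, (∏ i, u i s ^ (Finsupp.single j 1 : Fin r →₀ ℕ) i : κˣ) = u j s := by
      intro j
      rw [Finset.prod_eq_single j]
      · simp
      · intro i _ hi
        rw [Finsupp.single_apply, if_neg (Ne.symm hi), pow_zero]
      · intro h
        exact absurd (Finset.mem_univ _) h
    rw [h2, h2]
  refine sm_congr (sm_mul (hYs i) (sm_inv (hYs i₀))) ?_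
  filter_upwards [hprop, hi₀, hj₀] with s h1 h2 h3
  have h4 : ∀ i, ∑ j with l j = l j₀, w (j, i) s * (u j s : κ) = Y i s * u j₀ s := by
    intro i
    rw [hY]
    simp only
    rw [Finset.sum_mul]
    refine Finset.sum_congr rfl fun j _ => ?_
    rw [mul_assoc, div_mul_cancel₀ _ (Units.ne_zero _)]
  have h5 := h1 (l j₀) i i₀
  rw [h4] at h3
  have h6 : Y i₀ s ≠ 0 := left_ne_zero_of_mul h3
  have h7 : (u j₀ s : κ) ≠ 0 := Units.ne_zero _
  rw [h4, h4] at h5
  rw [← div_eq_mul_inv, div_eq_div_iff h6 h2]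
  apply mul_right_cancel₀ h7
  linear_combination h5

end Pool.Agent.V8H29.SU
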