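import Mathlib
import Pool.Agent.V8H29.SU5
import Pool.Agent.TH409.SH.Fin2

/-!
# The height bound for sums of elements of a finitely generated group, and its converse
-/

set_option autoImplicit false

namespace Pool.Agent.V8H29.SU

open Filter Height MvPolynomial NumberField
open Pool.Agent.NH29.GN (SmN MueStm)
open Pool.Agent.TH409.SH (NoRatCurve IsZero)

/-- `x ≠ 0` is a sum `∑ u_j v_j` with all the `u_j` in the group `Γ`. -/
def UnitSum {K : Type} [Field K] (Γ : Subgroup Kˣ) {n r : ℕ} (v : Fin r → Fin (n + 1) → K)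
    (x : Fin (n + 1) → K) : Prop :=
  x ≠ 0 ∧ ∃ u : Fin r → Kˣ, (∀ j, u j ∈ Γ) ∧ ∀ i, x i = ∑ j, (u j : K) * v j i

/-- The linear height bound: for every number field `K ⊇ k`, every finitely generated group
`Γ ⊆ Kˣ` and every `r` there is `C` such that the height of every zero `x` of the forms `FF` which
is a sum `∑ u_j v_j` of `r` vectors with coefficients `u_j ∈ Γ` is at most `C (1 + h(v))`, where
`h(v)` is the height of the point with homogeneous coordinates all the coordinates of the `v_j`. -/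
def LinBound {n : ℕ} {k : Type} [Field k] (FF : Set (MvPolynomial (Fin (n + 1)) (𝓞 k))) : Prop :=
  ∀ (K : Type) [Field K] [NumberField K] [Algebra k K] (Γ : Subgroup Kˣ), Γ.FG → ∀ r : ℕ,
    ∃ C : ℝ, ∀ (v : Fin r → Fin (n + 1) → K) (x : Fin (n + 1) → K), UnitSum Γ v x →
      IsZero FF x → logHeight x ≤ C * (1 + logHeight fun q : Fin r × Fin (n + 1) => v q.1 q.2)

/-- Finiteness for vectors `v_j` of bounded height. -/
def BddFinite {n : ℕ} {k : Type} [Field k] (FF : Set (MvPolynomial (Fin (n + 1)) (𝓞 k))) : Prop :=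
  ∀ (K : Type) [Field K] [NumberField K] [Algebra k K] (Γ : Subgroup Kˣ), Γ.FG → ∀ (r : ℕ) (B : ℝ),
    {P : Projectivization K (Fin (n + 1) → K) | ∃ (v : Fin r → Fin (n + 1) → K)
      (x : Fin (n + 1) → K) (h : x ≠ 0), P = Projectivization.mk K x h ∧ UnitSum Γ v x ∧
      IsZero FF x ∧ logHeight (fun q : Fin r × Fin (n + 1) => v q.1 q.2) ≤ B}.Finite

/-- Finiteness for fixed vectors `v_j`. -/
def FixedFinite {n : ℕ} {k : Type} [Field k] (FF : Set (MvPolynomial (Fin (n + 1)) (𝓞 k))) :
    Prop :=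
  ∀ (K : Type) [Field K] [NumberField K] [Algebra k K] (Γ : Subgroup Kˣ), Γ.FG → ∀ (r : ℕ)
    (v : Fin r → Fin (n + 1) → K),
    {P : Projectivization K (Fin (n + 1) → K) | ∃ (x : Fin (n + 1) → K) (h : x ≠ 0),
      P = Projectivization.mk K x h ∧ UnitSum Γ v x ∧ IsZero FF x}.Finite

variable {n : ℕ}

/-- finitely many of the forms suffice -/
lemma exists_finset {k : Type} [Field k] (GG : Set (MvPolynomial (Fin (n + 1)) k)) :
    ∃ FF : Finset (MvPolynomial (Fin (n + 1)) k), (FF : Set (MvPolynomial (Fin (n + 1)) k)) ⊆ GG ∧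
      ∀ (L : Type) [CommRing L] [Algebra k L] (q : Fin (n + 1) → L),
        (∀ F ∈ FF, aeval q F = 0) → ∀ F ∈ GG, aeval q F = 0 := by
  obtain ⟨FF, h1, h2⟩ := (Submodule.fg_span_iff_fg_span_finset_subset GG).1
    ((isNoetherianRing_iff_ideal_fg _).1 inferInstance (Ideal.span GG))
  refine ⟨FF, h1, fun L _ _ q hq F hF => ?_⟩
  have h3 : F ∈ Submodule.span (MvPolynomial (Fin (n + 1)) k)
      (FF : Set (MvPolynomial (Fin (n + 1)) k)) := by
    rw [← h2]
    exact Submodule.subset_span hF
  have h4 : Ideal.span (FF : Set (MvPolynomial (Fin (n + 1)) k)) ≤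
      RingHom.ker (aeval q : MvPolynomial (Fin (n + 1)) k →ₐ[k] L) := by
    rw [Ideal.span_le]
    intro G hG
    exact hq G hG
  exact h4 h3

/-- **The height bound.** -/
theorem noRat_linBound {k : Type} [Field k] (FF : Set (MvPolynomial (Fin (n + 1)) (𝓞 k)))
    (hom : ∀ F ∈ FF, ∃ e, F.IsHomogeneous e) (hno : NoRatCurve FF) : LinBound FF := by
  classical
  intro K _ _ _ Γ hΓ r
  by_contra hcon
  push Not at hcon
  -- a sequence of counterexamples
  choose v x hUS hz hbig using fun s : ℕ => hcon s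
  choose hx0 u hu hxu using hUS
  set H : ℕ → ℝ := fun s => logHeight (x s) with hHdef
  set 𝒰 : Ultrafilter ℕ := Filter.hyperfilter ℕ with h𝒰
  have hv0 : ∀ s, 0 ≤ logHeight (fun q : Fin r × Fin (n + 1) => v s q.1 q.2) := fun s =>
    logHeight_nonneg _
  have hge : ∀ s : ℕ, (s : ℝ) ≤ H s := by
    intro s
    have h1 := hbig s
    have h2 : (s : ℝ) * 1 ≤ s * (1 + logHeight fun q : Fin r × Fin (n + 1) => v s q.1 q.2) :=
      mul_le_mul_of_nonneg_left (by linarith [hv0 s]) (Nat.cast_nonneg s)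
    rw [mul_one] at h2
    exact (h2.trans_lt h1).le
  have hev : ∀ N : ℕ, ∀ᶠ s in (𝒰 : Filter ℕ), N ≤ s := fun N =>
    Nat.hyperfilter_le_atTop (eventually_ge_atTop N)
  have hH : ∀ B : ℝ, ∀ᶠ s in (𝒰 : Filter ℕ), B ≤ H s := by
    intro B
    obtain ⟨N, hN⟩ := exists_nat_ge B
    filter_upwards [hev N] with s hs
    exact hN.trans ((Nat.cast_le.2 hs).trans (hge s))
  -- normalisation
  have hq0 : ∀ s, ∃ q : Fin r × Fin (n + 1), v s q.1 q.2 ≠ 0 := by
    intro s
    by_contra hall
    push Not at hall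
    apply hx0 s
    funext i
    rw [hxu s i]
    exact Finset.sum_eq_zero fun j _ => by rw [hall (j, i), mul_zero]
  choose q₀ hq₀ using hq0
  set d : ℕ → K := fun s => v s (q₀ s).1 (q₀ s).2 with hd
  set w : Fin r × Fin (n + 1) → ℕ → K := fun q s => v s q.1 q.2 / d s with hw
  have hws : ∀ q, SmN 𝒰 H (w q) := by
    intro q N
    filter_upwards [hev N] with s hs
    have h1 : logHeight₁ (w q s) ≤ logHeight fun q : Fin r × Fin (n + 1) => v s q.1 q.2 := by
      rw [hw]
      simp only
      rw [logHeight₁_div_eq_logHeight]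
      have h2 : (![v s q.1 q.2, d s] : Fin 2 → K) =
          (fun q : Fin r × Fin (n + 1) => v s q.1 q.2) ∘ ![q, q₀ s] := by
        funext a
        fin_cases a <;> rfl
      rw [h2]
      exact logHeight_comp_le _ _
    have h2 := hbig s
    have h3 : (N : ℝ) * logHeight₁ (w q s) ≤
        N * logHeight fun q : Fin r × Fin (n + 1) => v s q.1 q.2 :=
      mul_le_mul_of_nonneg_left h1 (Nat.cast_nonneg N)
    have h4 : (N : ℝ) * (logHeight fun q : Fin r × Fin (n + 1) => v s q.1 q.2) ≤
        s * (1 + logHeight fun q : Fin r × Fin (n + 1) => v s q.1 q.2) :=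
      mul_le_mul (Nat.cast_le.2 hs) (by linarith) (hv0 s) (Nat.cast_nonneg s)
    linarith
  have hxw : ∀ s i, ∑ j, w (j, i) s * (u s j : K) = (d s)⁻¹ * x s i := by
    intro s i
    rw [hxu s i, Finset.mul_sum]
    refine Finset.sum_congr rfl fun j _ => ?_
    rw [hw]
    simp only
    rw [div_eq_mul_inv]
    ring
  -- the forms
  obtain ⟨GG, hGG1, hGG2⟩ := exists_finset (MvPolynomial.map (algebraMap (𝓞 k) k) '' FF)
  have hGom : ∀ G ∈ GG, ∃ e, G.IsHomogeneous e := by
    intro G hG
    obtain ⟨F, hF, rfl⟩ := hGG1 hG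
    obtain ⟨e, he⟩ := hom F hF
    exact ⟨e, he.map _⟩
  obtain ⟨i₀, hi₀, hrat⟩ := small_ratio (k := k) hΓ hH GG hGom (fun q hq => hno K q (by
      intro F hF
      exact hGG2 _ q hq _ ⟨F, hF, rfl⟩)) (fun j s => u s j) (fun j s => hu s j) w hws
    (Eventually.of_forall fun s => by
      obtain ⟨i, hi⟩ := Function.ne_iff.1 (hx0 s)
      exact ⟨i, by rw [hxw]; exact mul_ne_zero (inv_ne_zero (hq₀ s)) hi⟩)
    (fun G hG => Eventually.of_forall fun s => by
      obtain ⟨F, hF, rfl⟩ := hGG1 hG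
      obtain ⟨e, he⟩ := hom F hF
      have h1 := hz s F hF
      have h2 : (fun i => ∑ j, w (j, i) s * (u s j : K)) = fun i => (d s)⁻¹ * x s i :=
        funext fun i => hxw s i
      rw [h2, Pool.Agent.H458.Sp.aeval_smul_homog _ (he.map _), h1, mul_zero])
  -- the contradiction
  have hall : ∀ᶠ s in (𝒰 : Filter ℕ), ∀ i, ((2 * (n + 1) : ℕ) : ℝ) *
      logHeight₁ ((∑ j, w (j, i) s * (u s j : K)) / ∑ j, w (j, i₀) s * (u s j : K)) ≤ H s :=
    Filter.eventually_all.2 fun i => hrat i _
  obtain ⟨s, h1, h2, h3⟩ := (hall.and (hi₀.and (hev 1))).exists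
  obtain ⟨c, -, -, -, -, -, -, hn⟩ := Pool.Agent.NH29.GN.hn K
  rw [hxw] at h2
  have hx1 : x s i₀ ≠ 0 := right_ne_zero_of_mul h2
  have h4 := hn n (x s) i₀ hx1
  have h5 : ∀ i, logHeight₁ (x s i / x s i₀) ≤ H s / (2 * (n + 1)) := by
    intro i
    have h6 := h1 i
    rw [hxw, hxw, mul_div_mul_left _ _ (inv_ne_zero (hq₀ s))] at h6
    rw [le_div_iff₀ (by positivity)]
    push_cast at h6
    linarith
  have h6 : H s ≤ H s / 2 := by
    calc H s ≤ ∑ i, logHeight₁ (x s i / x s i₀) := h4
      _ ≤ ∑ _i : Fin (n + 1), H s / (2 * (n + 1)) := Finset.sum_le_sum fun i _ => h5 i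
      _ = H s / 2 := by
        rw [Finset.sum_const, Finset.card_univ, Fintype.card_fin, nsmul_eq_mul]
        push_cast
        field_simp
  have h7 := hge s
  have h8 : (1 : ℝ) ≤ s := by exact_mod_cast h3
  linarith

/-- bounded height gives finiteness -/
theorem linBound_bdd {k : Type} [Field k] (FF : Set (MvPolynomial (Fin (n + 1)) (𝓞 k)))
    (h : LinBound FF) : BddFinite FF := by
  intro K _ _ _ Γ hΓ r B
  obtain ⟨C, hC⟩ := h K Γ hΓ r
  refine (Pool.Agent.TH409.SH.northcott_proj K (Real.exp (max C 0 * (1 + B)))).subset ?_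
  rintro P ⟨v, x, hx, rfl, hU, hZ, hB⟩
  refine ⟨x, hx, rfl, ?_⟩
  have h1 := hC v x hU hZ
  have h2 : logHeight x ≤ max C 0 * (1 + B) := by
    refine h1.trans ?_
    have h3 : (0 : ℝ) ≤ 1 + logHeight fun q : Fin r × Fin (n + 1) => v q.1 q.2 := by
      have : 0 ≤ logHeight fun q : Fin r × Fin (n + 1) => v q.1 q.2 := logHeight_nonneg _
      linarith
    calc C * (1 + logHeight fun q : Fin r × Fin (n + 1) => v q.1 q.2)
        ≤ max C 0 * (1 + logHeight fun q : Fin r × Fin (n + 1) => v q.1 q.2) :=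
          mul_le_mul_of_nonneg_right (le_max_left _ _) h3
      _ ≤ max C 0 * (1 + B) := mul_le_mul_of_nonneg_left (by linarith) (le_max_right _ _)
  rw [logHeight_eq_log_mulHeight] at h2
  exact (Real.log_le_iff_le_exp (mulHeight_pos _)).1 h2

theorem bdd_fixed {k : Type} [Field k] (FF : Set (MvPolynomial (Fin (n + 1)) (𝓞 k)))
    (h : BddFinite FF) : FixedFinite FF := by
  intro K _ _ _ Γ hΓ r v
  refine (h K Γ hΓ r (logHeight fun q : Fin r × Fin (n + 1) => v q.1 q.2)).subset ?_
  rintro P ⟨x, hx, hP, hU, hZ⟩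
  exact ⟨v, x, hx, hP, hU, hZ, le_refl _⟩

/-- a nonconstant curve has infinitely many points with parameters in an infinite set -/
theorem curve_infinite {K : Type} [Field K] [Infinite K] (q : Fin (n + 1) → Polynomial K)
    (hq : ∃ i j a b, (q i).eval a * (q j).eval b ≠ (q j).eval a * (q i).eval b)
    (S : Set K) (hS : S.Infinite) :
    {P : Projectivization K (Fin (n + 1) → K) | ∃ t ∈ S, ∃ h : (fun i => (q i).eval t) ≠ 0,
      P = Projectivization.mk K (fun i => (q i).eval t) h}.Infinite := by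
  classical
  intro hfin
  obtain ⟨i1, i2, a0, b0, hi⟩ := hq
  have hne : ∃ i0, q i0 ≠ 0 := by
    by_contra h
    push Not at h
    apply hi
    rw [h i1, h i2]
  obtain ⟨i0, hi0⟩ := hne
  have hT0 : {t : K | (q i0).eval t = 0}.Finite := by
    have : {t : K | (q i0).eval t = 0} = {t | (q i0).IsRoot t} := rfl
    rw [this]
    exact Polynomial.finite_setOfPred_isRoot hi0
  have hfib : ∀ y : Fin (n + 1) → K, y ≠ 0 →
      {t : K | ∀ i j, (q i).eval t * y j = (q j).eval t * y i}.Finite := by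
    intro y hy
    have h1 : ∃ i j, q i * Polynomial.C (y j) ≠ q j * Polynomial.C (y i) := by
      by_contra h
      push Not at h
      obtain ⟨j0, hj0⟩ := Function.ne_iff.1 hy
      simp only [Pi.zero_apply] at hj0
      have h2 : ∀ i, q i = q j0 * Polynomial.C (y i / y j0) := by
        intro i
        have h3 := h i j0
        have h4 : q i * Polynomial.C (y j0) * Polynomial.C (y j0)⁻¹ =
            q j0 * Polynomial.C (y i) * Polynomial.C (y j0)⁻¹ := by rw [h3]
        rw [mul_assoc, mul_assoc, ← Polynomial.C_mul, ← Polynomial.C_mul, mul_inv_cancel₀ hj0,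
          Polynomial.C_1, mul_one, ← div_eq_mul_inv] at h4
        exact h4
      apply hi
      rw [h2 i1, h2 i2]
      simp only [Polynomial.eval_mul, Polynomial.eval_C]
      ring
    obtain ⟨i, j, hij⟩ := h1
    refine (Polynomial.finite_setOfPred_isRoot (sub_ne_zero.2 hij)).subset ?_
    intro t ht
    have := ht i j
    show Polynomial.eval t _ = 0
    rw [Polynomial.eval_sub, Polynomial.eval_mul, Polynomial.eval_mul, Polynomial.eval_C,
      Polynomial.eval_C, this, sub_self]
  refine hS ((hT0.union (hfin.biUnion fun P _ => hfib P.rep P.rep_nonzero)).subset ?_)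
  intro t ht
  by_cases h : (q i0).eval t = 0
  · exact Or.inl h
  · right
    have h3 : (fun i => (q i).eval t) ≠ 0 := fun h0 => h (congrFun h0 i0)
    rw [Set.mem_iUnion₂]
    refine ⟨Projectivization.mk K _ h3, ⟨t, ht, h3, rfl⟩, ?_⟩
    obtain ⟨a, ha⟩ := Projectivization.exists_smul_eq_mk_rep K (fun i => (q i).eval t) h3
    intro i j
    rw [← ha]
    show (q i).eval t * ((a : K) • (fun i => (q i).eval t)) j =
      (q j).eval t * ((a : K) • (fun i => (q i).eval t)) i
    simp only [Pi.smul_apply, smul_eq_mul]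
    ring

/-- the powers of `2` -/
lemma two_pow_infinite (K : Type) [Field K] [NumberField K] :
    (Set.range fun m : ℕ => (2 : K) ^ m).Infinite := by
  refine Set.infinite_range_of_injective ?_
  intro a b h
  have h1 : ((2 ^ a : ℕ) : K) = ((2 ^ b : ℕ) : K) := by
    push_cast
    exact h
  exact Nat.pow_right_injective (le_refl 2) (Nat.cast_injective h1)

theorem fixed_noRat {k : Type} [Field k] (FF : Set (MvPolynomial (Fin (n + 1)) (𝓞 k)))
    (h : FixedFinite FF) : NoRatCurve FF := by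
  classical
  intro K _ _ _ q hq
  by_contra hcon
  push Not at hcon
  set N : ℕ := Finset.univ.sup (fun i => (q i).natDegree) + 1 with hN
  have hqc : ∀ (i : Fin (n + 1)) (t : K),
      (q i).eval t = ∑ m : Fin N, t ^ (m : ℕ) * (q i).coeff m := by
    intro i t
    have hlt : (q i).natDegree < N := by
      have := Finset.le_sup (f := fun i => (q i).natDegree) (Finset.mem_univ i)
      omega
    rw [Polynomial.eval_eq_sum_range' hlt, Finset.sum_range]
    refine Finset.sum_congr rfl fun m _ => mul_comm _ _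
  set two : Kˣ := Units.mk0 2 two_ne_zero with htwo
  refine curve_infinite q hcon _ (two_pow_infinite K) ((h K (Subgroup.zpowers two) ?_ N
    (fun m i => (q i).coeff m)).subset ?_)
  · exact ⟨{two}, by rw [Finset.coe_singleton, Subgroup.zpowers_eq_closure]⟩
  · rintro P ⟨t, ⟨m, rfl⟩, h0, rfl⟩
    refine ⟨_, h0, rfl, ⟨h0, fun j => (two ^ m) ^ (j : ℕ), fun j => ?_, fun i => ?_⟩, ?_⟩
    · exact Subgroup.pow_mem _ (Subgroup.pow_mem _ (Subgroup.mem_zpowers _) _) _
    · refine (hqc i _).trans (Finset.sum_congr rfl fun j _ => ?_)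
      simp only
      push_cast
      rfl
    · intro F hF
      have := MvPolynomial.comp_aeval_apply (R := k) q
        ((Polynomial.aeval ((2 : K) ^ m) : Polynomial K →ₐ[K] K).restrictScalars k)
        (MvPolynomial.map (algebraMap (𝓞 k) k) F)
      rw [hq F hF, map_zero] at this
      exact this.symm

/-- **The equivalences.** -/
theorem tfae {k : Type} [Field k] (FF : Set (MvPolynomial (Fin (n + 1)) (𝓞 k)))
    (hom : ∀ F ∈ FF, ∃ e, F.IsHomogeneous e) :
    [NoRatCurve FF, LinBound FF, BddFinite FF, FixedFinite FF].TFAE := by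
  tfae_have 1 → 2 := noRat_linBound FF hom
  tfae_have 2 → 3 := linBound_bdd FF
  tfae_have 3 → 4 := bdd_fixed FF
  tfae_have 4 → 1 := fixed_noRat FF
  tfae_finish

end Pool.Agent.V8H29.SU
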