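import Mathlib
import Pool.Agent.V8H29.SU6

/-!
# Moving forms at sums of units: the class sums vanish
-/

set_option autoImplicit false

namespace Pool.Agent.V8H29.SV

open Filter Height MvPolynomial
open Pool.Agent.NH29.GN (SmN MueStm)
open Pool.Agent.V8H29.SU

/-- The logarithmic height (relative to `K`) of the vector of the coefficients of `F`. -/
noncomputable def coefHeight {K : Type} [Field K] [NumberField K] {n : ℕ}
    (F : MvPolynomial (Fin (n + 1)) K) : ℝ := logHeight fun β : F.support => F.coeff (β : Fin (n + 1) →₀ ℕ)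

/-- the exponents of degree `e` -/
def TT (r e : ℕ) : Finset (Fin r →₀ ℕ) := Finset.finsuppAntidiag Finset.univ e

lemma mem_TT {r e : ℕ} {α : Fin r →₀ ℕ} : α ∈ TT r e ↔ α.degree = e := by
  unfold TT
  rw [Finset.mem_finsuppAntidiag, Finsupp.degree_eq_sum]
  simp

variable {κ : Type} [Field κ] {n r : ℕ}

/-- a class sum -/
noncomputable def CS (l : Fin r → ℕ) (u : Fin r → κ) (w : Fin r × Fin (n + 1) → κ)
    (F : MvPolynomial (Fin (n + 1)) κ) (e m : ℕ) : κ :=
  ∑ α ∈ TT r e with ∑ j, l j * α j = m, aeval w ((GG r F).coeff α) * ∏ j, u j ^ α j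

lemma supp_TT {F : MvPolynomial (Fin (n + 1)) κ} {e : ℕ} (hF : F.IsHomogeneous e) :
    (GG r F).support ⊆ TT r e := by
  intro α hα
  rw [mem_TT]
  have h1 := (GG_homog (r := r) hF) (mem_support_iff.1 hα)
  rw [← h1, Finsupp.degree_eq_weight_one]
  rfl

lemma GG_eval' {L : Type} [CommRing L] [Algebra κ L] {F : MvPolynomial (Fin (n + 1)) κ} {e : ℕ}
    (hF : F.IsHomogeneous e) (w : Fin r × Fin (n + 1) → L) (y : Fin r → L) :
    aeval (fun i => ∑ j : Fin r, w (j, i) * y j) F =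
      ∑ α ∈ TT r e, aeval w ((GG r F).coeff α) * ∏ j, y j ^ α j := by
  rw [GG_eval F w y]
  refine Finset.sum_subset (supp_TT hF) fun α _ hα => ?_
  rw [notMem_support_iff.1 hα, map_zero, zero_mul]

/-- the value of a form at the curve -/
lemma wc_zero {F : MvPolynomial (Fin (n + 1)) κ} {e : ℕ} (hF : F.IsHomogeneous e) [NumberField κ]
    (l : Fin r → ℕ) (u : Fin r → κ) (w : Fin r × Fin (n + 1) → κ) (h : ∀ m : ℕ, CS l u w F e m = 0) :
    aeval (wc l u w) F = 0 := by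
  classical
  refine wc_aeval F l u w fun m => ?_
  rw [← h m]
  unfold CS
  refine Finset.sum_subset (fun α hα => ?_) fun α _ hα => ?_
  · rw [Finset.mem_filter] at hα ⊢
    exact ⟨supp_TT hF hα.1, hα.2⟩
  · rename_i h1
    rw [Finset.mem_filter] at hα h1
    have : α ∉ (GG r F).support := fun h2 => hα ⟨h2, h1.2⟩
    rw [notMem_support_iff.1 this, map_zero, zero_mul]

/-- the value of a form on the orbit of the subtorus given by `S` -/
lemma orbit_zero {F : MvPolynomial (Fin (n + 1)) κ} {e : ℕ} (hF : F.IsHomogeneous e)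
    (l : Fin r → ℕ) (u : Fin r → κ) (w : Fin r × Fin (n + 1) → κ) (h : ∀ m : ℕ, CS l u w F e m = 0)
    (S : Set (Fin r → ℤ)) (hS : ∀ α ∈ TT r e, ∀ β ∈ TT r e, ∑ j, l j * α j = ∑ j, l j * β j →
      dif α β ∈ AddSubgroup.closure S) (A : Type) [CommRing A] [Algebra κ A] (t : Fin r → Aˣ)
    (ht : ∀ γ ∈ S, ∏ j, t j ^ γ j = 1) :
    aeval (fun i => ∑ j, algebraMap κ A (w (j, i)) * ((t j : A) * algebraMap κ A (u j))) F = 0 := by
  classical
  -- monomials on the closure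
  have ht' : ∀ γ ∈ AddSubgroup.closure S, ∏ j, t j ^ γ j = 1 := by
    intro γ hγ
    induction hγ using AddSubgroup.closure_induction with
    | mem γ hγ => exact ht γ hγ
    | zero => simp
    | add x y _ _ hx hy =>
      simp only [Pi.add_apply, zpow_add]
      rw [Finset.prod_mul_distrib, hx, hy, one_mul]
    | neg x _ hx =>
      simp only [Pi.neg_apply, zpow_neg]
      rw [Finset.prod_inv_distrib, hx, inv_one]
  have hmon : ∀ α ∈ TT r e, ∀ β ∈ TT r e, ∑ j, l j * α j = ∑ j, l j * β j →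
      ∏ j, t j ^ α j = ∏ j, t j ^ β j := by
    intro α hα β hβ hab
    have h1 := ht' _ (hS α hα β hβ hab)
    unfold dif at h1
    simp only [zpow_sub, zpow_natCast] at h1
    rw [Finset.prod_mul_distrib, Finset.prod_inv_distrib, mul_inv_eq_one] at h1
    exact h1
  have h1 := GG_eval' hF (fun q => algebraMap κ A (w q)) (fun j => (t j : A) * algebraMap κ A (u j))
  rw [h1]
  have h2 : ∀ α : Fin r →₀ ℕ, aeval (fun q => algebraMap κ A (w q)) ((GG r F).coeff α) *
      ∏ j, ((t j : A) * algebraMap κ A (u j)) ^ α j =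
      ((∏ j, t j ^ α j : Aˣ) : A) *
        algebraMap κ A (aeval w ((GG r F).coeff α) * ∏ j, u j ^ α j) := by
    intro α
    have h3 : aeval (fun q => algebraMap κ A (w q)) ((GG r F).coeff α) =
        algebraMap κ A (aeval w ((GG r F).coeff α)) :=
      MvPolynomial.aeval_algebraMap_apply A w _
    rw [h3]
    simp only [mul_pow]
    rw [Finset.prod_mul_distrib, map_mul, map_prod]
    push_cast
    ring
  rw [Finset.sum_congr rfl fun α _ => h2 α]
  rw [← Finset.sum_fiberwise_of_maps_to (g := fun α : Fin r →₀ ℕ => ∑ j, l j * α j)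
    (t := (TT r e).image fun α : Fin r →₀ ℕ => ∑ j, l j * α j)
    (fun α hα => Finset.mem_image_of_mem _ hα)]
  refine Finset.sum_eq_zero fun m hm => ?_
  obtain ⟨α₀, hα₀, hm⟩ := Finset.mem_image.1 hm
  have h4 : ∀ α ∈ (TT r e).filter fun α : Fin r →₀ ℕ => ∑ j, l j * α j = m,
      ((∏ j, t j ^ α j : Aˣ) : A) *
        algebraMap κ A (aeval w ((GG r F).coeff α) * ∏ j, u j ^ α j) =
      ((∏ j, t j ^ α₀ j : Aˣ) : A) *
        algebraMap κ A (aeval w ((GG r F).coeff α) * ∏ j, u j ^ α j) := by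
    intro α hα
    rw [Finset.mem_filter] at hα
    rw [hmon α hα.1 α₀ hα₀ (hα.2.trans hm.symm)]
  rw [Finset.sum_congr rfl h4, ← Finset.mul_sum, ← map_sum]
  have h5 := h m
  unfold CS at h5
  rw [h5, map_zero, mul_zero]

/-- the coefficients are linear in the form -/
lemma GG_coeff {F : MvPolynomial (Fin (n + 1)) κ} {e : ℕ} (hF : F.IsHomogeneous e)
    (w : Fin r × Fin (n + 1) → κ) (α : Fin r →₀ ℕ) :
    aeval w ((GG r F).coeff α) = ∑ β ∈ TT (n + 1) e, F.coeff β *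
      aeval w ((GG r (monomial β (1 : κ))).coeff α) := by
  classical
  have h0 : F = ∑ β ∈ TT (n + 1) e, F.coeff β • monomial β (1 : κ) := by
    conv_lhs => rw [F.as_sum]
    refine (Finset.sum_subset (fun β hβ => ?_) fun β _ hβ => ?_).trans
      (Finset.sum_congr rfl fun β _ => ?_)
    · rw [mem_TT]
      have h1 := hF (mem_support_iff.1 hβ)
      rw [← h1, Finsupp.degree_eq_weight_one]
      rfl
    · rw [notMem_support_iff.1 hβ, monomial_zero]
    · rw [smul_monomial, smul_eq_mul, mul_one]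
  have h1 : GG r F = ∑ β ∈ TT (n + 1) e, F.coeff β • GG r (monomial β (1 : κ)) := by
    conv_lhs => rw [h0]
    unfold GG
    rw [map_sum]
    exact Finset.sum_congr rfl fun β _ => map_smul _ _ _
  rw [h1, coeff_sum, map_sum]
  refine Finset.sum_congr rfl fun β _ => ?_
  rw [coeff_smul, map_smul, smul_eq_mul]

variable [NumberField κ] {𝒰 : Ultrafilter ℕ} {H : ℕ → ℝ}

/-- **Moving forms.** -/
theorem movform {Γ : Subgroup κˣ} (hΓ : Γ.FG)
    (hH : ∀ B : ℝ, ∀ᶠ s in (𝒰 : Filter ℕ), B ≤ H s) {e : ℕ}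
    (u : Fin r → ℕ → κˣ) (hu : ∀ j s, u j s ∈ Γ) (w : Fin r × Fin (n + 1) → ℕ → κ)
    (hw : ∀ q, SmN 𝒰 H (w q)) (F : ℕ → MvPolynomial (Fin (n + 1)) κ)
    (hom : ∀ᶠ s in (𝒰 : Filter ℕ), (F s).IsHomogeneous e)
    (hc : ∀ N : ℕ, ∀ᶠ s in (𝒰 : Filter ℕ), N * coefHeight (F s) ≤ H s)
    (hF : ∀ᶠ s in (𝒰 : Filter ℕ), aeval (fun i => ∑ j, w (j, i) s * (u j s : κ)) (F s) = 0)
    (l : Fin r → ℕ) (hl : ∀ α ∈ TT r e, ∀ β ∈ TT r e,
      ((∑ j, l j * α j = ∑ j, l j * β j) ↔ SmN 𝒰 H fun s =>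
        ((∏ j, u j s ^ α j : κˣ) : κ) / ((∏ j, u j s ^ β j : κˣ) : κ))) (m : ℕ) :
    ∀ᶠ s in (𝒰 : Filter ℕ), CS l (fun j => (u j s : κ)) (fun q => w q s) (F s) e m = 0 := by
  classical
  -- the leading coefficients
  have hlead : ∀ s, ∃ a : κ, a ≠ 0 ∧ ∀ β, logHeight₁ ((F s).coeff β / a) ≤ coefHeight (F s) := by
    intro s
    by_cases h0 : F s = 0
    · refine ⟨1, one_ne_zero, fun β => ?_⟩
      rw [h0, coeff_zero, zero_div, logHeight₁_zero]
      exact logHeight_nonneg _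
    · obtain ⟨β₀, hβ₀⟩ := Finset.nonempty_iff_ne_empty.2 (fun h => h0 (support_eq_empty.1 h))
      refine ⟨(F s).coeff β₀, mem_support_iff.1 hβ₀, fun β => ?_⟩
      by_cases hβ : β ∈ (F s).support
      · rw [logHeight₁_div_eq_logHeight]
        have h2 : (![(F s).coeff β, (F s).coeff β₀] : Fin 2 → κ) =
            (fun β : (F s).support => (F s).coeff (β : Fin (n + 1) →₀ ℕ)) ∘
              ![⟨β, hβ⟩, ⟨β₀, hβ₀⟩] := by
          funext a
          fin_cases a <;> rfl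
        rw [h2]
        exact logHeight_comp_le _ _
      · rw [notMem_support_iff.1 hβ, zero_div, logHeight₁_zero]
        exact logHeight_nonneg _
  choose a ha hab using hlead
  have hcs : ∀ β, SmN 𝒰 H fun s => (F s).coeff β / a s := by
    intro β N
    filter_upwards [hc N] with s hs
    exact (mul_le_mul_of_nonneg_left (hab s β) (Nat.cast_nonneg N)).trans hs
  set cc : (Fin r →₀ ℕ) → ℕ → κ := fun α s => ∑ β ∈ TT (n + 1) e, (F s).coeff β / a s *
    aeval (fun q => w q s) ((GG r (monomial β (1 : κ))).coeff α) with hcc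
  have hccs : ∀ α, SmN 𝒰 H (cc α) := fun α =>
    sm_sum hH _ fun β _ => sm_mul (hcs β) (sm_aeval hH w hw _)
  have hcce : ∀ᶠ s in (𝒰 : Filter ℕ), ∀ α, a s * cc α s =
      aeval (fun q => w q s) ((GG r (F s)).coeff α) := by
    filter_upwards [hom] with s hs α
    rw [GG_coeff hs, hcc]
    simp only
    rw [Finset.mul_sum]
    refine Finset.sum_congr rfl fun β _ => ?_
    rw [← mul_assoc, mul_div_cancel₀ _ (ha s)]
  have hcl := class_sums mue0 hΓ hH (TT r e)
      (fun α s => ∏ j, u j s ^ α j) (fun α s => Subgroup.prod_mem _ fun j _ =>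
        Γ.pow_mem (hu j s) _) cc (fun α _ => hccs α) (by
        filter_upwards [hF, hom, hcce] with s hs h1 h2
        rw [GG_eval' h1 (fun q => w q s) (fun j => (u j s : κ))] at hs
        apply mul_left_cancel₀ (ha s)
        rw [mul_zero, ← hs, Finset.mul_sum]
        refine Finset.sum_congr rfl fun α _ => ?_
        rw [← mul_assoc, h2]
        push_cast
        rfl)
      (fun α => ∑ j, l j * α j) (fun α hα β hβ hab => (hl α hα β hβ).1 hab)
      (fun α hα β hβ hab => (hl α hα β hβ).2 hab) m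
  filter_upwards [hcl, hcce] with s h1 h2
  unfold CS
  rw [← mul_zero (a s), ← h1, Finset.mul_sum]
  refine Finset.sum_congr rfl fun α _ => ?_
  rw [← h2, mul_assoc]
  push_cast
  rfl

/-- **All forms at once.** -/
theorem allforms {Γ : Subgroup κˣ} (hΓ : Γ.FG)
    (hH : ∀ B : ℝ, ∀ᶠ s in (𝒰 : Filter ℕ), B ≤ H s) {d : ℕ}
    (u : Fin r → ℕ → κˣ) (hu : ∀ j s, u j s ∈ Γ) (w : Fin r × Fin (n + 1) → ℕ → κ)
    (hw : ∀ q, SmN 𝒰 H (w q)) (FF : ℕ → Set (MvPolynomial (Fin (n + 1)) κ)) (h : ℕ → ℝ)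
    (hh : ∀ N : ℕ, ∀ᶠ s in (𝒰 : Filter ℕ), N * h s ≤ H s)
    (hFF : ∀ s, ∀ F ∈ FF s, coefHeight F ≤ h s)
    (hF : ∀ s, ∀ F ∈ FF s, aeval (fun i => ∑ j, w (j, i) s * (u j s : κ)) F = 0)
    (l : Fin r → ℕ) (hl : ∀ e ≤ d, ∀ α ∈ TT r e, ∀ β ∈ TT r e,
      ((∑ j, l j * α j = ∑ j, l j * β j) ↔ SmN 𝒰 H fun s =>
        ((∏ j, u j s ^ α j : κˣ) : κ) / ((∏ j, u j s ^ β j : κˣ) : κ))) :
    ∀ᶠ s in (𝒰 : Filter ℕ), ∀ F ∈ FF s, ∀ e ≤ d, F.IsHomogeneous e → ∀ m,
      CS l (fun j => (u j s : κ)) (fun q => w q s) F e m = 0 := by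
  classical
  by_contra hcon
  have h1 := Ultrafilter.eventually_not.2 hcon
  -- the bad forms
  set P : ℕ → MvPolynomial (Fin (n + 1)) κ → ℕ → ℕ → Prop := fun s F e m =>
    F ∈ FF s ∧ e ≤ d ∧ F.IsHomogeneous e ∧
      CS l (fun j => (u j s : κ)) (fun q => w q s) F e m ≠ 0 with hP
  have h2 : ∀ᶠ s in (𝒰 : Filter ℕ), ∃ F e m, P s F e m := by
    filter_upwards [h1] with s hs
    push Not at hs
    obtain ⟨F, hF, e, he, hom, m, hm⟩ := hs
    exact ⟨F, e, m, hF, he, hom, hm⟩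
  have h3 : ∃ G : ℕ → MvPolynomial (Fin (n + 1)) κ, ∀ᶠ s in (𝒰 : Filter ℕ), ∃ e m, P s (G s) e m := by
    refine ⟨fun s => if hs : ∃ F e m, P s F e m then hs.choose else 0, ?_⟩
    filter_upwards [h2] with s hs
    rw [dif_pos hs]
    exact hs.choose_spec
  obtain ⟨G, hG⟩ := h3
  have h4 : ∃ e : Fin (d + 1), ∀ᶠ s in (𝒰 : Filter ℕ), ∃ m, P s (G s) e m := by
    refine ev_exists (P := fun (e : Fin (d + 1)) s => ∃ m, P s (G s) e m) ?_
    filter_upwards [hG] with s hs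
    obtain ⟨e, m, hem⟩ := hs
    exact ⟨⟨e, Nat.lt_succ_of_le hem.2.1⟩, m, hem⟩
  obtain ⟨e, he⟩ := h4
  have h5 : ∃ m : (TT r e).image (fun α : Fin r →₀ ℕ => ∑ j, l j * α j),
      ∀ᶠ s in (𝒰 : Filter ℕ), P s (G s) e m := by
    refine ev_exists (P := fun (m : (TT r e).image (fun α : Fin r →₀ ℕ => ∑ j, l j * α j)) s =>
      P s (G s) e m) ?_
    filter_upwards [he] with s hs
    obtain ⟨m, hm⟩ := hs
    refine ⟨⟨m, ?_⟩, hm⟩
    by_contra hcon
    apply hm.2.2.2
    unfold CS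
    refine Finset.sum_eq_zero fun α hα => ?_
    rw [Finset.mem_filter] at hα
    exact absurd (hα.2 ▸ Finset.mem_image_of_mem (fun α : Fin r →₀ ℕ => ∑ j, l j * α j) hα.1) hcon
  obtain ⟨m, hm⟩ := h5
  have h6 := movform hΓ hH (e := e) u hu w hw G (by
      filter_upwards [hm] with s hs
      exact hs.2.2.1) (fun N => by
      filter_upwards [hm, hh N] with s hs h7
      exact (mul_le_mul_of_nonneg_left (hFF s _ hs.1) (Nat.cast_nonneg N)).trans h7) (by
      filter_upwards [hm] with s hs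
      exact hF s _ hs.1) l (hl e (Nat.le_of_lt_succ e.2)) m
  obtain ⟨s, h7, h8⟩ := (hm.and h6).exists
  exact h7.2.2.2 h8

end Pool.Agent.V8H29.SV
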