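import Mathlib
import Pool.Agent.V8H29.SV1

/-!
# The torus orbit structure of short sums of units on moving varieties
-/

set_option autoImplicit false

namespace Pool.Agent.V8H29.SV

open Filter Height MvPolynomial
open Pool.Agent.NH29.GN (SmN MueStm)
open Pool.Agent.V8H29.SU

/-- `FF` consists of forms of degree at most `d` whose coefficient vectors have height at most
`h`. -/
def Forms {K : Type} [Field K] [NumberField K] {n : ℕ} (d : ℕ) (h : ℝ)
    (FF : Set (MvPolynomial (Fin (n + 1)) K)) : Prop :=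
  ∀ F ∈ FF, (∃ e ≤ d, F.IsHomogeneous e) ∧ coefHeight F ≤ h

/-- a projection onto a saturated subgroup -/
lemma exists_retract {r : ℕ} (Λ : AddSubgroup (Fin r → ℤ))
    (hsat : ∀ (m : ℤ) (γ : Fin r → ℤ), m ≠ 0 → m • γ ∈ Λ → γ ∈ Λ) :
    ∃ π : (Fin r → ℤ) →ₗ[ℤ] (Fin r → ℤ), (∀ x, π x ∈ Λ) ∧ ∀ x ∈ Λ, π x = x := by
  set N : Submodule ℤ (Fin r → ℤ) := AddSubgroup.toIntSubmodule Λ with hN
  have hmem : ∀ x, x ∈ N ↔ x ∈ Λ := fun x => Iff.rfl
  have htf : Module.IsTorsionFree ℤ ((Fin r → ℤ) ⧸ N) := by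
    refine ⟨fun m hm => ?_⟩
    have hm0 : m ≠ 0 := hm.ne_zero
    intro x y hxy
    obtain ⟨x, rfl⟩ := N.mkQ_surjective x
    obtain ⟨y, rfl⟩ := N.mkQ_surjective y
    simp only [← map_smul] at hxy
    rw [← sub_eq_zero, ← map_sub, Submodule.mkQ_apply, Submodule.Quotient.mk_eq_zero] at hxy ⊢
    rw [← smul_sub] at hxy
    exact hsat m _ hm0 hxy
  obtain ⟨σ, hσ⟩ := LinearMap.exists_rightInverse_of_surjective N.mkQ
    (LinearMap.range_eq_top.2 N.mkQ_surjective)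
  have hσ' : ∀ y, N.mkQ (σ y) = y := fun y => LinearMap.congr_fun hσ y
  refine ⟨LinearMap.id - σ.comp N.mkQ, fun x => ?_, fun x hx => ?_⟩
  · have h1 : N.mkQ ((LinearMap.id - σ.comp N.mkQ : (Fin r → ℤ) →ₗ[ℤ] (Fin r → ℤ)) x) = 0 := by
      rw [LinearMap.sub_apply, LinearMap.id_apply, LinearMap.comp_apply, map_sub, hσ', sub_self]
    rw [Submodule.mkQ_apply, Submodule.Quotient.mk_eq_zero] at h1
    exact h1
  · have h1 : N.mkQ x = 0 := by
      rw [Submodule.mkQ_apply, Submodule.Quotient.mk_eq_zero]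
      exact hx
    rw [LinearMap.sub_apply, LinearMap.id_apply, LinearMap.comp_apply, h1, map_zero, sub_zero]

lemma prod_zpow_sum {G ι : Type} [CommGroup G] (g : G) (s : Finset ι) (f : ι → ℤ) :
    ∏ j ∈ s, g ^ f j = g ^ ∑ j ∈ s, f j := by
  classical
  induction s using Finset.induction_on with
  | empty => simp
  | insert a s ha ih => rw [Finset.prod_insert ha, Finset.sum_insert ha, zpow_add, ih]

/-- finite generation -/
lemma exists_gens {r : ℕ} (Λ : AddSubgroup (Fin r → ℤ)) :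
    ∃ S : Finset (Fin r → ℤ), AddSubgroup.closure (S : Set (Fin r → ℤ)) = Λ := by
  obtain ⟨S, hS⟩ := IsNoetherian.noetherian (AddSubgroup.toIntSubmodule Λ)
  refine ⟨S, ?_⟩
  have h1 := congrArg Submodule.toAddSubgroup hS
  rw [Submodule.span_int_eq_addSubgroupClosure] at h1
  rw [h1]
  exact AddSubgroup.toIntSubmodule_toAddSubgroup Λ

/-- normalisation of vectors -/
lemma exists_norm {K : Type} [Field K] [NumberField K] {ι : Type} [Finite ι] (v : ι → K) :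
    ∃ a : K, a ≠ 0 ∧ ∀ q, logHeight₁ (v q / a) ≤ logHeight v := by
  by_cases h0 : v = 0
  · refine ⟨1, one_ne_zero, fun q => ?_⟩
    rw [h0, Pi.zero_apply, zero_div, logHeight₁_zero]
    exact logHeight_nonneg _
  · obtain ⟨q₀, hq₀⟩ := Function.ne_iff.1 h0
    refine ⟨v q₀, hq₀, fun q => ?_⟩
    rw [logHeight₁_div_eq_logHeight]
    have h2 : (![v q, v q₀] : Fin 2 → K) = v ∘ ![q, q₀] := by
      funext a
      fin_cases a <;> rfl
    rw [h2]
    exact logHeight_comp_le _ _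

/-- a bounded scale -/
noncomputable def scale {K : Type} [Field K] [NumberField K] {n r : ℕ} (h : ℝ)
    (v : Fin r → Fin (n + 1) → K) : ℝ :=
  1 + h + logHeight fun q : Fin r × Fin (n + 1) => v q.1 q.2

lemma one_le_scale {K : Type} [Field K] [NumberField K] {n r : ℕ} {h : ℝ} (hh : 0 ≤ h)
    (v : Fin r → Fin (n + 1) → K) : 1 ≤ scale h v := by
  unfold scale
  have : 0 ≤ logHeight fun q : Fin r × Fin (n + 1) => v q.1 q.2 := logHeight_nonneg _
  linarith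

/-- the sequences attached to a sequence of counterexamples -/
theorem setup {K : Type} [Field K] [NumberField K] {n r : ℕ} (h : ℕ → ℝ) (hh : ∀ s, 0 ≤ h s)
    (v : ℕ → Fin r → Fin (n + 1) → K) :
    ∃ (𝒰 : Ultrafilter ℕ) (a : ℕ → K), (∀ N : ℕ, ∀ᶠ s in (𝒰 : Filter ℕ), N ≤ s) ∧
      (∀ s, a s ≠ 0) ∧
      (∀ B : ℝ, ∀ᶠ s : ℕ in (𝒰 : Filter ℕ), B ≤ (s : ℝ) * scale (h s) (v s)) ∧
      (∀ N : ℕ, ∀ᶠ s : ℕ in (𝒰 : Filter ℕ), N * h s ≤ (s : ℝ) * scale (h s) (v s)) ∧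
      ∀ q : Fin r × Fin (n + 1), SmN 𝒰 (fun s => (s : ℝ) * scale (h s) (v s))
        fun s => v s q.1 q.2 / a s := by
  have hev : ∀ N : ℕ, ∀ᶠ s in ((Filter.hyperfilter ℕ : Ultrafilter ℕ) : Filter ℕ), N ≤ s :=
    fun N => Nat.hyperfilter_le_atTop (eventually_ge_atTop N)
  choose a ha hav using fun s => exists_norm fun q : Fin r × Fin (n + 1) => v s q.1 q.2
  have hv0 : ∀ s, 0 ≤ logHeight (fun q : Fin r × Fin (n + 1) => v s q.1 q.2) := fun s =>
    logHeight_nonneg _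
  refine ⟨Filter.hyperfilter ℕ, a, hev, ha, fun B => ?_, fun N => ?_, fun q N => ?_⟩
  · obtain ⟨N, hN⟩ := exists_nat_ge B
    filter_upwards [hev N] with s hs
    calc B ≤ N := hN
      _ ≤ s := Nat.cast_le.2 hs
      _ = s * 1 := (mul_one _).symm
      _ ≤ s * scale (h s) (v s) :=
        mul_le_mul_of_nonneg_left (one_le_scale (hh s) _) (Nat.cast_nonneg s)
  · filter_upwards [hev N] with s hs
    refine mul_le_mul (Nat.cast_le.2 hs) ?_ (hh s) (Nat.cast_nonneg s)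
    unfold scale
    linarith [hv0 s]
  · filter_upwards [hev N] with s hs
    refine mul_le_mul (Nat.cast_le.2 hs) ((hav s q).trans ?_) (zero_le_logHeight₁ _)
      (Nat.cast_nonneg s)
    unfold scale
    linarith [hh s]

/-- all the exponents -/
lemma exists_l {κ : Type} [Field κ] [NumberField κ] {𝒰 : Ultrafilter ℕ} {H : ℕ → ℝ} {r : ℕ}
    (hH : ∀ B : ℝ, ∀ᶠ s in (𝒰 : Filter ℕ), B ≤ H s) (u : Fin r → ℕ → κˣ) (d : ℕ) :
    ∃ l : Fin r → ℕ, (∀ γ ∈ Lam 𝒰 H hH u, ∑ j, (l j : ℤ) * γ j = 0) ∧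
      ∀ e ≤ d, ∀ α ∈ TT r e, ∀ β ∈ TT r e,
      ((∑ j, l j * α j = ∑ j, l j * β j) ↔ SmN 𝒰 H fun s =>
        ((∏ j, u j s ^ α j : κˣ) : κ) / ((∏ j, u j s ^ β j : κˣ) : κ)) := by
  classical
  set T : Finset (Fin r →₀ ℕ) := (Finset.range (d + 1)).biUnion fun e => TT r e with hT
  set Z : Finset (Fin r → ℤ) := (((T ×ˢ T).filter fun p => p.1.degree = p.2.degree).image
    fun p => dif p.1 p.2).filter fun γ => γ ∉ Lam 𝒰 H hH u with hZ
  obtain ⟨l, hl1, hl2⟩ := weights (Lam 𝒰 H hH u) (fun m γ hm h => Lam_sat hH u m γ hm h)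
    (fun γ h => h.1) Z (by
      intro z hz
      obtain ⟨p, hp, rfl⟩ := Finset.mem_image.1 (Finset.mem_filter.1 hz).1
      exact dif_sum (Finset.mem_filter.1 hp).2) (fun z hz => (Finset.mem_filter.1 hz).2)
  refine ⟨l, hl1, fun e he α hα' β hβ' => ?_⟩
  have hα : α ∈ T := Finset.mem_biUnion.2 ⟨e, Finset.mem_range.2 (Nat.lt_succ_of_le he), hα'⟩
  have hβ : β ∈ T := Finset.mem_biUnion.2 ⟨e, Finset.mem_range.2 (Nat.lt_succ_of_le he), hβ'⟩
  have hd : α.degree = β.degree := (mem_TT.1 hα').trans (mem_TT.1 hβ').symm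
  have e1 : ∑ j, (l j : ℤ) * dif α β j = ((∑ j, l j * α j : ℕ) : ℤ) - (∑ j, l j * β j : ℕ) := by
    push_cast
    rw [← Finset.sum_sub_distrib]
    refine Finset.sum_congr rfl fun j _ => ?_
    unfold dif
    ring
  have e2 : dif α β ∈ Lam 𝒰 H hH u ↔ SmN 𝒰 H fun s =>
        ((∏ j, u j s ^ α j : κˣ) : κ) / ((∏ j, u j s ^ β j : κˣ) : κ) := by
    constructor
    · intro h
      exact sm_congr h.2 (Eventually.of_forall fun s => dif_prod u α β s)
    · intro h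
      exact ⟨dif_sum hd, sm_congr h (Eventually.of_forall fun s => (dif_prod u α β s).symm)⟩
  rw [← e2]
  constructor
  · intro h
    by_contra hcon
    have h3 := hl2 (dif α β) (Finset.mem_filter.2 ⟨Finset.mem_image.2 ⟨(α, β),
      Finset.mem_filter.2 ⟨Finset.mem_product.2 ⟨hα, hβ⟩, hd⟩, rfl⟩, hcon⟩)
    rw [e1, h, sub_self] at h3
    exact h3 rfl
  · intro h
    have h3 := hl1 _ h
    rw [e1, sub_eq_zero] at h3
    exact_mod_cast h3

end Pool.Agent.V8H29.SV
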