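import Mathlib
import Pool.Agent.V8H29.SV2

/-!
# Rational curves through short sums of units of large height, on moving varieties
-/

set_option autoImplicit false

namespace Pool.Agent.V8H29.SV

open Filter Height MvPolynomial
open Pool.Agent.NH29.GN (SmN MueStm)
open Pool.Agent.V8H29.SU
open Pool.Agent.H458.Sp (BrodyHyperbolic)

/-- the curve `T ↦ ∑ T ^ (l_j) u_j v_j` -/
noncomputable def curve {K : Type} [Field K] {n r : ℕ} (l : Fin r → ℕ)
    (v : Fin r → Fin (n + 1) → K) (u : Fin r → Kˣ) (i : Fin (n + 1)) : Polynomial K :=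
  ∑ j, Polynomial.C (u j * v j i) * Polynomial.X ^ l j

/-- the polynomials `q_i` define a nonconstant rational map to projective space -/
def Nonconst {K : Type} [Field K] {n : ℕ} (q : Fin (n + 1) → Polynomial K) : Prop :=
  ∃ (i j : Fin (n + 1)) (a b : K), (q i).eval a * (q j).eval b ≠ (q j).eval a * (q i).eval b

lemma curve_eval_one {K : Type} [Field K] {n r : ℕ} (l : Fin r → ℕ)
    (v : Fin r → Fin (n + 1) → K) (u : Fin r → Kˣ) (i : Fin (n + 1)) :
    (curve l v u i).eval 1 = ∑ j, (u j : K) * v j i := by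
  unfold curve
  rw [Polynomial.eval_finsetSum]
  refine Finset.sum_congr rfl fun j _ => ?_
  simp

lemma curve_coeff {K : Type} [Field K] {n r : ℕ} (l : Fin r → ℕ)
    (v : Fin r → Fin (n + 1) → K) (u : Fin r → Kˣ) (i : Fin (n + 1)) (m : ℕ) :
    (curve l v u i).coeff m = ∑ j with l j = m, (u j : K) * v j i := by
  classical
  unfold curve
  rw [Polynomial.finsetSum_coeff, Finset.sum_filter]
  refine Finset.sum_congr rfl fun j _ => ?_
  rw [Polynomial.coeff_C_mul_X_pow]
  by_cases h : l j = m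
  · rw [if_pos h.symm, if_pos h]
  · rw [if_neg (Ne.symm h), if_neg h]

/-- Brody hyperbolic varieties have no rational curves. -/
theorem brody_noCurve {K : Type} [Field K] {n : ℕ} (σ : K →+* ℂ)
    (FF : Set (MvPolynomial (Fin (n + 1)) K)) (hom : ∀ F ∈ FF, ∃ e, F.IsHomogeneous e)
    (hyp : BrodyHyperbolic ((MvPolynomial.map σ) '' FF)) (q : Fin (n + 1) → Polynomial K)
    (hq : ∀ F ∈ FF, aeval q F = 0) : ¬ Nonconst q := by
  rintro ⟨i, j, a, b, hab⟩
  apply hab
  have h := Pool.Agent.TH409.SH.no_curveC' _ (by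
      rintro _ ⟨F, hF, rfl⟩
      obtain ⟨e, he⟩ := hom F hF
      exact ⟨e, he.map _⟩) hyp (fun i => (q i).map σ) (by
      rintro _ ⟨F, hF, rfl⟩
      have h1 := hq F hF
      have h2 := congrArg (Polynomial.mapRingHom σ) h1
      rw [map_zero, aeval_def, MvPolynomial.hom_eval₂] at h2
      rw [aeval_def, MvPolynomial.eval₂_map, ← h2]
      congr 1
      ext a
      simp) i j (σ a) (σ b)
  simp only [Polynomial.eval_map_apply] at h
  rw [← map_mul, ← map_mul] at h
  exact σ.injective h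

variable {κ : Type} [Field κ] [NumberField κ] {𝒰 : Ultrafilter ℕ} {H : ℕ → ℝ} {n r : ℕ}

/-- if the curves are constant, the ratios of the coordinates are small -/
theorem small_of_prop (hH : ∀ B : ℝ, ∀ᶠ s in (𝒰 : Filter ℕ), B ≤ H s) (l : Fin r → ℕ)
    (u : Fin r → ℕ → κˣ) (hl : ∀ j j', l j = l j' → SmN 𝒰 H fun s => (u j s : κ) / u j' s)
    (w : Fin r × Fin (n + 1) → ℕ → κ) (hw : ∀ q, SmN 𝒰 H (w q))
    (hx : ∀ᶠ s in (𝒰 : Filter ℕ), ∃ i, ∑ j, w (j, i) s * (u j s : κ) ≠ 0)
    (hprop : ∀ᶠ s in (𝒰 : Filter ℕ), ∀ (m : ℕ) (i i' : Fin (n + 1)),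
      (∑ j with l j = m, w (j, i) s * (u j s : κ)) * ∑ j, w (j, i') s * (u j s : κ) =
      (∑ j with l j = m, w (j, i') s * (u j s : κ)) * ∑ j, w (j, i) s * (u j s : κ)) :
    ∃ i₀, (∀ᶠ s in (𝒰 : Filter ℕ), ∑ j, w (j, i₀) s * (u j s : κ) ≠ 0) ∧
      ∀ i, SmN 𝒰 H fun s =>
        (∑ j, w (j, i) s * (u j s : κ)) / ∑ j, w (j, i₀) s * (u j s : κ) := by
  classical
  obtain ⟨i₀, hi₀⟩ := ev_exists hx
  -- a part which does not vanish
  have hpart : ∀ᶠ s in (𝒰 : Filter ℕ), ∃ j₀ : Fin r,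
      ∑ j with l j = l j₀, w (j, i₀) s * (u j s : κ) ≠ 0 := by
    filter_upwards [hi₀] with s hs
    by_contra hcon
    push Not at hcon
    apply hs
    rw [← Finset.sum_fiberwise_of_maps_to (g := l) (t := Finset.univ.image l)
      (fun j hj => Finset.mem_image_of_mem _ hj)]
    refine Finset.sum_eq_zero fun m hm => ?_
    obtain ⟨j₀, -, rfl⟩ := Finset.mem_image.1 hm
    exact hcon j₀
  obtain ⟨j₀, hj₀⟩ := ev_exists hpart
  refine ⟨i₀, hi₀, fun i => ?_⟩
  -- the part divided by a unit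
  set Y : Fin (n + 1) → ℕ → κ := fun i s =>
    ∑ j with l j = l j₀, w (j, i) s * ((u j s : κ) / u j₀ s) with hY
  have hYs : ∀ i, SmN 𝒰 H (Y i) := by
    intro i
    refine sm_sum hH _ fun j hj => sm_mul (hw _) ?_
    rw [Finset.mem_filter] at hj
    exact hl j j₀ hj.2
  refine sm_congr (sm_mul (hYs i) (sm_inv (hYs i₀))) ?_
  filter_upwards [hprop, hi₀, hj₀] with s h1 h2 h3
  have h4 : ∀ i, ∑ j with l j = l j₀, w (j, i) s * (u j s : κ) = Y i s * u j₀ s := by
    intro i
    rw [hY]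
    simp only
    rw [Finset.sum_mul]
    refine Finset.sum_congr rfl fun j _ => ?_
    rw [mul_assoc, div_mul_cancel₀ _ (Units.ne_zero _)]
  have h5 := h1 (l j₀) i i₀
  rw [h4] at h3
  have h6 : Y i₀ s ≠ 0 := left_ne_zero_of_mul h3
  have h7 : (u j₀ s : κ) ≠ 0 := Units.ne_zero _
  rw [h4, h4] at h5
  rw [← div_eq_mul_inv, div_eq_div_iff h6 h2]
  apply mul_right_cancel₀ h7
  linear_combination h5

/-- the point `∑ u_j v_j` -/
def pt {K : Type} [Field K] {n r : ℕ} (v : Fin r → Fin (n + 1) → K) (u : Fin r → Kˣ) :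
    Fin (n + 1) → K := fun i => ∑ j, (u j : K) * v j i

/-- The structure of the point `x = ∑ u_j v_j` on `X` (the zero set of `FF`): there are a finite set
`S` of integer vectors of sum zero with entries at most `L` in absolute value, which generates a
saturated subgroup, and `u' ∈ Γ^r` with all heights at most `B`, such that, for the subtorus
`T = {t : t ^ γ = 1 for all γ ∈ S}`,
* `u` lies in `T u'`;
* all the points `∑ t_j u_j v_j` with `t ∈ T` (over all commutative `K`-algebras) lie on `X`;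
* if `x ≠ 0`, then `h(x) ≤ B`, or there is a one-parameter subgroup `τ ↦ (τ ^ (l_j))` of `T` with
  `0 ≤ l_j ≤ L` such that the curve `τ ↦ ∑ τ ^ (l_j) u_j v_j` is nonconstant. -/
def TorusStructure {K : Type} [Field K] [NumberField K] {n r : ℕ} (Γ : Subgroup Kˣ)
    (FF : Set (MvPolynomial (Fin (n + 1)) K)) (v : Fin r → Fin (n + 1) → K) (u : Fin r → Kˣ)
    (B : ℝ) (L : ℕ) : Prop :=
  ∃ (S : Finset (Fin r → ℤ)) (u' : Fin r → Kˣ),
    (∀ γ ∈ S, ∑ j, γ j = 0 ∧ ∀ j, |γ j| ≤ L) ∧
    (∀ (m : ℤ) (γ : Fin r → ℤ), m ≠ 0 → m • γ ∈ AddSubgroup.closure (S : Set (Fin r → ℤ)) →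
      γ ∈ AddSubgroup.closure (S : Set (Fin r → ℤ))) ∧
    (∀ j, u' j ∈ Γ ∧ logHeight₁ (u' j : K) ≤ B) ∧
    (∀ γ ∈ S, ∏ j, (u j / u' j) ^ γ j = 1) ∧
    (∀ (A : Type) [CommRing A] [Algebra K A] (t : Fin r → Aˣ), (∀ γ ∈ S, ∏ j, t j ^ γ j = 1) →
      ∀ F ∈ FF, aeval (fun i => ∑ j, (t j : A) * algebraMap K A (u j * v j i)) F = 0) ∧
    (pt v u ≠ 0 → logHeight (pt v u) ≤ B ∨ ∃ l : Fin r → ℕ, (∀ j, l j ≤ L) ∧
      (∀ γ ∈ S, ∑ j, (l j : ℤ) * γ j = 0) ∧ Nonconst (curve l v u))

/-- **The structure theorem.** -/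
theorem torusStructure (K : Type) [Field K] [NumberField K] (Γ : Subgroup Kˣ) (hΓ : Γ.FG)
    (n d r : ℕ) :
    ∃ (C : ℝ) (L : ℕ), ∀ (FF : Set (MvPolynomial (Fin (n + 1)) K)) (h : ℝ), 0 ≤ h →
      Forms d h FF → ∀ (v : Fin r → Fin (n + 1) → K) (u : Fin r → Kˣ), (∀ j, u j ∈ Γ) →
      (∀ F ∈ FF, aeval (pt v u) F = 0) → TorusStructure Γ FF v u (C * scale h v) L := by
  classical
  by_contra hcon
  push Not at hcon
  choose FF h hh hB v u hu hz hbad using fun s : ℕ => hcon s s
  obtain ⟨𝒰, a, hev, ha, hH, hhs, hw⟩ := setup h hh v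
  set H : ℕ → ℝ := fun s => (s : ℝ) * scale (h s) (v s) with hHdef
  obtain ⟨l, hlΛ, hl⟩ := exists_l hH (fun j s => u s j) (max d 1)
  set Λ : AddSubgroup (Fin r → ℤ) := Lam 𝒰 H hH (fun j s => u s j) with hΛ
  obtain ⟨S, hS⟩ := exists_gens Λ
  obtain ⟨π, hπ1, hπ2⟩ := exists_retract Λ (fun m γ hm h => Lam_sat hH _ m γ hm h)
  have hSΛ : ∀ γ ∈ S, γ ∈ Λ := by
    intro γ hγ
    rw [← hS]
    exact AddSubgroup.subset_closure hγ
  have hvw : ∀ s i, ∑ j, v s j i / a s * (u s j : K) = (a s)⁻¹ * pt (v s) (u s) i := by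
    intro s i
    unfold pt
    rw [Finset.mul_sum]
    refine Finset.sum_congr rfl fun j _ => ?_
    rw [div_eq_mul_inv]
    ring
  -- the class sums
  have hall := allforms hΓ hH (d := d) (fun j s => u s j) (fun j s => hu s j)
    (fun q s => v s q.1 q.2 / a s) hw FF h hhs (fun s F hF => (hB s F hF).2) (by
      intro s F hF
      obtain ⟨⟨e, -, he⟩, -⟩ := hB s F hF
      have h2 : (fun i => ∑ j, v s j i / a s * (u s j : K)) =
          fun i => (a s)⁻¹ * pt (v s) (u s) i :=
        funext fun i => hvw s i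
      simp only
      rw [h2, Pool.Agent.H458.Sp.aeval_smul_homog _ he, hz s F hF, mul_zero]) l
    (fun e he => hl e (he.trans (le_max_left _ _)))
  -- the small representative
  set u' : ℕ → Fin r → Kˣ := fun s j => ∏ i, u s i ^ (π (Pi.single j 1)) i with hu'
  have hsm : ∀ᶠ s in (𝒰 : Filter ℕ), ∀ j, ((1 : ℕ) : ℝ) * logHeight₁ (u' s j : K) ≤ H s :=
    Filter.eventually_all.2 fun j => (hπ1 (Pi.single j 1)).2 1
  have hpow : ∀ s (γ : Fin r → ℤ), γ ∈ Λ → ∏ j, u' s j ^ γ j = ∏ j, u s j ^ γ j := by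
    intro s γ hγ
    have h1 : π γ = γ := hπ2 γ hγ
    have h2 : γ = ∑ j, γ j • (Pi.single j (1 : ℤ) : Fin r → ℤ) := by
      funext i
      rw [Finset.sum_apply]
      simp only [Pi.smul_apply, smul_eq_mul]
      rw [Finset.sum_eq_single i]
      · simp
      · intro j _ hj
        rw [Pi.single_eq_of_ne (Ne.symm hj)]
        simp
      · intro h
        exact absurd (Finset.mem_univ i) h
    have h3 : γ = ∑ j, γ j • π (Pi.single j (1 : ℤ)) := by
      conv_lhs => rw [← h1, h2]
      rw [map_sum]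
      exact Finset.sum_congr rfl fun j _ => map_smul _ _ _
    rw [hu']
    simp only
    have h4 : ∀ i, γ i = ∑ j, γ j * π (Pi.single j (1 : ℤ)) i := by
      intro i
      conv_lhs => rw [h3]
      rw [Finset.sum_apply]
      rfl
    calc ∏ j, (∏ i, u s i ^ (π (Pi.single j 1)) i) ^ γ j
        = ∏ j, ∏ i, u s i ^ (γ j * (π (Pi.single j 1)) i) := by
          refine Finset.prod_congr rfl fun j _ => ?_
          rw [← Finset.prod_zpow]
          refine Finset.prod_congr rfl fun i _ => ?_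
          rw [mul_comm, zpow_mul]
      _ = ∏ i, ∏ j, u s i ^ (γ j * (π (Pi.single j 1)) i) := Finset.prod_comm
      _ = ∏ i, u s i ^ γ i := by
          refine Finset.prod_congr rfl fun i _ => ?_
          rw [prod_zpow_sum, ← h4]
  -- the bound for the generators
  set L₀ : ℕ := S.sup fun γ => Finset.univ.sup fun j => (γ j).natAbs with hL₀
  -- the torus part holds eventually
  have htor : ∀ᶠ s : ℕ in (𝒰 : Filter ℕ), (∀ γ ∈ S, ∑ j, γ j = 0 ∧ ∀ j, |γ j| ≤ (s : ℤ)) ∧
      (∀ (m : ℤ) (γ : Fin r → ℤ), m ≠ 0 → m • γ ∈ AddSubgroup.closure (S : Set (Fin r → ℤ)) →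
        γ ∈ AddSubgroup.closure (S : Set (Fin r → ℤ))) ∧
      (∀ j, u' s j ∈ Γ ∧ logHeight₁ (u' s j : K) ≤ H s) ∧
      (∀ γ ∈ S, ∏ j, (u s j / u' s j) ^ γ j = 1) ∧
      ∀ (A : Type) [CommRing A] [Algebra K A] (t : Fin r → Aˣ), (∀ γ ∈ S, ∏ j, t j ^ γ j = 1) →
        ∀ F ∈ FF s, aeval (fun i => ∑ j, (t j : A) * algebraMap K A (u s j * v s j i)) F = 0 := by
    filter_upwards [hall, hsm, hev L₀] with s h1 h2 h3
    refine ⟨fun γ hγ => ⟨(hSΛ γ hγ).1, fun j => ?_⟩, ?_, fun j => ⟨?_, ?_⟩, fun γ hγ => ?_, ?_⟩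
    · have h4 : (γ j).natAbs ≤ L₀ := by
        refine le_trans ?_ (Finset.le_sup (f := fun γ : Fin r → ℤ =>
          Finset.univ.sup fun j => (γ j).natAbs) hγ)
        exact Finset.le_sup (f := fun j => (γ j).natAbs) (Finset.mem_univ j)
      rw [Int.abs_eq_natAbs]
      exact_mod_cast h4.trans h3
    · rw [hS]
      exact fun m γ hm h => Lam_sat hH _ m γ hm h
    · exact Subgroup.prod_mem _ fun i _ => Γ.zpow_mem (hu s i) _
    · have h4 := h2 j
      rw [Nat.cast_one, one_mul] at h4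
      exact h4
    · simp only [div_zpow]
      rw [Finset.prod_div_distrib, hpow s γ (hSΛ γ hγ), div_self']
    · intro A _ _ t ht F hF
      obtain ⟨⟨e, hed, he⟩, -⟩ := hB s F hF
      have h5 := orbit_zero he l (fun j => (u s j : K)) (fun q => v s q.1 q.2 / a s)
        (h1 F hF e hed he) (S : Set (Fin r → ℤ)) (by
          intro α hα β hβ hab
          rw [hS]
          refine ⟨dif_sum ((mem_TT.1 hα).trans (mem_TT.1 hβ).symm), ?_⟩
          exact sm_congr ((hl e (hed.trans (le_max_left _ _)) α hα β hβ).1 hab)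
            (Eventually.of_forall fun s => (dif_prod (fun j s => u s j) α β s).symm)) A t
          (fun γ hγ => ht γ hγ)
      have h6 : (fun i => ∑ j, algebraMap K A (v s j i / a s) *
          ((t j : A) * algebraMap K A (u s j)))
          = fun i => algebraMap K A (a s)⁻¹ *
            ∑ j, (t j : A) * algebraMap K A (u s j * v s j i) := by
        funext i
        rw [Finset.mul_sum]
        refine Finset.sum_congr rfl fun j _ => ?_
        rw [div_eq_mul_inv, map_mul, map_mul]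
        ring
      simp only at h5
      rw [h6, Pool.Agent.H458.Sp.aeval_smul_homog _ he] at h5
      have h7 : IsUnit (algebraMap K A (a s)⁻¹ ^ e) :=
        ((IsUnit.mk0 _ (inv_ne_zero (ha s))).map (algebraMap K A)).pow e
      exact (h7.mul_right_eq_zero).1 h5
  -- so the last part fails
  have hfail : ∀ᶠ s in (𝒰 : Filter ℕ), pt (v s) (u s) ≠ 0 ∧ H s < logHeight (pt (v s) (u s)) ∧
      ¬ Nonconst (curve l (v s) (u s)) := by
    filter_upwards [htor, hev (Finset.univ.sup l)] with s h1 h2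
    by_contra hcon
    apply hbad s
    refine ⟨S, u' s, h1.1, h1.2.1, h1.2.2.1, h1.2.2.2.1, h1.2.2.2.2, fun hx => ?_⟩
    by_cases hle : logHeight (pt (v s) (u s)) ≤ s * scale (h s) (v s)
    · exact Or.inl hle
    · refine Or.inr ⟨l, fun j => (Finset.le_sup (Finset.mem_univ j)).trans h2,
        fun γ hγ => hlΛ γ (hSΛ γ hγ), ?_⟩
      by_contra hn
      exact hcon ⟨hx, not_le.1 hle, hn⟩
  -- proportionality
  have hprop : ∀ᶠ s in (𝒰 : Filter ℕ), ∀ (m : ℕ) (i i' : Fin (n + 1)),
      (∑ j with l j = m, v s j i / a s * (u s j : K)) * ∑ j, v s j i' / a s * (u s j : K) =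
      (∑ j with l j = m, v s j i' / a s * (u s j : K)) * ∑ j, v s j i / a s * (u s j : K) := by
    filter_upwards [hfail] with s hs
    intro m i i'
    have h1 : ∀ b c : K, (curve l (v s) (u s) i).eval b * (curve l (v s) (u s) i').eval c =
        (curve l (v s) (u s) i').eval b * (curve l (v s) (u s) i).eval c := by
      intro b c
      by_contra hne
      exact hs.2.2 ⟨i, i', b, c, hne⟩
    have h2 : (curve l (v s) (u s) i) * Polynomial.C ((curve l (v s) (u s) i').eval 1) =
        (curve l (v s) (u s) i') * Polynomial.C ((curve l (v s) (u s) i).eval 1) := by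
      apply Polynomial.funext
      intro b
      rw [Polynomial.eval_mul, Polynomial.eval_mul, Polynomial.eval_C, Polynomial.eval_C]
      exact h1 b 1
    have h3 := congrArg (fun p => Polynomial.coeff p m) h2
    simp only [Polynomial.coeff_mul_C] at h3
    rw [curve_coeff, curve_coeff, curve_eval_one, curve_eval_one] at h3
    have h4 : ∀ i, ∑ j with l j = m, v s j i / a s * (u s j : K) =
        (a s)⁻¹ * ∑ j with l j = m, (u s j : K) * v s j i := by
      intro i
      rw [Finset.mul_sum]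
      refine Finset.sum_congr rfl fun j _ => ?_
      rw [div_eq_mul_inv]
      ring
    rw [h4, h4, hvw, hvw]
    unfold pt
    linear_combination ((a s)⁻¹ * (a s)⁻¹) * h3
  obtain ⟨i₀, hi₀, hrat⟩ := small_of_prop hH l (fun j s => u s j) (by
      intro j j' hjj
      have h1 := (hl 1 (le_max_right _ _) (Finsupp.single j 1)
        (mem_TT.2 (Finsupp.degree_single _ _)) (Finsupp.single j' 1)
        (mem_TT.2 (Finsupp.degree_single _ _))).1 (by
        have : ∀ j : Fin r, ∑ i, l i * (Finsupp.single j 1 : Fin r →₀ ℕ) i = l j := by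
          intro j
          rw [Finset.sum_eq_single j]
          · simp
          · intro i _ hi
            rw [Finsupp.single_apply, if_neg (Ne.symm hi), mul_zero]
          · intro h
            exact absurd (Finset.mem_univ _) h
        rw [this, this]
        exact hjj)
      refine sm_congr h1 (Eventually.of_forall fun s => ?_)
      have h2 : ∀ j : Fin r, (∏ i, u s i ^ (Finsupp.single j 1 : Fin r →₀ ℕ) i : Kˣ) = u s j := by
        intro j
        rw [Finset.prod_eq_single j]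
        · simp
        · intro i _ hi
          rw [Finsupp.single_apply, if_neg (Ne.symm hi), pow_zero]
        · intro h
          exact absurd (Finset.mem_univ _) h
      rw [h2, h2]) (fun q s => v s q.1 q.2 / a s) hw (by
      filter_upwards [hfail] with s hs
      obtain ⟨i, hi⟩ := Function.ne_iff.1 hs.1
      exact ⟨i, by
        rw [hvw]
        exact mul_ne_zero (inv_ne_zero (ha s)) hi⟩) hprop
  -- the contradiction
  have hall2 : ∀ᶠ s in (𝒰 : Filter ℕ), ∀ i, ((n + 1 : ℕ) : ℝ) *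
      logHeight₁ ((∑ j, v s j i / a s * (u s j : K)) / ∑ j, v s j i₀ / a s * (u s j : K)) ≤ H s :=
    Filter.eventually_all.2 fun i => hrat i _
  obtain ⟨s, h1, h2, h3⟩ := (hall2.and (hi₀.and hfail)).exists
  obtain ⟨c, -, -, -, -, -, -, hn⟩ := Pool.Agent.NH29.GN.hn K
  simp only at h2
  rw [hvw] at h2
  have hx1 : pt (v s) (u s) i₀ ≠ 0 := right_ne_zero_of_mul h2
  have h4 := hn n (pt (v s) (u s)) i₀ hx1
  have h5 : ∀ i, logHeight₁ (pt (v s) (u s) i / pt (v s) (u s) i₀) ≤ H s / (n + 1) := by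
    intro i
    have h6 := h1 i
    rw [hvw, hvw, mul_div_mul_left _ _ (inv_ne_zero (ha s))] at h6
    rw [le_div_iff₀ (by positivity)]
    push_cast at h6
    linarith
  have h6 : logHeight (pt (v s) (u s)) ≤ H s := by
    calc logHeight (pt (v s) (u s)) ≤ ∑ i, logHeight₁ (pt (v s) (u s) i / pt (v s) (u s) i₀) := h4
      _ ≤ ∑ _i : Fin (n + 1), H s / (n + 1) := Finset.sum_le_sum fun i _ => h5 i
      _ = H s := by
        rw [Finset.sum_const, Finset.card_univ, Fintype.card_fin, nsmul_eq_mul]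
        push_cast
        field_simp
  exact absurd h3.2.1 (not_lt.2 h6)

/-- the curves of a point with torus structure lie on the variety -/
theorem curve_mem {K : Type} [Field K] [NumberField K] {n r : ℕ}
    (FF : Set (MvPolynomial (Fin (n + 1)) K))
    (v : Fin r → Fin (n + 1) → K) (u : Fin r → Kˣ) (S : Finset (Fin r → ℤ))
    (horb : ∀ (A : Type) [CommRing A] [Algebra K A] (t : Fin r → Aˣ),
      (∀ γ ∈ S, ∏ j, t j ^ γ j = 1) →
      ∀ F ∈ FF, aeval (fun i => ∑ j, (t j : A) * algebraMap K A (u j * v j i)) F = 0)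
    (l : Fin r → ℕ) (hl : ∀ γ ∈ S, ∑ j, (l j : ℤ) * γ j = 0) (F : MvPolynomial (Fin (n + 1)) K)
    (hF : F ∈ FF) : aeval (curve l v u) F = 0 := by
  set τ : (RatFunc K)ˣ := Units.mk0 (RatFunc.X : RatFunc K) RatFunc.X_ne_zero with hτ
  have h1 := horb (RatFunc K) (fun j => τ ^ l j) (by
    intro γ hγ
    have h2 : ∏ j, (τ ^ l j) ^ γ j = ∏ j, τ ^ ((l j : ℤ) * γ j) := by
      refine Finset.prod_congr rfl fun j _ => ?_
      rw [zpow_mul, zpow_natCast]
    rw [h2, prod_zpow_sum, hl γ hγ, zpow_zero]) F hF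
  have h2 : (fun i => ∑ j, ((τ ^ l j : (RatFunc K)ˣ) : RatFunc K) *
      algebraMap K (RatFunc K) (u j * v j i)) =
      fun i => algebraMap (Polynomial K) (RatFunc K) (curve l v u i) := by
    funext i
    unfold curve
    rw [map_sum]
    refine Finset.sum_congr rfl fun j _ => ?_
    rw [map_mul (algebraMap (Polynomial K) (RatFunc K)), map_pow, RatFunc.algebraMap_X,
      RatFunc.algebraMap_C, Units.val_pow_eq_pow_val, hτ, Units.val_mk0, mul_comm]
    rfl
  rw [h2] at h1
  have h3 : aeval (fun i => algebraMap (Polynomial K) (RatFunc K) (curve l v u i)) F =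
      algebraMap (Polynomial K) (RatFunc K) (aeval (curve l v u) F) :=
    MvPolynomial.aeval_algebraMap_apply (RatFunc K) _ F
  rw [h3] at h1
  exact (map_eq_zero_iff _ (RatFunc.algebraMap_injective K)).1 h1

end Pool.Agent.V8H29.SV
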