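import Pool.Agent.TH444.ML.Done

/-!
Malle's conjecture for `C₂ ≀ X`, `X` a finite group with a large normal subgroup: subgroups of small index
with trivial core.
-/

set_option autoImplicit false

namespace Pool.Agent.V8H29.MK

open Pool.Agent.H391R2 (Wr)

/-- `T` has a subgroup `V` with trivial core and `16 q [T : V] ^ 2 ≤ |T|`. -/
def Roomy (q : ℕ) (T : Type) [Group T] : Prop :=
  ∃ V : Subgroup T, V.normalCore = ⊥ ∧ 16 * q * V.index ^ 2 ≤ Nat.card T

theorem core_map {X : Type} [Group X] (N : Subgroup X) (V : Subgroup N) (hV : V.normalCore = ⊥) :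
    (V.map N.subtype).normalCore = ⊥ := by
  rw [eq_bot_iff]
  intro x hx
  have h1 : x ∈ V.map N.subtype := Subgroup.normalCore_le _ hx
  obtain ⟨v, hv, rfl⟩ := h1
  have h2 : v ∈ V.normalCore := by
    intro b
    have h3 : (b : X) * (N.subtype v) * (b : X)⁻¹ ∈ V.map N.subtype := hx (b : X)
    obtain ⟨w, hw, hwe⟩ := h3
    have h4 : w = b * v * b⁻¹ := by
      apply Subtype.ext
      exact hwe
    rw [← h4]
    exact hw
  rw [hV, Subgroup.mem_bot] at h2
  rw [h2, map_one]
  exact Subgroup.one_mem _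

theorem roomy_iso {q : ℕ} {T T' : Type} [Group T] [Group T'] (e : T ≃* T') (h : Roomy q T) :
    Roomy q T' := by
  obtain ⟨V, h1, h2⟩ := h
  refine ⟨V.map e.toMonoidHom, ?_, ?_⟩
  · rw [eq_bot_iff]
    intro x hx
    have h3 : e.symm x ∈ V.normalCore := by
      intro b
      have h4 : e b * x * (e b)⁻¹ ∈ V.map e.toMonoidHom := hx (e b)
      obtain ⟨w, hw, hwe⟩ := h4
      have h5 : w = b * e.symm x * b⁻¹ := by
        apply e.injective
        rw [map_mul, map_mul, e.apply_symm_apply, map_inv]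
        exact hwe
      rw [← h5]
      exact hw
    rw [h1, Subgroup.mem_bot] at h3
    rw [Subgroup.mem_bot, ← e.apply_symm_apply x, h3, map_one]
  · have h3 : (V.map e.toMonoidHom).index = V.index :=
      Subgroup.index_map_equiv V e
    rw [h3, ← Nat.card_congr e.toEquiv]
    exact h2

/-- the subgroup of small index of an extension -/
theorem data_of {X : Type} [Group X] (N : Subgroup X) [N.Normal] (hfN : Finite N)
    (hfin : Finite (X ⧸ N)) (h : Roomy (Nat.card (X ⧸ N)) N) :
    Finite X ∧ 2 ≤ Nat.card X ∧ ∃ U : Subgroup X, U.normalCore = ⊥ ∧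
      8 * U.index * (U.index + 1) ≤ Nat.card X := by
  obtain ⟨V, hV, hc⟩ := h
  have hX : Finite X := Finite.of_subgroup_quotient N
  have hq : 1 ≤ Nat.card (X ⧸ N) := Nat.card_pos
  have hi : 1 ≤ V.index := Nat.one_le_iff_ne_zero.2 Subgroup.index_ne_zero_of_finite
  have hcard : Nat.card X = Nat.card (X ⧸ N) * Nat.card N :=
    Subgroup.card_eq_card_quotient_mul_card_subgroup N
  have hN : 16 ≤ Nat.card N := by
    refine le_trans ?_ hc
    have : 1 ≤ V.index ^ 2 := Nat.one_le_pow _ _ hi
    nlinarith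
  refine ⟨hX, ?_, V.map N.subtype, core_map N V hV, ?_⟩
  · rw [hcard]
    nlinarith
  · have hidx : (V.map N.subtype).index = V.index * N.index := Subgroup.index_map_subtype V
    rw [hidx, hcard, Subgroup.index_eq_card N]
    generalize Nat.card (X ⧸ N) = q at *
    generalize V.index = i at *
    generalize Nat.card N = t at *
    have h1 : 1 ≤ i * q := Nat.one_le_iff_ne_zero.2 (by positivity)
    calc 8 * (i * q) * (i * q + 1) ≤ 8 * (i * q) * (i * q + i * q) :=
          Nat.mul_le_mul_left _ (by omega)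
      _ = q * (16 * q * i ^ 2) := by ring
      _ ≤ q * t := Nat.mul_le_mul_left _ hc

theorem fact_ge {n : ℕ} (hn : 12 ≤ n) : 16 * n ^ 2 ≤ (n - 1).factorial := by
  obtain ⟨m, rfl⟩ := Nat.exists_eq_add_of_le hn
  have e0 : 12 + m - 1 = m + 11 := by omega
  rw [e0]
  clear hn e0
  induction m with
  | zero => decide
  | succ m ih =>
    have e : (m + 1 + 11).factorial = (m + 12) * (m + 11).factorial := by
      rw [show m + 1 + 11 = (m + 11) + 1 by ring, Nat.factorial_succ]
    rw [e]
    have : 16 * (12 + (m + 1)) ^ 2 ≤ (m + 12) * (16 * (12 + m) ^ 2) := by nlinarith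
    exact this.trans (Nat.mul_le_mul_left _ ih)

/-- wreath products with large symmetric groups -/
theorem roomy_wr (A : Type) [Group A] [Finite A] (n q : ℕ) (hn : 12 ≤ n) (hq : q ≤ n) :
    Roomy q (Wr A n) := by
  obtain ⟨U, h1, h2⟩ := TH444.ML.wr_core A n (by omega)
  refine ⟨U, h1, ?_⟩
  rw [h2, TH444.ML.wr_card]
  have hA : 1 ≤ Nat.card A := Nat.card_pos
  have h3 : n.factorial = n * (n - 1).factorial := (Nat.mul_factorial_pred (by omega)).symm
  have h4 := fact_ge hn
  have h5 : Nat.card A ^ 2 ≤ Nat.card A ^ n := Nat.pow_le_pow_right hA (by omega)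
  calc 16 * q * (Nat.card A * n) ^ 2 = Nat.card A ^ 2 * (q * (16 * n ^ 2)) := by ring
    _ ≤ Nat.card A ^ n * (n * (n - 1).factorial) :=
        Nat.mul_le_mul h5 (Nat.mul_le_mul hq h4)
    _ = _ := by rw [← h3]

/-- direct products -/
theorem roomy_pi (I : Type) [Fintype I] [Nonempty I] (T : I → Type) [∀ i, Group (T i)]
    [∀ i, Finite (T i)] (q : I → ℕ) (h : ∀ i, Roomy (q i) (T i)) :
    Roomy (∏ i, q i) (∀ i, T i) := by
  classical
  choose V hV hc using h
  refine ⟨Subgroup.pi Set.univ V, ?_, ?_⟩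
  · rw [eq_bot_iff]
    intro x hx
    rw [Subgroup.mem_bot]
    funext i
    have h1 : x i ∈ (V i).normalCore := by
      intro b
      have h2 : Pi.mulSingle i b * x * (Pi.mulSingle i b)⁻¹ ∈ Subgroup.pi Set.univ V :=
        hx (Pi.mulSingle i b)
      have h3 := h2 i (Set.mem_univ i)
      simpa using h3
    rw [hV i, Subgroup.mem_bot] at h1
    exact h1
  · have hidx : (Subgroup.pi Set.univ V).index = ∏ i, (V i).index := by
      have h1 : ∀ i, Nat.card (T i) = Nat.card (V i) * (V i).index := fun i =>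
        ((V i).card_mul_index).symm
      have h2 := (Subgroup.pi Set.univ V).card_mul_index
      have h3 : Nat.card (Subgroup.pi Set.univ V) = ∏ i, Nat.card (V i) := by
        rw [← Nat.card_pi]
        apply Nat.card_congr
        exact
          { toFun := fun x i => ⟨x.1 i, x.2 i (Set.mem_univ i)⟩
            invFun := fun y => ⟨fun i => (y i).1, fun i _ => (y i).2⟩
            left_inv := fun x => rfl
            right_inv := fun y => rfl }
      rw [h3, Nat.card_pi, Finset.prod_congr rfl (fun i _ => h1 i), Finset.prod_mul_distrib] at h2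
      have h4 : 0 < ∏ i, Nat.card (V i) := Finset.prod_pos fun i _ => Nat.card_pos
      exact Nat.eq_of_mul_eq_mul_left h4 h2
    rw [hidx, Nat.card_pi]
    have h5 : ∏ i, (16 * q i * (V i).index ^ 2) ≤ ∏ i, Nat.card (T i) :=
      Finset.prod_le_prod' fun i _ => hc i
    refine le_trans ?_ h5
    rw [Finset.prod_mul_distrib, Finset.prod_mul_distrib, Finset.prod_pow, Finset.prod_const]
    have h6 : 16 ≤ 16 ^ (Finset.univ : Finset I).card := by
      have : 1 ≤ (Finset.univ : Finset I).card := Finset.card_pos.2 Finset.univ_nonempty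
      calc 16 = 16 ^ 1 := by norm_num
        _ ≤ _ := Nat.pow_le_pow_right (by norm_num) this
    exact Nat.mul_le_mul_right _ (Nat.mul_le_mul_right _ h6)

/-- A realization inside an algebraic closure (a lemma of `Pool/Agent/Y793/Ml.lean`, restated to avoid the
import). -/
theorem gal_of_real (K Ω H : Type) [Field K] [NumberField K] [Field Ω] [Algebra K Ω]
    [IsAlgClosure K Ω] [Group H] [Finite H]
    (h : ∃ (L : Type) (_ : Field L) (_ : Algebra K L), IsGalois K L ∧
      Nonempty (H ≃* (L ≃ₐ[K] L))) : (TH444.ML.Gal K Ω H).Nonempty := by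
  obtain ⟨F, _, _, hg, ⟨γ⟩⟩ := h
  have hfin : Finite (F ≃ₐ[K] F) := Finite.of_equiv H γ.toEquiv
  have hfd : FiniteDimensional K F := TH444.ML.fd_of_finite_aut K F
  have hac : IsAlgClosed Ω := IsAlgClosure.isAlgClosed K
  let j : F →ₐ[K] Ω := IsAlgClosed.lift
  let ε : F ≃ₐ[K] j.fieldRange := AlgEquiv.ofInjectiveField j
  refine ⟨j.fieldRange, ?_, ?_, ?_⟩
  · exact Module.Finite.equiv ε.toLinearEquiv
  · exact IsGalois.of_algEquiv ε
  · exact ⟨(AlgEquiv.autCongr ε).symm.trans γ.symm⟩

theorem Roomy.mono {q q' : ℕ} {T : Type} [Group T] (h : Roomy q' T) (hq : q ≤ q') : Roomy q T := by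
  obtain ⟨V, h1, h2⟩ := h
  exact ⟨V, h1, le_trans (Nat.mul_le_mul_right _ (Nat.mul_le_mul_left _ hq)) h2⟩

end Pool.Agent.V8H29.MK
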