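import Pool.Agent.V8H29.LC8

/-!
Every finite Galois extension of `ℚ_p` is the fixed field of the kernel of a homomorphism to `A ≀ S_r`.
-/

set_option autoImplicit false

namespace Pool.Agent.V8H29.LC

open Pool.Agent.H391R2 (Wr)

theorem exists_psi (A : Type) [Group A] (p : ℕ) [Fact p.Prime]
    (E : IntermediateField ℚ_[p] (AlgebraicClosure ℚ_[p])) [FiniteDimensional ℚ_[p] E]
    [Normal ℚ_[p] E] (r : ℕ) (hr : Nat.card (E ≃ₐ[ℚ_[p]] E) ≤ r) :
    ∃ ψ : (AlgebraicClosure ℚ_[p] ≃ₐ[ℚ_[p]] AlgebraicClosure ℚ_[p]) →* Wr A r,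
      ψ.ker = E.fixingSubgroup := by
  classical
  have hfin : Finite (E ≃ₐ[ℚ_[p]] E) := inferInstance
  have : Fintype (E ≃ₐ[ℚ_[p]] E) := Fintype.ofFinite _
  obtain ⟨j⟩ : Nonempty ((E ≃ₐ[ℚ_[p]] E) ↪ Fin r) := by
    apply Function.Embedding.nonempty_of_card_le
    rw [Fintype.card_fin, ← Nat.card_eq_fintype_card]
    exact hr
  let f : (E ≃ₐ[ℚ_[p]] E) →* Wr A r :=
    (SemidirectProduct.inr : Equiv.Perm (Fin r) →* Wr A r).comp
      ((Equiv.Perm.viaEmbeddingHom j).comp (MulAction.toPermHom (E ≃ₐ[ℚ_[p]] E) (E ≃ₐ[ℚ_[p]] E)))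
  have hf : Function.Injective f := by
    intro a b hab
    have h1 := SemidirectProduct.inr_injective hab
    have h2 := Equiv.Perm.viaEmbeddingHom_injective j h1
    exact MulAction.toPerm_injective h2
  refine ⟨f.comp (AlgEquiv.restrictNormalHom E), ?_⟩
  ext σ
  rw [MonoidHom.mem_ker, IntermediateField.mem_fixingSubgroup_iff, MonoidHom.comp_apply,
    ← map_one f, hf.eq_iff]
  constructor
  · intro h x hx
    have h1 := AlgEquiv.restrictNormal_commutes σ E ⟨x, hx⟩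
    have h2 : σ.restrictNormal E = 1 := h
    rw [h2] at h1
    exact h1.symm
  · intro h
    ext x
    have h1 := AlgEquiv.restrictNormal_commutes σ E x
    have h2 : (AlgEquiv.restrictNormalHom E σ : E ≃ₐ[ℚ_[p]] E) = σ.restrictNormal E := rfl
    rw [h2]
    have h3 : ((σ.restrictNormal E x : E) : AlgebraicClosure ℚ_[p]) = σ x := h1
    rw [h3, h _ x.2]
    rfl

end Pool.Agent.V8H29.LC
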