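import Mathlib
import Pool.Prelude.Def_F_b1b78ff3
import Pool.Agent.H33R2.ThmC2
import Pool.Agent.H33R2.V3
import Pool.Agent.H391R2.T4.Abl

/-!
Every finite group is realizable over all number fields that contain a suitable number field `K₀`: the regular
realization over `ℚ̄(t)` is defined over `K₀(t)`.
-/

set_option autoImplicit false

namespace Pool.Agent.V8H29.MK

open Polynomial

section descent

variable {Ω K F : Type} [Field Ω] [Field K] [Field F] [Algebra (RatFunc Ω) F]

/-- `K(t) → Ω(t)` -/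
noncomputable def rmap (j : K →+* Ω) : RatFunc K →+* RatFunc Ω :=
  RatFunc.mapRingHom (Polynomial.mapRingHom j) (by
    intro p hp
    rw [Submonoid.mem_comap]
    rw [mem_nonZeroDivisors_iff_ne_zero] at hp ⊢
    rw [Polynomial.coe_mapRingHom]
    exact (Polynomial.map_ne_zero_iff j.injective).2 hp)

theorem rmap_poly (j : K →+* Ω) (p : K[X]) :
    rmap j (algebraMap K[X] (RatFunc K) p) = algebraMap (Polynomial Ω) (RatFunc Ω) (p.map j) := by
  unfold rmap
  rw [RatFunc.coe_mapRingHom_eq_coe_map]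
  have h := RatFunc.map_apply_div (φ := Polynomial.mapRingHom j) (hφ := by
    intro p hp
    rw [Submonoid.mem_comap]
    rw [mem_nonZeroDivisors_iff_ne_zero] at hp ⊢
    rw [Polynomial.coe_mapRingHom]
    exact (Polynomial.map_ne_zero_iff j.injective).2 hp) p 1
  simpa using h

/-- a rational function with coefficients in the image -/
theorem mem_range (j : K →+* Ω) (r : RatFunc Ω) (h1 : ∀ n, r.num.coeff n ∈ j.range)
    (h2 : ∀ n, r.denom.coeff n ∈ j.range) : r ∈ (rmap j).range := by
  have key : ∀ p : Polynomial Ω, (∀ n, p.coeff n ∈ j.range) → ∃ p' : K[X], p'.map j = p := by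
    intro p hp
    have := (Polynomial.mem_lifts p).1 ((Polynomial.lifts_iff_coeff_lifts p).2 hp)
    exact this
  obtain ⟨a, ha⟩ := key r.num h1
  obtain ⟨b, hb⟩ := key r.denom h2
  refine ⟨algebraMap K[X] (RatFunc K) a / algebraMap K[X] (RatFunc K) b, ?_⟩
  rw [map_div₀, rmap_poly, rmap_poly, ha, hb]
  exact RatFunc.num_div_denom r

end descent

/-- The descent. -/
theorem descend (Ω F G : Type) [Field Ω] [CharZero Ω] [Field F] [Algebra (RatFunc Ω) F]
    [FiniteDimensional (RatFunc Ω) F] [IsGalois (RatFunc Ω) F] [Group G]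
    (γ : (F ≃ₐ[RatFunc Ω] F) ≃* G) :
    ∃ S : Finset Ω, ∀ (K : Type) [Field K] (j : K →+* Ω), (∀ s ∈ S, s ∈ j.range) →
      ∃ (E : Type) (_ : Field E) (_ : Algebra (RatFunc K) E), FiniteDimensional (RatFunc K) E ∧
        IsGalois (RatFunc K) E ∧ Nonempty ((E ≃ₐ[RatFunc K] E) ≃* G) := by
  classical
  have hfG : Finite (F ≃ₐ[RatFunc Ω] F) := inferInstance
  obtain ⟨y, hy⟩ := Field.exists_primitive_element (RatFunc Ω) F
  -- `σ y` is a polynomial in `y`
  have hall : ∀ z : F, ∃ P : (RatFunc Ω)[X], aeval y P = z := by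
    intro z
    have h1 : z ∈ IntermediateField.adjoin (RatFunc Ω) {y} := by rw [hy]; trivial
    have hi : IsIntegral (RatFunc Ω) y := Algebra.IsIntegral.isIntegral y
    rw [← IntermediateField.mem_toSubalgebra,
      IntermediateField.adjoin_simple_toSubalgebra_of_isAlgebraic hi.isAlgebraic,
      Algebra.adjoin_singleton_eq_range_aeval] at h1
    exact h1
  have hP : ∀ σ : F ≃ₐ[RatFunc Ω] F, ∃ P : (RatFunc Ω)[X], aeval y P = σ y := fun σ => hall _
  choose P hPy using hP
  have hft : Fintype (F ≃ₐ[RatFunc Ω] F) := Fintype.ofFinite _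
  -- the coefficients
  let cf : (RatFunc Ω)[X] → Finset Ω := fun p =>
    p.support.biUnion fun n => (p.coeff n).num.support.image (fun m => (p.coeff n).num.coeff m) ∪
      (p.coeff n).denom.support.image (fun m => (p.coeff n).denom.coeff m)
  let f : (RatFunc Ω)[X] := minpoly (RatFunc Ω) y
  refine ⟨cf f ∪ (Finset.univ : Finset (F ≃ₐ[RatFunc Ω] F)).biUnion (fun σ => cf (P σ)), ?_⟩
  intro K _ j hj
  have lift : ∀ p : (RatFunc Ω)[X], (∀ s ∈ cf p, s ∈ j.range) →
      ∃ p' : (RatFunc K)[X], p'.map (rmap j) = p := by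
    intro p hp
    refine (Polynomial.mem_lifts p).1 ((Polynomial.lifts_iff_coeff_lifts p).2 fun n => ?_)
    by_cases hn : p.coeff n = 0
    · rw [hn]
      exact ⟨0, map_zero _⟩
    · have hns : n ∈ p.support := Polynomial.mem_support_iff.2 hn
      refine mem_range j (p.coeff n) (fun m => ?_) (fun m => ?_)
      · by_cases hm : (p.coeff n).num.coeff m = 0
        · rw [hm]
          exact Subring.zero_mem _
        · apply hp
          refine Finset.mem_biUnion.2 ⟨n, hns, Finset.mem_union_left _ ?_⟩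
          exact Finset.mem_image.2 ⟨m, Polynomial.mem_support_iff.2 hm, rfl⟩
      · by_cases hm : (p.coeff n).denom.coeff m = 0
        · rw [hm]
          exact Subring.zero_mem _
        · apply hp
          refine Finset.mem_biUnion.2 ⟨n, hns, Finset.mem_union_right _ ?_⟩
          exact Finset.mem_image.2 ⟨m, Polynomial.mem_support_iff.2 hm, rfl⟩
  obtain ⟨f₀, hf₀⟩ := lift f fun s hs => hj s (Finset.mem_union_left _ hs)
  have hP0 : ∀ σ : F ≃ₐ[RatFunc Ω] F, ∃ p' : (RatFunc K)[X], p'.map (rmap j) = P σ := fun σ =>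
    lift (P σ) fun s hs => hj s (Finset.mem_union_right _
      (Finset.mem_biUnion.2 ⟨σ, Finset.mem_univ _, hs⟩))
  choose P₀ hP₀ using hP0
  -- the field over `K(t)`
  letI iA : Algebra (RatFunc K) F := ((algebraMap (RatFunc Ω) F).comp (rmap j)).toAlgebra
  have halg : ∀ r : RatFunc K, algebraMap (RatFunc K) F r = algebraMap (RatFunc Ω) F (rmap j r) :=
    fun r => rfl
  have hae : ∀ p : (RatFunc K)[X], aeval y p = aeval y (p.map (rmap j)) := by
    intro p
    rw [aeval_def, aeval_def, eval₂_map]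
    rfl
  have hKc : CharZero K := (RingHom.charZero_iff j.injective).2 inferInstance
  have hinj : Function.Injective (rmap j) := (rmap j).injective
  have hfm : f.Monic := minpoly.monic (Algebra.IsIntegral.isIntegral y)
  have hf₀m : f₀.Monic := Polynomial.monic_of_injective hinj (by rw [hf₀]; exact hfm)
  have hfy : aeval y f = 0 := minpoly.aeval _ _
  have hf₀y : aeval y f₀ = 0 := by rw [hae, hf₀]; exact hfy
  have hi : IsIntegral (RatFunc K) y := ⟨f₀, hf₀m, by rw [← aeval_def]; exact hf₀y⟩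
  have hdeg : (minpoly (RatFunc K) y).natDegree = f.natDegree := by
    apply le_antisymm
    · have h1 : (minpoly (RatFunc K) y).natDegree ≤ f₀.natDegree :=
        Polynomial.natDegree_le_of_dvd (minpoly.dvd _ _ hf₀y) hf₀m.ne_zero
      rw [← hf₀, Polynomial.natDegree_map]
      exact h1
    · have h2 : aeval y ((minpoly (RatFunc K) y).map (rmap j)) = 0 := by
        rw [← hae]
        exact minpoly.aeval _ _
      have h3 : f ∣ (minpoly (RatFunc K) y).map (rmap j) := minpoly.dvd _ _ h2
      have h4 : (minpoly (RatFunc K) y).map (rmap j) ≠ 0 :=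
        ((minpoly.monic hi).map _).ne_zero
      have h5 := Polynomial.natDegree_le_of_dvd h3 h4
      rwa [Polynomial.natDegree_map] at h5
  let M : IntermediateField (RatFunc K) F := IntermediateField.adjoin (RatFunc K) {y}
  have hyM : y ∈ M := IntermediateField.mem_adjoin_simple_self _ _
  have hMfd : FiniteDimensional (RatFunc K) M := IntermediateField.adjoin.finiteDimensional hi
  have hMrk : Module.finrank (RatFunc K) M = Module.finrank (RatFunc Ω) F := by
    rw [IntermediateField.adjoin.finrank hi, hdeg]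
    have h1 := IntermediateField.adjoin.finrank (K := RatFunc Ω) (x := y)
      (Algebra.IsIntegral.isIntegral y)
    rw [hy, IntermediateField.finrank_top'] at h1
    exact h1.symm
  -- the restriction
  let re : (F ≃ₐ[RatFunc Ω] F) → (F →ₐ[RatFunc K] F) := fun σ =>
    { (σ : F →+* F) with
      commutes' := fun r => by
        change σ (algebraMap (RatFunc Ω) F (rmap j r)) = algebraMap (RatFunc Ω) F (rmap j r)
        exact σ.commutes _ }
  have hre : ∀ σ z, re σ z = σ z := fun _ _ => rfl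
  have hmem : ∀ (σ : F ≃ₐ[RatFunc Ω] F) (z : F), z ∈ M → σ z ∈ M := by
    intro σ z hz
    have h1 : σ y ∈ M := by
      rw [← hPy σ, ← hP₀ σ, ← hae]
      exact IntermediateField.algebra_adjoin_le_adjoin _ _
        (Polynomial.aeval_mem_adjoin_singleton (RatFunc K) y)
    have h2 : M.map (re σ) ≤ M := by
      change (IntermediateField.adjoin (RatFunc K) {y}).map (re σ) ≤ M
      rw [IntermediateField.adjoin_map, Set.image_singleton,
        IntermediateField.adjoin_simple_le_iff]
      exact h1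
    exact h2 ⟨z, hz, rfl⟩
  let rh : (F ≃ₐ[RatFunc Ω] F) → (M →ₐ[RatFunc K] M) := fun σ =>
    ((re σ).comp M.val).codRestrict M.toSubalgebra fun z => hmem σ z.1 z.2
  have hrh : ∀ σ (z : M), ((rh σ z : M) : F) = σ (z : F) := fun _ _ => rfl
  let r : (F ≃ₐ[RatFunc Ω] F) → (M ≃ₐ[RatFunc K] M) := fun σ =>
    AlgEquiv.ofBijective (rh σ) (rh σ).bijective
  have hr : ∀ σ (z : M), ((r σ z : M) : F) = σ (z : F) := fun _ _ => rfl
  let R : (F ≃ₐ[RatFunc Ω] F) →* (M ≃ₐ[RatFunc K] M) :=
    { toFun := r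
      map_one' := by
        apply AlgEquiv.ext
        intro z
        apply Subtype.ext
        rw [hr]
        rfl
      map_mul' := by
        intro σ τ
        apply AlgEquiv.ext
        intro z
        apply Subtype.ext
        rw [hr]
        rfl }
  have hRi : Function.Injective R := by
    intro σ τ h
    have h1 : σ y = τ y := by
      have h2 : ((r σ ⟨y, hyM⟩ : M) : F) = ((r τ ⟨y, hyM⟩ : M) : F) := by
        have h3 : r σ = r τ := h
        rw [h3]
      exact h2
    apply AlgEquiv.ext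
    intro z
    obtain ⟨p, rfl⟩ := hall z
    have h5 : ∀ ρ : F ≃ₐ[RatFunc Ω] F, ρ (aeval y p) = aeval (ρ y) p := fun ρ =>
      (Polynomial.aeval_algHom_apply (ρ : F →ₐ[RatFunc Ω] F) y p).symm
    rw [h5, h5, h1]
  have hfM : Finite (M ≃ₐ[RatFunc K] M) := inferInstance
  have hcard : Nat.card (F ≃ₐ[RatFunc Ω] F) = Module.finrank (RatFunc Ω) F :=
    IsGalois.card_aut_eq_finrank _ _
  have hle : Nat.card (F ≃ₐ[RatFunc Ω] F) ≤ Nat.card (M ≃ₐ[RatFunc K] M) :=
    Nat.card_le_card_of_injective R hRi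
  have hge : Nat.card (M ≃ₐ[RatFunc K] M) ≤ Module.finrank (RatFunc K) M := by
    have h := @AlgEquiv.card_le (RatFunc K) M _ _ _ _
    rwa [← Nat.card_eq_fintype_card] at h
  have heq : Nat.card (M ≃ₐ[RatFunc K] M) = Module.finrank (RatFunc K) M := by
    omega
  have hgal : IsGalois (RatFunc K) M := IsGalois.of_card_aut_eq_finrank _ _ heq
  have hbij : Function.Bijective R := by
    rw [Nat.bijective_iff_injective_and_card]
    exact ⟨hRi, by omega⟩
  exact ⟨M, inferInstance, inferInstance, hMfd, hgal,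
    ⟨(MulEquiv.ofBijective R hbij).symm.trans γ⟩⟩

open Nfff32c05 in
/-- Every finite group is realizable over all sufficiently large number fields. -/
theorem exists_base (G : Type) [Group G] [Finite G] :
    ∃ K₀ : IntermediateField ℚ (AlgebraicClosure ℚ), FiniteDimensional ℚ K₀ ∧
      ∀ (K : Type) [Field K] [NumberField K], Nonempty (K₀ →+* K) → IsRealizable K G := by
  classical
  let Ω := AlgebraicClosure ℚ
  have hexp : (Monoid.exponent G : Ω) ≠ 0 :=
    Nat.cast_ne_zero.2 Monoid.exponent_ne_zero_of_finite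
  have hne : NeZero (Monoid.exponent G : Ω) := ⟨hexp⟩
  obtain ⟨ζ, hζ⟩ := HasEnoughRootsOfUnity.exists_primitiveRoot Ω (Monoid.exponent G)
  have hsub : Subsingleton (Ω ≃ₐ[Ω] Ω) := ⟨fun σ τ => by
    ext x
    exact (σ.commutes x).trans (τ.commutes x).symm⟩
  obtain ⟨F, i1, i2, i3, i4, i5, i6, i7, i8, γ, -, -⟩ := H33.thmC Ω Ω Ω G
    (H33.ample_of_isAlgClosed Ω) hζ (1 : G →* (Ω ≃ₐ[Ω] Ω))
    (fun x => ⟨1, Subsingleton.elim _ _⟩) ⊥ (bot_inf_eq _) (by
      have h1 : (⊥ ⊔ (1 : G →* (Ω ≃ₐ[Ω] Ω)).ker : Subgroup G) = ⊤ := by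
        rw [MonoidHom.ker_one, bot_sup_eq]
      have h2 : Subsingleton (G ⧸ (⊥ ⊔ (1 : G →* (Ω ≃ₐ[Ω] Ω)).ker : Subgroup G)) :=
        QuotientGroup.subsingleton_iff.2 h1
      exact isCyclic_of_subsingleton)
  obtain ⟨S, hS⟩ := descend Ω F G γ
  refine ⟨IntermediateField.adjoin ℚ (S : Set Ω), ?_, ?_⟩
  · have hQ : Algebra.IsAlgebraic ℚ (AlgebraicClosure ℚ) := AlgebraicClosure.isAlgebraic ℚ
    exact IntermediateField.finiteDimensional_adjoin fun x _ => (hQ.isAlgebraic x).isIntegral
  · intro K _ _ ⟨ι⟩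
    letI := ι.toAlgebra
    have hst : IsScalarTower ℚ (IntermediateField.adjoin ℚ (S : Set Ω)) K :=
      IsScalarTower.of_algebraMap_eq fun q => by simp
    have halg : Algebra.IsAlgebraic (IntermediateField.adjoin ℚ (S : Set Ω)) K :=
      Algebra.IsAlgebraic.tower_top (K := ℚ) _
    let j : K →ₐ[IntermediateField.adjoin ℚ (S : Set Ω)] Ω := IsAlgClosed.lift
    obtain ⟨E, e1, e2, e3, e4, ⟨γ'⟩⟩ := hS K (j : K →+* Ω) (fun s hs => by
      have h1 : s ∈ IntermediateField.adjoin ℚ (S : Set Ω) :=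
        IntermediateField.subset_adjoin _ _ hs
      exact ⟨ι ⟨s, h1⟩, j.commutes ⟨s, h1⟩⟩)
    have hsubK : Subsingleton (K ≃ₐ[K] K) := ⟨fun σ τ => by
      ext x
      exact (σ.commutes x).trans (τ.commutes x).symm⟩
    letI aK : Algebra K E := ((algebraMap (RatFunc K) E).comp (algebraMap K (RatFunc K))).toAlgebra
    have t1 : IsScalarTower K (RatFunc K) E := IsScalarTower.of_algebraMap_eq fun _ => rfl
    obtain ⟨F', j1, j2, j3, j4, j5, j6, γ'', -⟩ := H33.hilbert_spec K
      (Pool.Agent.H391R2.T4.hilb_numberField K) K G (1 : G →* (K ≃ₐ[K] K))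
      ⟨E, e1, e2, aK, aK, t1, IsScalarTower.left K, e3, e4, γ', fun σ x => by
        have h1 : algebraMap K E x = algebraMap (RatFunc K) E (algebraMap K (RatFunc K) x) := rfl
        rw [h1, σ.commutes]
        rfl⟩
    exact ⟨⟨⟨F', j1, j2, j6, γ''.symm⟩⟩⟩

end Pool.Agent.V8H29.MK
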