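import Pool.Agent.TH914.J3087
import Pool.Agent.TH444.ML.Tr

/-!
Quadratic extensions of a number field which are split at given places: multiplicative congruences.
-/

set_option autoImplicit false

namespace Pool.Agent.V8H29.LC

open NumberField
open Pool.Agent.TH444.ML

section

variable {M : Type} [Field M] [NumberField M]

theorem exists_b (𝔡 : Ideal (𝓞 M)) (hd : Squarefree 𝔡) (m : ℕ) :
    ∃ b : 𝓞 M, b - 1 ∈ Ideal.span {(m : 𝓞 M)} ∧ b * m ∈ 𝔡 := by
  set 𝔤 : Ideal (𝓞 M) := 𝔡 ⊔ Ideal.span {(m : 𝓞 M)} with hg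
  have hgd : 𝔤 ∣ 𝔡 := Ideal.dvd_iff_le.2 le_sup_left
  obtain ⟨𝔡', h1⟩ := hgd
  have htop : 𝔡' ⊔ Ideal.span {(m : 𝓞 M)} = ⊤ := by
    by_contra hne
    obtain ⟨P, hP, hle⟩ := Ideal.exists_le_maximal _ hne
    have h2 : P ∣ 𝔡' := Ideal.dvd_iff_le.2 (le_sup_left.trans hle)
    have h3 : 𝔡 ≤ 𝔡' := le_trans (le_of_eq h1) (Ideal.mul_le_right (I := 𝔤) (J := 𝔡'))
    have h4 : P ∣ 𝔤 := Ideal.dvd_iff_le.2
      (sup_le (h3.trans (le_sup_left.trans hle)) (le_sup_right.trans hle))
    have h5 : P * P ∣ 𝔡 := by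
      rw [h1]
      exact mul_dvd_mul h4 h2
    have h6 := hd P h5
    rw [Ideal.isUnit_iff] at h6
    exact hP.ne_top h6
  have h7 : (1 : 𝓞 M) ∈ 𝔡' ⊔ Ideal.span {(m : 𝓞 M)} := by rw [htop]; trivial
  obtain ⟨b, hb, c, hc, hbc⟩ := Submodule.mem_sup.1 h7
  refine ⟨b, ?_, ?_⟩
  · have : b - 1 = -c := by rw [← hbc]; ring
    rw [this]
    exact (Ideal.span {(m : 𝓞 M)}).neg_mem hc
  · rw [h1, mul_comm b]
    exact Ideal.mul_mem_mul (Submodule.mem_sup_right (Ideal.mem_span_singleton_self _)) hb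

/-- two elements of the same class -/
theorem twist (m : ℕ) (hm : ¬ IsUnit (m : 𝓞 M)) (𝔠 : Ideal (𝓞 M)) (α α' : 𝓞 M)
    (h : Sqf M 𝔠 α) (h' : α' ≠ 0) (hc : α' - α ∈ Ideal.span {(m : 𝓞 M) ^ 2} * 𝔠 ^ 2) :
    ∃ a b : 𝓞 M, a ≠ 0 ∧ b ≠ 0 ∧ a - 1 ∈ Ideal.span {(m : 𝓞 M)} ∧
      b - 1 ∈ Ideal.span {(m : 𝓞 M)} ∧ b * α' = a * α := by
  obtain ⟨hα, 𝔡, hd, hI⟩ := h
  obtain ⟨b, hb1, hb2⟩ := exists_b 𝔡 hd m
  have hb0 : b ≠ 0 := by
    rintro rfl
    rw [zero_sub] at hb1
    have h1 := (Ideal.span {(m : 𝓞 M)}).neg_mem hb1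
    rw [neg_neg, Ideal.mem_span_singleton] at h1
    exact hm (isUnit_of_dvd_one h1)
  have h1 : b * (α' - α) ∈ Ideal.span {(m : 𝓞 M) * α} := by
    have h2 : b * (α' - α) ∈ Ideal.span {b} * (Ideal.span {(m : 𝓞 M) ^ 2} * 𝔠 ^ 2) :=
      Ideal.mul_mem_mul (Ideal.mem_span_singleton_self _) hc
    have h3 : Ideal.span {b} * (Ideal.span {(m : 𝓞 M) ^ 2} * 𝔠 ^ 2) =
        Ideal.span {(m : 𝓞 M)} * (Ideal.span {b * m} * 𝔠 ^ 2) := by
      rw [← Ideal.span_singleton_mul_span_singleton, pow_two,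
        ← Ideal.span_singleton_mul_span_singleton]
      ring
    rw [h3] at h2
    rw [← Ideal.span_singleton_mul_span_singleton, hI]
    exact Ideal.mul_mono_right (Ideal.mul_mono_left ((Ideal.span_singleton_le_iff_mem _).2 hb2)) h2
  obtain ⟨w, hw⟩ := Ideal.mem_span_singleton.1 h1
  refine ⟨b + m * w, b, ?_, hb0, ?_, hb1, ?_⟩
  · intro h0
    have h2 : b * α' = 0 := by
      have : b * α' = (b + m * w) * α := by
        have : b * α' = b * (α' - α) + b * α := by ring
        rw [this, hw]; ring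
      rw [this, h0, zero_mul]
    rcases mul_eq_zero.1 h2 with h3 | h3
    · exact hb0 h3
    · exact h' h3
  · have : b + m * w - 1 = (b - 1) + m * w := by ring
    rw [this]
    exact (Ideal.span _).add_mem hb1
      (Ideal.mul_mem_right _ _ (Ideal.mem_span_singleton_self _))
  · have : b * α' = b * (α' - α) + b * α := by ring
    rw [this, hw]; ring

end

section quad

variable {M E : Type} [Field M] [Field E] [Algebra M E]

/-- generators of the same quadratic extension -/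
theorem ratio [CharZero M] {a c : M} {s t : E} (hs : s ^ 2 = algebraMap M E a)
    (ht : t ^ 2 = algebraMap M E c) (hsM : ∀ x : M, algebraMap M E x ≠ s)
    (htM : ∀ x : M, algebraMap M E x ≠ t) (h : t ∈ IntermediateField.adjoin M {s}) :
    ∃ x : M, x ≠ 0 ∧ t = algebraMap M E x * s := by
  obtain ⟨x, y, hxy⟩ := Pool.Agent.TH914.J3087.mem_adjoin hs h
  have : CharZero E := charZero_of_injective_algebraMap (algebraMap M E).injective
  have h1 : algebraMap M E (2 * x * y) * s = algebraMap M E (c - x ^ 2 - y ^ 2 * a) := by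
    have h2 : (algebraMap M E x + algebraMap M E y * s) ^ 2 = algebraMap M E c := by rw [← hxy, ht]
    simp only [map_mul, map_sub, map_pow, ← hs, ← h2, map_ofNat]
    ring
  have h3 : x * y = 0 := by
    by_contra hne
    apply hsM ((c - x ^ 2 - y ^ 2 * a) / (2 * x * y))
    have h4 : algebraMap M E (2 * x * y) ≠ 0 := by
      rw [Ne, map_eq_zero_iff _ (algebraMap M E).injective, mul_assoc]
      exact mul_ne_zero two_ne_zero hne
    rw [map_div₀, ← h1, mul_comm, mul_div_assoc, div_self h4, mul_one]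
  rcases mul_eq_zero.1 h3 with h4 | h4
  · refine ⟨y, ?_, ?_⟩
    · rintro rfl
      apply htM 0
      rw [hxy, h4]
      simp
    · rw [hxy, h4]
      simp
  · exfalso
    apply htM x
    rw [hxy, h4]
    simp

theorem adjoin_scale {x : M} (hx : x ≠ 0) (s : E) :
    IntermediateField.adjoin M {algebraMap M E x * s} = IntermediateField.adjoin M {s} := by
  apply le_antisymm
  · rw [IntermediateField.adjoin_simple_le_iff]
    exact mul_mem ((IntermediateField.adjoin M {s}).algebraMap_mem x)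
      (IntermediateField.mem_adjoin_simple_self M s)
  · rw [IntermediateField.adjoin_simple_le_iff]
    have h1 : s = algebraMap M E x⁻¹ * (algebraMap M E x * s) := by
      rw [← mul_assoc, ← map_mul, inv_mul_cancel₀ hx, map_one, one_mul]
    rw [h1]
    exact mul_mem ((IntermediateField.adjoin M _).algebraMap_mem x⁻¹)
      (by rw [← h1]; exact IntermediateField.mem_adjoin_simple_self M _)

end quad

end Pool.Agent.V8H29.LC
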