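import Pool.Agent.V8H29.LC1
import Pool.Agent.TH858.J3094
import Pool.Agent.TH626.J3090

/-!
Quadratic extensions of a number field which are split at given places: a positive proportion.
-/

set_option autoImplicit false

namespace Pool.Agent.V8H29.LC

open NumberField Filter Topology
open Pool.Agent.TH444.ML

section

variable (M : Type) [Field M] [NumberField M]

/-- `β` is congruent to `1` modulo `m` and totally positive. -/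
def Good (m : ℕ) (β : 𝓞 M) : Prop :=
  β - 1 ∈ Ideal.span {(m : 𝓞 M)} ∧ ∀ φ : M →+* ℝ, 0 < φ (β : M)

variable (E : Type) [Field E] [Algebra M E]

/-- the quadratic extensions generated by a square root of a good element -/
def GQ (m : ℕ) (Y : ℝ) : Set (IntermediateField M E) :=
  {L | L ∈ QS M E Y ∧ ∃ (β : 𝓞 M) (s : E), Good M m β ∧ s ^ 2 = algebraMap M E (β : M) ∧
    (∀ x : M, algebraMap M E x ≠ s) ∧ L = IntermediateField.adjoin M {s}}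

variable {M E}

/-- upper bound for the norm of the squarefree part -/
theorem norm_le (h1 : DiscQuad) {Y : ℝ} (𝔡 𝔠 : Ideal (𝓞 M)) (h𝔠 : 𝔠 ≠ ⊥) (α : 𝓞 M) (s : E)
    (hα : α ≠ 0) (hsq : Squarefree 𝔡) (hI : Ideal.span {α} = 𝔡 * 𝔠 ^ 2)
    (hs : s ^ 2 = algebraMap M E (α : M)) (hns : ∀ x : M, algebraMap M E x ≠ s)
    (hL : IntermediateField.adjoin M {s} ∈ QS M E Y) :
    (Ideal.absNorm 𝔡 : ℝ) ≤ 4 ^ Module.finrank ℚ M * Y := by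
  obtain ⟨hfin, hnf, hdisc⟩ := hL
  obtain ⟨k, hk⟩ := h1 M
  set L := IntermediateField.adjoin M {s} with hLdef
  have hmem : s ∈ L := IntermediateField.mem_adjoin_simple_self M s
  have hd := hk.disc L ⟨s, hmem⟩ α 𝔡 𝔠 hfin (by
    apply Subtype.ext
    simpa using hs) (by
    intro x hx
    exact hns x (by simpa using congrArg Subtype.val hx)) hα hsq hI
  have hkp := hk.le 𝔠 α h𝔠
  have hdR : (((discr L).natAbs : ℕ) : ℝ) * ((k 𝔠 α : ℕ) : ℝ) ^ 2 =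
      4 ^ Module.finrank ℚ M * (((discr M).natAbs : ℕ) : ℝ) ^ 2 * (Ideal.absNorm 𝔡 : ℝ) := by
    exact_mod_cast hd
  have hl : ((|discr L| : ℤ) : ℝ) = (((discr L).natAbs : ℕ) : ℝ) := by
    rw [Int.abs_eq_natAbs]
    simp
  have hm : ((discr M : ℤ) : ℝ) ^ 2 = (((discr M).natAbs : ℕ) : ℝ) ^ 2 := by
    rw [Nat.cast_natAbs, Int.cast_abs, sq_abs]
  rw [hl, hm] at hdisc
  have hM : (0 : ℝ) < (((discr M).natAbs : ℕ) : ℝ) ^ 2 := by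
    have : 0 < (discr M).natAbs := Int.natAbs_pos.2 (discr_ne_zero M)
    positivity
  have hk2 : ((k 𝔠 α : ℕ) : ℝ) ^ 2 ≤ (4 ^ Module.finrank ℚ M) ^ 2 := by
    have : ((k 𝔠 α : ℕ) : ℝ) ≤ 4 ^ Module.finrank ℚ M := by exact_mod_cast hkp
    gcongr
  have h4 : (0 : ℝ) < 4 ^ Module.finrank ℚ M := by positivity
  have hY : 0 ≤ Y * (((discr M).natAbs : ℕ) : ℝ) ^ 2 := le_trans (Nat.cast_nonneg _) hdisc
  have h5 : 4 ^ Module.finrank ℚ M * (((discr M).natAbs : ℕ) : ℝ) ^ 2 * (Ideal.absNorm 𝔡 : ℝ) ≤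
      4 ^ Module.finrank ℚ M * (((discr M).natAbs : ℕ) : ℝ) ^ 2 *
        (4 ^ Module.finrank ℚ M * Y) := by
    rw [← hdR]
    calc (((discr L).natAbs : ℕ) : ℝ) * ((k 𝔠 α : ℕ) : ℝ) ^ 2
        ≤ (Y * (((discr M).natAbs : ℕ) : ℝ) ^ 2) * (4 ^ Module.finrank ℚ M) ^ 2 :=
          mul_le_mul hdisc hk2 (by positivity) hY
      _ = _ := by ring
  exact le_of_mul_le_mul_left h5 (by positivity)

/-- the discriminant after multiplication by a fixed element -/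
theorem disc_mul [IsAlgClosed E] (h1 : DiscQuad) (h2 : KumP) (𝔠 : Ideal (𝓞 M)) (h𝔠 : 𝔠 ≠ ⊥)
    (α₀ : 𝓞 M) (h₀ : Sqf M 𝔠 α₀) : ∃ C : ℝ, 0 < C ∧ ∀ (Y : ℝ) (α : 𝓞 M) (s s₀ : E),
      Sqf M 𝔠 α → s ^ 2 = algebraMap M E (α : M) → s₀ ^ 2 = algebraMap M E (α₀ : M) →
      (∀ x : M, algebraMap M E x ≠ s) → (∀ x : M, algebraMap M E x ≠ s * s₀) →
      IntermediateField.adjoin M {s} ∈ QS M E Y →
      IntermediateField.adjoin M {s * s₀} ∈ QS M E (C * Y) := by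
  obtain ⟨hα₀, 𝔡₀, hd₀, hI₀⟩ := h₀
  have h𝔡₀ : 𝔡₀ ≠ ⊥ := hd₀.ne_zero
  have hN₀ : 0 < Ideal.absNorm 𝔡₀ := Nat.pos_of_ne_zero (by rwa [Ne, Ideal.absNorm_eq_zero_iff])
  refine ⟨4 ^ Module.finrank ℚ M * (4 ^ Module.finrank ℚ M * Ideal.absNorm 𝔡₀), by positivity, ?_⟩
  rintro Y α s s₀ ⟨hα, 𝔡, hd, hI⟩ hs hs₀ hns hns₀ hL
  have hN := norm_le h1 𝔡 𝔠 h𝔠 α s hα hd hI hs hns hL
  have h𝔡 : 𝔡 ≠ ⊥ := hd.ne_zero
  obtain ⟨𝔡', 𝔤, h3, h4, h5⟩ := Pool.Agent.TH858.J3094.exists_dec (𝔡 * 𝔡₀) (mul_ne_zero h𝔡 h𝔡₀)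
  have h6 : Ideal.span {α * α₀} = 𝔡' * (𝔤 * 𝔠 ^ 2) ^ 2 := by
    rw [← Ideal.span_singleton_mul_span_singleton, hI, hI₀]
    calc 𝔡 * 𝔠 ^ 2 * (𝔡₀ * 𝔠 ^ 2) = (𝔡 * 𝔡₀) * (𝔠 ^ 2) ^ 2 := by ring
      _ = _ := by rw [h5]; ring
  have h7 : 𝔤 * 𝔠 ^ 2 ≠ ⊥ := mul_ne_zero h4 (pow_ne_zero 2 h𝔠)
  have h8 := Pool.Agent.TH858.J3094.disc_le M E h1 h2 ⟨𝔤 * 𝔠 ^ 2, h7⟩
    (Ideal.absNorm (Ideal.span {α * α₀} : Ideal (𝓞 M))) (α * α₀) (s * s₀) 𝔡' le_rfl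
    (mul_ne_zero hα hα₀) h3 h6 (by rw [mul_pow, hs, hs₀, ← map_mul, ← map_mul]) hns₀
  refine ⟨h8.1, ?_⟩
  obtain ⟨hnf, h9⟩ := h8.2
  refine ⟨hnf, h9.trans (mul_le_mul_of_nonneg_right ?_ (sq_nonneg _))⟩
  have hpos : (0 : ℝ) < (Ideal.absNorm (𝔤 * 𝔠 ^ 2) : ℝ) ^ 2 := by
    have : 0 < Ideal.absNorm (𝔤 * 𝔠 ^ 2) :=
      Nat.pos_of_ne_zero (by rwa [Ne, Ideal.absNorm_eq_zero_iff])
    positivity
  rw [div_le_iff₀ hpos, h6, map_mul, map_pow]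
  have h10 : Ideal.absNorm 𝔡' ≤ Ideal.absNorm 𝔡 * Ideal.absNorm 𝔡₀ := by
    rw [← map_mul, h5]
    apply Nat.le_of_dvd
    · exact Nat.pos_of_ne_zero (by
        rw [Ne, Ideal.absNorm_eq_zero_iff, ← h5]
        exact mul_ne_zero h𝔡 h𝔡₀)
    · rw [map_mul]
      exact dvd_mul_right _ _
  have h11 : (Ideal.absNorm 𝔡' : ℝ) ≤ (4 ^ Module.finrank ℚ M * Y) * Ideal.absNorm 𝔡₀ := by
    calc (Ideal.absNorm 𝔡' : ℝ) ≤ ((Ideal.absNorm 𝔡 * Ideal.absNorm 𝔡₀ : ℕ) : ℝ) := by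
          exact_mod_cast h10
      _ = (Ideal.absNorm 𝔡 : ℝ) * Ideal.absNorm 𝔡₀ := by push_cast; ring
      _ ≤ _ := mul_le_mul_of_nonneg_right hN (Nat.cast_nonneg _)
  push_cast
  calc (4 : ℝ) ^ Module.finrank ℚ M * ((Ideal.absNorm 𝔡' : ℝ) *
        (Ideal.absNorm (𝔤 * 𝔠 ^ 2) : ℝ) ^ 2)
      = (4 ^ Module.finrank ℚ M * (Ideal.absNorm (𝔤 * 𝔠 ^ 2) : ℝ) ^ 2) *
        (Ideal.absNorm 𝔡' : ℝ) := by ring
    _ ≤ (4 ^ Module.finrank ℚ M * (Ideal.absNorm (𝔤 * 𝔠 ^ 2) : ℝ) ^ 2) *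
        ((4 ^ Module.finrank ℚ M * Y) * Ideal.absNorm 𝔡₀) :=
        mul_le_mul_of_nonneg_left h11 (by positivity)
    _ = _ := by ring

end

end Pool.Agent.V8H29.LC
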