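import Pool.Agent.V8H29.LC2

/-!
Quadratic extensions of a number field which are split at given places: the pigeonhole argument.
-/

set_option autoImplicit false

namespace Pool.Agent.V8H29.LC

open NumberField Filter Topology
open Pool.Agent.TH444.ML

section

variable {M : Type} [Field M] [NumberField M]

/-- the colours -/
abbrev Col (rep : ClassGroup (𝓞 M) → Ideal (𝓞 M)) (m : ℕ) : Type :=
  (Σ C : ClassGroup (𝓞 M), 𝓞 M ⧸ (Ideal.span {(m : 𝓞 M) ^ 2} * rep C ^ 2)) × Set (M →+* ℝ)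

theorem finite_real : Finite (M →+* ℝ) := by
  have h : Function.Injective (fun φ : M →+* ℝ => (Complex.ofRealHom.comp φ : M →+* ℂ)) := by
    intro φ ψ h
    ext x
    have h1 := RingHom.congr_fun h x
    simpa using h1
  exact Finite.of_injective _ h

theorem finite_col (rep : ClassGroup (𝓞 M) → Ideal (𝓞 M)) (hrep : ∀ C, rep C ≠ ⊥) (m : ℕ)
    (hm : m ≠ 0) : Finite (Col rep m) := by
  have h1 : Finite (M →+* ℝ) := finite_real
  have h2 : ∀ C : ClassGroup (𝓞 M), Finite (𝓞 M ⧸ (Ideal.span {(m : 𝓞 M) ^ 2} * rep C ^ 2)) := by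
    intro C
    apply Ideal.finiteQuotientOfFreeOfNeBot
    refine mul_ne_zero ?_ (pow_ne_zero 2 (hrep C))
    rw [Ne, Ideal.zero_eq_bot, Ideal.span_singleton_eq_bot]
    exact pow_ne_zero 2 (Nat.cast_ne_zero.2 hm)
  infer_instance

variable {E : Type} [Field E] [Algebra M E]

/-- the quadratic extensions of a given colour -/
def CQ (E : Type) [Field E] [Algebra M E] (rep : ClassGroup (𝓞 M) → Ideal (𝓞 M)) (m : ℕ)
    (t : Col rep m) (Y : ℝ) : Set (IntermediateField M E) :=
  {L | L ∈ QS M E Y ∧ ∃ (α : 𝓞 M) (s : E), Sqf M (rep t.1.1) α ∧ s ^ 2 = algebraMap M E (α : M) ∧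
    (∀ x : M, algebraMap M E x ≠ s) ∧ L = IntermediateField.adjoin M {s} ∧
    Ideal.Quotient.mk _ α = t.1.2 ∧ {φ : M →+* ℝ | 0 < φ (α : M)} = t.2}

theorem sub_CQ [IsAlgClosed E] (h2 : KumP) (rep : ClassGroup (𝓞 M) → Ideal (𝓞 M))
    (hrep : Rep M rep) (m : ℕ) (Y : ℝ) : QS M E Y ⊆ ⋃ t : Col rep m, CQ E rep m t Y := by
  intro L hL
  obtain ⟨k1, k2, k3⟩ := h2 M E rep hrep
  obtain ⟨C, α, s, h3, h4, h5, h6⟩ := k1 L hL.1
  rw [Set.mem_iUnion]
  exact ⟨(⟨C, Ideal.Quotient.mk _ α⟩, {φ : M →+* ℝ | 0 < φ (α : M)}), hL, α, s, h3, h4, h5, h6,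
    rfl, rfl⟩

theorem mul_notMem {a : M} {s s₀ : E} {α₀ : M} (hs : s ^ 2 = algebraMap M E a)
    (hs₀ : s₀ ^ 2 = algebraMap M E α₀)
    (hns : ∀ x : M, algebraMap M E x ≠ s) (hns₀ : ∀ x : M, algebraMap M E x ≠ s₀)
    (hne : IntermediateField.adjoin M {s} ≠ IntermediateField.adjoin M {s₀}) :
    ∀ x : M, algebraMap M E x ≠ s * s₀ := by
  intro x hx
  have hs0 : s ≠ 0 := by
    rintro rfl
    exact hns 0 (map_zero _)
  have hs₀0 : s₀ ≠ 0 := by
    rintro rfl
    exact hns₀ 0 (map_zero _)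
  have hx0 : x ≠ 0 := by
    rintro rfl
    rw [map_zero] at hx
    exact mul_ne_zero hs0 hs₀0 hx.symm
  have hα₀ : α₀ ≠ 0 := by
    rintro rfl
    rw [map_zero] at hs₀
    exact hs₀0 (pow_eq_zero_iff (two_ne_zero)|>.1 hs₀)
  apply hne
  have h1 : s = algebraMap M E (x / α₀) * s₀ := by
    rw [map_div₀, hx, ← hs₀]
    field_simp
  rw [h1]
  exact adjoin_scale (div_ne_zero hx0 hα₀) s₀

theorem card_CQ [IsAlgClosed E] (h1 : DiscQuad) (h2 : KumP) (hu : QuadUnif)
    (rep : ClassGroup (𝓞 M) → Ideal (𝓞 M)) (hrep : Rep M rep) (m : ℕ) (hm : ¬ IsUnit (m : 𝓞 M))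
    (t : Col rep m) : ∃ C : ℝ, 0 < C ∧ ∀ Y : ℝ, 0 ≤ Y →
      (CQ E rep m t Y).ncard ≤ (GQ M E m (C * Y)).ncard + 1 := by
  classical
  by_cases hne : ∃ Y₀ : ℝ, (CQ E rep m t Y₀).Nonempty
  swap
  · push Not at hne
    refine ⟨1, one_pos, fun Y _ => ?_⟩
    have := hne Y
    rw [this, Set.ncard_empty]
    exact Nat.zero_le _
  obtain ⟨Y₀, L₀, hL₀, α₀, s₀, h3, h4, h5, h6, h7, h8⟩ := hne
  have hc : rep t.1.1 ≠ ⊥ := Pool.Agent.TH626.J3090.rep_ne_bot hrep _
  obtain ⟨C, hC, hdisc⟩ := disc_mul (E := E) h1 h2 (rep t.1.1) hc α₀ h3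
  refine ⟨C, hC, fun Y hY => ?_⟩
  have : CharZero E := charZero_of_injective_algebraMap (algebraMap M E).injective
  obtain ⟨C0, hC0⟩ := hu (Module.finrank ℚ M)
  have hfinG : (GQ M E m (C * Y)).Finite :=
    ((hC0 M E rfl _ (by positivity)).1).subset (fun L hL => hL.1)
  have hfinQ : (QS M E Y).Finite := (hC0 M E rfl _ hY).1
  have hfinC : (CQ E rep m t Y).Finite := hfinQ.subset (fun L hL => hL.1)
  have hex : ∀ L : IntermediateField M E, ∃ p : 𝓞 M × E, L ∈ CQ E rep m t Y →
      Sqf M (rep t.1.1) p.1 ∧ p.2 ^ 2 = algebraMap M E (p.1 : M) ∧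
      (∀ x : M, algebraMap M E x ≠ p.2) ∧ L = IntermediateField.adjoin M {p.2} ∧
      Ideal.Quotient.mk _ p.1 = t.1.2 ∧ {φ : M →+* ℝ | 0 < φ (p.1 : M)} = t.2 := by
    intro L
    by_cases hL : L ∈ CQ E rep m t Y
    · obtain ⟨_, α, s, h⟩ := hL
      exact ⟨(α, s), fun _ => h⟩
    · exact ⟨(0, 0), fun h => absurd h hL⟩
  choose p hp using hex
  have hle : (CQ E rep m t Y \ {L₀}).ncard ≤ (GQ M E m (C * Y)).ncard := by
    refine Set.ncard_le_ncard_of_injOn (fun L => IntermediateField.adjoin M {(p L).2 * s₀})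
      ?_ ?_ hfinG
    · rintro L ⟨hL, hLne⟩
      obtain ⟨a1, a2, a3, a4, a5, a6⟩ := hp L hL
      have hne : IntermediateField.adjoin M {(p L).2} ≠ IntermediateField.adjoin M {s₀} := by
        rw [← a4, ← h6]
        exact hLne
      have hns := mul_notMem a2 h4 a3 h5 hne
      have hmem : IntermediateField.adjoin M {(p L).2} ∈ QS M E Y := by
        rw [← a4]
        exact hL.1
      have hL' := hdisc Y (p L).1 (p L).2 s₀ a1 a2 h4 a3 hns hmem
      have hcong : α₀ - (p L).1 ∈ Ideal.span {(m : 𝓞 M) ^ 2} * rep t.1.1 ^ 2 := by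
        rw [← Ideal.Quotient.eq, h7, a5]
      obtain ⟨a, b, ha0, hb0, ha1, hb1, hab⟩ := twist m hm (rep t.1.1) (p L).1 α₀ a1 h3.1 hcong
      have hα0 : (((p L).1 : 𝓞 M) : M) ≠ 0 := by
        have := a1.1
        exact_mod_cast this
      have hbM : ((b : 𝓞 M) : M) ≠ 0 := by exact_mod_cast hb0
      have habM : ((b : 𝓞 M) : M) * (α₀ : M) = (a : M) * ((p L).1 : M) := by
        exact_mod_cast congrArg (algebraMap (𝓞 M) M) hab
      have hq : ((b : 𝓞 M) : M) / ((p L).1 : M) ≠ 0 := div_ne_zero hbM hα0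
      refine ⟨hL', a * b, algebraMap M E (((b : 𝓞 M) : M) / ((p L).1 : M)) * ((p L).2 * s₀),
        ⟨?_, ?_⟩, ?_, ?_, ?_⟩
      · have : a * b - 1 = a * (b - 1) + (a - 1) := by ring
        rw [this]
        exact (Ideal.span {(m : 𝓞 M)}).add_mem (Ideal.mul_mem_left _ _ hb1) ha1
      · intro φ
        have hsame : 0 < φ (α₀ : M) ↔ 0 < φ ((p L).1 : M) := by
          have h9 : φ ∈ {φ : M →+* ℝ | 0 < φ (α₀ : M)} ↔ φ ∈ {φ : M →+* ℝ | 0 < φ ((p L).1 : M)} := by
            rw [h8, a6]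
          exact h9
        have hφ0 : φ (α₀ : M) ≠ 0 := by
          rw [Ne, map_eq_zero]
          have := h3.1
          exact_mod_cast this
        have hφ1 : φ ((p L).1 : M) ≠ 0 := by
          rw [Ne, map_eq_zero]
          exact hα0
        have hprod : 0 < φ (α₀ : M) * φ ((p L).1 : M) := by
          rcases lt_or_gt_of_ne hφ0 with h10 | h10
          · have h11 : ¬ 0 < φ ((p L).1 : M) := fun h => by
              have := hsame.2 h
              linarith
            have h12 : φ ((p L).1 : M) < 0 := lt_of_le_of_ne (not_lt.1 h11) hφ1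
            exact mul_pos_of_neg_of_neg h10 h12
          · exact mul_pos h10 (hsame.1 h10)
        have h13 : φ ((a * b : 𝓞 M) : M) * φ ((p L).1 : M) ^ 2 =
            φ (b : M) ^ 2 * (φ (α₀ : M) * φ ((p L).1 : M)) := by
          have h14 : ((a * b : 𝓞 M) : M) * ((p L).1 : M) ^ 2 =
              (b : M) ^ 2 * ((α₀ : M) * ((p L).1 : M)) := by
            calc ((a * b : 𝓞 M) : M) * ((p L).1 : M) ^ 2
                = ((a : M) * ((p L).1 : M)) * ((b : M) * ((p L).1 : M)) := by
                  push_cast; ring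
              _ = _ := by rw [← habM]; ring
          rw [← map_pow, ← map_mul, h14]
          simp only [map_mul, map_pow]
        have h15 : 0 < φ (b : M) ^ 2 := by
          have : φ (b : M) ≠ 0 := by
            rw [Ne, map_eq_zero]
            exact hbM
          positivity
        have h16 : 0 < φ ((a * b : 𝓞 M) : M) * φ ((p L).1 : M) ^ 2 := by
          rw [h13]
          exact mul_pos h15 hprod
        have h17 : 0 < φ ((p L).1 : M) ^ 2 := by positivity
        exact (mul_pos_iff_of_pos_right h17).1 h16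
      · rw [mul_pow, mul_pow, a2, h4, ← map_mul, ← map_pow, ← map_mul]
        congr 1
        rw [div_pow]
        field_simp
        push_cast
        linear_combination ((b : 𝓞 M) : M) * habM
      · intro x hx
        apply hns (x / (((b : 𝓞 M) : M) / ((p L).1 : M)))
        rw [map_div₀, hx, mul_comm, mul_div_assoc, div_self, mul_one]
        rwa [Ne, map_eq_zero_iff _ (algebraMap M E).injective]
      · exact (adjoin_scale hq _).symm
    · rintro L ⟨hL, hLne⟩ L' ⟨hL', hLne'⟩ hLL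
      obtain ⟨a1, a2, a3, a4, a5, a6⟩ := hp L hL
      obtain ⟨b1, b2, b3, b4, b5, b6⟩ := hp L' hL'
      have hne : IntermediateField.adjoin M {(p L).2} ≠ IntermediateField.adjoin M {s₀} := by
        rw [← a4, ← h6]
        exact hLne
      have hne' : IntermediateField.adjoin M {(p L').2} ≠ IntermediateField.adjoin M {s₀} := by
        rw [← b4, ← h6]
        exact hLne'
      have hns := mul_notMem a2 h4 a3 h5 hne
      have hns' := mul_notMem b2 h4 b3 h5 hne'
      have h9 : (p L').2 * s₀ ∈ IntermediateField.adjoin M {(p L).2 * s₀} := by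
        have h10 : IntermediateField.adjoin M {(p L).2 * s₀} =
          IntermediateField.adjoin M {(p L').2 * s₀} := hLL
        rw [h10]
        exact IntermediateField.mem_adjoin_simple_self M _
      obtain ⟨x, hx, hxe⟩ := ratio (a := ((p L).1 : M) * (α₀ : M)) (c := ((p L').1 : M) * (α₀ : M))
        (by rw [mul_pow, a2, h4, ← map_mul]) (by rw [mul_pow, b2, h4, ← map_mul]) hns hns' h9
      have hs₀0 : s₀ ≠ 0 := by
        rintro rfl
        exact h5 0 (map_zero _)
      have h11 : (p L').2 = algebraMap M E x * (p L).2 := by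
        apply mul_right_cancel₀ hs₀0
        rw [hxe]; ring
      rw [a4, b4, h11]
      exact (adjoin_scale hx _).symm
  calc (CQ E rep m t Y).ncard ≤ (insert L₀ (CQ E rep m t Y \ {L₀})).ncard := by
        apply Set.ncard_le_ncard
        · intro L hL
          by_cases h : L = L₀
          · exact Or.inl h
          · exact Or.inr ⟨hL, h⟩
        · exact (hfinC.subset Set.sdiff_subset).insert L₀
    _ ≤ (CQ E rep m t Y \ {L₀}).ncard + 1 := Set.ncard_insert_le _ _
    _ ≤ _ := Nat.add_le_add_right hle 1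

end

end Pool.Agent.V8H29.LC
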