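import Pool.Agent.V8H29.LC3

/-!
Quadratic extensions of a number field which are split at given places: a positive proportion.
-/

set_option autoImplicit false

namespace Pool.Agent.V8H29.LC

open NumberField Filter Topology
open Pool.Agent.TH444.ML

theorem pos_good (h1 : DiscQuad) (h2 : KumP) (hu : QuadUnif) (hl : QuadLim) (hp : QuadPos)
    (M E : Type) [Field M] [NumberField M] [Field E] [Algebra M E] [IsAlgClosed E] (m : ℕ)
    (hm0 : m ≠ 0) (hm : ¬ IsUnit (m : 𝓞 M)) :
    ∃ c : ℝ, 0 < c ∧ ∀ᶠ Y : ℝ in atTop, c * Y ≤ (GQ M E m Y).ncard := by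
  classical
  obtain ⟨rep, hrep⟩ := Pool.Agent.TH626.J3090.exists_rep M
  have hfc : Finite (Col rep m) :=
    finite_col rep (fun C => Pool.Agent.TH626.J3090.rep_ne_bot hrep C) m hm0
  have : Fintype (Col rep m) := Fintype.ofFinite _
  choose C hC0 hC using fun t : Col rep m => card_CQ (E := E) h1 h2 hu rep hrep m hm t
  obtain ⟨c₀, hc₀⟩ := hl M E
  have hc1 : 0 ≤ c₀ := by
    refine ge_of_tendsto hc₀ ?_
    filter_upwards [eventually_ge_atTop (0 : ℝ)] with Y hY
    positivity
  have hc2 : c₀ ≠ 0 := by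
    intro h
    rw [h] at hc₀
    exact hp M E hc₀
  have hcpos : 0 < c₀ := lt_of_le_of_ne hc1 (Ne.symm hc2)
  obtain ⟨C0, hC0'⟩ := hu (Module.finrank ℚ M)
  -- the maximum of the constants
  set D : ℝ := 1 + ∑ t : Col rep m, C t with hD
  have hD1 : 1 ≤ D := by
    have : 0 ≤ ∑ t : Col rep m, C t := Finset.sum_nonneg fun t _ => (hC0 t).le
    linarith
  have hCD : ∀ t, C t ≤ D := by
    intro t
    have : C t ≤ ∑ t : Col rep m, C t :=
      Finset.single_le_sum (f := C) (fun t _ => (hC0 t).le) (Finset.mem_univ t)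
    linarith
  have hfinG : ∀ Y : ℝ, 0 ≤ Y → (GQ M E m Y).Finite := fun Y hY =>
    ((hC0' M E rfl _ hY).1).subset (fun L hL => hL.1)
  have hmono : ∀ Y Y' : ℝ, Y ≤ Y' → GQ M E m Y ⊆ GQ M E m Y' := by
    rintro Y Y' h L ⟨⟨h3, h4, h5⟩, h6⟩
    exact ⟨⟨h3, h4, h5.trans (mul_le_mul_of_nonneg_right h (sq_nonneg _))⟩, h6⟩
  set k : ℕ := Fintype.card (Col rep m) with hk
  have hmain : ∀ Y : ℝ, 0 ≤ Y → (QS M E Y).ncard ≤ k * ((GQ M E m (D * Y)).ncard + 1) := by
    intro Y hY
    have hfinQ : (QS M E Y).Finite := (hC0' M E rfl _ hY).1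
    have hfinC : ∀ t : Col rep m, (CQ E rep m t Y).Finite := fun t =>
      hfinQ.subset (fun L hL => hL.1)
    have h3 : (QS M E Y).ncard ≤ ∑ t : Col rep m, (CQ E rep m t Y).ncard := by
      have h4 : QS M E Y ⊆ ↑((Finset.univ : Finset (Col rep m)).biUnion
          fun t => (hfinC t).toFinset) := by
        intro L hL
        have := sub_CQ (E := E) h2 rep hrep m Y hL
        rw [Set.mem_iUnion] at this
        obtain ⟨t, ht⟩ := this
        simp only [Finset.coe_biUnion, Set.mem_iUnion, Finset.mem_coe, Finset.mem_univ,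
          Set.Finite.mem_toFinset, exists_true_left]
        exact ⟨t, ht⟩
      calc (QS M E Y).ncard ≤ ((Finset.univ : Finset (Col rep m)).biUnion
            fun t => (hfinC t).toFinset).card := by
            rw [← Set.ncard_coe_finset]
            exact Set.ncard_le_ncard h4 (Finset.finite_toSet _)
        _ ≤ ∑ t : Col rep m, (hfinC t).toFinset.card := Finset.card_biUnion_le
        _ = _ := Finset.sum_congr rfl fun t _ => (Set.ncard_eq_toFinset_card _ (hfinC t)).symm
    refine h3.trans ?_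
    calc ∑ t : Col rep m, (CQ E rep m t Y).ncard
        ≤ ∑ _t : Col rep m, ((GQ M E m (D * Y)).ncard + 1) := by
          refine Finset.sum_le_sum fun t _ => (hC t Y hY).trans ?_
          refine Nat.add_le_add_right ?_ 1
          exact Set.ncard_le_ncard (hmono _ _ (mul_le_mul_of_nonneg_right (hCD t) hY))
            (hfinG _ (by positivity))
      _ = _ := by rw [Finset.sum_const, Finset.card_univ, smul_eq_mul]
  have hk0 : 0 < k := by
    rw [hk, Fintype.card_pos_iff]
    exact ⟨(⟨1, 0⟩, ∅)⟩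
  have hkR : (0 : ℝ) < k := by exact_mod_cast hk0
  refine ⟨c₀ / (4 * k * D), by positivity, ?_⟩
  have h5 : ∀ᶠ Y : ℝ in atTop, c₀ / 2 < ((QS M E Y).ncard : ℝ) / Y :=
    hc₀.eventually (lt_mem_nhds (by linarith))
  -- scale
  have hsc : Tendsto (fun Y : ℝ => Y / D) atTop atTop :=
    tendsto_id.atTop_div_const (by linarith)
  filter_upwards [hsc.eventually h5, eventually_ge_atTop (4 * k * D / c₀), eventually_gt_atTop 0]
    with Y hY1 hY2 hY3
  have hD0 : 0 < D := by linarith
  have hYD : 0 < Y / D := by positivity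
  rw [lt_div_iff₀ hYD] at hY1
  have h6 := hmain (Y / D) hYD.le
  have h7 : D * (Y / D) = Y := by field_simp
  rw [h7] at h6
  have h8 : ((QS M E (Y / D)).ncard : ℝ) ≤ k * ((GQ M E m Y).ncard + 1) := by exact_mod_cast h6
  have h9 : c₀ / 2 * (Y / D) ≤ k * ((GQ M E m Y).ncard + 1) := by linarith
  have h10 : c₀ / (2 * k * D) * Y ≤ (GQ M E m Y).ncard + 1 := by
    have : c₀ / 2 * (Y / D) = k * (c₀ / (2 * k * D) * Y) := by field_simp
    rw [this] at h9
    exact le_of_mul_le_mul_left h9 hkR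
  have h11 : 1 ≤ c₀ / (4 * k * D) * Y := by
    rw [div_le_iff₀ hcpos] at hY2
    rw [div_mul_eq_mul_div, le_div_iff₀ (by positivity)]
    linarith
  have h12 : c₀ / (2 * k * D) * Y = 2 * (c₀ / (4 * k * D) * Y) := by field_simp; ring
  linarith

end Pool.Agent.V8H29.LC
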