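import Pool.Agent.V8H29.LC4
import Pool.Agent.TH444.ML.Done

/-!
`C₂ ≀ H`-extensions which are split at given places over their subfield with group `H`.
-/

set_option autoImplicit false

namespace Pool.Agent.V8H29.LC

open NumberField Filter Topology
open Pool.Agent.TH444.ML

/-- `L` is generated over `M` by a square root of a totally positive algebraic integer of `M` which is
congruent to `1` modulo `m`. -/
def GoodOver {K Ω : Type} [Field K] [Field Ω] [Algebra K Ω] (M L : IntermediateField K Ω) (m : ℕ) :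
    Prop :=
  ∃ (β : 𝓞 M) (s : Ω), β - 1 ∈ Ideal.span {(m : 𝓞 M)} ∧ (∀ φ : M →+* ℝ, 0 < φ (β : M)) ∧
    s ^ 2 = ((β : M) : Ω) ∧ L = M ⊔ IntermediateField.adjoin K {s}

theorem not_unit (M : Type) [Field M] [NumberField M] (m : ℕ) (hm : 2 ≤ m) :
    ¬ IsUnit (m : 𝓞 M) := by
  intro h
  have h1 : (m : 𝓞 M) = algebraMap ℤ (𝓞 M) (m : ℤ) := by simp
  rw [h1] at h
  have h2 : IsUnit (m : ℤ) := (isUnit_map_iff (algebraMap ℤ (𝓞 M)) (m : ℤ)).1 h
  rw [Int.isUnit_iff] at h2
  omega

section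

variable {K Ω : Type} [Field K] [NumberField K] [Field Ω] [Algebra K Ω] [IsAlgClosure K Ω]
variable {H : Type} [Group H] [Finite H]

theorem finite_TT (Z : ℝ) : (TT K Ω H Z).Finite := by
  obtain ⟨C, hC⟩ := Pool.Agent.TH979.J3100.hermiteRel K Ω (2 * Nat.card H)
  refine ((hC (max Z 1) (le_max_right _ _)).1).subset ?_
  rintro L ⟨h1, h2, h3⟩
  have hpos : 0 < Nat.card H := Nat.card_pos
  exact ⟨FiniteDimensional.of_finrank_pos (by omega), h1, h3.trans (le_max_left _ _)⟩

/-- the good extensions among those with group `C₂ ≀ H` -/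
theorem wreath_good (M : IntermediateField K Ω) (hM : M ∈ Gal K Ω H) (m : ℕ) (hm : 2 ≤ m) (D : ℝ)
    (hD : 0 < D) : ∃ c : ℝ, 0 < c ∧ ∀ᶠ X : ℝ in atTop,
      c * X ≤ Set.ncard {L | L ∈ TT K Ω H (X * D) ∧ M ≤ L ∧ GoodOver M L m} := by
  have hfd : FiniteDimensional K M := hM.1
  have hgal : IsGalois K M := hM.2.1
  have hnf : NumberField M := nf_of_fd M
  have hac : IsAlgClosed Ω := IsAlgClosure.isAlgClosed K
  obtain ⟨c, hc, hev⟩ := pos_good Pool.Agent.TH263.J3086.discQuad Pool.Agent.TH914.J3087.kumP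
    quadUnif (quadLim rest) quadPos M Ω m (by omega) (not_unit M m hm)
  have hbad := badSmall K Ω M
  set d : ℝ := dsc M with hd
  have hd1 : 1 ≤ d := one_le_dsc M
  have hd0 : 0 < d := by linarith
  have hdd : 0 < D / d ^ 2 := by positivity
  have hsub : Tendsto (fun X : ℝ => X * (D / d ^ 2)) atTop atTop :=
    tendsto_id.atTop_mul_const hdd
  refine ⟨c / 2 * (D / d ^ 2), by positivity, ?_⟩
  have hbad' : ∀ᶠ Y : ℝ in atTop, ((BM M Y).ncard : ℝ) / Y < c / 2 :=
    hbad.eventually (gt_mem_nhds (by linarith))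
  filter_upwards [hsub.eventually hev, hsub.eventually hbad', eventually_gt_atTop 0] with X h1 h2 hX
  set Y : ℝ := X * (D / d ^ 2) with hY
  have hY0 : 0 < Y := by positivity
  rw [div_lt_iff₀ hY0] at h2
  have hXD : Y * dsc M ^ 2 = X * D := by
    rw [← hd, hY]; field_simp
  -- the image of the good quadratic extensions
  set AG : Set (IntermediateField K Ω) :=
    (fun L' : IntermediateField M Ω => IntermediateField.restrictScalars K L') '' (GQ M Ω m Y)
    with hAG
  have hAGc : AG.ncard = (GQ M Ω m Y).ncard :=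
    Set.ncard_image_of_injective _ (IntermediateField.restrictScalars_injective K)
  have hfinAS := finite_AS' quadUnif M Y hY0.le
  have hAGs : ∀ L ∈ AG, L ∈ AS M Y ∧ GoodOver M L m := by
    rintro L ⟨L', ⟨hL', β, s, ⟨hβ1, hβ2⟩, hs, hns, hLs⟩, rfl⟩
    have hle : M ≤ IntermediateField.restrictScalars K L' := by
      intro x hx
      exact L'.algebraMap_mem ⟨x, hx⟩
    refine ⟨?_, β, s, hβ1, hβ2, hs, ?_⟩
    · rw [extend_mem _ hle]
      exact hL'
    · rw [hLs]
      exact IntermediateField.restrictScalars_adjoin_eq_sup K M {s}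
  have hun := SM_union (H := H) M hM Y
  rw [hXD] at hun
  have hfinB : (BM M Y).Finite := hfinAS.subset (by rw [← hun]; exact Set.subset_union_right)
  have hfinT : {L | L ∈ TT K Ω H (X * D) ∧ M ≤ L ∧ GoodOver M L m}.Finite :=
    (finite_TT (X * D)).subset (fun L hL => hL.1)
  have hsub2 : AG ⊆ {L | L ∈ TT K Ω H (X * D) ∧ M ≤ L ∧ GoodOver M L m} ∪ BM M Y := by
    intro L hL
    obtain ⟨h3, h4⟩ := hAGs L hL
    have h5 : L ∈ SM H M (X * D) ∪ BM M Y := by rw [hun]; exact h3
    rcases h5 with h5 | h5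
    · left
      refine ⟨?_, h3.1, h4⟩
      obtain ⟨h6, h7⟩ := (Pool.Agent.TH365.J3099.wrIff K Ω H L).2 ⟨M, h5.1⟩
      exact ⟨h6, h7, h5.2⟩
    · exact Or.inr h5
  have h3 : AG.ncard ≤ Set.ncard {L | L ∈ TT K Ω H (X * D) ∧ M ≤ L ∧ GoodOver M L m} +
      (BM M Y).ncard :=
    (Set.ncard_le_ncard hsub2 (hfinT.union hfinB)).trans (Set.ncard_union_le _ _)
  rw [hAGc] at h3
  have h4 : ((GQ M Ω m Y).ncard : ℝ) ≤
      (Set.ncard {L | L ∈ TT K Ω H (X * D) ∧ M ≤ L ∧ GoodOver M L m} : ℝ) + (BM M Y).ncard := by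
    exact_mod_cast h3
  have h5 : c / 2 * (D / d ^ 2) * X = c / 2 * Y := by rw [hY]; ring
  rw [h5]
  linarith

end

/-- a map with small fibres -/
theorem card_fibres {A B : Type} [Finite A] [Finite B] (f : A → B) (h : ℕ)
    (hf : ∀ a : A, Nat.card {a' : A // f a' = f a} ≤ h) : Nat.card A ≤ h * Nat.card B := by
  classical
  have : Fintype A := Fintype.ofFinite A
  have : Fintype B := Fintype.ofFinite B
  rw [Nat.card_eq_fintype_card, Nat.card_eq_fintype_card]
  have h1 : (Finset.univ : Finset A).card ≤ h * (Finset.univ : Finset B).card := by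
    refine Finset.card_le_mul_card_image_of_maps_to (f := f) (fun a _ => Finset.mem_univ _) h ?_
    intro b _
    by_cases hb : ∃ a, f a = b
    · obtain ⟨a, rfl⟩ := hb
      refine le_trans (le_of_eq ?_) (hf a)
      rw [Nat.card_eq_fintype_card, Fintype.card_subtype]
    · have : (Finset.univ.filter fun x => f x = b) = ∅ := by
        rw [Finset.filter_eq_empty_iff]
        intro x _ hx
        exact hb ⟨x, hx⟩
      rw [this]
      simp
  simpa using h1

/-- the count up to isomorphism -/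
theorem count_lower (K : Type) [Field K] [NumberField K] (H : Type) [Group H] [Finite H]
    (M : IntermediateField K (AlgebraicClosure K)) (hM : M ∈ Gal K (AlgebraicClosure K) H) (m : ℕ)
    (hm : 2 ≤ m) {n : ℕ} (G : Subgroup (Equiv.Perm (Fin n))) (hG : IsC2Wr H G)
    (P : IntermediateField K (AlgebraicClosure K) → Prop)
    (hP : ∀ L : IntermediateField K (AlgebraicClosure K), FiniteDimensional K L → M ≤ L →
      GoodOver M L m → P L) :
    ∃ c : ℝ, 0 < c ∧ ∀ᶠ X : ℝ in atTop, c * X ≤ (Nat.card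
      (Quot fun L L' : {L : IntermediateField K (AlgebraicClosure K) // L ∈ Cnt K G X ∧ P L} =>
        Nonempty (L.1 ≃ₐ[K] L'.1)) : ℝ) := by
  have hd : 0 < ((|discr K| : ℤ) : ℝ) ^ n := by
    have : (0 : ℤ) < |discr K| := abs_pos.2 (discr_ne_zero K)
    have : (0 : ℝ) < ((|discr K| : ℤ) : ℝ) := by exact_mod_cast this
    positivity
  have hcard : 0 < Nat.card H := Nat.card_pos
  have hcardR : (0 : ℝ) < Nat.card H := by exact_mod_cast hcard
  obtain ⟨c, hc, hev⟩ := wreath_good (H := H) M hM m hm _ hd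
  refine ⟨c / Nat.card H, by positivity, ?_⟩
  filter_upwards [hev] with X hX
  rw [← cnt_eq K hG] at hX
  set T₀ := {L | L ∈ Cnt K G X ∧ M ≤ L ∧ GoodOver M L m} with hT₀
  have hfin : (Cnt K G X).Finite := by rw [cnt_eq K hG]; exact finite_TT _
  have hfin₀ : Finite T₀ := hfin.subset (fun L hL => hL.1)
  have hfinP : Finite {L : IntermediateField K (AlgebraicClosure K) // L ∈ Cnt K G X ∧ P L} :=
    Set.Finite.to_subtype (hfin.subset (fun L hL => hL.1))
  have hfd : ∀ L ∈ Cnt K G X, FiniteDimensional K L := by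
    intro L hL
    have hn := c2wr_n hG
    exact FiniteDimensional.of_finrank_pos (by rw [hL.1]; omega)
  let f : T₀ → Quot fun L L' : {L : IntermediateField K (AlgebraicClosure K) //
      L ∈ Cnt K G X ∧ P L} => Nonempty (L.1 ≃ₐ[K] L'.1) :=
    fun L => Quot.mk _ ⟨L.1, L.2.1, hP L.1 (hfd L.1 L.2.1) L.2.2.1 L.2.2.2⟩
  have hequiv : Equivalence fun L L' : {L : IntermediateField K (AlgebraicClosure K) //
      L ∈ Cnt K G X ∧ P L} => Nonempty (L.1 ≃ₐ[K] L'.1) :=
    ⟨fun L => ⟨AlgEquiv.refl⟩, fun ⟨a⟩ => ⟨a.symm⟩, fun ⟨a⟩ ⟨b⟩ => ⟨a.trans b⟩⟩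
  have hfib : ∀ a : T₀, Nat.card {a' : T₀ // f a' = f a} ≤ Nat.card H := by
    intro a
    have ha := a.2.1
    rw [cnt_eq K hG] at ha
    rw [← Pool.Agent.TH928.J3106.wrConj K (AlgebraicClosure K) H a.1 ha.1 ha.2.1,
      ← Nat.card_coe_set_eq]
    have hfin2 : Finite {L' : IntermediateField K (AlgebraicClosure K) |
        Nonempty (a.1 ≃ₐ[K] L')} := by
      apply Nat.finite_of_card_ne_zero
      rw [Nat.card_coe_set_eq, Pool.Agent.TH928.J3106.wrConj K (AlgebraicClosure K) H a.1 ha.1 ha.2.1]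
      omega
    refine Nat.card_le_card_of_injective
      (fun x : {a' : T₀ // f a' = f a} => (⟨x.1.1, ?_⟩ : {L' : IntermediateField K
        (AlgebraicClosure K) | Nonempty (a.1 ≃ₐ[K] L')})) ?_
    · have h1 := (Equivalence.quot_mk_eq_iff hequiv _ _).1 x.2
      obtain ⟨e⟩ := h1
      exact ⟨e.symm⟩
    · intro x y hxy
      have h1 := congrArg Subtype.val hxy
      exact Subtype.ext (Subtype.ext h1)
  have h1 := card_fibres f (Nat.card H) hfib
  have h2 : (T₀.ncard : ℝ) ≤ Nat.card H * (Nat.card (Quot fun L L' : {L : IntermediateField K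
      (AlgebraicClosure K) // L ∈ Cnt K G X ∧ P L} => Nonempty (L.1 ≃ₐ[K] L'.1)) : ℝ) := by
    rw [← Nat.card_coe_set_eq]
    exact_mod_cast h1
  rw [div_mul_eq_mul_div, div_le_iff₀ hcardR]
  linarith

end Pool.Agent.V8H29.LC
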