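import Mathlib

/-!
Square roots of elements congruent to `1` modulo `4 p` in `p`-adic fields.
-/

set_option autoImplicit false

namespace Pool.Agent.V8H29.LC

open NumberField

section

variable (p : ℕ) [hp : Fact p.Prime]

theorem norm_le_one_of_integral {x : PadicAlgCl p} (hx : IsIntegral ℤ x) : ‖x‖ ≤ 1 := by
  have h1 : IsIntegral (Valued.v (R := PadicAlgCl p)).integer x := hx.tower_top
  have h2 := (Valuation.integer.integers (Valued.v (R := PadicAlgCl p))).mem_of_integral h1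
  rw [Valuation.mem_integer_iff, PadicAlgCl.valuation_def] at h2
  exact_mod_cast h2

theorem norm_p_lt : ‖((p : ℕ) : PadicAlgCl p)‖ < 1 := by
  have h1 : ((p : ℕ) : PadicAlgCl p) = ((p : ℚ_[p]) : PadicAlgCl p) := by
    simp
  rw [h1, PadicAlgCl.norm_extends]
  exact Padic.norm_p_lt_one

/-- a square root of an element congruent to `1` modulo `4 p` generates nothing new -/
theorem local_sqrt (E' : IntermediateField ℚ_[p] (PadicAlgCl p)) (s w : PadicAlgCl p)
    (hE : s ^ 2 ∈ E') (hw : s ^ 2 - 1 = 4 * p * w) (hwi : ‖w‖ ≤ 1) : s ∈ E' := by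
  by_contra hns
  have h1 : ∃ τ : PadicAlgCl p ≃ₐ[ℚ_[p]] PadicAlgCl p, τ ∈ E'.fixingSubgroup ∧ τ s ≠ s := by
    by_contra hcon
    push Not at hcon
    apply hns
    have h2 : s ∈ IntermediateField.fixedField E'.fixingSubgroup := by
      rw [IntermediateField.mem_fixedField_iff]
      exact hcon
    rwa [InfiniteGalois.fixedField_fixingSubgroup] at h2
  obtain ⟨τ, hτ, hτs⟩ := h1
  have h2 : τ (s ^ 2) = s ^ 2 := by
    rw [IntermediateField.mem_fixingSubgroup_iff] at hτ
    exact hτ _ hE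
  have h3 : τ s = -s := by
    rw [map_pow] at h2
    rcases sq_eq_sq_iff_eq_or_eq_neg.1 h2 with h | h
    · exact absurd h hτs
    · exact h
  set t : PadicAlgCl p := (1 + s) / 2 with ht
  have h4 : τ t = 1 - t := by
    rw [ht, map_div₀, map_add, h3, map_one, map_ofNat]
    ring
  have h5 : ‖τ t‖ = ‖t‖ := by
    rw [← PadicAlgCl.spectralNorm_eq, ← PadicAlgCl.spectralNorm_eq]
    exact (spectralNorm_eq_of_equiv τ t).symm
  have h6 : t * (1 - t) = -(p * w) := by
    have : t * (1 - t) = -((s ^ 2 - 1) / 4) := by rw [ht]; ring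
    rw [this, hw]
    ring
  have h7 : ‖t‖ * ‖t‖ < 1 := by
    have h8 : ‖t * (1 - t)‖ = ‖t‖ * ‖t‖ := by rw [norm_mul, ← h4, h5]
    rw [← h8, h6, norm_neg, norm_mul]
    calc ‖((p : ℕ) : PadicAlgCl p)‖ * ‖w‖ ≤ ‖((p : ℕ) : PadicAlgCl p)‖ * 1 :=
          mul_le_mul_of_nonneg_left hwi (norm_nonneg _)
      _ < 1 := by rw [mul_one]; exact norm_p_lt p
  have h8 : ‖t‖ < 1 := by
    by_contra hc
    have := not_lt.1 hc
    nlinarith
  have h9 : ‖(1 : PadicAlgCl p)‖ ≤ max ‖t‖ ‖1 - t‖ := by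
    have := PadicAlgCl.isNonarchimedean p t (1 - t)
    rwa [add_sub_cancel] at this
  rw [← h4, h5, max_self, norm_one] at h9
  linarith

end

/-- the `p`-adic statement for a quadratic extension -/
theorem local_field {L : Type} [Field L] (p : ℕ) [Fact p.Prime] (σ : L →+* PadicAlgCl p)
    (M : Set L) (E' : IntermediateField ℚ_[p] (PadicAlgCl p)) (hM : ∀ x ∈ M, σ x ∈ E') (s w : L)
    (hs2 : s ^ 2 ∈ M) (m : ℕ) (hm : 4 * p ∣ m) (hw : s ^ 2 - 1 = m * w) (hwi : IsIntegral ℤ w) :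
    σ s ∈ E' := by
  obtain ⟨k, rfl⟩ := hm
  refine local_sqrt p E' (σ s) (σ ((k : L) * w)) (by rw [← map_pow]; exact hM _ hs2) ?_ ?_
  · rw [← map_pow, ← map_one σ, ← map_sub, hw]
    simp only [map_mul, map_natCast, map_ofNat, Nat.cast_mul, Nat.cast_ofNat]
    ring
  · apply norm_le_one_of_integral
    have h1 : IsIntegral ℤ ((k : L) * w) := by
      apply IsIntegral.mul _ hwi
      have := isIntegral_algebraMap (R := ℤ) (A := L) (x := (k : ℤ))
      simpa using this
    exact map_isIntegral_int σ h1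

end Pool.Agent.V8H29.LC
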