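import Pool.Agent.V8H29.LC5
import Pool.Agent.V8H29.LC6

/-!
Local properties of good quadratic extensions.
-/

set_option autoImplicit false

namespace Pool.Agent.V8H29.LC

open NumberField
open Pool.Agent.TH444.ML

section

variable {K Ω F : Type} [Field K] [Field Ω] [Algebra K Ω] [Field F]

/-- an embedding of `L = M(s)` is determined up to a subfield by `M` and `s` -/
theorem image_sub (M L : IntermediateField K Ω) (s : Ω) (hL : L = M ⊔ IntermediateField.adjoin K {s})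
    (hML : M ≤ L) (hsL : s ∈ L) (σ : L →+* F) (B : Subfield F)
    (hM : ∀ (x : Ω) (hx : x ∈ M), σ ⟨x, hML hx⟩ ∈ B) (hs : σ ⟨s, hsL⟩ ∈ B) (x : L) : σ x ∈ B := by
  let R : IntermediateField K Ω :=
    { carrier := {y | ∃ h : y ∈ L, σ ⟨y, h⟩ ∈ B}
      mul_mem' := by
        rintro a b ⟨ha, ha'⟩ ⟨hb, hb'⟩
        refine ⟨mul_mem ha hb, ?_⟩
        have : (⟨a * b, mul_mem ha hb⟩ : L) = ⟨a, ha⟩ * ⟨b, hb⟩ := rfl
        rw [this, map_mul]
        exact mul_mem ha' hb'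
      add_mem' := by
        rintro a b ⟨ha, ha'⟩ ⟨hb, hb'⟩
        refine ⟨add_mem ha hb, ?_⟩
        have : (⟨a + b, add_mem ha hb⟩ : L) = ⟨a, ha⟩ + ⟨b, hb⟩ := rfl
        rw [this, map_add]
        exact add_mem ha' hb'
      algebraMap_mem' := fun r => ⟨L.algebraMap_mem r, hM _ (M.algebraMap_mem r)⟩
      inv_mem' := by
        rintro a ⟨ha, ha'⟩
        refine ⟨inv_mem ha, ?_⟩
        have : (⟨a⁻¹, inv_mem ha⟩ : L) = (⟨a, ha⟩ : L)⁻¹ := rfl
        rw [this, map_inv₀]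
        exact inv_mem ha' }
  have h1 : L ≤ R := by
    rw [hL]
    refine sup_le (fun y hy => ⟨hML hy, hM y hy⟩) ?_
    rw [IntermediateField.adjoin_simple_le_iff]
    exact ⟨hsL, hs⟩
  obtain ⟨h2, h3⟩ := h1 x.2
  exact h3

end

section

variable {K Ω : Type} [Field K] [Field Ω] [Algebra K Ω] [NumberField K]

/-- real places of `M` stay real in `L` -/
theorem good_real {M L : IntermediateField K Ω} {m : ℕ} (hML : M ≤ L) (h : GoodOver M L m)
    (φ : L →+* ℂ) (hφ : ∀ (x : Ω) (hx : x ∈ M), (φ ⟨x, hML hx⟩).im = 0) (x : L) :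
    (φ x).im = 0 := by
  obtain ⟨β, s, hβ1, hβ2, hs, hL⟩ := h
  have hsL : s ∈ L := by
    rw [hL]
    exact (le_sup_right : IntermediateField.adjoin K {s} ≤ _)
      (IntermediateField.mem_adjoin_simple_self K s)
  have hreal : ∀ z : ℂ, z ∈ Complex.ofRealHom.fieldRange ↔ z.im = 0 := by
    intro z
    rw [RingHom.mem_fieldRange]
    constructor
    · rintro ⟨r, rfl⟩
      simp
    · intro hz
      exact ⟨z.re, Complex.ext (by simp) (by simp [hz])⟩
  rw [← hreal]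
  refine image_sub M L s hL hML hsL φ _ (fun y hy => (hreal _).2 (hφ y hy)) ?_ x
  -- the real embedding of `M`
  let ψ : M →+* ℝ :=
    { toFun := fun y => (φ ⟨y.1, hML y.2⟩).re
      map_one' := by
        have : (⟨((1 : M) : Ω), hML (1 : M).2⟩ : L) = 1 := rfl
        rw [this, map_one]; rfl
      map_mul' := fun a b => by
        have : (⟨((a * b : M) : Ω), hML (a * b).2⟩ : L) = ⟨a.1, hML a.2⟩ * ⟨b.1, hML b.2⟩ := rfl
        rw [this, map_mul, Complex.mul_re, hφ a.1 a.2, zero_mul, sub_zero]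
      map_zero' := by
        have : (⟨((0 : M) : Ω), hML (0 : M).2⟩ : L) = 0 := rfl
        rw [this, map_zero]; rfl
      map_add' := fun a b => by
        have : (⟨((a + b : M) : Ω), hML (a + b).2⟩ : L) = ⟨a.1, hML a.2⟩ + ⟨b.1, hML b.2⟩ := rfl
        rw [this, map_add, Complex.add_re] }
  have h1 : 0 < (φ ⟨((β : M) : Ω), hML (β : M).2⟩).re := hβ2 ψ
  have h2 : (φ ⟨((β : M) : Ω), hML (β : M).2⟩).im = 0 := hφ _ (β : M).2
  have h3 : φ ⟨s, hsL⟩ ^ 2 = φ ⟨((β : M) : Ω), hML (β : M).2⟩ := by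
    rw [← map_pow]
    congr 1
    exact Subtype.ext hs
  rw [hreal]
  set z := φ ⟨s, hsL⟩ with hz
  have h4 : (z ^ 2).re = z.re ^ 2 - z.im ^ 2 := by
    rw [pow_two, Complex.mul_re]; ring
  have h5 : (z ^ 2).im = 2 * z.re * z.im := by
    rw [pow_two, Complex.mul_im]; ring
  rw [← h3] at h1 h2
  rw [h4] at h1
  rw [h5] at h2
  rcases mul_eq_zero.1 h2 with h6 | h6
  · have : z.re = 0 := by linarith
    rw [this] at h1
    nlinarith [sq_nonneg z.im]
  · exact h6

/-- at a prime `p` with `4 p ∣ m` the completions of `L` are those of `M` -/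
theorem good_padic {M L : IntermediateField K Ω} {m : ℕ} (hML : M ≤ L) (h : GoodOver M L m)
    (p : ℕ) [Fact p.Prime] (hm : 4 * p ∣ m) (σ : L →+* AlgebraicClosure ℚ_[p])
    (E : IntermediateField ℚ_[p] (AlgebraicClosure ℚ_[p]))
    (hσ : ∀ (x : Ω) (hx : x ∈ M), σ ⟨x, hML hx⟩ ∈ E) (x : L) : σ x ∈ E := by
  obtain ⟨β, s, hβ1, hβ2, hs, hL⟩ := h
  have hsL : s ∈ L := by
    rw [hL]
    exact (le_sup_right : IntermediateField.adjoin K {s} ≤ _)
      (IntermediateField.mem_adjoin_simple_self K s)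
  refine image_sub M L s hL hML hsL σ E.toSubfield (fun y hy => hσ y hy) ?_ x
  obtain ⟨w, hw⟩ := Ideal.mem_span_singleton.1 hβ1
  have hwM : ((β : M) : Ω) - 1 = (m : Ω) * ((w : M) : Ω) := by
    have := congrArg (fun z : 𝓞 M => ((z : M) : Ω)) hw
    simpa using this
  refine local_field (L := L) p σ {y : L | (y : Ω) ∈ M} E (fun y hy => hσ y.1 hy) ⟨s, hsL⟩
    ⟨((w : M) : Ω), hML (w : M).2⟩ ?_ m hm ?_ ?_
  · change ((⟨s, hsL⟩ : L) ^ 2 : L).1 ∈ M
    have : ((⟨s, hsL⟩ : L) ^ 2 : L).1 = s ^ 2 := rfl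
    rw [this, hs]
    exact (β : M).2
  · apply Subtype.ext
    have h1 : ((⟨s, hsL⟩ : L) ^ 2 - 1 : L).1 = s ^ 2 - 1 := rfl
    rw [h1, hs, hwM]
    simp
  · have h1 : IsIntegral ℤ (w : M) := NumberField.RingOfIntegers.isIntegral_coe w
    have h2 := map_isIntegral_int (IntermediateField.inclusion hML : M →ₐ[K] L).toRingHom h1
    exact h2

end

end Pool.Agent.V8H29.LC
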