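import Pool.Agent.V8H29.LC7
import Pool.Agent.V8H29.MK1
import Pool.Agent.W299.GR.All

/-!
Completions of Galois extensions of `ℚ` with prescribed local homomorphisms.
-/

set_option autoImplicit false

namespace Pool.Agent.V8H29.LC

open NumberField
open Pool.Agent.H391R2 (Wr)

/-- the subfield of the algebraic closure of `ℚ_p` generated by `ℚ_p` and the image of `σ` -/
noncomputable def cmp {F : Type} [Field F] (p : ℕ) [Fact p.Prime]
    (σ : F →+* AlgebraicClosure ℚ_[p]) :
    IntermediateField ℚ_[p] (AlgebraicClosure ℚ_[p]) :=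
  IntermediateField.adjoin ℚ_[p] (Set.range σ)

theorem range_sub {F B : Type} [Field F] [CharZero F] [Normal ℚ F] [Field B]
    [CharZero B] (σ τ : F →+* B) : Set.range τ ⊆ Set.range σ := by
  rintro _ ⟨x, rfl⟩
  have hx : IsIntegral ℚ x := Normal.isIntegral (F := ℚ) inferInstance x
  have h1 : Polynomial.Splits ((minpoly ℚ x).map (algebraMap ℚ F)) :=
    Normal.splits (F := ℚ) inferInstance x
  have h2 : (minpoly ℚ x).map (algebraMap ℚ F) ≠ 0 :=
    Polynomial.map_ne_zero (minpoly.ne_zero hx)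
  have h3 : (((minpoly ℚ x).map (algebraMap ℚ F)).map σ).IsRoot (τ x) := by
    have h4 : σ.comp (algebraMap ℚ F) = τ.comp (algebraMap ℚ F) := RingHom.ext_rat _ _
    rw [Polynomial.IsRoot.def, Polynomial.map_map, h4, Polynomial.eval_map,
      ← Polynomial.hom_eval₂]
    have h5 : Polynomial.eval₂ (algebraMap ℚ F) x (minpoly ℚ x) = 0 := minpoly.aeval ℚ x
    rw [h5, map_zero]
  exact h1.mem_range_of_isRoot h2 h3

/-- two embeddings of a Galois extension of `ℚ` have the same image -/
theorem range_eq {F B : Type} [Field F] [CharZero F] [Normal ℚ F] [Field B]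
    [CharZero B] (σ τ : F →+* B) : Set.range σ = Set.range τ :=
  Set.Subset.antisymm (range_sub τ σ) (range_sub σ τ)

/-- the realisation of `Wr G n` inside the algebraic closure of `ℚ` with prescribed completions -/
theorem exists_local (G : Type) [Group G] [Finite G] : ∃ n₀ C : ℕ, ∀ (r n : ℕ) (_ : r ≤ n),
    n₀ + C * r ≤ n → ∀ (S : Finset ℕ) [∀ p : S, Fact (p : ℕ).Prime]
      (ψ : ∀ p : S, (AlgebraicClosure ℚ_[(p : ℕ)] ≃ₐ[ℚ_[(p : ℕ)]] AlgebraicClosure ℚ_[(p : ℕ)]) →*
        Wr G r),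
      (∀ p : S, IsOpen ((ψ p).ker : Set (AlgebraicClosure ℚ_[(p : ℕ)] ≃ₐ[ℚ_[(p : ℕ)]]
        AlgebraicClosure ℚ_[(p : ℕ)]))) →
      ∃ M : IntermediateField ℚ (AlgebraicClosure ℚ),
        M ∈ TH444.ML.Gal ℚ (AlgebraicClosure ℚ) (Wr G n) ∧ IsTotallyReal M ∧
        ∀ (p : S) (σ : M →+* AlgebraicClosure ℚ_[(p : ℕ)]),
          cmp (p : ℕ) σ = IntermediateField.fixedField (ψ p).ker := by
  obtain ⟨n₀, C₀, hn₀⟩ := Pool.Agent.W299.GR.local_hom_all G
  refine ⟨n₀, C₀, fun r n h hn S _ ψ hψ => ?_⟩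
  obtain ⟨F, i1, i2, i3, e, h1, h2⟩ := hn₀ r n h hn S (fun p => (p : ℕ))
    Subtype.val_injective ψ hψ
  let j : F →ₐ[ℚ] AlgebraicClosure ℚ := IsAlgClosed.lift
  let ε : F ≃ₐ[ℚ] j.fieldRange := AlgEquiv.ofInjectiveField j
  refine ⟨j.fieldRange, ⟨?_, ?_, ?_⟩, ?_, ?_⟩
  · exact Module.Finite.equiv ε.toLinearEquiv
  · exact IsGalois.of_algEquiv ε
  · exact ⟨(AlgEquiv.autCongr ε).symm.trans e⟩
  · exact IsTotallyReal.ofRingEquiv ε.toRingEquiv
  · intro p σ
    obtain ⟨σ₀, hσ₀⟩ := h2 p
    have hr : Set.range σ = Set.range σ₀ := by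
      have h3 : Set.range σ = Set.range (σ.comp ε.toRingEquiv.toRingHom) := by
        ext x
        constructor
        · rintro ⟨y, rfl⟩
          exact ⟨ε.symm y, by change σ (ε (ε.symm y)) = σ y; rw [ε.apply_symm_apply]⟩
        · rintro ⟨y, rfl⟩
          exact ⟨ε y, rfl⟩
      rw [h3]
      exact range_eq _ _
    unfold cmp
    rw [hr]
    have hfix : (IntermediateField.adjoin ℚ_[(p : ℕ)] (Set.range σ₀)).fixingSubgroup =
        (ψ p).ker := by
      ext τ
      rw [IntermediateField.mem_fixingSubgroup_iff, MonoidHom.mem_ker]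
      obtain ⟨γ, hγ1, hγ2, hγ3⟩ := hσ₀ τ
      constructor
      · intro hτ
        have h4 : γ = 1 := by
          ext x
          apply σ₀.injective
          rw [← hγ1 x]
          exact hτ _ (IntermediateField.subset_adjoin _ _ ⟨x, rfl⟩)
        rw [h4, map_one] at hγ2
        apply SemidirectProduct.ext
        · funext i
          exact (hγ2 i).2.symm
        · apply Equiv.ext
          intro i
          exact Fin.castLE_injective h (hγ2 i).1.symm
      · intro hτ
        have h4 := hγ3 hτ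
        rw [h4] at hγ1
        have h5 : IntermediateField.adjoin ℚ_[(p : ℕ)] (Set.range σ₀) ≤
            IntermediateField.fixedField (Subgroup.zpowers τ) := by
          rw [IntermediateField.adjoin_le_iff]
          rintro _ ⟨x, rfl⟩
          rw [SetLike.mem_coe, IntermediateField.mem_fixedField_iff]
          intro f hf
          obtain ⟨k, rfl⟩ := Subgroup.mem_zpowers_iff.1 hf
          have h6 : τ • (σ₀ x) = σ₀ x := hγ1 x
          have h7 : τ ∈ MulAction.stabilizer
            (AlgebraicClosure ℚ_[(p : ℕ)] ≃ₐ[ℚ_[(p : ℕ)]] AlgebraicClosure ℚ_[(p : ℕ)])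
            (σ₀ x) := h6
          exact (MulAction.stabilizer _ (σ₀ x)).zpow_mem h7 k
        intro y hy
        exact (IntermediateField.mem_fixedField_iff _ _).1 (h5 hy) τ (Subgroup.mem_zpowers τ)
    rw [← hfix, InfiniteGalois.fixedField_fixingSubgroup]

end Pool.Agent.V8H29.LC
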