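import Pool.Agent.N996.BP.Core

/-!
# Systems of classes on powers, with signed exchanges of the factors
-/

set_option autoImplicit false
set_option linter.unusedSectionVars false

namespace Pool.Agent.V8H29.NV

open Matrix Pool.Agent.N996.BP

variable {ι : Type} [Fintype ι] [DecidableEq ι]

/-- The sign of the exchange of two basis vectors. -/
def ksg (par : ι → Bool) (x y : ι) : ℚ := if par x = true ∧ par y = true then -1 else 1

lemma ksg_sq (par : ι → Bool) (x y : ι) : ksg par x y * ksg par x y = 1 := by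
  unfold ksg; split_ifs <;> norm_num

lemma ksg_comm (par : ι → Bool) (x y : ι) : ksg par x y = ksg par y x := by
  unfold ksg; simp only [and_comm]

lemma ksg_congr (par : ι → Bool) {x y y' : ι} (h : par y = par y') : ksg par x y = ksg par x y' := by
  unfold ksg; rw [h]

/-- The exchange of two neighbouring factors. -/
def sswap (par : ι → Bool) {n : ℕ} (k : Fin n) (a : (Fin (n + 1) → ι) → ℚ) :
    (Fin (n + 1) → ι) → ℚ :=
  fun w => ksg par (w k.castSucc) (w k.succ) * a (w ∘ Equiv.swap k.castSucc k.succ)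

/-- The exterior product. -/
def aprod {n m : ℕ} (a : (Fin (n + 1) → ι) → ℚ) (b : (Fin (m + 1) → ι) → ℚ) :
    (Fin (n + m + 1 + 1) → ι) → ℚ :=
  fun w => a (fun i => w ⟨i.1, by omega⟩) * b (fun j => w ⟨n + 1 + j.1, by omega⟩)

lemma aprod_eq {n m : ℕ} (a : (Fin (n + 1) → ι) → ℚ) (b : (Fin (m + 1) → ι) → ℚ) :
    aprod a b = rei (ce n m) (tens a b) := by
  funext w
  rw [aprod, rei, tens]
  congr 1

/-- The axioms for the classes on the powers. -/
structure ClassSys (par : ι → Bool) (X : Matrix ι ι ℚ)
    (A : ∀ n : ℕ, Submodule ℚ ((Fin (n + 1) → ι) → ℚ)) : Prop where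
  swap : ∀ (n : ℕ) (k : Fin n) (a : (Fin (n + 1) → ι) → ℚ), a ∈ A n → sswap par k a ∈ A n
  prod : ∀ (n m : ℕ) (a : (Fin (n + 1) → ι) → ℚ) (b : (Fin (m + 1) → ι) → ℚ), a ∈ A n →
    b ∈ A m → aprod a b ∈ A (n + m + 1)
  contr : ∀ (n : ℕ) (a : (Fin (n + 2 + 1) → ι) → ℚ), a ∈ A (n + 2) → ctr X a ∈ A n

/-- The same without signs. -/
structure PFam (X : Matrix ι ι ℚ) (A : ∀ n : ℕ, Submodule ℚ ((Fin (n + 1) → ι) → ℚ)) : Prop where
  perm : ∀ (n : ℕ) (σ : Equiv.Perm (Fin (n + 1))) (a : (Fin (n + 1) → ι) → ℚ), a ∈ A n →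
    rei σ a ∈ A n
  tens : ∀ (n m : ℕ) (a : (Fin (n + 1) → ι) → ℚ) (b : (Fin (m + 1) → ι) → ℚ), a ∈ A n →
    b ∈ A m → rei (ce n m) (tens a b) ∈ A (n + m + 1)
  contr : ∀ (n : ℕ) (a : (Fin (n + 2 + 1) → ι) → ℚ), a ∈ A (n + 2) → ctr X a ∈ A n

/-- The projection of the factor `k` to the odd part. -/
def oddAt (par : ι → Bool) {n : ℕ} (k : Fin (n + 1)) (a : (Fin (n + 1) → ι) → ℚ) :
    (Fin (n + 1) → ι) → ℚ := fun w => if par (w k) = true then a w else 0

/-- The array of two factors with a given matrix. -/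
def two (M : Matrix ι ι ℚ) : (Fin (1 + 1) → ι) → ℚ := fun w => M (w 0) (w 1)

/-- The projector to the odd part. -/
def oddM (par : ι → Bool) : Matrix ι ι ℚ := Matrix.diagonal fun i => if par i = true then 1 else 0

variable {par : ι → Bool} {X : Matrix ι ι ℚ}
  {A : ∀ n : ℕ, Submodule ℚ ((Fin (n + 1) → ι) → ℚ)}

lemma oddAt_last (hA : ClassSys par X A) (hX : ∀ i j, X i j ≠ 0 → par i = par j)
    {E : Matrix ι ι ℚ} (hE : X * E = oddM par) (hE1 : two E ∈ A 1) {n : ℕ}
    {a : (Fin (n + 1) → ι) → ℚ} (ha : a ∈ A n) : oddAt par (Fin.last n) a ∈ A n := by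
  have h1 : aprod a (two E) ∈ A (n + 1 + 1) := hA.prod n 1 _ _ ha hE1
  have h2 := hA.swap (n + 2) (Fin.last (n + 1)) _ h1
  have h3 := hA.swap (n + 2) ⟨n, by omega⟩ _ h2
  have h4 := hA.contr n _ h3
  convert h4 using 1
  funext w
  have key : ∀ x y : ι, sswap par (⟨n, by omega⟩ : Fin (n + 2))
      (sswap par (Fin.last (n + 1)) (aprod a (two E))) (sn w x y) =
      ksg par (w (Fin.last n)) x * (ksg par (w (Fin.last n)) y *
        (a (Function.update w (Fin.last n) x) * E y (w (Fin.last n)))) := by
    intro x y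
    have e1 : sn w x y ((⟨n, by omega⟩ : Fin (n + 2)).castSucc) = w (Fin.last n) := by
      have : (⟨n, by omega⟩ : Fin (n + 2)).castSucc = ((Fin.last n).castSucc).castSucc := rfl
      rw [this, sn, Fin.snoc_castSucc, Fin.snoc_castSucc]
    have e2 : sn w x y ((⟨n, by omega⟩ : Fin (n + 2)).succ) = x := by
      have : (⟨n, by omega⟩ : Fin (n + 2)).succ = (Fin.last (n + 1)).castSucc := rfl
      rw [this, sn, Fin.snoc_castSucc, Fin.snoc_last]
    have e3 : sn w x y (Fin.last (n + 2)) = y := by rw [sn, Fin.snoc_last]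
    have hsw1 : ∀ i : Fin (n + 2 + 1), (i.1 ≠ n ∧ i.1 ≠ n + 1) →
        Equiv.swap ((⟨n, by omega⟩ : Fin (n + 2)).castSucc) ((⟨n, by omega⟩ : Fin (n + 2)).succ) i
          = i := by
      intro i hi
      apply Equiv.swap_apply_of_ne_of_ne
      · intro h; exact hi.1 (congrArg Fin.val h)
      · intro h; exact hi.2 (congrArg Fin.val h)
    unfold sswap
    rw [e1, e2]
    congr 1
    have e4 : (sn w x y ∘ Equiv.swap ((⟨n, by omega⟩ : Fin (n + 2)).castSucc)
        ((⟨n, by omega⟩ : Fin (n + 2)).succ)) (Fin.last (n + 1)).castSucc = w (Fin.last n) := by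
      rw [Function.comp_apply]
      have : (Fin.last (n + 1)).castSucc = (⟨n, by omega⟩ : Fin (n + 2)).succ := rfl
      rw [this, Equiv.swap_apply_right, e1]
    have e5 : (sn w x y ∘ Equiv.swap ((⟨n, by omega⟩ : Fin (n + 2)).castSucc)
        ((⟨n, by omega⟩ : Fin (n + 2)).succ)) (Fin.last (n + 1)).succ = y := by
      rw [Function.comp_apply, hsw1 _ (by simp; omega)]
      exact e3
    rw [e4, e5]
    congr 1
    unfold aprod
    congr 1
    · congr 1
      funext i
      simp only [Function.comp_apply]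
      by_cases hi : i = Fin.last n
      · subst hi
        rw [Function.update_self]
        have h5 : Equiv.swap (Fin.last (n + 1)).castSucc (Fin.last (n + 1)).succ
            (⟨(Fin.last n).1, by simp; omega⟩ : Fin (n + 1 + 1 + 1)) =
            (⟨n, by omega⟩ : Fin (n + 2)).castSucc := by
          apply Equiv.swap_apply_of_ne_of_ne
          · intro h
            have := congrArg Fin.val h
            simp at this
          · intro h
            have := congrArg Fin.val h
            simp at this
            omega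
        rw [h5, Equiv.swap_apply_left, e2]
      · rw [Function.update_of_ne hi]
        have hlt : i.1 < n := by
          rcases lt_or_eq_of_le (Nat.lt_succ_iff.1 i.2) with h | h
          · exact h
          · exact absurd (Fin.ext h) hi
        have h5 : Equiv.swap (Fin.last (n + 1)).castSucc (Fin.last (n + 1)).succ
            (⟨i.1, by omega⟩ : Fin (n + 1 + 1 + 1)) = ⟨i.1, by omega⟩ := by
          apply Equiv.swap_apply_of_ne_of_ne
          · intro h
            have := congrArg Fin.val h
            simp at this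
            omega
          · intro h
            have := congrArg Fin.val h
            simp at this
            omega
        rw [h5, hsw1 _ (by simp; omega)]
        have h6 : (⟨i.1, by omega⟩ : Fin (n + 2 + 1)) = i.castSucc.castSucc := rfl
        rw [h6, sn, Fin.snoc_castSucc, Fin.snoc_castSucc]
    · unfold two
      simp only [Function.comp_apply]
      have h5 : Equiv.swap (Fin.last (n + 1)).castSucc (Fin.last (n + 1)).succ
          (⟨n + 1 + (0 : Fin (1 + 1)).1, by simp⟩ : Fin (n + 1 + 1 + 1)) =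
            (Fin.last (n + 1)).succ := by
        have : (⟨n + 1 + (0 : Fin (1 + 1)).1, by simp⟩ : Fin (n + 1 + 1 + 1)) =
            (Fin.last (n + 1)).castSucc := by apply Fin.ext; simp
        rw [this, Equiv.swap_apply_left]
      have h6 : Equiv.swap (Fin.last (n + 1)).castSucc (Fin.last (n + 1)).succ
          (⟨n + 1 + (1 : Fin (1 + 1)).1, by simp⟩ : Fin (n + 1 + 1 + 1)) =
            (Fin.last (n + 1)).castSucc := by
        have : (⟨n + 1 + (1 : Fin (1 + 1)).1, by simp⟩ : Fin (n + 1 + 1 + 1)) =
            (Fin.last (n + 1)).succ := by apply Fin.ext; simp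
        rw [this, Equiv.swap_apply_right]
      rw [h5, h6]
      congr 1
  have hone : ∀ x y : ι, X x y * (ksg par (w (Fin.last n)) x * (ksg par (w (Fin.last n)) y *
        (a (Function.update w (Fin.last n) x) * E y (w (Fin.last n))))) =
      a (Function.update w (Fin.last n) x) * (X x y * E y (w (Fin.last n))) := by
    intro x y
    by_cases h : X x y = 0
    · rw [h]; ring
    · rw [ksg_congr par (hX x y h)]
      have := ksg_sq par (w (Fin.last n)) y
      linear_combination (a (Function.update w (Fin.last n) x) * (X x y * E y (w (Fin.last n)))) *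
        this
  rw [ctr]
  simp_rw [key, hone, ← Finset.mul_sum]
  have h7 : ∀ x, ∑ y, X x y * E y (w (Fin.last n)) = oddM par x (w (Fin.last n)) := fun x => by
    rw [← hE, Matrix.mul_apply]
  simp_rw [h7]
  rw [Finset.sum_eq_single (w (Fin.last n))]
  · rw [Function.update_eq_self, oddM, Matrix.diagonal_apply_eq, oddAt]
    split_ifs <;> simp
  · intro x _ hx
    rw [oddM, Matrix.diagonal_apply_ne _ hx, mul_zero]
  · intro h; exact absurd (Finset.mem_univ _) h

lemma oddAt_mem (hA : ClassSys par X A) (hX : ∀ i j, X i j ≠ 0 → par i = par j)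
    {E : Matrix ι ι ℚ} (hE : X * E = oddM par) (hE1 : two E ∈ A 1) {n : ℕ} (k : Fin (n + 1)) :
    ∀ {a : (Fin (n + 1) → ι) → ℚ}, a ∈ A n → oddAt par k a ∈ A n := by
  induction k using Fin.reverseInduction with
  | last => intro a ha; exact oddAt_last hA hX hE hE1 ha
  | cast k ih =>
    intro a ha
    have h1 := hA.swap n k _ (ih (hA.swap n k _ ha))
    convert h1 using 1
    funext w
    unfold oddAt sswap
    simp only [Function.comp_apply, Equiv.swap_apply_left, Equiv.swap_apply_right]
    have e1 : (w ∘ Equiv.swap k.castSucc k.succ) ∘ Equiv.swap k.castSucc k.succ = w := by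
      funext i; simp
    rw [e1]
    split_ifs with h
    · have := ksg_sq par (w k.castSucc) (w k.succ)
      rw [ksg_comm par (w k.succ), ← mul_assoc, this, one_mul]
    · rw [mul_zero]

/-- The exchange without signs. -/
lemma swap_mem (hA : ClassSys par X A) (hX : ∀ i j, X i j ≠ 0 → par i = par j)
    {E : Matrix ι ι ℚ} (hE : X * E = oddM par) (hE1 : two E ∈ A 1) {n : ℕ} (k : Fin n)
    {a : (Fin (n + 1) → ι) → ℚ} (ha : a ∈ A n) :
    rei (Equiv.swap k.castSucc k.succ) a ∈ A n := by
  have h1 := hA.swap n k _ ha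
  have h2 := hA.swap n k _ (oddAt_mem hA hX hE hE1 k.castSucc
    (oddAt_mem hA hX hE hE1 k.succ ha))
  have h3 := Submodule.sub_mem _ h1 (Submodule.smul_mem _ (2 : ℚ) h2)
  convert h3 using 1
  funext w
  simp only [Pi.sub_apply, Pi.smul_apply, smul_eq_mul, rei, sswap, oddAt, Function.comp_apply,
    Equiv.swap_apply_left, Equiv.swap_apply_right, ksg]
  by_cases h4 : par (w k.castSucc) = true <;> by_cases h5 : par (w k.succ) = true <;>
    simp [h4, h5] <;> ring

lemma rei_mul {κ : Type} {R : Type} (σ τ : Equiv.Perm κ) (a : (κ → ι) → R) :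
    rei (σ * τ) a = rei σ (rei τ a) := rfl

/-- All permutations. -/
theorem pfam_of (hA : ClassSys par X A) (hX : ∀ i j, X i j ≠ 0 → par i = par j)
    {E : Matrix ι ι ℚ} (hE : X * E = oddM par) (hE1 : two E ∈ A 1) : PFam X A where
  perm n σ a ha := by
    have h1 : σ ∈ Submonoid.closure (Set.range fun i : Fin n => Equiv.swap i.castSucc i.succ) := by
      rw [Equiv.Perm.mclosure_swap_castSucc_succ]
      exact Submonoid.mem_top _
    induction h1 using Submonoid.closure_induction generalizing a with
    | mem x hx =>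
      obtain ⟨i, rfl⟩ := hx
      exact swap_mem hA hX hE hE1 i ha
    | one => exact ha
    | mul x y _ _ hx hy =>
      rw [rei_mul]
      exact hx _ (hy _ ha)
  tens n m a b ha hb := by
    rw [← aprod_eq]
    exact hA.prod n m a b ha hb
  contr := hA.contr

end Pool.Agent.V8H29.NV
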