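import Pool.Agent.V8H29.NV1

/-!
# Systems of classes: contraction with another form
-/

set_option autoImplicit false
set_option linter.unusedSectionVars false

namespace Pool.Agent.V8H29.NV

open Matrix Pool.Agent.N996.BP

variable {ι : Type} [Fintype ι] [DecidableEq ι]

namespace PFam

variable {X : Matrix ι ι ℚ} {A : ∀ n : ℕ, Submodule ℚ ((Fin (n + 1) → ι) → ℚ)}

lemma of (hA : PFam X A) {κ : Type} {a : (κ → ι) → ℚ} {n : ℕ} (e : κ ≃ Fin (n + 1))
    (h : Pool.Agent.N996.BP.rei e a ∈ A n) : a ∈ AQ A κ := by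
  intro m e'
  obtain rfl : n = m := by
    have := Fintype.card_congr (e.symm.trans e')
    rw [Fintype.card_fin, Fintype.card_fin] at this
    omega
  have h1 := hA.perm n (e.symm.trans e') _ h
  rw [rei_rei] at h1
  have h2 : e.trans (e.symm.trans e') = e' := by
    ext x; simp
  rwa [h2] at h1

lemma rei (_ : PFam X A) {κ l : Type} (e : κ ≃ l) {a : (κ → ι) → ℚ} (ha : a ∈ AQ A κ) :
    Pool.Agent.N996.BP.rei e a ∈ AQ A l := by
  intro n e'
  rw [rei_rei]
  exact ha n _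

lemma empty (_ : PFam X A) {κ : Type} [IsEmpty κ] (a : (κ → ι) → ℚ) : a ∈ AQ A κ := by
  intro n e
  exact (IsEmpty.false (e.symm 0)).elim

lemma mem_iff (hA : PFam X A) {n : ℕ} {a : (Fin (n + 1) → ι) → ℚ} :
    a ∈ AQ A (Fin (n + 1)) ↔ a ∈ A n :=
  ⟨fun h => h n (Equiv.refl _), fun h => hA.of (Equiv.refl _) h⟩

lemma tensQ (hA : PFam X A) {κ l : Type} [Fintype κ] [Fintype l] {a : (κ → ι) → ℚ}
    {b : (l → ι) → ℚ} (ha : a ∈ AQ A κ) (hb : b ∈ AQ A l) : Pool.Agent.N996.BP.tens a b ∈ AQ A (κ ⊕ l) := by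
  rcases isEmpty_or_nonempty κ with hκ | hκ
  · have h1 : Pool.Agent.N996.BP.tens a b = a (fun k => (IsEmpty.false k).elim) •
        Pool.Agent.N996.BP.rei (Equiv.emptySum κ l).symm b := by
      ext i
      rw [Pool.Agent.N996.BP.tens, Pi.smul_apply, smul_eq_mul, Pool.Agent.N996.BP.rei]
      congr 2
      ext k
      exact (IsEmpty.false k).elim
    rw [h1]
    exact Submodule.smul_mem _ _ (hA.rei _ hb)
  rcases isEmpty_or_nonempty l with hl | hl
  · have h1 : Pool.Agent.N996.BP.tens a b = b (fun k => (IsEmpty.false k).elim) •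
        Pool.Agent.N996.BP.rei (Equiv.sumEmpty κ l).symm a := by
      ext i
      rw [Pool.Agent.N996.BP.tens, Pi.smul_apply, smul_eq_mul, Pool.Agent.N996.BP.rei, mul_comm]
      congr 2
      ext k
      exact (IsEmpty.false k).elim
    rw [h1]
    exact Submodule.smul_mem _ _ (hA.rei _ ha)
  obtain ⟨n, ⟨e⟩⟩ := RFam.exists_eqv κ
  obtain ⟨m, ⟨f⟩⟩ := RFam.exists_eqv l
  refine hA.of ((Equiv.sumCongr e f).trans (ce n m)) ?_
  rw [← rei_rei, RFam.rei_tens]
  exact hA.tens n m _ _ (ha n e) (hb m f)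

lemma contr1 (hA : PFam X A) {κ : Type} [Fintype κ] [DecidableEq κ]
    {a : (κ ⊕ (Unit ⊕ Unit) → ι) → ℚ} (ha : a ∈ AQ A (κ ⊕ (Unit ⊕ Unit))) :
    Pool.Agent.N996.BP.contr X a ∈ AQ A κ := by
  intro n e
  have h1 := hA.contr n _ (ha (n + 2) (RFam.ec e))
  convert h1 using 1
  ext w
  rw [Pool.Agent.N996.BP.rei, Pool.Agent.N996.BP.contr, ctr, ← Equiv.sum_comp (Equiv.funUnique Unit ι).symm]
  refine Finset.sum_congr rfl fun x _ => ?_
  rw [← Equiv.sum_comp (Equiv.funUnique Unit ι).symm]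
  refine Finset.sum_congr rfl fun y _ => ?_
  rw [Pool.Agent.N996.BP.rei, RFam.sn_ec, kp_apply, Fintype.prod_unique]
  rfl

end PFam

variable {X : Matrix ι ι ℚ} {A : ∀ n : ℕ, Submodule ℚ ((Fin (n + 1) → ι) → ℚ)}

/-- The value of a contraction of one pair. -/
lemma contr_unit {R : Type} [CommRing R] {κ : Type} [Fintype κ] [DecidableEq κ] (Y : Matrix ι ι R)
    (a : (κ ⊕ (Unit ⊕ Unit) → ι) → R) (i : κ → ι) :
    Pool.Agent.N996.BP.contr Y a i = ∑ x, ∑ y, Y x y * a (Sum.elim i (Sum.elim (fun _ => x) fun _ => y)) := by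
  rw [Pool.Agent.N996.BP.contr, ← Equiv.sum_comp (Equiv.funUnique Unit ι).symm]
  refine Finset.sum_congr rfl fun x _ => ?_
  rw [← Equiv.sum_comp (Equiv.funUnique Unit ι).symm]
  refine Finset.sum_congr rfl fun y _ => ?_
  rw [kp_apply, Fintype.prod_unique]
  rfl

/-- the array with a given matrix, indexed by two points -/
def twoU (M : Matrix ι ι ℚ) : (Unit ⊕ Unit → ι) → ℚ := fun w => M (w (Sum.inl ())) (w (Sum.inr ()))

/-- the two points -/
def e2 : Unit ⊕ Unit ≃ Fin (1 + 1) where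
  toFun := Sum.elim (fun _ => 0) fun _ => 1
  invFun := fun i => if i = 0 then Sum.inl () else Sum.inr ()
  left_inv := by rintro (u | u) <;> simp
  right_inv := by intro i; fin_cases i <;> simp

lemma twoU_mem (hA : PFam X A) {M : Matrix ι ι ℚ} (h : two M ∈ A 1) :
    twoU M ∈ AQ A (Unit ⊕ Unit) := hA.of e2 h

/-- **Contraction with the form `X M X`.** -/
theorem contr_other (hA : PFam X A) {M : Matrix ι ι ℚ} (hM : two M ∈ A 1) {κ : Type} [Fintype κ]
    [DecidableEq κ] {a : (κ ⊕ (Unit ⊕ Unit) → ι) → ℚ} (ha : a ∈ AQ A (κ ⊕ (Unit ⊕ Unit))) :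
    Pool.Agent.N996.BP.contr (X * M * X) a ∈ AQ A κ := by
  have h1 := hA.tensQ ha (twoU_mem hA hM)
  let e : (κ ⊕ (Unit ⊕ Unit)) ⊕ (Unit ⊕ Unit) ≃ (κ ⊕ (Unit ⊕ Unit)) ⊕ (Unit ⊕ Unit) :=
    { toFun := Sum.elim (Sum.elim (fun k => Sum.inl (Sum.inl k)) (Sum.elim
        (fun _ => Sum.inr (Sum.inl ())) fun _ => Sum.inl (Sum.inr (Sum.inr ()))))
        (Sum.elim (fun _ => Sum.inr (Sum.inr ())) fun _ => Sum.inl (Sum.inr (Sum.inl ())))
      invFun := Sum.elim (Sum.elim (fun k => Sum.inl (Sum.inl k)) (Sum.elim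
        (fun _ => Sum.inr (Sum.inr ())) fun _ => Sum.inl (Sum.inr (Sum.inr ()))))
        (Sum.elim (fun _ => Sum.inl (Sum.inr (Sum.inl ()))) fun _ => Sum.inr (Sum.inl ()))
      left_inv := by rintro ((k | k | k) | (k | k)) <;> rfl
      right_inv := by rintro ((k | k | k) | (k | k)) <;> rfl }
  have h2 := hA.contr1 (hA.contr1 (hA.rei e h1))
  convert h2 using 1
  funext i
  rw [contr_unit, contr_unit]
  -- sum over x y = sum over v y' of X v y' * (sum over x u of X x u * a(i,x,y') * M u v)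
  simp_rw [contr_unit]
  have key : ∀ v y x u : ι, Pool.Agent.N996.BP.rei e (Pool.Agent.N996.BP.tens a (twoU M))
      (Sum.elim (Sum.elim i (Sum.elim (fun _ => v) fun _ => y))
        (Sum.elim (fun _ => x) fun _ => u)) =
      a (Sum.elim i (Sum.elim (fun _ => x) fun _ => y)) * M u v := by
    intro v y x u
    rw [Pool.Agent.N996.BP.rei, Pool.Agent.N996.BP.tens]
    congr 1
    congr 1
    funext z
    rcases z with z | z | z <;> rfl
  simp_rw [key]
  have h3 : ∀ x y, (X * M * X) x y = ∑ v, ∑ u, X x u * M u v * X v y := by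
    intro x y
    rw [Matrix.mul_apply]
    refine Finset.sum_congr rfl fun v _ => ?_
    rw [Matrix.mul_apply, Finset.sum_mul]
  simp_rw [h3]
  simp_rw [Finset.mul_sum, Finset.sum_mul]
  rw [Finset.sum_comm]
  rw [Finset.sum_comm (γ := ι) (s := Finset.univ) (t := Finset.univ)
    (f := fun v y => ∑ x, ∑ u, X v y * (X x u * (a (Sum.elim i (Sum.elim (fun _ => x) fun _ => y))
      * M u v)))]
  refine Finset.sum_congr rfl fun y _ => ?_
  rw [Finset.sum_comm]
  refine Finset.sum_congr rfl fun v _ => ?_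
  refine Finset.sum_congr rfl fun x _ => ?_
  refine Finset.sum_congr rfl fun u _ => ?_
  ring

end Pool.Agent.V8H29.NV
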