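import Pool.Agent.V8H29.NV2

/-!
# The Hodge classes are a class system
-/

set_option autoImplicit false
set_option linter.unusedSectionVars false

namespace Pool.Agent.V8H29.NV

open Matrix Pool.Agent.N996.BP

variable {ι : Type} [Fintype ι] [DecidableEq ι]

/-- The parity and the pairing are compatible with the Hodge structure. -/
structure Comp (H : HData ι) (par : ι → Bool) (X Xi : Matrix ι ι ℚ) : Prop where
  parl : ∀ t : ℂ, t ≠ 0 → ∀ i j, H.l t i j ≠ 0 → par i = par j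
  even : ∀ i j, X i j ≠ 0 → par i = par j
  hodge : ∀ t : ℂ, t ≠ 0 → (H.l t)ᵀ * cQ X * H.l t = cQ X
  inv : X * Xi = 1

variable {H : HData ι} {par : ι → Bool} {X Xi : Matrix ι ι ℚ}

lemma BB_rei {κ l : Type} [Fintype κ] [DecidableEq κ] [Fintype l] [DecidableEq l] (e : κ ≃ l)
    {a : (κ → ι) → ℚ} (ha : a ∈ BB H κ) : rei e a ∈ BB H l := by
  intro t ht
  have h2 : ca (rei e a) = rei e (ca a) := rfl
  rw [h2, kp_rei, ha t ht]

lemma BB_tens {κ l : Type} [Fintype κ] [DecidableEq κ] [Fintype l] [DecidableEq l]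
    {a : (κ → ι) → ℚ} {b : (l → ι) → ℚ} (ha : a ∈ BB H κ) (hb : b ∈ BB H l) :
    tens a b ∈ BB H (κ ⊕ l) := by
  intro t ht
  have h1 : ca (tens a b) = tens (ca a) (ca b) := by
    funext i
    simp [ca, tens]
  rw [h1, kp_tens, ha t ht, hb t ht]

lemma kp_contr {κ : Type} [Fintype κ] [DecidableEq κ] {g Y : Matrix ι ι ℂ}
    (hg : gᵀ * Y * g = Y) (a : (κ ⊕ (Unit ⊕ Unit) → ι) → ℂ) :
    contr Y (kp (κ ⊕ (Unit ⊕ Unit)) g *ᵥ a) = kp κ g *ᵥ contr Y a := by
  funext i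
  rw [contr_unit, Matrix.mulVec, dotProduct]
  have h1 : ∀ x y, (kp (κ ⊕ (Unit ⊕ Unit)) g *ᵥ a)
      (Sum.elim i (Sum.elim (fun _ => x) fun _ => y)) =
      ∑ i' : κ → ι, ∑ x' : ι, ∑ y' : ι, kp κ g i i' * (g x x' * g y y') *
        a (Sum.elim i' (Sum.elim (fun _ => x') fun _ => y')) := by
    intro x y
    rw [Matrix.mulVec, dotProduct, sum_sumElim]
    refine Finset.sum_congr rfl fun i' _ => ?_
    rw [sum_sumElim, ← Equiv.sum_comp (Equiv.funUnique Unit ι).symm]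
    refine Finset.sum_congr rfl fun x' _ => ?_
    rw [← Equiv.sum_comp (Equiv.funUnique Unit ι).symm]
    refine Finset.sum_congr rfl fun y' _ => ?_
    rw [kp_sum, kp_sum, kp_apply (κ := Unit), kp_apply (κ := Unit), Fintype.prod_unique,
      Fintype.prod_unique]
    rfl
  simp_rw [h1, contr_unit]
  have h2 : ∀ x' y', Y x' y' = ∑ x, ∑ y, Y x y * (g x x' * g y y') := by
    intro x' y'
    conv_lhs => rw [← hg]
    rw [Matrix.mul_apply]
    rw [Finset.sum_comm]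
    refine Finset.sum_congr rfl fun y _ => ?_
    rw [Matrix.mul_apply, Finset.sum_mul]
    refine Finset.sum_congr rfl fun x _ => ?_
    rw [Matrix.transpose_apply]
    ring
  have h3 : ∀ i' : κ → ι, kp κ g i i' * ∑ x', ∑ y', Y x' y' *
      a (Sum.elim i' (Sum.elim (fun _ => x') fun _ => y')) =
      ∑ x', ∑ y', ∑ x, ∑ y, Y x y * (kp κ g i i' * (g x x' * g y y') *
        a (Sum.elim i' (Sum.elim (fun _ => x') fun _ => y'))) := by
    intro i'
    rw [Finset.mul_sum]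
    refine Finset.sum_congr rfl fun x' _ => ?_
    rw [Finset.mul_sum]
    refine Finset.sum_congr rfl fun y' _ => ?_
    rw [h2 x' y', Finset.sum_mul, Finset.mul_sum]
    refine Finset.sum_congr rfl fun x _ => ?_
    rw [Finset.sum_mul, Finset.mul_sum]
    refine Finset.sum_congr rfl fun y _ => ?_
    ring
  simp_rw [h3, Finset.mul_sum]
  -- left: sum over x y i' x' y'; right: sum over i' x' y' x y
  rw [Finset.sum_congr rfl fun x _ => Finset.sum_comm]
  rw [Finset.sum_comm]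
  refine Finset.sum_congr rfl fun i' _ => ?_
  rw [Finset.sum_congr rfl fun x _ => Finset.sum_comm]
  rw [Finset.sum_comm]
  refine Finset.sum_congr rfl fun x' _ => ?_
  rw [Finset.sum_congr rfl fun x _ => Finset.sum_comm]
  rw [Finset.sum_comm]

lemma ca_contr {κ : Type} [Fintype κ] [DecidableEq κ] (a : (κ ⊕ (Unit ⊕ Unit) → ι) → ℚ) :
    ca (contr X a) = contr (cQ X) (ca a) := by
  funext i
  rw [ca, contr_unit, contr_unit]
  push_cast
  rfl

lemma BB_contr (hX : Comp H par X Xi) {κ : Type} [Fintype κ] [DecidableEq κ]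
    {a : (κ ⊕ (Unit ⊕ Unit) → ι) → ℚ} (ha : a ∈ BB H (κ ⊕ (Unit ⊕ Unit))) :
    contr X a ∈ BB H κ := by
  intro t ht
  rw [ca_contr, ← kp_contr (hX.hodge t ht), ha t ht]

/-- The contraction of the last two indices. -/
lemma ctr_eq (Y : Matrix ι ι ℚ) {n : ℕ} (a : (Fin (n + 2 + 1) → ι) → ℚ) :
    ctr Y a = contr Y (rei (RFam.ec (Equiv.refl (Fin (n + 1)))).symm a) := by
  funext w
  rw [contr_unit, ctr]
  refine Finset.sum_congr rfl fun x _ => Finset.sum_congr rfl fun y _ => ?_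
  congr 1
  rw [rei]
  congr 1
  have h1 := RFam.sn_ec (Equiv.refl (Fin (n + 1))) w x y
  have h2 : (Sum.elim w (Sum.elim (fun _ => x) fun _ => y) : Fin (n + 1) ⊕ (Unit ⊕ Unit) → ι) =
      sn w x y ∘ RFam.ec (Equiv.refl (Fin (n + 1))) := by
    rw [h1]
    rfl
  rw [h2]
  funext i
  simp

lemma BB_ctr (hX : Comp H par X Xi) {n : ℕ} {a : (Fin (n + 2 + 1) → ι) → ℚ}
    (ha : a ∈ BB H (Fin (n + 2 + 1))) : ctr X a ∈ BB H (Fin (n + 1)) := by
  rw [ctr_eq]
  exact BB_contr hX (BB_rei _ ha)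

lemma BB_sswap (hX : Comp H par X Xi) {n : ℕ} (k : Fin n) {a : (Fin (n + 1) → ι) → ℚ}
    (ha : a ∈ BB H (Fin (n + 1))) : sswap par k a ∈ BB H (Fin (n + 1)) := by
  intro t ht
  have h1 := BB_rei (Equiv.swap k.castSucc k.succ) ha t ht
  funext w
  have h2 := congrFun h1 w
  rw [Matrix.mulVec, dotProduct] at h2 ⊢
  have h3 : ∀ w' : Fin (n + 1) → ι, kp (Fin (n + 1)) (H.l t) w w' * ca (sswap par k a) w' =
      (ksg par (w k.castSucc) (w k.succ) : ℂ) * (kp (Fin (n + 1)) (H.l t) w w' *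
        ca (rei (Equiv.swap k.castSucc k.succ) a) w') := by
    intro w'
    by_cases h4 : kp (Fin (n + 1)) (H.l t) w w' = 0
    · rw [h4]; ring
    · rw [kp_apply] at h4
      have h4' := Finset.prod_ne_zero_iff.1 h4
      have h5 := fun i => hX.parl t ht _ _ (h4' i (Finset.mem_univ i))
      have h6 : ksg par (w k.castSucc) (w k.succ) = ksg par (w' k.castSucc) (w' k.succ) := by
        unfold ksg
        rw [h5 k.castSucc, h5 k.succ]
      rw [h6]
      simp only [ca, sswap, rei]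
      push_cast
      ring
  rw [Finset.sum_congr rfl fun w' _ => h3 w', ← Finset.mul_sum, h2]
  simp only [ca, sswap, rei]
  push_cast
  ring

/-- **The Hodge classes are a class system.** -/
theorem BB_sys (hX : Comp H par X Xi) : ClassSys par X (fun n => BB H (Fin (n + 1))) where
  swap n k a ha := BB_sswap hX k ha
  prod n m a b ha hb := by
    rw [aprod_eq]
    exact BB_rei _ (BB_tens ha hb)
  contr n a ha := BB_ctr hX ha

theorem inf_sys {A B : ∀ n : ℕ, Submodule ℚ ((Fin (n + 1) → ι) → ℚ)} (hA : ClassSys par X A)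
    (hB : ClassSys par X B) : ClassSys par X (fun n => A n ⊓ B n) where
  swap n k a ha := ⟨hA.swap n k a ha.1, hB.swap n k a ha.2⟩
  prod n m a b ha hb := ⟨hA.prod n m a b ha.1 hb.1, hB.prod n m a b ha.2 hb.2⟩
  contr n a ha := ⟨hA.contr n a ha.1, hB.contr n a ha.2⟩

/-- Hodge classes of two factors. -/
lemma two_BB {M : Matrix ι ι ℚ} (hM : ∀ t : ℂ, t ≠ 0 → H.l t * cQ M * (H.l t)ᵀ = cQ M) :
    two M ∈ BB H (Fin (1 + 1)) := by
  intro t ht
  funext w
  rw [Matrix.mulVec, dotProduct]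
  have h1 := congrFun (congrFun (hM t ht) (w 0)) (w 1)
  rw [Matrix.mul_apply] at h1
  have h2 : ca (two M) w = cQ M (w 0) (w 1) := rfl
  rw [h2, ← h1, ← Equiv.sum_comp (finTwoArrowEquiv ι).symm, Fintype.sum_prod_type,
    Finset.sum_comm]
  refine Finset.sum_congr rfl fun y _ => ?_
  rw [Matrix.mul_apply, Finset.sum_mul]
  refine Finset.sum_congr rfl fun x _ => ?_
  rw [kp_apply, Matrix.transpose_apply]
  have h3 : ca (two M) ((finTwoArrowEquiv ι).symm (x, y)) = cQ M x y := rfl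
  rw [h3]
  have h4 : ∏ k : Fin (1 + 1), H.l t (w k) ((finTwoArrowEquiv ι).symm (x, y) k) =
      H.l t (w 0) x * H.l t (w 1) y := by
    rw [Fin.prod_univ_two]
    rfl
  rw [h4]
  ring

lemma Xi_X (hX : Comp H par X Xi) : Xi * X = 1 := mul_eq_one_comm.1 hX.inv

lemma l_Xi (hX : Comp H par X Xi) {t : ℂ} (ht : t ≠ 0) :
    H.l t * cQ Xi * (H.l t)ᵀ = cQ Xi := by
  have h1 : cQ X * cQ Xi = 1 := by rw [← cQ_mul, hX.inv, cQ_one]
  have h2 : cQ Xi * cQ X = 1 := by rw [← cQ_mul, Xi_X hX, cQ_one]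
  have h3 := H.l_inv ht
  calc H.l t * cQ Xi * (H.l t)ᵀ
      = H.l t * cQ Xi * (H.l t)ᵀ * (cQ X * (H.l t * H.l t⁻¹) * cQ Xi) := by
        rw [h3, Matrix.mul_one, h1, Matrix.mul_one]
    _ = H.l t * cQ Xi * ((H.l t)ᵀ * cQ X * H.l t) * H.l t⁻¹ * cQ Xi := by
        simp only [Matrix.mul_assoc]
    _ = H.l t * (cQ Xi * cQ X) * H.l t⁻¹ * cQ Xi := by
        rw [hX.hodge t ht]; simp only [Matrix.mul_assoc]
    _ = _ := by rw [h2, Matrix.mul_one, h3, Matrix.one_mul]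

lemma odd_comm (hX : Comp H par X Xi) {t : ℂ} (ht : t ≠ 0) :
    cQ (oddM par) * (H.l t)ᵀ = (H.l t)ᵀ * cQ (oddM par) := by
  ext i j
  rw [Matrix.mul_apply, Matrix.mul_apply, Finset.sum_eq_single i, Finset.sum_eq_single j]
  · simp only [cQ, Matrix.map_apply, oddM, Matrix.diagonal_apply_eq, Matrix.transpose_apply]
    by_cases h : H.l t j i = 0
    · rw [h]; ring
    · rw [hX.parl t ht j i h]; ring
  · intro b _ hb
    simp [cQ, oddM, Matrix.diagonal_apply_ne _ hb]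
  · intro h; exact absurd (Finset.mem_univ _) h
  · intro b _ hb
    simp [cQ, oddM, Matrix.diagonal_apply_ne _ (Ne.symm hb)]
  · intro h; exact absurd (Finset.mem_univ _) h

lemma odd_BB (hX : Comp H par X Xi) : two (Xi * oddM par) ∈ BB H (Fin (1 + 1)) := by
  refine two_BB fun t ht => ?_
  rw [cQ_mul, Matrix.mul_assoc, Matrix.mul_assoc, odd_comm hX ht, ← Matrix.mul_assoc (cQ Xi),
    ← Matrix.mul_assoc, ← Matrix.mul_assoc, l_Xi hX ht]

lemma odd_eq (hX : Comp H par X Xi) : X * (Xi * oddM par) = oddM par := by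
  rw [← Matrix.mul_assoc, hX.inv, Matrix.one_mul]

lemma form_BB (hX : Comp H par X Xi) : two (Xi * H.Qr * Xi) ∈ BB H (Fin (1 + 1)) := by
  refine two_BB fun t ht => ?_
  have ht' : t⁻¹ ≠ 0 := inv_ne_zero ht
  have h1 := l_Xi hX ht
  have h2 : cQ Xi * (H.l t)ᵀ = H.l t⁻¹ * cQ Xi := by
    have h3 : H.l t⁻¹ * H.l t = 1 := H.l_inv' ht
    calc cQ Xi * (H.l t)ᵀ = (H.l t⁻¹ * H.l t) * cQ Xi * (H.l t)ᵀ := by rw [h3, Matrix.one_mul]
      _ = H.l t⁻¹ * (H.l t * cQ Xi * (H.l t)ᵀ) := by simp only [Matrix.mul_assoc]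
      _ = _ := by rw [h1]
  have h4 : H.l t * cQ Xi = cQ Xi * (H.l t⁻¹)ᵀ := by
    have h5 : (H.l t)ᵀ * (H.l t⁻¹)ᵀ = 1 := by
      rw [← Matrix.transpose_mul, H.l_inv' ht, Matrix.transpose_one]
    calc H.l t * cQ Xi = H.l t * cQ Xi * ((H.l t)ᵀ * (H.l t⁻¹)ᵀ) := by rw [h5, Matrix.mul_one]
      _ = (H.l t * cQ Xi * (H.l t)ᵀ) * (H.l t⁻¹)ᵀ := by simp only [Matrix.mul_assoc]
      _ = _ := by rw [h1]
  have h6 := H.l_Q ht'
  calc H.l t * cQ (Xi * H.Qr * Xi) * (H.l t)ᵀ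
      = (H.l t * cQ Xi) * cQ H.Qr * (cQ Xi * (H.l t)ᵀ) := by
        rw [cQ_mul, cQ_mul]; simp only [Matrix.mul_assoc]
    _ = cQ Xi * ((H.l t⁻¹)ᵀ * cQ H.Qr * H.l t⁻¹) * cQ Xi := by
        rw [h2, h4]; simp only [Matrix.mul_assoc]
    _ = _ := by rw [h6, cQ_mul, cQ_mul]

lemma form_eq (hX : Comp H par X Xi) : X * (Xi * H.Qr * Xi) * X = H.Qr := by
  have h1 := Xi_X hX
  calc X * (Xi * H.Qr * Xi) * X = (X * Xi) * H.Qr * (Xi * X) := by simp only [Matrix.mul_assoc]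
    _ = _ := by rw [hX.inv, h1, Matrix.one_mul, Matrix.mul_one]

/-- **Rational families.** -/
theorem rfam_of (hX : Comp H par X Xi) {A : ∀ n : ℕ, Submodule ℚ ((Fin (n + 1) → ι) → ℚ)}
    (hA : ClassSys par X A) (hle : ∀ n, A n ≤ BB H (Fin (n + 1)))
    (h1 : two (Xi * oddM par) ∈ A 1) (h2 : two (Xi * H.Qr * Xi) ∈ A 1) : RFam H A := by
  have hP := pfam_of hA hX.even (odd_eq hX) h1
  refine ⟨hP.perm, hP.tens, fun n a ha => ?_, hle⟩
  rw [ctr_eq, ← hP.mem_iff]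
  have h3 := contr_other hP h2 (hP.rei (RFam.ec (Equiv.refl (Fin (n + 1)))).symm
    (hP.mem_iff.2 ha))
  rwa [form_eq hX] at h3

end Pool.Agent.V8H29.NV
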