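import Pool.Agent.V8H29.NV3
import Pool.Agent.N996.BP.PHS2

/-!
# Polarised Hodge structures given by projectors
-/

set_option autoImplicit false
set_option linter.unusedSectionVars false

namespace Pool.Agent.V8H29.NV

open Matrix ComplexConjugate Pool.Agent.N996.BP

variable {ι : Type} [Fintype ι] [DecidableEq ι]

/-- A polarised rational Hodge structure on `ℚ^ι`, with the projectors `π k` to its parts,
`-w ≤ k ≤ w` (`k = p - q` for the part of type `(p, q)`), polarised by `Q`, and with a vector of type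
`(0, 0)` in the basis. -/
structure IsPolarised (w : ℕ) (π : ℤ → Matrix ι ι ℂ) (Q : Matrix ι ι ℚ) (o : ι) : Prop where
  one : ∑ k ∈ Finset.Icc (-w : ℤ) w, π k = 1
  mul : ∀ k ∈ Finset.Icc (-w : ℤ) w, ∀ l ∈ Finset.Icc (-w : ℤ) w,
    π k * π l = if k = l then π k else 0
  cnj : ∀ k ∈ Finset.Icc (-w : ℤ) w, (π k).map (starRingEnd ℂ) = π (-k)
  adj : ∀ k ∈ Finset.Icc (-w : ℤ) w, (π k)ᵀ * cQ Q = cQ Q * π (-k)
  pos : ∀ k ∈ Finset.Icc (-w : ℤ) w, ∀ v : ι → ℂ, v ≠ 0 → π k *ᵥ v = v →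
    ∃ r : ℝ, 0 < r ∧ Complex.I ^ k * (star v ⬝ᵥ (cQ Q *ᵥ v)) = r
  unit : π 0 *ᵥ Pi.single o 1 = Pi.single o 1
  norm : Q o o = 1

namespace IsPolarised

variable {w : ℕ} {π : ℤ → Matrix ι ι ℂ} {Q : Matrix ι ι ℚ} {o : ι}

lemma sum_neg {M : Type*} [AddCommMonoid M] (f : ℤ → M) :
    ∑ k ∈ Finset.Icc (-w : ℤ) w, f (-k) = ∑ k ∈ Finset.Icc (-w : ℤ) w, f k := by
  refine Finset.sum_nbij' (fun k => -k) (fun k => -k) ?_ ?_ ?_ ?_ ?_
  · intro a ha; rw [Finset.mem_Icc] at *; omega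
  · intro a ha; rw [Finset.mem_Icc] at *; omega
  · intro a _; simp
  · intro a _; simp
  · intro a _; rfl

lemma neg_mem {k : ℤ} (hk : k ∈ Finset.Icc (-w : ℤ) w) : -k ∈ Finset.Icc (-w : ℤ) w := by
  rw [Finset.mem_Icc] at *; omega

/-- The Weil operator is real. -/
lemma lt_real (h : IsPolarised w π Q o) {t : ℂ} (ht : conj t = t⁻¹) :
    (lt w π t).map conj = lt w π t := by
  have h0 : lt w π t = ∑ k ∈ Finset.Icc (-w : ℤ) w, t ^ (-k) • π (-k) :=
    (sum_neg fun k => t ^ k • π k).symm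
  ext i j
  conv_rhs => rw [h0]
  rw [lt, Matrix.map_apply, Matrix.sum_apply, map_sum, Matrix.sum_apply]
  refine Finset.sum_congr rfl fun k hk => ?_
  rw [Matrix.smul_apply, Matrix.smul_apply, smul_eq_mul, map_mul, map_zpow₀, ht, ← h.cnj k hk,
    _root_.inv_zpow', Matrix.map_apply, smul_eq_mul]

lemma lt_mul (h : IsPolarised w π Q o) (s t : ℂ) : lt w π s * lt w π t = lt w π (s * t) := by
  rw [lt, lt, lt, Finset.sum_mul_sum]
  refine Finset.sum_congr rfl fun k hk => ?_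
  rw [Finset.sum_eq_single k]
  · rw [Matrix.smul_mul, Matrix.mul_smul, h.mul k hk k hk, if_pos rfl, smul_smul, mul_zpow]
  · intro m hm hne
    rw [Matrix.smul_mul, Matrix.mul_smul, h.mul k hk m hm, if_neg (Ne.symm hne), smul_zero,
      smul_zero]
  · intro h; exact absurd hk h

lemma lt_one (h : IsPolarised w π Q o) : lt w π 1 = 1 := by
  rw [lt, ← h.one]
  exact Finset.sum_congr rfl fun k _ => by rw [_root_.one_zpow, one_smul]

lemma lt_tr (h : IsPolarised w π Q o) (t : ℂ) : (lt w π t)ᵀ * cQ Q = cQ Q * lt w π t⁻¹ := by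
  rw [lt, lt, Matrix.transpose_sum, Finset.sum_mul, Finset.mul_sum,
    ← sum_neg fun k => cQ Q * t⁻¹ ^ k • π k]
  refine Finset.sum_congr rfl fun k hk => ?_
  rw [Matrix.transpose_smul, Matrix.smul_mul, h.adj k hk, Matrix.mul_smul, _root_.inv_zpow',
    neg_neg]

lemma lt_col (h : IsPolarised w π Q o) (t : ℂ) (i : ι) :
    lt w π t i o = if i = o then 1 else 0 := by
  have h1 : lt w π t *ᵥ Pi.single o 1 = Pi.single o 1 := by
    rw [lt, Matrix.sum_mulVec, Finset.sum_eq_single 0]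
    · rw [_root_.zpow_zero, one_smul, h.unit]
    · intro k hk hk0
      have h0 : (0 : ℤ) ∈ Finset.Icc (-w : ℤ) w := by rw [Finset.mem_Icc]; omega
      have h2 : π k *ᵥ Pi.single o 1 = 0 := by
        rw [← h.unit, Matrix.mulVec_mulVec, h.mul k hk 0 h0, if_neg hk0, Matrix.zero_mulVec]
      rw [Matrix.smul_mulVec, h2, smul_zero]
    · intro hn
      exact absurd (by rw [Finset.mem_Icc]; omega) hn
  have h2 := congrFun h1 i
  rw [Matrix.mulVec_single_one, Pi.single_apply] at h2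
  exact h2

/-- **Positivity.** -/
lemma exists_pos (h : IsPolarised w π Q o) (z : ι → ℂ) :
    ∃ ρ : ℝ, star z ⬝ᵥ ((cQ Q * lt w π Complex.I) *ᵥ z) = ρ ∧ (z ≠ 0 → 0 < ρ) := by
  have h1 : ∀ k : ℤ, ∃ r : ℝ, k ∈ Finset.Icc (-w : ℤ) w →
      (Complex.I ^ k * (star (π k *ᵥ z) ⬝ᵥ (cQ Q *ᵥ (π k *ᵥ z))) = r ∧ 0 ≤ r ∧
        (π k *ᵥ z ≠ 0 → 0 < r)) := by
    intro k
    by_cases hk : k ∈ Finset.Icc (-w : ℤ) w
    · by_cases h0 : π k *ᵥ z = 0
      · refine ⟨0, fun _ => ⟨?_, le_rfl, fun h1 => absurd h0 h1⟩⟩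
        rw [h0]; simp
      · obtain ⟨r, hr, h2⟩ := h.pos k hk (π k *ᵥ z) h0
          (by rw [Matrix.mulVec_mulVec, h.mul k hk k hk, if_pos rfl])
        exact ⟨r, fun _ => ⟨h2, hr.le, fun _ => hr⟩⟩
    · exact ⟨0, fun h1 => absurd h1 hk⟩
  choose r hr using h1
  have hz : z = ∑ k ∈ Finset.Icc (-w : ℤ) w, π k *ᵥ z := by
    rw [← Matrix.sum_mulVec, h.one, Matrix.one_mulVec]
  have horth : ∀ k ∈ Finset.Icc (-w : ℤ) w, ∀ l ∈ Finset.Icc (-w : ℤ) w, k ≠ l →
      star (π k *ᵥ z) ⬝ᵥ (cQ Q *ᵥ (π l *ᵥ z)) = 0 := by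
    intro k hk l hl hkl
    have h2 : star (π k *ᵥ z) = π (-k) *ᵥ star z := by
      rw [Matrix.star_mulVec, ← h.cnj k hk, ← Matrix.mulVec_transpose]
      rfl
    rw [h2, ← Matrix.vecMul_transpose, ← Matrix.dotProduct_mulVec, Matrix.mulVec_mulVec,
      Matrix.mulVec_mulVec, h.adj (-k) (neg_mem hk), neg_neg, Matrix.mul_assoc,
      h.mul k hk l hl, if_neg hkl, Matrix.mul_zero, Matrix.zero_mulVec, dotProduct_zero]
  have hsum : star z ⬝ᵥ ((cQ Q * lt w π Complex.I) *ᵥ z) =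
      ∑ k ∈ Finset.Icc (-w : ℤ) w, (r k : ℂ) := by
    have h2 : (cQ Q * lt w π Complex.I) *ᵥ z =
        ∑ l ∈ Finset.Icc (-w : ℤ) w, Complex.I ^ l • (cQ Q *ᵥ (π l *ᵥ z)) := by
      rw [← Matrix.mulVec_mulVec, lt, Matrix.sum_mulVec, Matrix.mulVec_sum]
      exact Finset.sum_congr rfl fun l _ => by rw [Matrix.smul_mulVec, Matrix.mulVec_smul]
    have h3 : star z = ∑ k ∈ Finset.Icc (-w : ℤ) w, star (π k *ᵥ z) := by
      conv_lhs => rw [hz]
      rw [star_sum]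
    rw [h2, h3, sum_dotProduct]
    refine Finset.sum_congr rfl fun k hk => ?_
    rw [dotProduct_sum, Finset.sum_eq_single k]
    · rw [dotProduct_smul, smul_eq_mul, (hr k hk).1]
    · intro l hl hlk
      rw [dotProduct_smul, horth k hk l hl (Ne.symm hlk), smul_zero]
    · intro hn; exact absurd hk hn
  refine ⟨∑ k ∈ Finset.Icc (-w : ℤ) w, r k, by rw [hsum, Complex.ofReal_sum], fun hne => ?_⟩
  have h3 : ∃ k ∈ Finset.Icc (-w : ℤ) w, π k *ᵥ z ≠ 0 := by
    by_contra hcon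
    push Not at hcon
    apply hne
    rw [hz]
    exact Finset.sum_eq_zero hcon
  obtain ⟨k, hk, hne'⟩ := h3
  exact Finset.sum_pos' (fun k hk => (hr k hk).2.1) ⟨k, hk, (hr k hk).2.2 hne'⟩

/-- **The coordinate form.** -/
theorem exists_hdata (h : IsPolarised w π Q o) : ∃ H : HData ι, H.D.o = o ∧ H.w = w ∧ H.π = π ∧
    H.Qr = Q := by
  classical
  obtain ⟨C, hC⟩ : ∃ C : Matrix ι ι ℝ, cR C = lt w π Complex.I := by
    refine ⟨(lt w π Complex.I).map Complex.re, ?_⟩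
    ext i j
    have h1 := congrFun (congrFun (h.lt_real (t := Complex.I) (by
      rw [Complex.conj_I, Complex.inv_I])) i) j
    rw [Matrix.map_apply] at h1
    rw [cR, Matrix.map_apply, Matrix.map_apply]
    exact Complex.conj_eq_iff_re.1 h1
  obtain ⟨Ci, hCi⟩ : ∃ Ci : Matrix ι ι ℝ, cR Ci = lt w π Complex.I⁻¹ := by
    refine ⟨(lt w π Complex.I⁻¹).map Complex.re, ?_⟩
    ext i j
    have h1 := congrFun (congrFun (h.lt_real (t := Complex.I⁻¹) (by
      rw [map_inv₀, Complex.conj_I, Complex.inv_I])) i) j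
    rw [Matrix.map_apply] at h1
    rw [cR, Matrix.map_apply, Matrix.map_apply]
    exact Complex.conj_eq_iff_re.1 h1
  have hCC : C * Ci = 1 := by
    apply IsPHS.cR_inj
    rw [cR_mul, hC, hCi, h.lt_mul, mul_inv_cancel₀ Complex.I_ne_zero, h.lt_one, cR_one]
  obtain ⟨Q', hQ'⟩ : ∃ Q' : Matrix ι ι ℝ, Q' = Q.map fun x : ℚ => (x : ℝ) := ⟨_, rfl⟩
  have hcQ : cR Q' = cQ Q := by rw [hQ', IsPHS.cR_cQ]
  have hcS : cR (Q' * C) = cQ Q * lt w π Complex.I := by rw [cR_mul, hcQ, hC]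
  have hpos : ∀ z : ι → ℂ, ∃ ρ : ℝ, star z ⬝ᵥ (cR (Q' * C) *ᵥ z) = ρ ∧ (z ≠ 0 → 0 < ρ) := by
    intro z
    rw [hcS]
    exact h.exists_pos z
  have hposr : ∀ u : ι → ℝ, u ≠ 0 → 0 < u ⬝ᵥ ((Q' * C) *ᵥ u) := by
    intro u hu
    obtain ⟨ρ, h1, h2⟩ := hpos fun i => (u i : ℂ)
    have h3 : (fun i => (u i : ℂ)) ≠ 0 := by
      intro h0
      apply hu
      ext i
      have := congrFun h0 i
      exact Complex.ofReal_eq_zero.1 this
    have h4 : star (fun i => (u i : ℂ)) = fun i => (u i : ℂ) := by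
      ext i
      rw [Pi.star_apply]
      exact Complex.conj_ofReal _
    rw [h4, IsPHS.cR_dot] at h1
    have h5 : u ⬝ᵥ ((Q' * C) *ᵥ u) = ρ := by exact_mod_cast h1
    rw [h5]
    exact h2 h3
  have hsym : ∀ u v : ι → ℝ, u ⬝ᵥ ((Q' * C) *ᵥ v) = v ⬝ᵥ ((Q' * C) *ᵥ u) := by
    intro u v
    obtain ⟨ρ, h1, -⟩ := hpos ((fun i => (u i : ℂ)) + Complex.I • fun i => (v i : ℂ))
    have h2 : star ((fun i => (u i : ℂ)) + Complex.I • fun i => (v i : ℂ)) =
        (fun i => (u i : ℂ)) - Complex.I • fun i => (v i : ℂ) := by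
      ext i
      simp [sub_eq_add_neg]
    rw [h2, Matrix.mulVec_add, Matrix.mulVec_smul, sub_dotProduct, dotProduct_add,
      dotProduct_add, smul_dotProduct, smul_dotProduct, dotProduct_smul, dotProduct_smul,
      IsPHS.cR_dot, IsPHS.cR_dot, IsPHS.cR_dot, IsPHS.cR_dot] at h1
    have h3 := congrArg Complex.im h1
    simp only [smul_eq_mul, Complex.sub_im, Complex.add_im, Complex.ofReal_im, Complex.mul_im,
      Complex.I_re, Complex.I_im, Complex.ofReal_re, Complex.mul_re] at h3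
    linarith
  obtain ⟨M, Mi, hM, hMS⟩ := exists_sqrt (S := Q' * C) hsym hposr
  have hdet : Q.det ≠ 0 := by
    intro h0
    have h1 : (Q' * C).det = 0 := by
      rw [Matrix.det_mul, hQ']
      have h2 : (Q.map fun x : ℚ => (x : ℝ)).det = ((Q.det : ℚ) : ℝ) := by
        have := (RingHom.map_det (Rat.castHom ℝ) Q).symm
        exact this
      rw [h2, h0]
      simp
    rw [← hMS, Matrix.det_mul, Matrix.det_transpose, mul_self_eq_zero] at h1
    have h2 := congrArg Matrix.det hM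
    rw [Matrix.det_mul, h1, zero_mul, Matrix.det_one] at h2
    exact zero_ne_one h2
  have hQQ : Q * Q⁻¹ = 1 := Matrix.mul_nonsing_inv Q (isUnit_iff_ne_zero.2 hdet)
  have hCQC : Cᵀ * Q' * C = Q' := by
    apply IsPHS.cR_inj
    rw [cR_mul, cR_mul, hcQ]
    have h1 : cR Cᵀ = (lt w π Complex.I)ᵀ := by
      rw [← hC]
      rfl
    rw [h1, hC, h.lt_tr, Matrix.mul_assoc, h.lt_mul, inv_mul_cancel₀ Complex.I_ne_zero, h.lt_one,
      Matrix.mul_one]
  refine ⟨{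
    D := {
      Q := Q'
      Qi := (Q⁻¹).map fun x : ℚ => (x : ℝ)
      C := C
      Ci := Ci
      M := M
      Mi := Mi
      o := o
      hQ := ?_
      hC := hCC
      hM := hM
      hS := hMS
      hCQ := hCQC
      ho := ?_
      hCo := ?_ }
    Qr := Q
    Qir := Q⁻¹
    w := w
    π := π
    hQr := hQ'
    hQir := rfl
    h1 := h.one
    hmul := h.mul
    hπQ := h.adj
    hconj := h.cnj
    hC := hC
    ho := fun t _ i => h.lt_col t i }, rfl, rfl, rfl, rfl⟩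
  · apply IsPHS.cR_inj
    rw [cR_mul, hQ', IsPHS.cR_cQ, IsPHS.cR_cQ, ← cQ_mul, hQQ, cQ_one, cR_one]
  · rw [hQ', Matrix.map_apply, h.norm]; simp
  · intro i
    have h1 := h.lt_col Complex.I i
    rw [← hC, cR, Matrix.map_apply] at h1
    have h2 : (C i o : ℂ) = (((if i = o then 1 else 0 : ℝ)) : ℂ) := by
      rw [h1]
      split_ifs <;> simp
    exact_mod_cast h2

end IsPolarised

end Pool.Agent.V8H29.NV
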