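import Pool.Agent.V8H29.NV4
import Pool.Agent.N996.FP.Wcw

/-!
# Generation by the classes on the powers of bounded degree
-/

set_option autoImplicit false
set_option linter.unusedSectionVars false

open TensorProduct

namespace Pool.Agent.V8H29.NV

open Matrix Pool.Agent.N996.BP Pool.Agent.N996.FP Module

variable {ι : Type} [Fintype ι] [DecidableEq ι] {H : HData ι}

lemma one_ho {a : (Fin (0 + 1) → ι) → ℚ} (ha : a ∈ BB H (Fin (0 + 1))) {w : Matrix ι ι ℂ}
    (hw : w ∈ ho H) : w *ᵥ (fun i => ((a fun _ => i : ℚ) : ℂ)) = 0 := by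
  have h1 : un (fun i => a fun _ => i) ∈ BB H Unit := by
    have h2 := BB_rei (finOneEquiv : Fin (0 + 1) ≃ Unit) ha
    convert h2 using 1
    funext i
    rw [un, rei]
    congr 1
  have h4 := hw Unit _ h1
  have h0 : ca (un fun i => a fun _ => i) = un fun i => ((a fun _ => i : ℚ) : ℂ) := rfl
  rw [h0, dk_un] at h4
  exact un_inj h4

/-- Vectors as linear maps. -/
def vecL (ι : Type) : ((Fin (0 + 1) → ι) → ℚ) →ₗ[ℚ] (ι → ℚ) where
  toFun a := fun i => a fun _ => i
  map_add' _ _ := rfl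
  map_smul' _ _ := rfl

lemma vecL_inj : Function.Injective (vecL ι) := by
  intro a b h
  funext w
  have h1 := congrFun h (w 0)
  have h2 : w = fun _ => w 0 := by
    funext k
    have hk : k = 0 := by ext; simp
    rw [hk]
  rw [h2]
  exact h1

lemma le_Z0 : finrank ℚ (BB H (Fin (0 + 1))) ≤ finrank ℂ (Z0 H) := by
  classical
  let j : BB H (Fin (0 + 1)) →ₗ[ℚ] (ι → ℚ) := (vecL ι).comp (BB H (Fin (0 + 1))).subtype
  have hj : Function.Injective j := vecL_inj.comp (Subtype.val_injective)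
  let f : (ℂ ⊗[ℚ] BB H (Fin (0 + 1))) →ₗ[ℂ] (ι → ℂ) :=
    (Matrix.mulVecLin (Mm H)) ∘ₗ (TensorProduct.piScalarRight ℚ ℂ ℂ ι).toLinearMap ∘ₗ
      j.baseChange ℂ
  have hf1 : ∀ (z : ℂ) (c : BB H (Fin (0 + 1))), f (z ⊗ₜ[ℚ] c) =
      z • (Mm H *ᵥ fun i => ((c.1 fun _ => i : ℚ) : ℂ)) := by
    intro z c
    change Mm H *ᵥ (TensorProduct.piScalarRight ℚ ℂ ℂ ι (j.baseChange ℂ (z ⊗ₜ[ℚ] c))) = _
    rw [LinearMap.baseChange_tmul, TensorProduct.piScalarRight_apply,
      TensorProduct.piScalarRightHom_tmul, ← Matrix.mulVec_smul]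
    congr 1
    funext i
    rw [Pi.smul_apply, Algebra.smul_def, smul_eq_mul, mul_comm]
    rfl
  have hf : ∀ y, f y ∈ Z0 H := by
    intro y
    induction y using TensorProduct.induction_on with
    | zero => rw [map_zero]; exact Submodule.zero_mem _
    | tmul z c =>
      rw [hf1]
      refine Submodule.smul_mem _ z fun w hw => ?_
      have h1 := one_ho c.2 (mem_hn H |>.1 hw)
      have h2 := congrArg (fun v => Mm H *ᵥ v) h1
      beta_reduce at h2
      rw [Matrix.mulVec_zero, cj, ← Matrix.mulVec_mulVec, ← Matrix.mulVec_mulVec,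
        Matrix.mulVec_mulVec _ (Mm H) (Mi H), Mm_Mi, Matrix.one_mulVec] at h2
      exact h2
    | add a b ha hb => rw [map_add]; exact Submodule.add_mem _ ha hb
  have hinj : Function.Injective f := by
    have h1 : Function.Injective (j.baseChange ℂ) :=
      Module.Flat.lTensor_preserves_injective_linearMap (M := ℂ) j hj
    have h2 : Function.Injective (Matrix.mulVecLin (Mm H)) := by
      intro a b hab
      have h3 := congrArg (fun v => Mi H *ᵥ v) hab
      simp only [Matrix.mulVecLin_apply, Matrix.mulVec_mulVec, Mi_Mm, Matrix.one_mulVec] at h3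
      exact h3
    exact h2.comp ((TensorProduct.piScalarRight ℚ ℂ ℂ ι).injective.comp h1)
  have h3 := LinearMap.finrank_le_finrank_of_injective (f := f.codRestrict (Z0 H) hf)
    (fun a b hab => hinj (congrArg Subtype.val hab))
  rwa [Module.finrank_baseChange] at h3

variable {par : ι → Bool} {X Xi : Matrix ι ι ℚ}

/-- **Generation in bounded degree.** -/
theorem gen_core (hX : Comp H par X Xi) {A : ∀ n : ℕ, Submodule ℚ ((Fin (n + 1) → ι) → ℚ)}
    (hA : ClassSys par X A) {t N w : ℕ}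
    (ht : Fintype.card ι ≤ t + finrank ℚ (BB H (Fin (0 + 1))))
    (hw1 : 1 ≤ w) (hw : H.w ≤ w)
    (h : ((∀ y, IsC H y → cQ y * cQ H.Qir = cQ H.Qir * (cQ y)ᵀ) ∧ N = max 4 t) ∨
      ((∀ y, IsC H y → (cQ y * Ng H (RingEquiv.refl ℂ)).trace = 0) ∧ N = max 4 (t ^ 2 / 4)) ∨
      N = max 4 ((w * t) ^ t))
    (hN : ∀ n, n + 1 ≤ N → BB H (Fin (n + 1)) ≤ A n) (n : ℕ) :
    BB H (Fin (n + 1)) ≤ A n := by
  have h4 : 4 ≤ N := by
    rcases h with ⟨-, h⟩ | ⟨-, h⟩ | h <;> rw [h] <;> exact le_max_left _ _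
  have hN1 : BB H (Fin (1 + 1)) ≤ A 1 := hN 1 (by omega)
  have hR : RFam H (fun n => A n ⊓ BB H (Fin (n + 1))) :=
    rfam_of hX (inf_sys hA (BB_sys hX)) (fun n => inf_le_right) ⟨hN1 (odd_BB hX), odd_BB hX⟩
      ⟨hN1 (form_BB hX), form_BB hX⟩
  have hN' : ∀ n, n + 1 ≤ N → BB H (Fin (n + 1)) ≤ A n ⊓ BB H (Fin (n + 1)) :=
    fun n hn => le_inf (hN n hn) le_rfl
  have ht' : Fintype.card ι ≤ t + finrank ℂ (Z0 H) := ht.trans (Nat.add_le_add_left le_Z0 t)
  have key : BB H (Fin (n + 1)) ≤ A n ⊓ BB H (Fin (n + 1)) := by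
    rcases h with ⟨hc, h⟩ | ⟨hc, h⟩ | h
    · exact tcore_adj hc h4 (h ▸ le_max_right _ _) ht' hR hN' n
    · exact tcore_tr hc h4 (h ▸ le_max_right _ _) ht' hR hN' n
    · exact tcore_gen hw1 hw h4 (h ▸ le_max_right _ _) ht' hR hN' n
  exact key.trans inf_le_left

end Pool.Agent.V8H29.NV
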