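import Pool.Agent.V8H29.NV5

/-!
# Finite determination
-/

set_option autoImplicit false
set_option linter.unusedSectionVars false

namespace Pool.Agent.V8H29.NV

open Matrix Pool.Agent.N996.BP

variable {ι : Type} [Fintype ι] [DecidableEq ι]

section Inv

variable {X Xi : Matrix ι ι ℚ} {A : ∀ n : ℕ, Submodule ℚ ((Fin (n + 1) → ι) → ℚ)}

/-- Composition. -/
lemma comp_mem (hA : PFam X A) {M M' : Matrix ι ι ℚ} (h : two M ∈ A 1) (h' : two M' ∈ A 1) :
    two (M * X * M') ∈ A 1 := by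
  have h1 := hA.tensQ (twoU_mem hA h) (twoU_mem hA h')
  let e : (Unit ⊕ Unit) ⊕ (Unit ⊕ Unit) ≃ Fin (1 + 1) ⊕ (Unit ⊕ Unit) :=
    { toFun := Sum.elim (Sum.elim (fun _ => Sum.inl 0) fun _ => Sum.inr (Sum.inl ()))
        (Sum.elim (fun _ => Sum.inr (Sum.inr ())) fun _ => Sum.inl 1)
      invFun := Sum.elim (fun i => if i = 0 then Sum.inl (Sum.inl ()) else Sum.inr (Sum.inr ()))
        (Sum.elim (fun _ => Sum.inl (Sum.inr ())) fun _ => Sum.inr (Sum.inl ()))
      left_inv := by rintro ((k | k) | (k | k)) <;> simp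
      right_inv := by
        rintro (k | (k | k))
        · fin_cases k <;> simp
        · simp
        · simp }
  have h2 := hA.contr1 (hA.rei e h1)
  rw [← hA.mem_iff]
  convert h2 using 1
  funext w
  rw [contr_unit, two, Matrix.mul_apply, Finset.sum_comm]
  refine Finset.sum_congr rfl fun y _ => ?_
  rw [Matrix.mul_apply, Finset.sum_mul]
  refine Finset.sum_congr rfl fun x _ => ?_
  have h3 : Pool.Agent.N996.BP.rei e (Pool.Agent.N996.BP.tens (twoU M) (twoU M'))
      (Sum.elim w (Sum.elim (fun _ => x) fun _ => y)) = M (w 0) x * M' y (w 1) := rfl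
  rw [h3]
  ring

/-- **The inverse of a form.** -/
theorem inv_mem (hA : PFam X A) (hX : Xi * X = 1) {Q Qi : Matrix ι ι ℚ} (hQ : Q * Qi = 1)
    (h : two (Xi * Q * Xi) ∈ A 1) : two Qi ∈ A 1 := by
  obtain ⟨z, hz⟩ : ∃ z, z = Xi * Q := ⟨_, rfl⟩
  have hzi : z * (Qi * X) = 1 := by
    calc z * (Qi * X) = Xi * (Q * Qi) * X := by rw [hz]; simp only [Matrix.mul_assoc]
      _ = 1 := by rw [hQ, Matrix.mul_one, hX]
  have hzi' : (Qi * X) * z = 1 := mul_eq_one_comm.1 hzi
  rw [← hz] at h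
  have hpow : ∀ k : ℕ, two (z ^ (k + 1) * Xi) ∈ A 1 := by
    intro k
    induction k with
    | zero => simpa using h
    | succ k ih =>
      have h1 := comp_mem hA h ih
      have h2 : z * Xi * X * (z ^ (k + 1) * Xi) = z ^ (k + 1 + 1) * Xi := by
        calc z * Xi * X * (z ^ (k + 1) * Xi) = z * (Xi * X) * z ^ (k + 1) * Xi := by
              simp only [Matrix.mul_assoc]
          _ = _ := by rw [hX, Matrix.mul_one, pow_succ' z (k + 1)]
      rwa [h2] at h1
  have htwo_add : ∀ M M' : Matrix ι ι ℚ, two (M + M') = two M + two M' := fun M M' => rfl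
  have htwo_smul : ∀ (c : ℚ) (M : Matrix ι ι ℚ), two (c • M) = c • two M := fun c M => rfl
  have hpoly : ∀ r : Polynomial ℚ, two (z * Polynomial.aeval z r * Xi) ∈ A 1 := by
    intro r
    induction r using Polynomial.induction_on' with
    | add p q hp hq =>
      rw [map_add, Matrix.mul_add, Matrix.add_mul, htwo_add]
      exact Submodule.add_mem _ hp hq
    | monomial k c =>
      rw [Polynomial.aeval_monomial, ← Algebra.smul_def, Matrix.mul_smul, Matrix.smul_mul,
        htwo_smul, ← pow_succ']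
      exact Submodule.smul_mem _ _ (hpow k)
  obtain ⟨c, hc⟩ : ∃ c, c = z.charpoly.coeff 0 := ⟨_, rfl⟩
  have hc0 : c ≠ 0 := by
    have h1 := Matrix.det_eq_sign_charpoly_coeff z
    intro h0
    rw [← hc, h0, mul_zero] at h1
    have h2 := congrArg Matrix.det hzi
    rw [Matrix.det_mul, h1, zero_mul, Matrix.det_one] at h2
    exact zero_ne_one h2
  obtain ⟨g, hg⟩ : ∃ g, g = Polynomial.aeval z z.charpoly.divX := ⟨_, rfl⟩
  have hCH : g * z + c • (1 : Matrix ι ι ℚ) = 0 := by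
    have h1 := Matrix.aeval_self_charpoly z
    rw [← Polynomial.divX_mul_X_add z.charpoly, map_add, map_mul, Polynomial.aeval_X,
      Polynomial.aeval_C, Algebra.algebraMap_eq_smul_one, ← hg, ← hc] at h1
    exact h1
  have hg1 : g = -(c • (Qi * X)) := by
    have h1 := congrArg (fun y => y * (Qi * X)) hCH
    beta_reduce at h1
    rw [Matrix.add_mul, Matrix.mul_assoc, hzi, Matrix.mul_one, Matrix.smul_mul, Matrix.one_mul,
      Matrix.zero_mul] at h1
    exact eq_neg_of_add_eq_zero_left h1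
  have key := hpoly (z.charpoly.divX * z.charpoly.divX)
  rw [map_mul, ← hg] at key
  have h5 : z * (g * g) * Xi = (c * c) • Qi := by
    calc z * (g * g) * Xi = (c * c) • (z * (Qi * X) * (Qi * X) * Xi) := by
          rw [hg1]
          simp only [Matrix.neg_mul, Matrix.mul_neg, Matrix.smul_mul, Matrix.mul_smul,
            Matrix.mul_assoc, smul_neg, neg_neg, smul_smul]
      _ = (c * c) • (Qi * (X * Xi)) := by
          rw [hzi, Matrix.one_mul, Matrix.mul_assoc]
      _ = _ := by rw [mul_eq_one_comm.1 hX, Matrix.mul_one]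
  rw [h5, htwo_smul] at key
  have h6 := Submodule.smul_mem (A 1) (c * c)⁻¹ key
  rwa [smul_smul, inv_mul_cancel₀ (mul_ne_zero hc0 hc0), one_smul] at h6

end Inv

variable {H : HData ι} {A : ∀ n : ℕ, Submodule ℚ ((Fin (n + 1) → ι) → ℚ)}

lemma uniQ' (hA : RFam H A) (ho : uni ℚ H.D.o Unit ∈ AQ A Unit)
    (κ : Type) [Fintype κ] [DecidableEq κ] : uni ℚ H.D.o κ ∈ AQ A κ := by
  refine fin_ind (P := fun κ _ _ => uni ℚ H.D.o κ ∈ AQ A κ) ?_ ?_ ?_ κ
  · intro κ l _ _ _ _ e ih
    have h1 := hA.rei e ih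
    convert h1 using 1
    ext i
    rw [uni, Pool.Agent.N996.BP.rei, uni]
    exact (Equiv.prod_comp e fun k => if i k = H.D.o then (1 : ℚ) else 0).symm
  · exact hA.empty _
  · intro κ _ _ ih
    have h3 := hA.tensQ ih ho
    convert h3 using 1
    ext i
    rw [uni, Fintype.prod_sum_type]
    rfl

lemma invQ' (hA : RFam H A) (hi : arr (kp Unit H.Qir) ∈ AQ A (Unit ⊕ Unit))
    (κ : Type) [Fintype κ] [DecidableEq κ] : arr (kp κ H.Qir) ∈ AQ A (κ ⊕ κ) := by
  refine fin_ind (P := fun κ _ _ => arr (kp κ H.Qir) ∈ AQ A (κ ⊕ κ)) ?_ ?_ ?_ κ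
  · intro κ l _ _ _ _ e ih
    have h1 := hA.rei (Equiv.sumCongr e e) ih
    convert h1 using 1
    ext i
    rw [arr, Pool.Agent.N996.BP.rei, arr, ← kp_reindex e]
    rfl
  · exact hA.empty _
  · intro κ _ _ ih
    let e : (κ ⊕ κ) ⊕ (Unit ⊕ Unit) ≃ (κ ⊕ Unit) ⊕ (κ ⊕ Unit) :=
      { toFun := Sum.elim (Sum.elim (fun k => Sum.inl (Sum.inl k)) fun k => Sum.inr (Sum.inl k))
          (Sum.elim (fun k => Sum.inl (Sum.inr k)) fun k => Sum.inr (Sum.inr k))
        invFun := Sum.elim (Sum.elim (fun k => Sum.inl (Sum.inl k)) fun k => Sum.inr (Sum.inl k))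
          (Sum.elim (fun k => Sum.inl (Sum.inr k)) fun k => Sum.inr (Sum.inr k))
        left_inv := by rintro ((k | k) | (k | k)) <;> rfl
        right_inv := by rintro ((k | k) | (k | k)) <;> rfl }
    have h3 := hA.rei e (hA.tensQ ih hi)
    convert h3 using 1
    ext i
    obtain ⟨i₁, i₂, rfl⟩ : ∃ i₁ i₂, i = Sum.elim i₁ i₂ := ⟨i ∘ Sum.inl, i ∘ Sum.inr, by simp⟩
    rw [arr_elim]
    have h4 : i₁ = Sum.elim (i₁ ∘ Sum.inl) (i₁ ∘ Sum.inr) := by simp
    have h5 : i₂ = Sum.elim (i₂ ∘ Sum.inl) (i₂ ∘ Sum.inr) := by simp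
    conv_lhs => rw [h4, h5]
    rw [kp_sum]
    rfl

/-- The real span is a family. -/
lemma isFam' (hA : RFam H A) (ho : uni ℚ H.D.o Unit ∈ AQ A Unit)
    (hi : arr (kp Unit H.Qir) ∈ AQ A (Unit ⊕ Unit)) :
    IsFam H.D (fun κ _ => AR A κ) where
  reiM κ l _ _ e a ha := by
    refine AR_ind (P := fun a => Pool.Agent.N996.BP.rei e a ∈ AR A l) ?_ ?_ ha
    · intro a ha c
      exact Submodule.smul_mem _ c (AR_of (hA.rei e ha))
    · intro x y hx hy
      exact Submodule.add_mem _ hx hy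
  tensM κ l _ _ a b ha hb := by
    refine AR_ind (P := fun a => Pool.Agent.N996.BP.tens a b ∈ AR A (κ ⊕ l)) ?_ ?_ ha
    · intro a ha c
      refine AR_ind (P := fun b => Pool.Agent.N996.BP.tens (c • fun i => (a i : ℝ)) b ∈
        AR A (κ ⊕ l)) ?_ ?_ hb
      · intro b hb d
        have h1 : Pool.Agent.N996.BP.tens (c • fun i => (a i : ℝ)) (d • fun i => (b i : ℝ)) =
            (c * d) • fun i => ((Pool.Agent.N996.BP.tens a b) i : ℝ) := by
          ext i
          simp only [Pool.Agent.N996.BP.tens, Pi.smul_apply, smul_eq_mul, Rat.cast_mul]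
          ring
        rw [h1]
        exact Submodule.smul_mem _ _ (AR_of (hA.tensQ ha hb))
      · intro x y hx hy
        have h1 : Pool.Agent.N996.BP.tens (c • fun i => (a i : ℝ)) (x + y) =
            Pool.Agent.N996.BP.tens (c • fun i => (a i : ℝ)) x +
              Pool.Agent.N996.BP.tens (c • fun i => (a i : ℝ)) y := by
          ext i
          simp only [Pool.Agent.N996.BP.tens, Pi.add_apply]
          ring
        rw [h1]
        exact Submodule.add_mem _ hx hy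
    · intro x y hx hy
      have h1 : Pool.Agent.N996.BP.tens (x + y) b = Pool.Agent.N996.BP.tens x b +
          Pool.Agent.N996.BP.tens y b := by
        ext i
        simp only [Pool.Agent.N996.BP.tens, Pi.add_apply]
        ring
      rw [h1]
      exact Submodule.add_mem _ hx hy
  contrM κ l _ _ _ _ a ha := by
    refine AR_ind (P := fun a => Pool.Agent.N996.BP.contr H.D.Q a ∈ AR A κ) ?_ ?_ ha
    · intro a ha c
      rw [RFam.contr_cast]
      exact Submodule.smul_mem _ _ (AR_of (hA.contrQ ha))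
    · intro x y hx hy
      have h1 : Pool.Agent.N996.BP.contr H.D.Q (x + y) = Pool.Agent.N996.BP.contr H.D.Q x +
          Pool.Agent.N996.BP.contr H.D.Q y := by
        ext i
        simp only [Pool.Agent.N996.BP.contr, Pi.add_apply, mul_add, Finset.sum_add_distrib]
      rw [h1]
      exact Submodule.add_mem _ hx hy
  fix κ _ _ a ha := by
    refine AR_ind (P := fun a => kp κ H.D.C *ᵥ a = a) ?_ ?_ ha
    · intro a ha c
      rw [Matrix.mulVec_smul]
      congr 1
      have h1 := hA.leQ ha Complex.I Complex.I_ne_zero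
      rw [← cR_C, kp_cR] at h1
      ext i
      have h2 := congrFun h1 i
      rw [Matrix.mulVec, dotProduct] at h2 ⊢
      have h3 : ((∑ j, kp κ H.D.C i j * (a j : ℝ) : ℝ) : ℂ) = (((a i : ℝ)) : ℂ) := by
        push_cast
        exact h2
      exact_mod_cast h3
    · intro x y hx hy
      rw [Matrix.mulVec_add, hx, hy]
  invM κ _ _ := by
    have h1 := AR_of (invQ' hA hi κ)
    convert h1 using 1
    ext i
    rw [arr, arr, kp_apply, kp_apply, Rat.cast_prod, H.hQir]
    rfl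
  uniM κ _ := by
    classical
    have h1 := AR_of (uniQ' hA ho κ)
    convert h1 using 1
    ext i
    rw [uni, uni, Rat.cast_prod]
    refine Finset.prod_congr rfl fun k _ => ?_
    split_ifs <;> simp

/-- **Tannakian membership.** -/
theorem mem_of (hA : RFam H A) (ho : uni ℚ H.D.o Unit ∈ AQ A Unit)
    (hi : arr (kp Unit H.Qir) ∈ AQ A (Unit ⊕ Unit)) {n : ℕ} {h : (Fin (n + 1) → ι) → ℚ}
    (hh : h ∈ BB H (Fin (n + 1)))
    (hg : ∀ g : Matrix ι ι ℂ, (∀ (m : ℕ), ∀ a ∈ A m, kp (Fin (m + 1)) g *ᵥ ca a = ca a) →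
      kp (Fin (n + 1)) g *ᵥ ca h = ca h) : h ∈ A n := by
  classical
  have hfam := isFam' hA ho hi
  have h1 : (fun i => (h i : ℝ)) ∈ AR A (Fin (n + 1)) := by
    refine mem_of_fixed (κ := Fin (n + 1)) hfam _ ?_ ?_
    · have h1 := hh Complex.I Complex.I_ne_zero
      rw [← cR_C, kp_cR] at h1
      ext i
      have h2 := congrFun h1 i
      rw [Matrix.mulVec, dotProduct] at h2 ⊢
      have h3 : ((∑ j, kp (Fin (n + 1)) H.D.C i j * (h j : ℝ) : ℝ) : ℂ) = (((h i : ℝ)) : ℂ) := by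
        push_cast
        exact h2
      exact_mod_cast h3
    · intro g hg'
      have h3 := hg g fun m a ha => by
        have h4 := hg' (Fin (m + 1)) _ (AR_of (hA.mem_iff.2 ha))
        simp only [Complex.ofReal_ratCast] at h4
        exact h4
      simp only [Complex.ofReal_ratCast]
      exact h3
  rw [← hA.mem_iff]
  exact descent _ h1

/-- The equations of the stabiliser. -/
noncomputable def eqn {n : ℕ} (a : (Fin (n + 1) → ι) → ℚ) (i : Fin (n + 1) → ι) :
    MvPolynomial (ι × ι) ℂ :=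
  ∑ j : Fin (n + 1) → ι, (∏ k, MvPolynomial.X (i k, j k)) * MvPolynomial.C ((a j : ℚ) : ℂ) -
    MvPolynomial.C ((a i : ℚ) : ℂ)

lemma eval_eqn {n : ℕ} (a : (Fin (n + 1) → ι) → ℚ) (i : Fin (n + 1) → ι) (g : Matrix ι ι ℂ) :
    MvPolynomial.eval (fun p : ι × ι => g p.1 p.2) (eqn a i) =
      (kp (Fin (n + 1)) g *ᵥ ca a) i - ca a i := by
  rw [eqn, map_sub, map_sum, MvPolynomial.eval_C, Matrix.mulVec, dotProduct]
  congr 1
  refine Finset.sum_congr rfl fun j _ => ?_
  rw [map_mul, map_prod, MvPolynomial.eval_C, kp_apply]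
  simp only [MvPolynomial.eval_X]
  rfl

/-- **The stabiliser is determined by finitely many degrees.** -/
theorem exists_bound (A : ∀ n : ℕ, Submodule ℚ ((Fin (n + 1) → ι) → ℚ)) : ∃ M : ℕ,
    ∀ g : Matrix ι ι ℂ, (∀ n, n + 1 ≤ M → ∀ a ∈ A n, kp (Fin (n + 1)) g *ᵥ ca a = ca a) →
      ∀ n, ∀ a ∈ A n, kp (Fin (n + 1)) g *ᵥ ca a = ca a := by
  let I : ℕ →o Ideal (MvPolynomial (ι × ι) ℂ) :=
    { toFun := fun M => Ideal.span {p | ∃ (n : ℕ) (a : (Fin (n + 1) → ι) → ℚ)
        (i : Fin (n + 1) → ι), n + 1 ≤ M ∧ a ∈ A n ∧ p = eqn a i}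
      monotone' := by
        intro M M' hMM
        refine Ideal.span_mono ?_
        rintro p ⟨n, a, i, h1, h2, h3⟩
        exact ⟨n, a, i, h1.trans hMM, h2, h3⟩ }
  obtain ⟨M, hM⟩ := monotone_stabilizes_iff_noetherian.2
    (inferInstance : IsNoetherian (MvPolynomial (ι × ι) ℂ) (MvPolynomial (ι × ι) ℂ)) I
  refine ⟨M, fun g hg n a ha => ?_⟩
  have h1 : I M ≤ RingHom.ker (MvPolynomial.eval (fun p : ι × ι => g p.1 p.2)) := by
    refine Ideal.span_le.2 ?_
    rintro p ⟨n, a, i, h1, h2, rfl⟩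
    change MvPolynomial.eval (fun p : ι × ι => g p.1 p.2) (eqn a i) = 0
    rw [eval_eqn, hg n h1 a h2, sub_self]
  funext i
  have h2 : eqn a i ∈ I (max M (n + 1)) :=
    Ideal.subset_span ⟨n, a, i, le_max_right _ _, ha, rfl⟩
  rw [← hM _ (le_max_left _ _)] at h2
  have h3 : MvPolynomial.eval (fun p : ι × ι => g p.1 p.2) (eqn a i) = 0 := h1 h2
  rw [eval_eqn] at h3
  exact sub_eq_zero.1 h3

variable {par : ι → Bool} {X Xi : Matrix ι ι ℚ}

/-- The unit. -/
def unitA (o : ι) : (Fin (0 + 1) → ι) → ℚ := fun w => if w 0 = o then 1 else 0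

/-- **Finite determination.** -/
theorem det_core (hX : Comp H par X Xi) (hA : ClassSys par X A)
    (hle : ∀ n, A n ≤ BB H (Fin (n + 1))) (ho : unitA H.D.o ∈ A 0)
    (h1 : two (Xi * oddM par) ∈ A 1) (h2 : two (Xi * H.Qr * Xi) ∈ A 1) :
    ∃ M : ℕ, ∀ B : ∀ n : ℕ, Submodule ℚ ((Fin (n + 1) → ι) → ℚ), ClassSys par X B →
      (∀ n, n + 1 ≤ M → A n ≤ B n) → ∀ n, A n ≤ B n := by
  classical
  obtain ⟨M, hM⟩ := exists_bound A
  refine ⟨max M 2, fun B hB hN n h hh => ?_⟩
  have hN0 : A 0 ≤ B 0 := hN 0 ((by omega : 0 + 1 ≤ 2).trans (le_max_right _ _))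
  have hN1 : A 1 ≤ B 1 := hN 1 (le_max_right _ _)
  have hC : ClassSys par X (fun n => A n ⊓ B n) := inf_sys hA hB
  have h1' : two (Xi * oddM par) ∈ A 1 ⊓ B 1 := ⟨h1, hN1 h1⟩
  have h2' : two (Xi * H.Qr * Xi) ∈ A 1 ⊓ B 1 := ⟨h2, hN1 h2⟩
  have hR : RFam H (fun n => A n ⊓ B n) :=
    rfam_of hX hC (fun n => inf_le_left.trans (hle n)) h1' h2'
  have hP : PFam X (fun n => A n ⊓ B n) := pfam_of hC hX.even (odd_eq hX) h1'
  have hi : arr (kp Unit H.Qir) ∈ AQ (fun n => A n ⊓ B n) (Unit ⊕ Unit) := by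
    have h3 := twoU_mem hP (inv_mem hP (Xi_X hX) H.Qr_Qir h2')
    convert h3 using 1
    funext w
    rw [arr, kp_apply, Fintype.prod_unique]
    rfl
  have ho' : uni ℚ H.D.o Unit ∈ AQ (fun n => A n ⊓ B n) Unit := by
    refine hR.of (finOneEquiv.symm : Unit ≃ Fin (0 + 1)) ?_
    have h3 : Pool.Agent.N996.BP.rei (finOneEquiv.symm : Unit ≃ Fin (0 + 1))
        (uni ℚ H.D.o Unit) = unitA H.D.o := by
      funext w
      rw [Pool.Agent.N996.BP.rei, uni, Fintype.prod_unique, unitA]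
      rfl
    rw [h3]
    exact ⟨ho, hN0 ho⟩
  have key : h ∈ A n ⊓ B n := by
    refine mem_of hR ho' hi (hle n hh) fun g hg => ?_
    refine hM g (fun m hm a ha => hg m a ⟨ha, hN m (hm.trans (le_max_left _ _)) ha⟩) n h hh
  exact key.2

end Pool.Agent.V8H29.NV
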